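import Mathlib
import Pool.Agent.Work.MP_9d1ffa_al.WL.En
import Pool.Agent.Work.MP_9d1ffa_al.WL.LtB
import Pool.Agent.Work.MP_9d1ffa_al.GN.Cl

-- merged part: Pool.Agent.Work.MP_9d1ffa_al.Gb.Lin
section
/-! Colour reduction and elementary growth. -/

namespace Pool.Agent.Work.MP_9d1ffa_al.Gb

open Classical in
theorem code_sets (α : Type) [Fintype α] (Δ : ℕ) :
    ∃ cd : Set α → ℕ, (∀ S, cd S < (Fintype.card α + 1) ^ Δ) ∧
      ∀ S S' : Set α, S.encard ≤ Δ → S'.encard ≤ Δ → cd S = cd S' → S = S' := by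
  have h1 : ∀ S : Set α, ∃ f : Fin Δ → Option α, S.encard ≤ Δ → S = {a | ∃ i, f i = some a} := by
    intro S
    by_cases h : S.encard ≤ Δ
    · have hf : S.Finite := S.toFinite
      have hc : hf.toFinset.card ≤ Δ := by
        rw [hf.encard_eq_coe_toFinset_card] at h
        exact_mod_cast h
      refine ⟨fun i => hf.toFinset.toList[i.1]?, fun _ => ?_⟩
      ext a
      simp only [Set.mem_ofPred_eq]
      rw [← hf.mem_toFinset, ← Finset.mem_toList, List.mem_iff_getElem?]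
      constructor
      · rintro ⟨i, hi⟩
        have : i < hf.toFinset.toList.length := (List.getElem?_eq_some_iff.1 hi).1
        rw [Finset.length_toList] at this
        exact ⟨⟨i, by omega⟩, hi⟩
      · rintro ⟨i, hi⟩
        exact ⟨i, hi⟩
    · exact ⟨fun _ => none, fun k => absurd k h⟩
  choose f hf using h1
  refine ⟨fun S => (Fintype.equivFin (Fin Δ → Option α) (f S)).1, fun S => ?_, fun S S' a b e => ?_⟩
  · have := (Fintype.equivFin (Fin Δ → Option α) (f S)).2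
    simpa using this
  · have k : f S = f S' := (Fintype.equivFin _).injective (Fin.ext e)
    rw [hf S a, hf S' b, k]

theorem linial (β Δ : ℕ) : ∃ F : ℕ → Set ℕ → ℕ, (∀ x X, F x X < (2 * β + 1) ^ Δ) ∧
    ∀ (x y : ℕ) (X X' : Set ℕ), x < 2 ^ β → y < 2 ^ β → x ≠ y → y ∈ X → X.encard ≤ Δ →
      X'.encard ≤ Δ → F x X ≠ F y X' := by
  classical
  obtain ⟨cd, c1, c2⟩ := code_sets (Fin β × Bool) Δ
  have h1 : ∀ x y : ℕ, ∃ o : Option (Fin β), x < 2 ^ β → y < 2 ^ β → x ≠ y →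
      ∃ i, o = some i ∧ x.testBit i ≠ y.testBit i := by
    intro x y
    by_cases h : x < 2 ^ β ∧ y < 2 ^ β ∧ x ≠ y
    · obtain ⟨i, hi⟩ : ∃ i, x.testBit i ≠ y.testBit i := by
        by_contra k
        push Not at k
        exact h.2.2 (Nat.eq_of_testBit_eq k)
      have hb : i < β := by
        by_contra k
        have k1 : 2 ^ β ≤ 2 ^ i := Nat.pow_le_pow_right (by norm_num) (by omega)
        rw [Nat.testBit_lt_two_pow (h.1.trans_le k1), Nat.testBit_lt_two_pow (h.2.1.trans_le k1)] at hi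
        exact hi rfl
      exact ⟨some ⟨i, hb⟩, fun _ _ _ => ⟨⟨i, hb⟩, rfl, hi⟩⟩
    · exact ⟨none, fun a b c => absurd ⟨a, b, c⟩ h⟩
  choose o ho using h1
  let S : ℕ → Set ℕ → Set (Fin β × Bool) := fun x X =>
    {p | (∃ y ∈ X, o x y = some p.1) ∧ p.2 = x.testBit p.1}
  have hS : ∀ x X, (S x X).encard ≤ X.encard := fun x X => by
    choose! g hg using fun p : Fin β × Bool => fun h : p ∈ S x X => h.1
    refine Set.encard_le_encard_of_injOn (f := g) (fun p hp => (hg p hp).1) fun p hp p' hp' e => ?_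
    have k : p.1 = p'.1 := Option.some_injective _ (by rw [← (hg p hp).2, ← (hg p' hp').2, e])
    exact Prod.ext k (by rw [hp.2, hp'.2, k])
  refine ⟨fun x X => cd (S x X), fun x X => by simpa [mul_comm] using c1 (S x X),
    fun x y X X' a b c d e e' k => ?_⟩
  have k1 := c2 _ _ ((hS x X).trans e) ((hS y X').trans e') k
  obtain ⟨i, h1, h2⟩ := ho x y a b c
  have k2 : (i, x.testBit i) ∈ S x X := ⟨⟨y, d, h1⟩, rfl⟩
  rw [k1] at k2
  exact h2 k2.2

/-- elementary growth -/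
def El (f : ℕ → ℕ) : Prop := ∃ h : ℕ, ∀ x, f x ≤ (fun t => 2 ^ t)^[h] x

theorem tw_mono (h : ℕ) : Monotone (fun t : ℕ => 2 ^ t)^[h] :=
  Monotone.iterate (fun _ _ k => Nat.pow_le_pow_right (by norm_num) k) h

theorem tw_le (h x : ℕ) : x + h ≤ (fun t : ℕ => 2 ^ t)^[h] x := by
  induction h with
  | zero => simp
  | succ h ih =>
    rw [Function.iterate_succ_apply']
    have := Nat.lt_two_pow_self (n := (fun t : ℕ => 2 ^ t)^[h] x)
    omega

theorem tw_h {h h' : ℕ} (k : h ≤ h') (x : ℕ) :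
    (fun t : ℕ => 2 ^ t)^[h] x ≤ (fun t : ℕ => 2 ^ t)^[h'] x := by
  obtain ⟨d, rfl⟩ := Nat.exists_eq_add_of_le k
  rw [add_comm, Function.iterate_add_apply]
  exact le_trans (Nat.le_add_right _ d) (tw_le d _)

theorem El.mono {f g : ℕ → ℕ} (h : El g) (k : ∀ x, f x ≤ g x) : El f :=
  h.imp fun _ e x => (k x).trans (e x)

theorem El.id : El fun x => x := ⟨0, fun _ => le_rfl⟩

theorem El.const (c : ℕ) : El fun _ => c := ⟨c, fun x => le_trans (Nat.le_add_left _ _) (tw_le c x)⟩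

theorem El.comp {f g : ℕ → ℕ} (hf : El f) (hg : El g) : El fun x => f (g x) := by
  obtain ⟨a, ha⟩ := hf
  obtain ⟨b, hb⟩ := hg
  exact ⟨a + b, fun x => by rw [Function.iterate_add_apply]; exact (ha _).trans (tw_mono a (hb x))⟩

theorem El.two_pow {f : ℕ → ℕ} (hf : El f) : El fun x => 2 ^ f x :=
  El.comp (f := fun t => 2 ^ t) ⟨1, fun _ => le_rfl⟩ hf

theorem El.max {f g : ℕ → ℕ} (hf : El f) (hg : El g) : El fun x => max (f x) (g x) := by
  obtain ⟨a, ha⟩ := hf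
  obtain ⟨b, hb⟩ := hg
  exact ⟨a + b, fun x => max_le ((ha x).trans (tw_h (by omega) x)) ((hb x).trans (tw_h (by omega) x))⟩

theorem El.add {f g : ℕ → ℕ} (hf : El f) (hg : El g) : El fun x => f x + g x := by
  refine (hf.max hg).two_pow.mono fun x => ?_
  have k : ∀ t : ℕ, 2 * t ≤ 2 ^ t := fun t => by
    cases t with
    | zero => simp
    | succ t => have := Nat.lt_two_pow_self (n := t); rw [pow_succ]; omega
  have := k (Max.max (f x) (g x))
  have := le_max_left (f x) (g x)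
  have := le_max_right (f x) (g x)
  omega

theorem El.mul {f g : ℕ → ℕ} (hf : El f) (hg : El g) : El fun x => f x * g x := by
  refine (hf.add hg).two_pow.mono fun x => ?_
  rw [pow_add]
  exact Nat.mul_le_mul Nat.lt_two_pow_self.le Nat.lt_two_pow_self.le

theorem El.pow {f g : ℕ → ℕ} (hf : El f) (hg : El g) : El fun x => f x ^ g x := by
  refine (hf.mul hg).two_pow.mono fun x => ?_
  rw [pow_mul]
  exact Nat.pow_le_pow_left Nat.lt_two_pow_self.le _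

theorem exists_beta (Δ : ℕ) : ∃ β : ℕ → ℕ, (∀ k, (2 * β (k + 1) + 1) ^ Δ ≤ 2 ^ β k) ∧
    ∀ f : ℕ → ℕ, El f → ∃ r, 1 ≤ r ∧ f r ≤ 2 ^ β r := by
  obtain ⟨γ, g0, g1⟩ : ∃ γ : ℕ → ℕ, γ 0 = 3 * (Δ + 3) ∧ ∀ k, γ (k + 1) = 2 ^ (γ k - (Δ + 3)) :=
    ⟨fun k => Nat.rec (3 * (Δ + 3)) (fun _ t => 2 ^ (t - (Δ + 3))) k, rfl, fun _ => rfl⟩
  have k0 : ∀ t : ℕ, 2 * t ≤ 2 ^ t := fun t => by
    cases t with
    | zero => simp
    | succ t => have := Nat.lt_two_pow_self (n := t); rw [pow_succ]; omega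
  have k1 : ∀ k, 3 * (Δ + 3) + 3 * k ≤ γ k := fun k => by
    induction k with
    | zero => omega
    | succ k ih => have := k0 (γ k - (Δ + 3)); rw [g1]; omega
  have k2 : ∀ k, 2 ^ γ k ≤ γ (k + 2) := fun k => by
    have a := k0 (γ k - (Δ + 3))
    have b := k1 k
    rw [g1 (k + 1)]
    refine Nat.pow_le_pow_right (by norm_num) ?_
    rw [g1]
    omega
  have k3 : ∀ h j, (fun t : ℕ => 2 ^ t)^[h] (γ j) ≤ γ (j + 2 * h) := fun h j => by
    induction h with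
    | zero => simp
    | succ h ih =>
      rw [Function.iterate_succ_apply']
      exact (Nat.pow_le_pow_right (by norm_num) ih).trans (k2 (j + 2 * h))
  refine ⟨fun k => (Δ + 1) * γ k, fun k => ?_, fun f ⟨h, hf⟩ => ⟨h + 1 + 2 * h, by omega, ?_⟩⟩
  · have a : 2 * ((Δ + 1) * γ (k + 1)) + 1 ≤ 2 ^ γ k := by
      have b := k1 k
      have c : 2 ^ γ k = 4 * (2 ^ (Δ + 1) * γ (k + 1)) := by
        rw [g1, ← pow_add, show 4 = 2 ^ 2 by norm_num, ← pow_add]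
        congr 1
        omega
      have d : (Δ + 1) * γ (k + 1) ≤ 2 ^ (Δ + 1) * γ (k + 1) :=
        Nat.mul_le_mul_right _ Nat.lt_two_pow_self.le
      have e : 1 ≤ (Δ + 1) * γ (k + 1) := Nat.mul_pos (by omega) (by have := k1 (k + 1); omega)
      omega
    refine (Nat.pow_le_pow_left a Δ).trans ?_
    rw [← pow_mul]
    exact Nat.pow_le_pow_right (by norm_num) (by nlinarith)
  · refine (hf _).trans ((tw_mono h (show _ ≤ γ (h + 1) by have := k1 (h + 1); omega)).trans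
      ((k3 h (h + 1)).trans (le_trans ?_ Nat.lt_two_pow_self.le)))
    exact Nat.le_mul_of_pos_left _ (by omega)

end Pool.Agent.Work.MP_9d1ffa_al.Gb
end

-- merged part: Pool.Agent.Work.MP_9d1ffa_al.Ga.Ge
section
/-! The interface: spaces with straight paths, samples and compact pieces. -/

namespace Pool.Agent.Work.MP_9d1ffa_al.Ga

open Set Gb

/-- the steps of a path are at most `η` -/
def Stp {X : Type} [MetricSpace X] (W : ℕ) (η : ℝ) (p : ℕ → X) : Prop :=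
  ∀ i ≤ W, ∀ j ≤ W, dist (p i) (p j) ≤ |(i : ℝ) - j| * η

/-- compact pieces -/
structure ZB {G X Sm : Type} [Group G] [MetricSpace X] [MulAction G X] (o : X)
    (Str : ℕ → (ℕ → X) → Prop) (mg : ℕ → Sm → X → ℝ) (Fs : ℕ → ℕ) (S : Finset G) (κ Y : ℕ)
    (Z : Set X) (r : X → X) : Prop where
  cpt : IsCompact Z
  base : o ∈ Z
  ball : ∀ y ∈ Z, dist y o ≤ (Y ^ 3 : ℕ)
  seg : ∃ sg : Z → Z → unitInterval → Z,
    (Continuous fun p : Z × Z × unitInterval => sg p.1 p.2.1 p.2.2) ∧ (∀ x y, sg x y 0 = x) ∧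
      (∀ x y, sg x y 1 = y) ∧ ∀ (x y : Z) (a : unitInterval) (c : X) (ρ : ℝ), dist x.1 c ≤ ρ →
        dist y.1 c ≤ ρ → dist (sg x y a).1 c ≤ ρ
  cont : Continuous r
  node : ∀ g ∈ S, ∀ y ∈ Z, ∀ p, Str (Y ^ 4) p → p 0 = g • y → p (Y ^ 4) = o → ∀ l,
    (κ + 1) * Y ≤ l → l ≤ Y ^ 4 → r (p l) ∈ Z ∧ dist (r (p l)) (p l) ≤ 1 / Y
  lab : ∀ Q, 0 < Q → {c | ∃ y ∈ Z, ∃ p, Str (Y ^ 4) p ∧ p 0 = y ∧ p (Y ^ 4) = o ∧
    ∃ j ≤ Y ^ 4, 1 / (Y : ℝ) < mg Q c (p j)}.encard ≤ Fs Q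

/-- `z` is close to a point at the start of the translate of the path from `y` to `o` -/
def RelP {G X : Type} [Group G] [MetricSpace X] [MulAction G X] (o : X)
    (Str : ℕ → (ℕ → X) → Prop) (κ Y : ℕ) (g : G) (y z : X) : Prop :=
  ∃ s ≤ 2 * ((κ + 1) * Y), ∃ p, Str (Y ^ 4) p ∧ p 0 = y ∧ p (Y ^ 4) = o ∧ dist z (g • p s) ≤ 6 / Y

/-- compact spaces with an action up to homotopy that follows the paths to the base point -/
structure ZM {G X Sm : Type} [Group G] [MetricSpace X] [MulAction G X] (o : X)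
    (Str : ℕ → (ℕ → X) → Prop) (mg : ℕ → Sm → X → ℝ) (N : ℕ) (Fs : ℕ → ℕ) (S : Finset G)
    (κ Y : ℕ) (K : Set X) : Prop where
  ball : ∀ y ∈ K, dist y o ≤ (Y ^ 3 : ℕ)
  lab : ∀ Q, 0 < Q → {c | ∃ y ∈ K, ∃ p, Str (Y ^ 4) p ∧ p 0 = y ∧ p (Y ^ 4) = o ∧
    ∃ j ≤ Y ^ 4, 1 / (Y : ℝ) < mg Q c (p j)}.encard ≤ Fs Q
  maps : ∃ (Z : Type) (_ : MetricSpace Z) (pz : Z → X) (φ : G → Z → Z)
    (Hm : G → G → Z → unitInterval → Z), WL.Grid N Z ∧ Continuous pz ∧ (∀ z, pz z ∈ K) ∧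
    (∀ g ∈ S, Continuous (φ g) ∧ ∀ y, RelP o Str κ Y g (pz y) (pz (φ g y))) ∧
    ∀ g ∈ S, ∀ h ∈ S, g * h ∈ S → (Continuous fun p : Z × unitInterval => Hm g h p.1 p.2) ∧
      (∀ y, Hm g h y 0 = φ g (φ h y)) ∧ (∀ y, Hm g h y 1 = φ (g * h) y) ∧
      ∀ y a, RelP o Str κ Y (g * h) (pz y) (pz (Hm g h y a))

/-- the geometric data -/
structure Geo (G X Sm : Type) [Group G] [MetricSpace X] [MulAction G X] [MulAction G Sm] where
  n : ℕ
  D : ℕ
  o : X
  Str : ℕ → (ℕ → X) → Prop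
  mg : ℕ → Sm → X → ℝ
  Cs : ℕ → ℕ → ℕ
  Us : ℕ → ℕ → ℕ
  iso : ∀ (g : G) (x y : X), dist (g • x) (g • y) = dist x y
  sub : ∀ {W W' i : ℕ} {p : ℕ → X}, Str W p → i + W' ≤ W → Str W' fun j => p (i + j)
  smul : ∀ {W : ℕ} {p : ℕ → X} (g : G), Str W p → Str W fun j => g • p j
  cvx : ∀ {W j : ℕ} {p q : ℕ → X}, Str W p → Str W q → 0 < W → j ≤ W →
    dist (p j) (q j) ≤ ((W - j) * dist (p 0) (q 0) + j * dist (p W) (q W)) / W
  geo : ∀ {W i j : ℕ} {p : ℕ → X}, Str W p → 0 < W → i ≤ W → j ≤ W →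
    dist (p i) (p j) = |(i : ℝ) - j| * (dist (p 0) (p W) / W)
  ex : ∀ {m : ℕ}, 0 < m → ∀ a b, ∃ p, Str m p ∧ p 0 = a ∧ p m = b
  mg_nonneg : ∀ Q c x, 0 ≤ mg Q c x
  mg_lip : ∀ Q c x y, |mg Q c x - mg Q c y| ≤ dist x y
  mg_smul : ∀ (g : G) Q c x, mg Q (g • c) (g • x) = mg Q c x
  mg_dist : ∀ {Q : ℕ} {c x y}, 0 < Q → 0 < mg Q c x → 0 < mg Q c y → dist x y ≤ 1 / Q
  mg_card : ∀ {Q : ℕ}, 0 < Q → ∀ x, {c | 0 < mg Q c x}.encard ≤ (n + 1 : ℕ)
  mg_big : ∀ {Q : ℕ}, 0 < Q → ∀ x, ∃ c, 1 / (2 * (n + 1) * Q) ≤ mg Q c x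
  cnt : ∀ {Q W ρ : ℕ} {η : ℝ} {p : ℕ → X}, 0 < Q → Str W p → 0 ≤ η → η ≤ 1 / 4 → Stp W η p →
    W * η ≤ ρ → {c | ∃ j ≤ W, 0 < mg Q c (p j)}.encard ≤ Cs Q ρ
  typ : ∀ Q ρ K W : ℕ, 0 < Q → 0 < K → ∃ cd : (ℕ → X) → ℕ, (∀ p, cd p < Us Q ρ * K ^ D) ∧
    ∀ (η : ℝ) (p p' : ℕ → X), Str W p → Str W p' → 0 ≤ η → η ≤ 1 / 4 → Stp W η p → Stp W η p' →
      W * η ≤ ρ → cd p = cd p' → ∀ c, ∀ j0 ≤ W, 0 < mg Q c (p j0) →
        ∃ c', ∀ j ≤ W, |mg Q c (p j) - mg Q c' (p' j)| ≤ 1 / K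
  elC : ∀ Q, El (Cs Q)
  elU : ∀ Q, El (Us Q)

variable {G X Sm : Type} [Group G] [MetricSpace X] [MulAction G X] [MulAction G Sm]

/-- there are compact pieces of elementary size -/
def Geo.HasZB (A : Geo G X Sm) : Prop :=
  ∃ Fs : ℕ → ℕ → ℕ → ℕ, (∀ κ Q, El fun Y => Fs κ Y Q) ∧ ∀ (S : Finset G) (κ Y : ℕ), 1 ∈ S →
    S.card ≤ κ → (∀ g ∈ S, dist (g • A.o) A.o ≤ κ) → 2 * κ + 2 ≤ Y →
      ∃ Z r, ZB A.o A.Str A.mg (Fs κ Y) S κ Y Z r

/-- there are actions up to homotopy of elementary size -/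
def Geo.HasZM (A : Geo G X Sm) : Prop :=
  ∃ (N : ℕ) (Fs : ℕ → ℕ → ℕ → ℕ), (∀ κ Q, El fun Y => Fs κ Y Q) ∧ ∀ (S : Finset G) (κ Y : ℕ),
    1 ∈ S → S.card ≤ κ → (∀ g ∈ S, dist (g • A.o) A.o ≤ κ) → 2 * κ + 2 ≤ Y →
      ∃ K, ZM A.o A.Str A.mg N (Fs κ Y) S κ Y K

/-- the elements that move a segment almost along itself -/
def Mv (G : Type) [Group G] [MulAction G X] (s : ℕ → X) (J r : ℕ) (b : ℝ) : Set G :=
  {g | ∃ τ : ℤ, |τ| ≤ r ∧ ∀ l l' : ℕ, l ≤ J → l' ≤ J → (l' : ℤ) = l + τ → dist (g • s l) (s l') ≤ b}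

/-- the isotropy groups are good -/
structure Geo.Gd (A : Geo G X Sm) (Good : Subgroup G → Prop) : Prop where
  mono : ∀ H H' : Subgroup G, H ≤ H' → Good H' → Good H
  fi : ∀ H H' : Subgroup G, H' ≤ H → H'.relIndex H ≠ 0 → Good H' → Good H
  stab : ∃ Q, 0 < Q ∧ ∀ c x, 0 < A.mg Q c x → Good (MulAction.stabilizer G c)
  line : ∀ q Γ : ℕ, 0 < Γ → ∃ Q J : ℕ, 8 * Γ ≤ Q ∧ q + 1 ≤ J ∧ ∀ Y : ℕ, 4 ≤ Y → ∀ (s : ℕ → X) (v : ℝ),
    A.Str (J * Y) s → 1 / (Γ * Y) ≤ v → v ≤ 1 / Y →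
    (∀ i ≤ J * Y, ∀ j ≤ J * Y, dist (s i) (s j) = |(i : ℝ) - j| * v) →
      Good (Subgroup.closure (Mv G s (J * Y) (q * Y + 1) (2 / Q)))

end Pool.Agent.Work.MP_9d1ffa_al.Ga
end

-- merged part: Pool.Agent.Work.MP_9d1ffa_al.Ga.Gz
section
/-! The action up to homotopy on a compact piece. -/

namespace Pool.Agent.Work.MP_9d1ffa_al.Ga

open Set

variable {G X Sm : Type} [Group G] [MetricSpace X] [MulAction G X] [MulAction G Sm]

namespace Geo

variable (A : Geo G X Sm) {W m : ℕ} {p q : ℕ → X}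

theorem cvx' (h : A.Str W p) (h' : A.Str W q) {α : ℝ} (k0 : dist (p 0) (q 0) ≤ α)
    (k1 : dist (p W) (q W) ≤ α) {j : ℕ} (hj : j ≤ W) : dist (p j) (q j) ≤ α := by
  rcases Nat.eq_zero_or_pos W with rfl | hW
  · rwa [Nat.le_zero.1 hj]
  · have h0 : (0 : ℝ) < W := Nat.cast_pos.2 hW
    have h1 : (0 : ℝ) ≤ W - j := sub_nonneg.2 (Nat.cast_le.2 hj)
    refine (A.cvx h h' hW hj).trans ((div_le_iff₀ h0).2 ?_)
    have h2 := mul_le_mul_of_nonneg_left k0 h1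
    have h3 := mul_le_mul_of_nonneg_left k1 (Nat.cast_nonneg (α := ℝ) j)
    linarith

/-- the straight path with `m` steps to the base point -/
noncomputable def σ (m : ℕ) (y : X) : ℕ → X :=
  if h : 0 < m then (A.ex h y A.o).choose else fun _ => y

theorem σ_spec (hm : 0 < m) (y : X) : A.Str m (A.σ m y) ∧ A.σ m y 0 = y ∧ A.σ m y m = A.o := by
  rw [σ, dif_pos hm]
  exact (A.ex hm y A.o).choose_spec

theorem σ_step (hm : 0 < m) (y : X) {a b : ℕ} (ha : a ≤ m) (hb : b ≤ m) :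
    dist (A.σ m y a) (A.σ m y b) = |(a : ℝ) - b| * (dist y A.o / m) := by
  rw [A.geo (A.σ_spec hm y).1 hm ha hb, (A.σ_spec hm y).2.1, (A.σ_spec hm y).2.2]

theorem σ_cont (hm : 0 < m) {j : ℕ} (hj : j ≤ m) : Continuous fun y => A.σ m y j := by
  refine (LipschitzWith.of_dist_le_mul (K := 1) fun y y' => ?_).continuous
  obtain ⟨a1, a2, a3⟩ := A.σ_spec hm y
  obtain ⟨b1, b2, b3⟩ := A.σ_spec hm y'
  refine A.cvx' a1 b1 (by rw [a2, b2]; simp) (by rw [a3, b3]; simp) hj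

include A in
theorem smul_cont (g : G) : Continuous fun x : X => g • x :=
  (Isometry.of_dist_eq (A.iso g)).continuous

/-- comparison of two straight paths -/
theorem key {z y : X} {g : G} {s : ℕ} (hs : s < m) {e T κ : ℝ} (h : dist z (g • A.σ m y s) ≤ e)
    (hz : dist z A.o ≤ T) (hg : dist (g • A.o) A.o ≤ κ) {l : ℕ} (hl : l + s ≤ m) :
    dist (A.σ m z l) (g • A.σ m y (l + s)) ≤ e + l * (s * T / m + κ) / (m - s) := by
  have hm : 0 < m := by omega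
  obtain ⟨a1, a2, a3⟩ := A.σ_spec hm z
  obtain ⟨b1, -, b3⟩ := A.σ_spec hm y
  have h1 := A.cvx (A.sub (W' := m - s) (i := 0) a1 (by omega))
    (A.smul g (A.sub (W' := m - s) (i := s) b1 (by omega))) (by omega) (j := l) (by omega)
  have e1 : s + (m - s) = m := by omega
  have e2 : ((m - s : ℕ) : ℝ) = m - s := Nat.cast_sub hs.le
  simp only [zero_add, add_zero, e1, a2, b3, add_comm s l] at h1
  have h2 := A.σ_step hm z (a := m - s) (b := m) (by omega) le_rfl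
  rw [a3, e2, sub_sub_cancel_left, abs_neg, Nat.abs_cast] at h2
  have hm' : (0 : ℝ) < m := Nat.cast_pos.2 hm
  have h3 : dist (A.σ m z (m - s)) (g • A.o) ≤ s * T / m + κ := by
    refine (dist_triangle_right _ _ A.o).trans (add_le_add ?_ hg)
    rw [h2, mul_div_assoc]
    gcongr
  have h4 : (0 : ℝ) < m - s := sub_pos.2 (Nat.cast_lt.2 hs)
  have h5 : (l : ℝ) + s ≤ m := by exact_mod_cast hl
  have h6 : (0 : ℝ) ≤ l := Nat.cast_nonneg l
  have h7 : 0 ≤ e := dist_nonneg.trans h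
  rw [e2] at h1
  refine h1.trans ?_
  rw [add_div' _ _ _ h4.ne']
  refine div_le_div_of_nonneg_right ?_ h4.le
  have h8 := mul_le_mul_of_nonneg_left h (show (0 : ℝ) ≤ m - s - l by linarith)
  have h9 := mul_le_mul_of_nonneg_left h3 h6
  nlinarith [mul_nonneg h6 h7]

end Geo

/-- the parameters of a compact piece -/
structure Par (A : Geo G X Sm) where
  S : Finset G
  κ : ℕ
  Y : ℕ
  Z : Set X
  Fs : ℕ → ℕ
  one : 1 ∈ S
  card : S.card ≤ κ
  hκ : ∀ g ∈ S, dist (g • A.o) A.o ≤ κ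
  hY : 2 * κ + 2 ≤ Y
  ball : ∀ y ∈ Z, dist y A.o ≤ (Y ^ 3 : ℕ)
  lab : ∀ Q, 0 < Q → {c | ∃ y ∈ Z, ∃ p, A.Str (Y ^ 4) p ∧ p 0 = y ∧ p (Y ^ 4) = A.o ∧
    ∃ j ≤ Y ^ 4, 1 / (Y : ℝ) < A.mg Q c (p j)}.encard ≤ Fs Q

namespace Par

variable {A : Geo G X Sm} (P : Par A)

/-- the radius -/
def T : ℕ := P.Y ^ 3
/-- the number of steps -/
def m : ℕ := P.Y ^ 4
/-- the number of steps towards the base point -/
def i : ℕ := (P.κ + 1) * P.Y
/-- the path to the base point -/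
noncomputable def σ (y : X) : ℕ → X := A.σ P.m y

theorem κ_pos : 0 < P.κ := (Finset.card_pos.2 ⟨1, P.one⟩).trans_le P.card

theorem four_le : 4 ≤ P.Y := by have := P.κ_pos; have := P.hY; omega

theorem m_pos : 0 < P.m := pow_pos (by have := P.four_le; omega) 4

theorem two_i : 2 * P.i ≤ P.Y ^ 2 := by
  have := Nat.mul_le_mul_right P.Y P.hY
  rw [i, sq]
  linarith

theorem sq_le : 4 * P.Y ^ 2 ≤ P.m := by
  have h : 4 * 1 ≤ P.Y * P.Y := Nat.mul_le_mul P.four_le (by have := P.four_le; omega)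
  have := Nat.mul_le_mul_right (P.Y ^ 2) h
  rw [m]
  linarith [show P.Y * P.Y * P.Y ^ 2 = P.Y ^ 4 by ring]

/-- covers by the sets where a margin is positive -/
theorem grid {r : X → X} (hz : ZB A.o A.Str A.mg P.Fs P.S P.κ P.Y P.Z r) : WL.Grid A.n P.Z := by
  obtain ⟨sg, s1, s2, s3, s4⟩ := hz.seg
  refine ⟨isCompact_iff_compactSpace.1 hz.cpt, ⟨⟨_, hz.base⟩⟩, ⟨sg, s1, s2, s3, fun x t => ?_⟩,
    fun δ hδ => ?_⟩
  · exact Subtype.ext (dist_le_zero.1 (s4 x x t x.1 0 (by simp) (by simp)))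
  obtain ⟨Q, hQ⟩ := exists_nat_one_div_lt hδ
  refine ⟨Sm, fun c => {y | 0 < A.mg (Q + 1) c y.1}, fun c => ?_, fun x => ?_,
    fun x => A.mg_card Q.succ_pos _, fun c x hx y hy => ?_⟩
  · refine isOpen_lt continuous_const (Continuous.comp ?_ continuous_subtype_val)
    refine (LipschitzWith.of_dist_le_mul (K := 1) fun y y' => ?_).continuous
    simpa [Real.dist_eq] using A.mg_lip (Q + 1) c y y'
  · obtain ⟨c, hc⟩ := A.mg_big Q.succ_pos x.1
    exact ⟨c, lt_of_lt_of_le (by positivity) hc⟩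
  · have := A.mg_dist Q.succ_pos hx hy
    push_cast at this
    exact this.trans hQ.le

/-- `z` is close to a point at the start of the translate of the path of `y` -/
def Rel (g : G) (y z : X) : Prop := ∃ s ≤ 2 * P.i, dist z (g • P.σ y s) ≤ 6 / P.Y

/-- a path through finitely many nodes -/
theorem nodes {r : X → X} (hz : ZB A.o A.Str A.mg P.Fs P.S P.κ P.Y P.Z r) {k : ℕ}
    (N : ℕ → P.Z → P.Z) (hN : ∀ j ≤ k, Continuous (N j)) :
    ∃ H : P.Z → unitInterval → P.Z, (Continuous fun p : P.Z × unitInterval => H p.1 p.2) ∧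
      (∀ y, H y 0 = N 0 y) ∧ (∀ y, H y 1 = N k y) ∧ ∀ y a, ∃ j0 ≤ k, ∀ (c : X) (ρ : ℝ),
        (∀ j ≤ k, j0 ≤ j → j ≤ j0 + 1 → dist (N j y).1 c ≤ ρ) → dist (H y a).1 c ≤ ρ := by
  obtain ⟨sg, s1, s2, s3, s4⟩ := hz.seg
  let F : ℕ → P.Z → ℝ → P.Z := fun j => Nat.rec (motive := fun _ => P.Z → ℝ → P.Z)
    (fun y _ => N 0 y) (fun j H y t => sg (H y t) (N (j + 1) y) (projIcc 0 1 zero_le_one (t - j))) j
  have F1 : ∀ j y t, F (j + 1) y t =
      sg (F j y t) (N (j + 1) y) (projIcc 0 1 zero_le_one (t - j)) := fun _ _ _ => rfl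
  have G0 : ∀ (j : ℕ) y (t : ℝ), t ≤ j → F (j + 1) y t = F j y t := fun j y t ht => by
    rw [F1, projIcc_of_le_left _ (sub_nonpos.2 ht)]
    exact s2 _ _
  have G1 : ∀ (j : ℕ) y (t : ℝ), (j : ℝ) ≤ t → F j y t = N j y := by
    rintro (_ | j) y t ht
    · rfl
    · push_cast at ht
      rw [F1, projIcc_of_right_le _ (by linarith)]
      exact s3 _ _
  have G2 : ∀ (j : ℕ) y (t : ℝ), t ≤ j → ∀ l, F (j + l) y t = F j y t := by
    intro j y t ht l
    induction l with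
    | zero => rfl
    | succ l ih =>
      rw [← add_assoc, G0 _ _ _ (ht.trans (by exact_mod_cast Nat.le_add_right j l)), ih]
  have C : ∀ j ≤ k, Continuous fun p : P.Z × ℝ => F j p.1 p.2 := by
    intro j
    induction j with
    | zero => exact fun hj => (hN 0 hj).comp continuous_fst
    | succ j ih =>
      intro hj
      exact s1.comp ((ih (by omega)).prodMk (((hN _ hj).comp continuous_fst).prodMk
        ((continuous_projIcc (h := zero_le_one)).comp (continuous_snd.sub continuous_const))))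
  refine ⟨fun y a => F k y (a * k), ?_, fun y => ?_, fun y => G1 _ _ _ (by simp), fun y a => ?_⟩
  · exact (C k le_rfl).comp (continuous_fst.prodMk
      ((continuous_subtype_val.comp continuous_snd).mul continuous_const))
  · have := G2 0 y ((0 : unitInterval) * k) (by simp) k
    rw [zero_add] at this
    exact this
  rcases le_or_gt (k : ℝ) (a * k) with h | h
  · refine ⟨k, le_rfl, fun c ρ hc => ?_⟩
    simp only [G1 _ _ _ h]
    exact hc k le_rfl le_rfl (Nat.le_succ _)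
  have h0 : (0 : ℝ) ≤ a * k := mul_nonneg a.2.1 (Nat.cast_nonneg k)
  have h1 : ⌊(a : ℝ) * k⌋₊ < k := (Nat.floor_lt h0).2 h
  refine ⟨_, h1.le, fun c ρ hc => ?_⟩
  obtain ⟨l, hl⟩ := Nat.exists_eq_add_of_le (Nat.succ_le_of_lt h1)
  have h2 := G2 (⌊(a : ℝ) * k⌋₊ + 1) y (a * k) (by push_cast; exact (Nat.lt_floor_add_one _).le) l
  rw [← hl, F1, G1 _ _ _ (Nat.floor_le h0)] at h2
  simp only [h2]
  exact s4 _ _ _ _ _ (hc _ h1.le le_rfl (Nat.le_succ _)) (hc _ h1 (Nat.le_succ _) le_rfl)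

theorem Gz_Y : (4 : ℝ) ≤ P.Y := by exact_mod_cast P.four_le

theorem Gz_κ : 2 * (P.κ : ℝ) + 2 ≤ P.Y := by exact_mod_cast P.hY

theorem Gz_lt : 2 * P.i < P.m ∧ P.Y ^ 2 + 2 * P.i ≤ P.m := by
  have := P.two_i
  have := P.sq_le
  have := P.m_pos
  omega

variable {P} {g : G} {y z : X}

theorem Gz_step (hy : y ∈ P.Z) {a b : ℕ} (ha : a ≤ P.m) (hb : b ≤ a) (h : a ≤ b + 1) :
    dist (P.σ y a) (P.σ y b) ≤ 1 / P.Y := by
  have hY := P.Gz_Y
  have h1 : (b : ℝ) ≤ a := Nat.cast_le.2 hb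
  have h2 : (a : ℝ) ≤ b + 1 := by exact_mod_cast h
  have h3 := P.ball y hy
  rw [σ, A.σ_step P.m_pos y ha (hb.trans ha), abs_of_nonneg (sub_nonneg.2 h1), m]
  push_cast at h3 ⊢
  calc _ ≤ 1 * ((P.Y : ℝ) ^ 3 / P.Y ^ 4) := by gcongr; linarith
    _ = _ := by field_simp

theorem node_dist {r : X → X} (hz : ZB A.o A.Str A.mg P.Fs P.S P.κ P.Y P.Z r) (hg : g ∈ P.S) 
    (hy : y ∈ P.Z) {l : ℕ} (h1 : P.i ≤ l) (h2 : l ≤ 2 * P.i) :
    r (P.σ (g • y) l) ∈ P.Z ∧ dist (r (P.σ (g • y) l)) (g • P.σ y l) ≤ 3 / 2 / P.Y := by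
  obtain ⟨a1, a2, a3⟩ := A.σ_spec P.m_pos (g • y)
  have hm := P.Gz_lt.1
  obtain ⟨b1, b2⟩ := hz.node g hg y hy _ a1 a2 a3 l h1 (h2.trans hm.le)
  refine ⟨b1, (dist_triangle _ (P.σ (g • y) l) _).trans ?_⟩
  have h3 := A.key (z := g • y) (y := y) (g := g) (s := 0) P.m_pos (e := 0)
    (by rw [(A.σ_spec P.m_pos y).2.1, dist_self]) le_rfl (P.hκ g hg) (l := l) (by omega)
  have hY := P.Gz_Y
  have hκ := P.Gz_κ
  have h4 : (l : ℝ) ≤ P.Y ^ 2 := by exact_mod_cast h2.trans P.two_i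
  have h5 : (l : ℝ) * P.κ / P.Y ^ 4 ≤ 1 / 2 / P.Y :=
    calc _ ≤ (P.Y : ℝ) ^ 2 * (P.Y ^ 2 / P.Y / 2) / P.Y ^ 4 := by
          gcongr
          rw [sq, mul_div_assoc, div_self (by linarith)]
          linarith
      _ = _ := by field_simp
  simp only [Nat.cast_zero, zero_mul, zero_div, zero_add, sub_zero, add_zero] at h3
  rw [show ((P.m : ℕ) : ℝ) = P.Y ^ 4 by rw [m]; push_cast; rfl] at h3
  exact (add_le_add b2 (h3.trans h5)).trans_eq (by ring)

theorem rel_key (hg : g ∈ P.S) (hz : z ∈ P.Z) {s : ℕ} (hs : s ≤ 2 * P.i) {e : ℝ}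
    (h : dist z (g • P.σ y s) ≤ e) {l : ℕ} (hl : l ≤ P.Y ^ 2) :
    dist (P.σ z l) (g • P.σ y (l + s)) ≤ e + 2 / P.Y := by
  have hm := P.Gz_lt
  refine (A.key (hs.trans_lt hm.1) h (P.ball z hz) (P.hκ g hg) (by omega)).trans ?_
  have hY := P.Gz_Y
  have hκ := P.Gz_κ
  have h1 : (l : ℝ) ≤ P.Y ^ 2 := by exact_mod_cast hl
  have h2 : (s : ℝ) ≤ P.Y ^ 2 := by exact_mod_cast hs.trans P.two_i
  have h3 : (16 : ℝ) ≤ P.Y ^ 2 := by nlinarith
  have h4 : (3 / 4 : ℝ) * P.Y ^ 4 ≤ P.Y ^ 4 - s := by nlinarith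
  rw [m]
  push_cast
  refine add_le_add le_rfl ?_
  calc _ ≤ (P.Y : ℝ) ^ 2 * (P.Y ^ 2 * P.Y ^ 3 / P.Y ^ 4 + P.Y / 2) / (3 / 4 * P.Y ^ 4) := by
        gcongr
        linarith
    _ = _ := by field_simp; ring

theorem rel_near (h : dist y z ≤ 6 / P.Y) : P.Rel (1 : G) y z := by
  refine ⟨0, Nat.zero_le _, ?_⟩
  rwa [one_smul, σ, (A.σ_spec P.m_pos y).2.1, dist_comm]

theorem Rel.dist_le (h : P.Rel g y z) :
    dist z (g • y) ≤ 6 / P.Y + 2 * (P.κ + 1) * (dist y A.o / P.T) := by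
  obtain ⟨s, hs, h⟩ := h
  refine (dist_triangle _ (g • P.σ y s) _).trans (add_le_add h ?_)
  have h1 := A.σ_step P.m_pos y (hs.trans P.Gz_lt.1.le) (Nat.zero_le _)
  rw [(A.σ_spec P.m_pos y).2.1, Nat.cast_zero, sub_zero, Nat.abs_cast] at h1
  have h2 : (s : ℝ) ≤ 2 * ((P.κ + 1) * P.Y) := by exact_mod_cast hs
  have hY := P.Gz_Y
  rw [A.iso, σ, h1, m, T]
  push_cast
  calc _ ≤ 2 * (((P.κ : ℝ) + 1) * P.Y) * (dist y A.o / P.Y ^ 4) := by gcongr
    _ = _ := by field_simp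

theorem Rel.rad (h : P.Rel g y z) (hg : g ∈ P.S) (hy : y ∈ P.Z) :
    |dist z A.o - dist y A.o| ≤ 3 * P.κ + 4 := by
  have h1 := h.dist_le
  have hY := P.Gz_Y
  have h2 : dist y A.o / P.T ≤ 1 :=
    div_le_one_of_le₀ (P.ball y hy) (Nat.cast_nonneg _)
  have h3 : (6 : ℝ) / P.Y ≤ 2 := by rw [div_le_iff₀ (by linarith)]; linarith
  have h4 := mul_le_mul_of_nonneg_left h2 (show (0 : ℝ) ≤ 2 * (P.κ + 1) by positivity)
  have h5 := P.hκ g hg
  have h6 := dist_dist_dist_le z A.o (g • y) (g • A.o)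
  rw [A.iso, Real.dist_eq, dist_comm A.o] at h6
  linarith

variable (P) in
/-- the self maps and the homotopies -/
theorem maps {r : X → X} (hz : ZB A.o A.Str A.mg P.Fs P.S P.κ P.Y P.Z r) :
    ∃ (φ : G → P.Z → P.Z) (Hm : G → G → P.Z → unitInterval → P.Z),
    (∀ g ∈ P.S, Continuous (φ g) ∧ ∀ y, P.Rel g y.1 (φ g y).1) ∧
    ∀ g ∈ P.S, ∀ h ∈ P.S, g * h ∈ P.S →
      (Continuous fun p : P.Z × unitInterval => Hm g h p.1 p.2) ∧
      (∀ y, Hm g h y 0 = φ g (φ h y)) ∧ (∀ y, Hm g h y 1 = φ (g * h) y) ∧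
      ∀ y a, P.Rel (g * h) y.1 (Hm g h y a).1 := by
  classical
  let ψ : G → ℕ → P.Z → P.Z := fun g l y =>
    if h : g ∈ P.S ∧ P.i ≤ l ∧ l ≤ 2 * P.i then ⟨_, (node_dist hz h.1 y.2 h.2.1 h.2.2).1⟩ else y
  have hm := P.Gz_lt.1
  have hY := P.Gz_Y
  have hi : P.i ≤ 2 * P.i := by omega
  have ψ1 : ∀ g ∈ P.S, ∀ l, P.i ≤ l → l ≤ 2 * P.i → Continuous (ψ g l) ∧
      ∀ y, dist (ψ g l y).1 (g • P.σ y.1 l) ≤ 3 / 2 / P.Y := by
    intro g hg l h1 h2
    have e : ∀ y, (ψ g l y).1 = r (P.σ (g • y.1) l) := fun y => by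
      simp only [ψ, dif_pos (And.intro hg (And.intro h1 h2))]
    refine ⟨continuous_induced_rng.2 ?_, fun y => (e y).symm ▸ (node_dist hz hg y.2 h1 h2).2⟩
    refine Continuous.congr ?_ fun y => (e y).symm
    exact hz.cont.comp ((A.σ_cont P.m_pos (h2.trans hm.le)).comp
      ((A.smul_cont g).comp continuous_subtype_val))
  have H : ∀ g h : G, ∃ H : P.Z → unitInterval → P.Z, g ∈ P.S → h ∈ P.S → g * h ∈ P.S →
      (Continuous fun p : P.Z × unitInterval => H p.1 p.2) ∧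
      (∀ y, H y 0 = ψ g P.i (ψ h P.i y)) ∧ (∀ y, H y 1 = ψ (g * h) P.i y) ∧
      ∀ y a, P.Rel (g * h) y.1 (H y a).1 := by
    intro g h
    by_cases hh : g ∈ P.S ∧ h ∈ P.S ∧ g * h ∈ P.S
    swap
    · exact ⟨fun y _ => y, fun a b c => (hh ⟨a, b, c⟩).elim⟩
    obtain ⟨hg, hh, hgh⟩ := hh
    obtain ⟨g1, g2⟩ := ψ1 g hg _ le_rfl hi
    obtain ⟨h1, h2⟩ := ψ1 h hh _ le_rfl hi
    let N : ℕ → P.Z → P.Z := fun j =>
      if j = 0 then fun y => ψ g P.i (ψ h P.i y) else ψ (g * h) (2 * P.i + 1 - j)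
    have hN : ∀ j ≤ P.i + 1, Continuous (N j) ∧
        ∀ y, dist (N j y).1 ((g * h) • P.σ y.1 (2 * P.i + 1 - max j 1)) ≤ 5 / P.Y := by
      intro j hj
      by_cases h0 : j = 0
      · subst h0
        refine ⟨g1.comp h1, fun y => ?_⟩
        have h3 := rel_key hh (ψ h P.i y).2 hi (h2 y) (hi.trans P.two_i)
        rw [← A.iso g, ← mul_smul] at h3
        rw [show 2 * P.i + 1 - max 0 1 = P.i + P.i by omega]
        exact ((dist_triangle _ _ _).trans (add_le_add (g2 _) h3)).trans_eq (by ring)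
      · obtain ⟨h3, h4⟩ := ψ1 _ hgh (2 * P.i + 1 - j) (by omega) (by omega)
        simp only [N, if_neg h0, show max j 1 = j by omega]
        exact ⟨h3, fun y => (h4 y).trans (by gcongr; norm_num)⟩
    obtain ⟨H, c1, c2, c3, c4⟩ := P.nodes hz N fun j hj => (hN j hj).1
    refine ⟨H, fun _ _ _ => ⟨c1, c2, fun y => ?_, fun y a => ?_⟩⟩
    · rw [c3]
      simp only [N, if_neg P.i.succ_ne_zero, show 2 * P.i + 1 - (P.i + 1) = P.i by omega]
    obtain ⟨j0, -, c5⟩ := c4 y a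
    refine ⟨2 * P.i + 1 - max j0 1, by omega, c5 _ _ fun j hj k1 k2 => ?_⟩
    have h5 := Gz_step y.2 (a := 2 * P.i + 1 - max j0 1) (b := 2 * P.i + 1 - max j 1)
      (by omega) (by omega) (by omega)
    rw [← A.iso (g * h), dist_comm] at h5
    exact ((dist_triangle _ _ _).trans (add_le_add ((hN j hj).2 y) h5)).trans_eq (by ring)
  choose Hm hH using H
  refine ⟨fun g => ψ g P.i, Hm, fun g hg => ?_, fun g hg h hh => hH g h hg hh⟩
  obtain ⟨h1, h2⟩ := ψ1 g hg _ le_rfl hi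
  exact ⟨h1, fun y => ⟨_, hi, (h2 y).trans (by gcongr; norm_num)⟩⟩

theorem relP_iff : RelP A.o A.Str P.κ P.Y g y z ↔ P.Rel g y z := by
  obtain ⟨a, b, c⟩ := A.σ_spec P.m_pos y
  refine ⟨fun ⟨s, hs, p, a', b', c', h⟩ => ⟨s, hs, ?_⟩, fun ⟨s, hs, h⟩ => ⟨s, hs, _, a, b, c, h⟩⟩
  rwa [show P.σ y s = p s from dist_le_zero.1 (A.cvx' a a' (by rw [b, b', dist_self])
    (by rw [c, show p P.m = A.o from c', dist_self]) (hs.trans P.Gz_lt.1.le))]

end Par

theorem Geo.HasZB.zm {A : Geo G X Sm} (h : A.HasZB) : A.HasZM := by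
  obtain ⟨Fs, e, h⟩ := h
  refine ⟨A.n, Fs, e, fun S κ Y a b c d => ?_⟩
  obtain ⟨Z, r, hz⟩ := h S κ Y a b c d
  let P : Par A := ⟨S, κ, Y, Z, Fs κ Y, a, b, c, d, hz.ball, hz.lab⟩
  obtain ⟨φ, Hm, k1, k2⟩ := P.maps hz
  exact ⟨Z, hz.ball, hz.lab, Z, inferInstance, Subtype.val, φ, Hm, P.grid hz, continuous_subtype_val,
    fun z => z.2, fun g hg => ⟨(k1 g hg).1, fun y => (Par.relP_iff (P := P)).2 ((k1 g hg).2 y)⟩,
    fun g hg h hh e => ⟨(k2 g hg h hh e).1, (k2 g hg h hh e).2.1, (k2 g hg h hh e).2.2.1,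
      fun y a => (Par.relP_iff (P := P)).2 ((k2 g hg h hh e).2.2.2 y a)⟩⟩

end Pool.Agent.Work.MP_9d1ffa_al.Ga
end

-- merged part: Pool.Agent.Work.MP_9d1ffa_al.Gb.Thr
section
/-! Thresholds by counting; almost translations along a path generate a cyclic group. -/

namespace Pool.Agent.Work.MP_9d1ffa_al.Gb

open Set

theorem exists_thr {Y U : Type*} (cd : Y → U) (val val' : Y → Set ℝ) {N K Kw D : ℕ}
    (hU : (range cd).encard ≤ N) (hK : N * Kw ^ (D + 1) < K ^ (D + 1))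
    (h1 : ∀ y, (val' y).encard ≤ Kw)
    (h2 : ∀ y y', cd y = cd y' → ∀ v ∈ val y, ∃ v' ∈ val' y', |v - v'| ≤ 1 / (12 * (K : ℝ))) :
    ∃ θ : Fin (D + 1) → ℝ, (∀ s, 1 < θ s ∧ θ s + 2 * (1 / (12 * (K : ℝ))) ≤ 2) ∧
      ∀ y, ∃ s, ∀ v ∈ val y, 2 * (1 / (12 * (K : ℝ))) ≤ |v - θ s| := by
  classical
  have K0 : 0 < K := Nat.pos_of_ne_zero fun e => by simp [e] at hK
  have K1 : (1 : ℝ) ≤ K := by exact_mod_cast K0
  obtain ⟨δ, hδ⟩ : ∃ δ : ℝ, δ = 1 / (12 * (K : ℝ)) := ⟨_, rfl⟩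
  have d0 : 0 < δ := by rw [hδ]; positivity
  have d1 : 12 * (K * δ) = 1 := by rw [hδ]; field_simp
  have d2 : δ ≤ K * δ := le_mul_of_one_le_left d0.le K1
  rw [← hδ] at h2 ⊢
  have hf : (range cd).Finite := finite_of_encard_le_coe hU
  have hc : hf.toFinset.card ≤ N := by
    rw [hf.encard_eq_coe_toFinset_card] at hU
    exact_mod_cast hU
  let B : Y → Finset (Fin K) := fun y =>
    Finset.univ.filter fun k => ∃ v ∈ val' y, |v - (5 / 4 + 6 * (k : ℕ) * δ)| < 3 * δ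
  have hB : ∀ y, (B y).card ≤ Kw := fun y => by
    choose! g g1 g2 using fun k (h : k ∈ B y) => (Finset.mem_filter.1 h).2
    have k := (encard_le_encard_of_injOn (s := (B y : Set (Fin K))) (f := g) (fun k h => g1 k h)
      fun k h k' h' e => by
        have b2 := abs_lt.1 (g2 k h)
        have b3 := abs_lt.1 (g2 k' h')
        rw [e] at b2
        have b4 : ((k : ℕ) : ℝ) < (k' : ℕ) + 1 :=
          lt_of_mul_lt_mul_right (by linarith [b2.1, b3.2]) d0.le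
        have b5 : ((k' : ℕ) : ℝ) < (k : ℕ) + 1 :=
          lt_of_mul_lt_mul_right (by linarith [b2.2, b3.1]) d0.le
        norm_cast at b4 b5
        exact Fin.ext (by omega)).trans (h1 y)
    rw [encard_coe_eq_coe_finsetCard] at k
    exact_mod_cast k
  choose rp hr using fun u : hf.toFinset => hf.mem_toFinset.1 u.2
  obtain ⟨th, ht⟩ : ∃ th : Fin (D + 1) → Fin K,
      th ∉ Finset.univ.biUnion fun u => Fintype.piFinset fun _ : Fin (D + 1) => B (rp u) := by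
    by_contra e
    push Not at e
    have k := Finset.card_le_card (fun x _ => e x : (Finset.univ : Finset (Fin (D + 1) → Fin K)) ⊆ _)
    have k2 := Finset.card_biUnion_le_card_mul Finset.univ
      (fun u => Fintype.piFinset fun _ : Fin (D + 1) => B (rp u)) (Kw ^ (D + 1)) fun u _ => by
        rw [Fintype.card_piFinset_const]
        exact Nat.pow_le_pow_left (hB _) _
    rw [Finset.card_univ, Fintype.card_coe] at k2
    rw [Finset.card_univ, Fintype.card_fun, Fintype.card_fin, Fintype.card_fin] at k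
    exact absurd (k.trans (k2.trans (Nat.mul_le_mul_right _ hc))) (not_le.2 hK)
  refine ⟨fun s => 5 / 4 + 6 * (th s : ℕ) * δ, fun s => ?_, fun y => ?_⟩
  · have k1 : ((th s : ℕ) : ℝ) * δ ≤ K * δ := by gcongr; exact (th s).2.le
    have k2 : 0 ≤ ((th s : ℕ) : ℝ) * δ := by positivity
    constructor <;> linarith
  · have k : ¬∀ s, th s ∈ B (rp ⟨cd y, hf.mem_toFinset.2 ⟨y, rfl⟩⟩) := fun e =>
      ht (Finset.mem_biUnion.2 ⟨_, Finset.mem_univ _, Fintype.mem_piFinset.2 e⟩)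
    obtain ⟨s, hs⟩ := not_forall.1 k
    refine ⟨s, fun v hv => ?_⟩
    obtain ⟨v', a, b⟩ := h2 y _ (hr ⟨cd y, hf.mem_toFinset.2 ⟨y, rfl⟩⟩).symm v hv
    have c : 3 * δ ≤ |v' - (5 / 4 + 6 * (th s : ℕ) * δ)| := le_of_not_gt fun e =>
      hs (Finset.mem_filter.2 ⟨Finset.mem_univ _, v', a, e⟩)
    have d := abs_sub_le v' v (5 / 4 + 6 * (th s : ℕ) * δ)
    rw [abs_sub_comm v' v] at d
    linarith

theorem cyc_of_path {G X : Type*} [Group G] [PseudoMetricSpace X] [MulAction G X]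
    (iso : ∀ (g : G) (x y : X), dist (g • x) (g • y) = dist x y) {c0 : ℝ}
    (disc : ∀ (g : G) (x : X), dist (g • x) x ≤ c0 → g = 1) (s : ℤ → X) {J r A : ℕ} {v b : ℝ}
    (hs : ∀ i j : ℤ, 0 ≤ i → i ≤ J → 0 ≤ j → j ≤ J → dist (s i) (s j) = |(i : ℝ) - j| * v)
    (v0 : 0 ≤ v) (b0 : 0 ≤ b) (h1 : 4 * r * v < A * c0) (h2 : 4 * 3 ^ A * b ≤ c0)
    (h3 : 2 * 3 ^ A * r ≤ J) :
    ∃ a : G, ∀ (g : G) (τ : ℤ), |τ| ≤ r →
      (∀ l : ℤ, r ≤ l → l + r ≤ J → dist (g • s l) (s (l + τ)) ≤ b) → g ∈ Subgroup.zpowers a := by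
  classical
  obtain ⟨W, hW⟩ : ∃ W : ℕ → G → ℤ → Prop, ∀ k g τ, W k g τ ↔ |τ| ≤ r ∧
      ∀ l : ℤ, k * r ≤ l → l + k * r ≤ J → dist (g • s l) (s (l + τ)) ≤ k * b :=
    ⟨_, fun _ _ _ => Iff.rfl⟩
  have r0 : (0 : ℤ) ≤ r := Int.natCast_nonneg r
  have c00 : 0 < c0 := by
    have : 0 ≤ 4 * r * v := by positivity
    exact lt_of_not_ge fun e => by
      have := mul_nonpos_of_nonneg_of_nonpos (Nat.cast_nonneg (α := ℝ) A) e
      linarith
  have mono : ∀ {k k' g τ}, k ≤ k' → W k g τ → W k' g τ := fun {k k' g τ} e h => by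
    rw [hW] at h ⊢
    have e1 : (k : ℤ) * r ≤ k' * r := mul_le_mul_of_nonneg_right (by exact_mod_cast e) r0
    have e2 : (k : ℝ) * b ≤ k' * b := mul_le_mul_of_nonneg_right (by exact_mod_cast e) b0
    exact ⟨h.1, fun l a c => (h.2 l (by omega) (by omega)).trans e2⟩
  have rg : ∀ {k : ℕ}, 1 ≤ k → k ≤ 3 ^ A →
      (r : ℤ) ≤ k * r ∧ (k : ℤ) * r + k * r ≤ J ∧ 4 * (k * b) ≤ c0 := fun {k} a c => by
    have e1 : r ≤ k * r := Nat.le_mul_of_pos_left _ a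
    have e2 : k * r + k * r ≤ J := by
      have := Nat.mul_le_mul_right r c
      rw [mul_assoc] at h3
      omega
    have e3 : (k : ℝ) * b ≤ 3 ^ A * b := mul_le_mul_of_nonneg_right (by exact_mod_cast c) b0
    exact ⟨by exact_mod_cast e1, by exact_mod_cast e2, by linarith⟩
  have cmp : ∀ {k : ℕ} {τ τ' : ℤ}, 1 ≤ k → k ≤ 3 ^ A → |τ| ≤ r → |τ'| ≤ r →
      dist (s (k * r + τ)) (s (k * r + τ')) = |(τ : ℝ) - τ'| * v := fun {k τ τ'} a c d e => by
    obtain ⟨e1, e2, -⟩ := rg a c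
    have d1 := abs_le.1 d
    have d2 := abs_le.1 e
    rw [hs _ _ (by omega) (by omega) (by omega) (by omega)]
    push_cast
    rw [add_sub_add_left_eq_sub]
  have card : ∀ k, 1 ≤ k → k ≤ 3 ^ A → {g | ∃ τ, W k g τ}.encard ≤ A := fun k a c => by
    choose! t ht using fun g (h : g ∈ {g | ∃ τ, W k g τ}) => h
    obtain ⟨e1, e2, e3⟩ := rg a c
    have tb : ∀ g ∈ {g | ∃ τ, W k g τ}, -(r : ℝ) ≤ t g ∧ (t g : ℝ) ≤ r := fun g h => by
      exact_mod_cast abs_le.1 ((hW _ _ _).1 (ht g h)).1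
    have k1 := encard_le_encard_of_injOn (s := {g | ∃ τ, W k g τ}) (t := (Finset.range A : Set ℕ))
      (f := fun g => ⌊(t g + r) * v / (c0 / 2)⌋₊) (fun g h => by
        have := tb g h
        rw [Finset.coe_range, mem_Iio, Nat.floor_lt (div_nonneg (mul_nonneg (by linarith) v0)
          (by positivity)), div_lt_iff₀ (by positivity)]
        nlinarith) fun g h g' h' e => by
        have a1 := tb g h
        have a2 := tb g' h'
        have n1 : 0 ≤ (t g + r) * v / (c0 / 2) := div_nonneg (mul_nonneg (by linarith) v0) (by positivity)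
        have n2 : 0 ≤ (t g' + r) * v / (c0 / 2) :=
          div_nonneg (mul_nonneg (by linarith) v0) (by positivity)
        have p1 := Nat.floor_le n1
        have p2 := Nat.floor_le n2
        have p3 := Nat.lt_floor_add_one ((t g + r) * v / (c0 / 2))
        have p4 := Nat.lt_floor_add_one ((t g' + r) * v / (c0 / 2))
        have e' : ⌊(t g + r) * v / (c0 / 2)⌋₊ = ⌊(t g' + r) * v / (c0 / 2)⌋₊ := e
        rw [e'] at p1 p3
        have p5 : |(t g + r) * v / (c0 / 2) - (t g' + r) * v / (c0 / 2)| ≤ 1 :=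
          abs_le.2 ⟨by linarith, by linarith⟩
        rw [← sub_div, ← sub_mul, add_sub_add_right_eq_sub, abs_div, abs_mul, abs_of_nonneg v0,
          abs_of_pos (by positivity : 0 < c0 / 2), div_le_one (by positivity)] at p5
        have w := (hW _ _ _).1 (ht g h)
        have w' := (hW _ _ _).1 (ht g' h')
        have q1 := w.2 _ le_rfl e2
        have q2 := w'.2 _ le_rfl e2
        have q3 := cmp a c w.1 w'.1
        have q4 := dist_triangle4_right (g • s (k * r)) (g' • s (k * r)) (s (k * r + t g))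
          (s (k * r + t g'))
        have q5 := iso g' ((g'⁻¹ * g) • s (k * r)) (s (k * r))
        rw [← mul_smul, mul_inv_cancel_left] at q5
        have q6 := disc (g'⁻¹ * g) (s (k * r)) (by linarith)
        exact (inv_mul_eq_one.1 q6).symm
    rwa [encard_coe_eq_coe_finsetCard, Finset.card_range] at k1
  obtain ⟨k, k1, k2, k3⟩ : ∃ k, 1 ≤ k ∧ 3 * k ≤ 3 ^ A ∧ ∀ g τ, W (3 * k) g τ → ∃ τ', W k g τ' := by
    by_contra e
    push Not at e
    have st : ∀ j, j ≤ A → ((j + 1 : ℕ) : ℕ∞) ≤ {g | ∃ τ, W (3 ^ j) g τ}.encard := fun j => by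
      induction j with
      | zero =>
        refine fun _ => one_le_encard_iff_nonempty.2 ⟨1, 0, (hW _ _ _).2 ⟨by simp, fun l _ _ => ?_⟩⟩
        simpa using b0
      | succ j ih =>
        intro hj
        obtain ⟨g, τ, a, c⟩ := e (3 ^ j) (Nat.one_le_pow _ _ (by norm_num))
          (by rw [← pow_succ']; exact Nat.pow_le_pow_right (by norm_num) hj)
        rw [← pow_succ'] at a
        have d : insert g {g | ∃ τ, W (3 ^ j) g τ} ⊆ {g | ∃ τ, W (3 ^ (j + 1)) g τ} :=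
          insert_subset ⟨τ, a⟩ fun g' ⟨τ', h⟩ =>
            ⟨τ', mono (Nat.pow_le_pow_right (by norm_num) (by omega)) h⟩
        refine le_trans ?_ (encard_le_encard d)
        have n : g ∉ {g | ∃ τ, W (3 ^ j) g τ} := fun ⟨τ', h⟩ => c τ' h
        rw [encard_insert_of_notMem n, Nat.cast_add (j + 1), Nat.cast_one]
        exact add_le_add_left (ih (by omega)) 1
    have := (st A le_rfl).trans (card _ (Nat.one_le_pow _ _ (by norm_num)) le_rfl)
    norm_cast at this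
    omega
  suffices h : ∃ a : G, ∀ (g : G) (τ : ℤ), W k g τ → g ∈ Subgroup.zpowers a by
    refine h.imp fun a ha g τ x y => ha g τ (mono k1 ((hW _ _ _).2 ⟨x, ?_⟩))
    simpa using y
  by_cases hx : ∃ n : ℕ, ∃ (a : G) (τ : ℤ), a ≠ 1 ∧ W k a τ ∧ τ.natAbs = n
  swap
  · exact ⟨1, fun g τ h => by_contra fun e =>
      hx ⟨_, g, τ, fun e' => e (by rw [e']; exact one_mem _), h, rfl⟩⟩
  obtain ⟨a, ta, a1, a2, a3⟩ := Nat.find_spec hx
  have am : ∀ g τ, g ≠ 1 → W k g τ → ta.natAbs ≤ τ.natAbs := fun g τ x y =>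
    a3 ▸ Nat.find_min' hx ⟨g, τ, x, y, rfl⟩
  obtain ⟨e1, e2, e3⟩ := rg k1 (by omega)
  obtain ⟨f1, f2, -⟩ := rg (k := 2 * k) (by omega) (by omega)
  have wa := (hW _ _ _).1 a2
  have big : 3 * (k * b) < |(ta : ℝ)| * v := by
    have q1 := wa.2 _ le_rfl e2
    have q2 := cmp (τ := ta) (τ' := 0) k1 (by omega) wa.1 (by simp)
    have q3 : c0 < dist (a • s (k * r)) (s (k * r)) := lt_of_not_ge fun e => a1 (disc _ _ e)
    have q4 := dist_triangle (a • s (k * r)) (s (k * r + ta)) (s (k * r))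
    rw [add_zero, Int.cast_zero, sub_zero] at q2
    linarith
  refine ⟨a, fun g τ h => ?_⟩
  induction hn : τ.natAbs using Nat.strong_induction_on generalizing g τ with
  | _ n ih =>
    by_cases g1 : g = 1
    · rw [g1]; exact one_mem _
    have m1 := am g τ g1 h
    have w := (hW _ _ _).1 h
    have w1 := abs_le.1 w.1
    have w2 := abs_le.1 wa.1
    have kk : ((2 * k : ℕ) : ℤ) * r = k * r + k * r := by push_cast; ring
    have kb : ((2 * k : ℕ) : ℝ) * b = k * b + k * b := by push_cast; ring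
    obtain ⟨u, t1, u1, u2, u3⟩ : ∃ (u : G) (t1 : ℤ), u ∈ Subgroup.zpowers a ∧
        W (2 * k) (u * g) t1 ∧ t1.natAbs + ta.natAbs = τ.natAbs := by
      by_cases sg : (0 ≤ τ ∧ 0 ≤ ta) ∨ (τ ≤ 0 ∧ ta ≤ 0)
      · refine ⟨a⁻¹, τ - ta, inv_mem (Subgroup.mem_zpowers a),
          (hW _ _ _).2 ⟨abs_le.2 ⟨by omega, by omega⟩, fun l x y => ?_⟩, by omega⟩
        rw [kk] at x y
        have q1 := w.2 l (by omega) (by omega)
        have q2 := wa.2 (l + (τ - ta)) (by omega) (by omega)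
        rw [add_assoc, sub_add_cancel] at q2
        rw [← iso a, ← mul_smul, mul_inv_cancel_left, kb]
        exact (dist_triangle_right _ _ _).trans (add_le_add q1 q2)
      · refine ⟨a, τ + ta, Subgroup.mem_zpowers a,
          (hW _ _ _).2 ⟨abs_le.2 ⟨by omega, by omega⟩, fun l x y => ?_⟩, by omega⟩
        rw [kk] at x y
        have q1 := w.2 l (by omega) (by omega)
        have q2 := wa.2 (l + τ) (by omega) (by omega)
        rw [← iso a] at q1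
        rw [mul_smul, ← add_assoc, kb]
        exact (dist_triangle _ _ _).trans (add_le_add q1 q2)
    obtain ⟨t2, u4⟩ := k3 _ _ (mono (by omega) u2)
    have z1 := (hW _ _ _).1 u2
    have z2 := (hW _ _ _).1 u4
    have q1 := z1.2 _ le_rfl f2
    have q2 := z2.2 (((2 * k : ℕ) : ℤ) * r) (by omega) (by omega)
    have q3 := cmp (k := 2 * k) (by omega) (by omega) z1.1 z2.1
    have q4 := dist_triangle_left (s (((2 * k : ℕ) : ℤ) * r + t1)) (s (((2 * k : ℕ) : ℤ) * r + t2))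
      ((u * g) • s (((2 * k : ℕ) : ℤ) * r))
    have q5 : |(t1 : ℝ) - t2| < |(ta : ℝ)| := lt_of_mul_lt_mul_right (by linarith) v0
    have q6 : |t1 - t2| < |ta| := by exact_mod_cast q5
    rw [Int.abs_eq_natAbs, Int.abs_eq_natAbs] at q6
    have q7 := ih t2.natAbs (by omega) _ _ u4 rfl
    exact (Subgroup.mul_mem_cancel_left _ u1).1 q7

end Pool.Agent.Work.MP_9d1ffa_al.Gb
end

-- merged part: Pool.Agent.Work.MP_9d1ffa_al.Ga.Pr
section
/-! Candidates and profiles along straight paths. -/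

namespace Pool.Agent.Work.MP_9d1ffa_al.Ga

open Set

variable {G X Sm : Type} [Group G] [MetricSpace X] [MulAction G X] [MulAction G Sm]

/-- the parameters of the candidates -/
structure Pq (A : Geo G X Sm) where
  Γ : ℕ
  q : ℕ
  Q : ℕ
  J : ℕ
  Y : ℕ
  hΓ : 0 < Γ
  hq : 2 ≤ q
  hQ : 8 * Γ ≤ Q
  hJ : q + 1 ≤ J
  hY : 4 ≤ Y

/-- the bound for the number of candidates in a window of time -/
def Geo.Kc (A : Geo G X Sm) (Q J ρ : ℕ) : ℕ := A.Cs Q (2 * ρ + J + 1) ^ 2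

namespace Pq

variable {A : Geo G X Sm} (B : Pq A)

/-- straight paths with controlled speed -/
structure Gp (W : ℕ) (p : ℕ → X) : Prop where
  str : A.Str W p
  sp : ∃ v : ℝ, 1 / (B.Γ * B.Y) ≤ v ∧ v ≤ 1 / B.Y ∧
    ∀ i ≤ W, ∀ j ≤ W, dist (p i) (p j) = |(i : ℝ) - j| * v

/-- the candidate matches the path at the index `j` -/
def Mc (W : ℕ) (p : ℕ → X) (c : Sm × Sm) (j : ℕ) : Prop :=
  j + B.J * B.Y ≤ W ∧ 0 < A.mg B.Q c.1 (p j) ∧ 0 < A.mg B.Q c.2 (p (j + B.J * B.Y))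

/-- the margin of a candidate -/
noncomputable def pp (W : ℕ) (p : ℕ → X) (c : Sm × Sm) (j : ℤ) : ℝ :=
  if 0 ≤ j ∧ j + B.J * B.Y ≤ W then
    min (A.mg B.Q c.1 (p j.toNat)) (A.mg B.Q c.2 (p (j.toNat + B.J * B.Y))) else 0

/-- the profile of a candidate -/
noncomputable def prf (W : ℕ) (p : ℕ → X) (j0 : ℕ) (c : Sm × Sm) (t : ℝ) : ℝ :=
  max 0 (min 3 (5 - 8 * (A.n + 1) * B.Q * B.pp W p c (j0 + ⌊t * B.Y⌋)))

/-- candidates that match some path at nearby times -/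
def rel (c c' : Sm × Sm) : Prop := ∃ W p, B.Gp W p ∧ ∃ j j' : ℕ, B.Mc W p c j ∧ B.Mc W p c' j' ∧
  |(j : ℤ) - j'| ≤ B.q * B.Y + 1

variable {B} {W W' j0 j j' : ℕ} {p p' : ℕ → X} {c c' : Sm × Sm} {t t' : ℝ}

theorem Q_pos : 0 < B.Q := by have := B.hΓ; have := B.hQ; omega

theorem pp_nat (h : j + B.J * B.Y ≤ W) :
    B.pp W p c j = min (A.mg B.Q c.1 (p j)) (A.mg B.Q c.2 (p (j + B.J * B.Y))) := by
  rw [pp, if_pos ⟨Int.natCast_nonneg j, by exact_mod_cast h⟩, Int.toNat_natCast]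

theorem pp_pos {i : ℤ} (h : 0 < B.pp W p c i) : ∃ j : ℕ, i = j ∧ B.Mc W p c j := by
  unfold pp at h
  split_ifs at h with e
  · obtain ⟨j, rfl⟩ := Int.eq_ofNat_of_zero_le e.1
    rw [Int.toNat_natCast, lt_min_iff] at h
    exact ⟨j, rfl, by exact_mod_cast e.2, h⟩
  · exact absurd h (lt_irrefl _)

theorem prf_mem (W : ℕ) (p : ℕ → X) (j0 : ℕ) (c : Sm × Sm) (t : ℝ) :
    0 ≤ B.prf W p j0 c t ∧ B.prf W p j0 c t ≤ 3 :=
  ⟨le_max_left _ _, max_le (by norm_num) (min_le_left _ _)⟩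

theorem prf_lt : B.prf W p j0 c t < 3 ↔
    1 / (4 * (A.n + 1) * B.Q) < B.pp W p c (j0 + ⌊t * B.Y⌋) := by
  have q0 : (0 : ℝ) < B.Q := Nat.cast_pos.2 Q_pos
  rw [prf, max_lt_iff, min_lt_iff, div_lt_iff₀ (by positivity)]
  exact ⟨fun h => h.2.elim (fun e => absurd e (lt_irrefl _)) fun e => by linarith,
    fun h => ⟨by norm_num, Or.inr (by linarith)⟩⟩

theorem prf_shift (s : ℕ) : B.prf W p (j0 + s) c t = B.prf W p j0 c (t + s / B.Y) := by
  have y0 : (B.Y : ℝ) ≠ 0 := Nat.cast_ne_zero.2 (by have := B.hY; omega)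
  rw [prf, prf, add_mul, div_mul_cancel₀ _ y0, Int.floor_add_natCast, Nat.cast_add, add_assoc,
    add_comm (s : ℤ)]

theorem prf_big (h : j0 + B.J * B.Y ≤ W) (p : ℕ → X) : ∃ c, B.prf W p j0 c 0 ≤ 1 := by
  obtain ⟨c1, h1⟩ := A.mg_big (Q_pos (B := B)) (p j0)
  obtain ⟨c2, h2⟩ := A.mg_big (Q_pos (B := B)) (p (j0 + B.J * B.Y))
  have q0 : (0 : ℝ) < B.Q := Nat.cast_pos.2 Q_pos
  refine ⟨(c1, c2), max_le zero_le_one (min_le_of_right_le ?_)⟩
  rw [zero_mul, Int.floor_zero, add_zero, pp_nat h]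
  have k := le_min h1 h2
  rw [div_le_iff₀ (by positivity)] at k
  linarith

theorem rel_symm (h : B.rel c c') : B.rel c' c := by
  obtain ⟨W, p, a, j, j', b, d, e⟩ := h
  exact ⟨W, p, a, j', j, d, b, by rwa [abs_sub_comm]⟩

theorem Gp.sub (h : B.Gp W p) {i : ℕ} (k : i + W' ≤ W) : B.Gp W' fun j => p (i + j) := by
  obtain ⟨v, a, b, d⟩ := h.sp
  refine ⟨A.sub h.str k, v, a, b, fun x hx y hy => ?_⟩
  rw [d _ (by omega) _ (by omega)]
  push_cast
  rw [add_sub_add_left_eq_sub]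

theorem Gp.stp (h : B.Gp W p) : Stp W (1 / B.Y) p := by
  obtain ⟨v, a, b, d⟩ := h.sp
  exact fun i hi j hj => (d i hi j hj).trans_le (mul_le_mul_of_nonneg_left b (abs_nonneg _))

theorem rl (h : B.Gp W p) (h1 : B.prf W p j0 c t < 3) (h2 : B.prf W p j0 c' t' < 3)
    (k : |t - t'| ≤ B.q) : B.rel c c' := by
  have q0 : (0 : ℝ) < B.Q := Nat.cast_pos.2 Q_pos
  obtain ⟨j, e1, m1⟩ := pp_pos (lt_trans (by positivity) (prf_lt.1 h1))
  obtain ⟨j', e2, m2⟩ := pp_pos (lt_trans (by positivity) (prf_lt.1 h2))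
  refine ⟨W, p, h, j, j', m1, m2, ?_⟩
  have y0 : (0 : ℝ) ≤ B.Y := Nat.cast_nonneg _
  have a1 := mul_le_mul_of_nonneg_right (abs_le.1 k).1 y0
  have a2 := mul_le_mul_of_nonneg_right (abs_le.1 k).2 y0
  have b1 := Int.floor_le (t * B.Y)
  have b2 := Int.lt_floor_add_one (t * B.Y)
  have b3 := Int.floor_le (t' * B.Y)
  have b4 := Int.lt_floor_add_one (t' * B.Y)
  rw [← e1, ← e2, add_sub_add_left_eq_sub]
  have : |((⌊t * B.Y⌋ - ⌊t' * B.Y⌋ : ℤ) : ℝ)| ≤ B.q * B.Y + 1 := by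
    push_cast
    exact abs_le.2 ⟨by linarith, by linarith⟩
  exact_mod_cast this

/-- two points with the same sample are at distance at most `1 / Q` -/
theorem far (h : B.Gp W p) (h1 : B.Mc W p c j) (h2 : B.Mc W p c j') :
    8 * |(j : ℤ) - j'| ≤ B.Y := by
  obtain ⟨v, a, -, d⟩ := h.sp
  have k := A.mg_dist Q_pos h1.2.1 h2.2.1
  rw [d _ (le_of_add_le_left h1.1) _ (le_of_add_le_left h2.1)] at k
  have q0 : (0 : ℝ) < B.Q := Nat.cast_pos.2 Q_pos
  have g0 : (0 : ℝ) < B.Γ := Nat.cast_pos.2 B.hΓ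
  have y0 : (0 : ℝ) < B.Y := Nat.cast_pos.2 (by have := B.hY; omega)
  have q1 : 8 * (B.Γ : ℝ) ≤ B.Q := by exact_mod_cast B.hQ
  have k1 := (mul_le_mul_of_nonneg_left a (abs_nonneg ((j : ℝ) - j'))).trans
    (k.trans (one_div_le_one_div_of_le (by positivity) q1))
  rw [mul_one_div, div_le_div_iff₀ (by positivity) (by positivity)] at k1
  have : 8 * |(j : ℝ) - j'| ≤ B.Y := le_of_mul_le_mul_left (by linarith) g0
  exact_mod_cast this

/-- The speeds `v`, `v'` of two paths that are matched by `c` satisfy `|v - v'| * (J * Y) ≤ 2 / Q`,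
so `|j - j'| * v ≤ 2 / Q + (q * Y + 1) * v'` gives the bound. -/
theorem tco_nat (h : B.Gp W p) (k : B.rel c c') (h1 : B.Mc W p c j) (h2 : B.Mc W p c' j') :
    2 * |(j : ℤ) - j'| ≤ 2 * (B.q * B.Y + 1) + B.Y := by
  obtain ⟨W', p', h', i, i', m1, m2, e⟩ := k
  obtain ⟨v, a, -, d⟩ := h.sp
  obtain ⟨v', -, -, d'⟩ := h'.sp
  have q0 : (0 : ℝ) < B.Q := Nat.cast_pos.2 Q_pos
  have g0 : (0 : ℝ) < B.Γ := Nat.cast_pos.2 B.hΓ
  have y0 : (0 : ℝ) < B.Y := Nat.cast_pos.2 (by have := B.hY; omega)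
  have y1 : (4 : ℝ) ≤ B.Y := by exact_mod_cast B.hY
  have q1 : 8 * (B.Γ : ℝ) ≤ B.Q := by exact_mod_cast B.hQ
  have j1 : (B.q : ℝ) + 1 ≤ B.J := by exact_mod_cast B.hJ
  have q2 : (0 : ℝ) ≤ B.q := Nat.cast_nonneg _
  have v0 : 0 < v := lt_of_lt_of_le (by positivity) a
  have b : 1 / (B.Q : ℝ) ≤ B.Y * v / 8 := by
    rw [div_le_iff₀ (by positivity)] at a
    rw [div_le_iff₀ q0]
    nlinarith [mul_le_mul_of_nonneg_left q1 (mul_pos y0 v0).le]
  have k1 := A.mg_dist Q_pos h1.2.1 m1.2.1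
  have k2 := A.mg_dist Q_pos h1.2.2 m1.2.2
  have k3 := A.mg_dist Q_pos h2.2.1 m2.2.1
  have l1 := d' _ (le_of_add_le_left m1.1) _ m1.1
  have l2 := d _ (le_of_add_le_left h1.1) _ h1.1
  have l3 := d _ (le_of_add_le_left h1.1) _ (le_of_add_le_left h2.1)
  have l4 := d' _ (le_of_add_le_left m1.1) _ (le_of_add_le_left m2.1)
  push_cast at l1 l2
  rw [sub_add_cancel_left, abs_neg, abs_of_nonneg (by positivity)] at l1 l2
  have t1 := dist_triangle4 (p' i) (p j) (p (j + B.J * B.Y)) (p' (i + B.J * B.Y))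
  rw [dist_comm (p' i) (p j)] at t1
  have t2 := dist_triangle4_right (p j) (p j') (p' i) (p' i')
  have e' : |(i : ℝ) - i'| ≤ B.q * B.Y + 1 := by exact_mod_cast e
  have v1 : 0 ≤ v' := by
    have : 0 ≤ (B.J * B.Y : ℝ) * v' := l1 ▸ dist_nonneg
    exact le_of_mul_le_mul_left (by rwa [mul_zero]) (mul_pos (by linarith : (0 : ℝ) < B.J) y0)
  have s1 : B.J * B.Y * (v' - v) ≤ B.Y * v / 4 := by linarith
  have s2 : (B.q * B.Y + 1) * (v' - v) ≤ B.Y * v / 4 := by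
    rcases le_total v' v with r | r
    · exact (mul_nonpos_of_nonneg_of_nonpos (by positivity) (by linarith)).trans (by positivity)
    · exact (mul_le_mul_of_nonneg_right (by nlinarith) (by linarith)).trans s1
  have s3 := mul_le_mul_of_nonneg_right e' v1
  have : 2 * |(j : ℝ) - j'| ≤ 2 * (B.q * B.Y + 1) + B.Y :=
    le_of_mul_le_mul_right (by linarith) v0
  exact_mod_cast this

theorem tco (h : B.Gp W p) (k : B.rel c c') (h1 : B.prf W p j0 c t < 3)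
    (h2 : B.prf W p j0 c' t' < 3) : |t - t'| ≤ B.q + 1 := by
  have q0 : (0 : ℝ) < B.Q := Nat.cast_pos.2 Q_pos
  obtain ⟨j, e1, m1⟩ := pp_pos (lt_trans (by positivity) (prf_lt.1 h1))
  obtain ⟨j', e2, m2⟩ := pp_pos (lt_trans (by positivity) (prf_lt.1 h2))
  have k1 := tco_nat h k m1 m2
  rw [← e1, ← e2, add_sub_add_left_eq_sub] at k1
  have k2 : 2 * |(⌊t * B.Y⌋ : ℝ) - ⌊t' * B.Y⌋| ≤ 2 * (B.q * B.Y + 1) + B.Y := by exact_mod_cast k1
  have y1 : (4 : ℝ) ≤ B.Y := by exact_mod_cast B.hY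
  have b1 := Int.floor_le (t * B.Y)
  have b2 := Int.lt_floor_add_one (t * B.Y)
  have b3 := Int.floor_le (t' * B.Y)
  have b4 := Int.lt_floor_add_one (t' * B.Y)
  have b5 := le_abs_self ((⌊t * B.Y⌋ : ℝ) - ⌊t' * B.Y⌋)
  have b6 := neg_abs_le ((⌊t * B.Y⌋ : ℝ) - ⌊t' * B.Y⌋)
  have y0 : (0 : ℝ) < B.Y := by linarith
  exact abs_le.2 ⟨le_of_mul_le_mul_right (by linarith) y0, le_of_mul_le_mul_right (by linarith) y0⟩

/-- All matched indices lie in `[a, a + 2 * ρ * Y + 1]` for the smallest one `a`; use `A.cnt` for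
the path from `a` of length `min (W - a) ((2 * ρ + J + 1) * Y)`. -/
theorem count (h : B.Gp W p) (j0 : ℕ) (t0 : ℝ) (ρ : ℕ) :
    {c | ∃ t, |t - t0| ≤ ρ ∧ B.prf W p j0 c t < 3}.encard ≤ A.Kc B.Q B.J ρ := by
  have q0 : (0 : ℝ) < B.Q := Nat.cast_pos.2 Q_pos
  have y1 : (4 : ℝ) ≤ B.Y := by exact_mod_cast B.hY
  have y2 := B.hY
  obtain ⟨a, ha⟩ : ∃ a : ℕ, a = (j0 + ⌊(t0 - ρ) * B.Y⌋).toNat := ⟨_, rfl⟩
  have key : ∀ c t, |t - t0| ≤ ρ → B.prf W p j0 c t < 3 →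
      ∃ j, B.Mc W p c j ∧ a ≤ j ∧ j ≤ a + (2 * ρ + 1) * B.Y := fun c t h1 h2 => by
    obtain ⟨j, e1, m1⟩ := pp_pos (lt_trans (by positivity) (prf_lt.1 h2))
    have a1 : ⌊(t0 - ρ) * B.Y⌋ ≤ ⌊t * B.Y⌋ :=
      Int.floor_le_floor (mul_le_mul_of_nonneg_right (by linarith [(abs_le.1 h1).1]) (by linarith))
    have a2 : ⌊t * B.Y⌋ ≤ ⌊(t0 - ρ) * B.Y + ((2 * ρ + 1) * B.Y : ℕ)⌋ := Int.floor_le_floor (by
      push_cast
      nlinarith [(abs_le.1 h1).2])
    rw [Int.floor_add_natCast] at a2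
    exact ⟨j, m1, by omega, by omega⟩
  rcases le_or_gt a W with hW | hW
  swap
  · rw [eq_empty_of_forall_notMem (s := {c | ∃ t, |t - t0| ≤ ρ ∧ B.prf W p j0 c t < 3})
      fun c ⟨t, h1, h2⟩ => by
        obtain ⟨j, m, k, -⟩ := key c t h1 h2
        have := m.1
        omega]
    simp
  have h' := h.sub (i := a) (W' := min (W - a) ((2 * ρ + B.J + 1) * B.Y)) (by omega)
  have k := A.cnt (ρ := 2 * ρ + B.J + 1) (Q_pos (B := B)) h'.str (by positivity)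
    (one_div_le_one_div_of_le (by norm_num) y1) h'.stp (by
      rw [mul_one_div, div_le_iff₀ (by linarith)]
      exact_mod_cast min_le_right _ _)
  have e : (2 * ρ + B.J + 1) * B.Y = (2 * ρ + 1) * B.Y + B.J * B.Y := by ring
  refine le_trans (encard_le_encard fun c hc => ?_)
    (encard_prod.trans_le ((mul_le_mul' k k).trans_eq (by rw [Geo.Kc, sq, Nat.cast_mul])))
  obtain ⟨t, h1, h2⟩ := hc
  obtain ⟨j, m, k1, k2⟩ := key c t h1 h2
  have := m.1
  refine ⟨⟨j - a, by omega, ?_⟩, j - a + B.J * B.Y, by omega, ?_⟩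
  · rw [Nat.add_sub_cancel' k1]
    exact m.2.1
  · rw [← add_assoc, Nat.add_sub_cancel' k1]
    exact m.2.2

/-- For `|u| ≤ R + 1` use `hw`. At the time `t` both margins are positive, so by `far` both
profiles are equal to `3` for `R + 1 < |u|`. -/
theorem close (h : B.Gp W p) (h' : B.Gp W' p') {j1 j2 R : ℕ} {e : ℝ}
    (he : e ≤ 1 / (4 * (A.n + 1) * B.Q))
    (hw : ∀ i : ℤ, |i| ≤ (R + 2) * B.Y → |B.pp W p c (j1 + i) - B.pp W' p' c' (j2 + i)| ≤ e)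
    (ht : |t| ≤ R) (k : B.prf W p j1 c t < 3 ∨ B.prf W' p' j2 c' t < 3) (u : ℝ) :
    |B.prf W p j1 c u - B.prf W' p' j2 c' u| ≤ 8 * (A.n + 1) * B.Q * e := by
  have q0 : (0 : ℝ) < B.Q := Nat.cast_pos.2 Q_pos
  have y1 : (4 : ℝ) ≤ B.Y := by exact_mod_cast B.hY
  have r0 : (0 : ℝ) ≤ R := Nat.cast_nonneg R
  have win : ∀ u : ℝ, |u| ≤ R + 1 → |⌊u * B.Y⌋| ≤ (R + 2) * B.Y := fun u hu => by
    have b1 := Int.floor_le (u * B.Y)
    have b2 := Int.lt_floor_add_one (u * B.Y)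
    have a1 := mul_le_mul_of_nonneg_right (abs_le.1 hu).1 (by linarith : (0 : ℝ) ≤ B.Y)
    have a2 := mul_le_mul_of_nonneg_right (abs_le.1 hu).2 (by linarith : (0 : ℝ) ≤ B.Y)
    have : |((⌊u * B.Y⌋ : ℤ) : ℝ)| ≤ (R + 2) * B.Y := abs_le.2 ⟨by linarith, by linarith⟩
    exact_mod_cast this
  have e0 : 0 ≤ e := (abs_nonneg _).trans (hw 0 (by positivity))
  rcases le_or_gt |u| (R + 1) with hu | hu
  · refine (abs_max_sub_max_le_max _ _ _ _).trans (max_le (by simp; positivity) ?_)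
    refine (abs_min_sub_min_le_max _ _ _ _).trans (max_le (by simp; positivity) ?_)
    rw [sub_sub_sub_cancel_left, ← mul_sub, abs_mul, abs_of_nonneg (by positivity), abs_sub_comm]
    exact mul_le_mul_of_nonneg_left (hw _ (win u hu)) (by positivity)
  have w := abs_le.1 (hw _ (win t (by linarith)))
  have p0 : (0 : ℝ) < 1 / (4 * (A.n + 1) * B.Q) := by positivity
  have k1 : 0 < B.pp W p c (j1 + ⌊t * B.Y⌋) ∧ 0 < B.pp W' p' c' (j2 + ⌊t * B.Y⌋) := by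
    rcases k with k | k <;> rw [prf_lt] at k <;> constructor <;> linarith [w.1, w.2]
  have out : ∀ {W p c} {j : ℕ}, B.Gp W p → 0 < B.pp W p c (j + ⌊t * B.Y⌋) → B.prf W p j c u = 3 :=
    fun {W p c j} h a => le_antisymm (prf_mem ..).2 (le_of_not_gt fun b => by
      obtain ⟨i, e1, m1⟩ := pp_pos a
      obtain ⟨i', e2, m2⟩ := pp_pos (p0.trans (prf_lt.1 b))
      have f := far h m1 m2
      rw [← e1, ← e2, add_sub_add_left_eq_sub] at f
      have f' : 8 * |(⌊t * B.Y⌋ : ℝ) - ⌊u * B.Y⌋| ≤ B.Y := by exact_mod_cast f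
      have b1 := Int.floor_le (t * B.Y)
      have b2 := Int.lt_floor_add_one (t * B.Y)
      have b3 := Int.floor_le (u * B.Y)
      have b4 := Int.lt_floor_add_one (u * B.Y)
      have b5 := le_abs_self ((⌊t * B.Y⌋ : ℝ) - ⌊u * B.Y⌋)
      have b6 := neg_abs_le ((⌊t * B.Y⌋ : ℝ) - ⌊u * B.Y⌋)
      have y0 : (0 : ℝ) < B.Y := by linarith
      have : |u - t| ≤ 1 := abs_le.2
        ⟨le_of_mul_le_mul_right (by linarith) y0, le_of_mul_le_mul_right (by linarith) y0⟩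
      linarith [abs_sub_abs_le_abs_sub u t])
  rw [out h k1.1, out h' k1.2, sub_self, abs_zero]
  positivity

theorem Gp.smul (h : B.Gp W p) (g : G) : B.Gp W fun j => g • p j := by
  obtain ⟨v, a, b, d⟩ := h.sp
  exact ⟨A.smul g h.str, v, a, b, fun i hi j hj => by rw [A.iso, d i hi j hj]⟩

theorem rel_smul (g : G) (h : B.rel c c') : B.rel (g • c) (g • c') := by
  obtain ⟨W, p, a, j, j', b, d, e⟩ := h
  exact ⟨W, _, a.smul g, j, j', ⟨b.1, (A.mg_smul g ..).symm ▸ b.2.1, (A.mg_smul g ..).symm ▸ b.2.2⟩,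
    ⟨d.1, (A.mg_smul g ..).symm ▸ d.2.1, (A.mg_smul g ..).symm ▸ d.2.2⟩, e⟩

theorem prf_smul (g : G) : B.prf W (fun j => g • p j) j0 (g • c) = B.prf W p j0 c := by
  funext t
  simp only [prf, pp, Prod.smul_fst, Prod.smul_snd, A.mg_smul]

/-- elements that relate a candidate to its translate move the matched segment along itself -/
theorem rel_mv (hp : B.Gp W p) (m : B.Mc W p c j) {g : G} (h : B.rel c (g • c)) :
    g ∈ Mv G (fun l => p (j + l)) (B.J * B.Y) (B.q * B.Y + 1) (2 / B.Q) := by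
  obtain ⟨W', p', hp', i, i', n1, n2, e⟩ := h
  refine ⟨i' - i, ?_, fun l l' a1 a2 a3 => ?_⟩
  · rw [abs_sub_comm]
    exact_mod_cast e
  have s0 := A.sub hp.str m.1
  have k1 := A.cvx' s0 (A.sub hp'.str n1.1) (A.mg_dist Q_pos m.2.1 n1.2.1)
    (A.mg_dist Q_pos m.2.2 n1.2.2) a2
  have k2 := A.cvx' (A.smul g s0) (A.sub hp'.str n2.1)
    (A.mg_dist Q_pos ((A.mg_smul g ..).symm ▸ m.2.1) n2.2.1)
    (A.mg_dist Q_pos ((A.mg_smul g ..).symm ▸ m.2.2) n2.2.2) a1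
  rw [show i + l' = i' + l by omega] at k1
  exact (dist_triangle_right _ _ _).trans ((add_le_add k2 k1).trans_eq (by ring))

end Pq

end Pool.Agent.Work.MP_9d1ffa_al.Ga
end

-- merged part: Pool.Agent.Work.MP_9d1ffa_al.Ga.Tw
section
/-! Thresholds that are in general position for all paths. -/

namespace Pool.Agent.Work.MP_9d1ffa_al.Ga

open Set WL

variable {G X Sm : Type} [Group G] [MetricSpace X] [MulAction G X] [MulAction G Sm]

/-- the number of possible thresholds -/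
def Geo.Kf (A : Geo G X Sm) (Q J q R : ℕ) : ℕ :=
  A.Us Q (2 * (R + q + 3) + J) * (96 * (A.n + 1) * Q) ^ A.D * A.Kc Q J (R + q + 1) ^ (A.D + 1) + 1

namespace Pq

variable {A : Geo G X Sm} {B : Pq A} {W W' : ℕ} {p p' : ℕ → X}

/-- a candidate near the centre of a window has a partner along a window of the same type -/
theorem transfer (h : B.Gp W p) (h' : B.Gp W' p') {a a' R : ℕ} {e : ℝ}
    (ha : a + (2 * (R + 2) + B.J) * B.Y ≤ W) (ha' : a' + (2 * (R + 2) + B.J) * B.Y ≤ W')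
    (he : e ≤ 1 / (4 * (A.n + 1) * B.Q))
    (h1 : ∀ c, ∀ l ≤ (2 * (R + 2) + B.J) * B.Y, 0 < A.mg B.Q c (p (a + l)) →
      ∃ c', ∀ j ≤ (2 * (R + 2) + B.J) * B.Y,
        |A.mg B.Q c (p (a + j)) - A.mg B.Q c' (p' (a' + j))| ≤ e)
    {c : Sm × Sm} {t : ℝ} (ht : |t| ≤ R) (k : B.prf W p (a + (R + 2) * B.Y) c t < 3) :
    ∃ c', ∀ u, |B.prf W p (a + (R + 2) * B.Y) c u - B.prf W' p' (a' + (R + 2) * B.Y) c' u| ≤
      8 * (A.n + 1) * B.Q * e := by
  have hQ : (0 : ℝ) < B.Q := by exact_mod_cast B.Q_pos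
  have e0 : (2 * (R + 2) + B.J) * B.Y = 2 * (R * B.Y) + 4 * B.Y + B.J * B.Y := by ring
  have e1 : (R + 2) * B.Y = R * B.Y + 2 * B.Y := by ring
  obtain ⟨j, j1, j2⟩ := pp_pos (lt_trans (by positivity) (prf_lt.1 k))
  have hY : (0 : ℝ) ≤ B.Y := Nat.cast_nonneg _
  have f1 : -((R * B.Y : ℕ) : ℤ) ≤ ⌊t * B.Y⌋ := Int.le_floor.2 (by
    push_cast
    nlinarith [(abs_le.1 ht).1])
  have f2 : ⌊t * B.Y⌋ ≤ ((R * B.Y : ℕ) : ℤ) := by
    have : (⌊t * B.Y⌋ : ℝ) ≤ ((R * B.Y : ℕ) : ℤ) := (Int.floor_le _).trans (by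
      push_cast
      nlinarith [(abs_le.1 ht).2])
    exact_mod_cast this
  obtain ⟨l, rfl⟩ : ∃ l, j = a + l := Nat.exists_eq_add_of_le (by omega)
  obtain ⟨c1, g1⟩ := h1 c.1 l (by omega) j2.2.1
  obtain ⟨c2, g2⟩ := h1 c.2 (l + B.J * B.Y) (by omega) (by rw [← add_assoc]; exact j2.2.2)
  refine ⟨(c1, c2), close h h' he (fun i hi => ?_) ht (Or.inl k)⟩
  have hi' : |i| ≤ (((R + 2) * B.Y : ℕ) : ℤ) := by push_cast; exact hi
  have hi2 := abs_le.1 hi'
  obtain ⟨m, hm⟩ : ∃ m : ℕ, (m : ℤ) = ((R + 2) * B.Y : ℕ) + i :=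
    ⟨(((R + 2) * B.Y : ℕ) + i).toNat, Int.toNat_of_nonneg (by omega)⟩
  have a1 : ((a + (R + 2) * B.Y : ℕ) : ℤ) + i = (a + m : ℕ) := by omega
  have a2 : ((a' + (R + 2) * B.Y : ℕ) : ℤ) + i = (a' + m : ℕ) := by omega
  rw [a1, a2, pp_nat (by omega), pp_nat (by omega), add_assoc, add_assoc]
  exact (abs_min_sub_min_le_max _ _ _ _).trans (max_le (g1 m (by omega)) (g2 _ (by omega)))

/-- thresholds in general position: `Gb.exists_thr` for the types of the windows -/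
theorem thresholds (B : Pq A) (R : ℕ) (hR : 0 < R) : ∃ θ : Fin (A.D + 1) → ℝ,
    (∀ s, 1 < θ s ∧ θ s + 2 * (1 / (12 * A.Kf B.Q B.J B.q R)) ≤ 2) ∧
    ∀ (W : ℕ) (p : ℕ → X) (j0 : ℕ), B.Gp W p → (R + B.q + 3) * B.Y ≤ j0 →
      j0 + (R + B.q + 3 + B.J) * B.Y ≤ W → ∃ s, ∀ c, kk R (B.prf W p j0 c) = 0 ∨
        2 * (1 / (12 * A.Kf B.Q B.J B.q R)) ≤ |tau (B.prf W p j0 c) - θ s| := by
  obtain ⟨K, hK⟩ : ∃ K, K = A.Kf B.Q B.J B.q R := ⟨_, rfl⟩
  have K0 : 0 < K := by rw [hK]; exact Nat.succ_pos _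
  have K1 : (1 : ℝ) ≤ K := by exact_mod_cast K0
  have hQ : (0 : ℝ) < B.Q := by exact_mod_cast B.Q_pos
  have hY : (4 : ℝ) ≤ B.Y := by exact_mod_cast B.hY
  obtain ⟨cd, c1, c2⟩ := A.typ B.Q (2 * (R + B.q + 1 + 2) + B.J) (96 * (A.n + 1) * B.Q * K)
    ((2 * (R + B.q + 1 + 2) + B.J) * B.Y) B.Q_pos (by have := B.Q_pos; positivity)
  have e0 : (2 * (R + B.q + 1 + 2) + B.J) * B.Y =
      (R + B.q + 1 + 2) * B.Y + (R + B.q + 3 + B.J) * B.Y := by ring
  obtain ⟨θ, t1, t2⟩ := Gb.exists_thr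
    (Y := {x : ℕ × (ℕ → X) × ℕ // B.Gp x.1 x.2.1 ∧
      x.2.2 + (2 * (R + B.q + 1 + 2) + B.J) * B.Y ≤ x.1})
    (fun x => cd fun l => x.1.2.1 (x.1.2.2 + l))
    (fun x => {v | v < 2 ∧ ∃ c, v = tau (B.prf x.1.1 x.1.2.1 (x.1.2.2 + (R + B.q + 1 + 2) * B.Y) c) ∧
      ∃ t : ℝ, |t| < R ∧ B.prf x.1.1 x.1.2.1 (x.1.2.2 + (R + B.q + 1 + 2) * B.Y) c t < 3})
    (fun x => (fun c => tau (B.prf x.1.1 x.1.2.1 (x.1.2.2 + (R + B.q + 1 + 2) * B.Y) c)) ''
      {c | ∃ t : ℝ, |t - 0| ≤ (R + B.q + 1 : ℕ) ∧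
        B.prf x.1.1 x.1.2.1 (x.1.2.2 + (R + B.q + 1 + 2) * B.Y) c t < 3})
    (N := A.Us B.Q (2 * (R + B.q + 1 + 2) + B.J) * (96 * (A.n + 1) * B.Q * K) ^ A.D) (K := K)
    (Kw := A.Kc B.Q B.J (R + B.q + 1)) (D := A.D)
    (by
      refine (encard_le_encard (t := (Finset.range _ : Set ℕ)) ?_).trans
        (by rw [encard_coe_eq_coe_finsetCard, Finset.card_range])
      rintro _ ⟨x, rfl⟩
      exact Finset.mem_coe.2 (Finset.mem_range.2 (c1 _)))
    (by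
      have e : K = A.Us B.Q (2 * (R + B.q + 1 + 2) + B.J) * (96 * (A.n + 1) * B.Q) ^ A.D *
        A.Kc B.Q B.J (R + B.q + 1) ^ (A.D + 1) + 1 := hK
      rw [mul_pow, ← mul_assoc, mul_right_comm, pow_succ' K]
      exact Nat.mul_lt_mul_of_pos_right (by omega) (pow_pos K0 _))
    (fun x => (encard_image_le _ _).trans (count x.2.1 _ 0 _))
    (by
      rintro ⟨⟨W, p, a⟩, h, ha⟩ ⟨⟨W', p', a'⟩, h', ha'⟩ e v ⟨v2, c, rfl, t, t1, t2⟩
      dsimp only at h ha h' ha' e v2 t2 ⊢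
      obtain ⟨u, hu⟩ := tau_lt v2
      have u3 := hu.trans (by norm_num : (2 : ℝ) < 3)
      have r1 := tco h (rl h t2 t2 (by simp)) t2 u3
      have r2 : |u| ≤ (R + B.q + 1 : ℕ) := by
        have := abs_sub_abs_le_abs_sub u t
        rw [abs_sub_comm] at this
        push_cast
        linarith
      obtain ⟨c', hc⟩ := transfer h h' (e := 1 / (96 * (A.n + 1) * B.Q * K : ℕ)) ha ha' (by
          push_cast
          refine one_div_le_one_div_of_le (by positivity) ?_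
          have : (0 : ℝ) < (A.n + 1) * B.Q := by positivity
          nlinarith)
        (c2 (1 / B.Y) _ _ (h.sub ha).str (h'.sub ha').str (by positivity)
          (one_div_le_one_div_of_le (by norm_num) hY) (h.sub ha).stp (h'.sub ha').stp
          (le_of_eq (by push_cast; field_simp)) e) r2 u3
      have e1 : 8 * ((A.n : ℝ) + 1) * B.Q * (1 / (96 * (A.n + 1) * B.Q * K : ℕ)) =
          1 / (12 * (K : ℝ)) := by
        push_cast
        field_simp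
        norm_num
      rw [e1] at hc
      have e2 : 1 / (12 * (K : ℝ)) ≤ 1 := (div_le_one (by positivity)).2 (by linarith)
      refine ⟨_, ⟨c', ⟨u, by rwa [sub_zero], ?_⟩, rfl⟩,
        tau_close (fun t => (prf_mem _ _ _ _ _).1) (fun t => (prf_mem _ _ _ _ _).1) hc⟩
      linarith [(abs_le.1 (hc u)).1])
  rw [← hK]
  refine ⟨θ, t1, fun W p j0 h k1 k2 => ?_⟩
  obtain ⟨a, rfl⟩ : ∃ a, j0 = a + (R + B.q + 1 + 2) * B.Y := Nat.exists_eq_add_of_le' k1
  obtain ⟨s, hs⟩ := t2 ⟨(W, p, a), h, by dsimp only; omega⟩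
  refine ⟨s, fun c => or_iff_not_imp_left.2 fun k => ?_⟩
  obtain ⟨t, a1, a2⟩ := kk_ne (by exact_mod_cast hR) (fun t => (prf_mem _ _ _ _ _).2) k
  by_cases v2 : tau (B.prf W p (a + (R + B.q + 1 + 2) * B.Y) c) < 2
  · exact hs _ ⟨v2, c, rfl, t, a1, a2⟩
  · exact le_trans (by linarith [(t1 s).2, not_lt.1 v2]) (le_abs_self _)

end Pq

end Pool.Agent.Work.MP_9d1ffa_al.Ga
end

-- merged part: Pool.Agent.Work.MP_9d1ffa_al.Gb.Sel
section
/-! Long thin covers with ranks that depend on the set of present candidates. -/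

namespace Pool.Agent.Work.MP_9d1ffa_al.Gb

open Set Pool.Agent.Work.MP_9d1ffa_al.WL

section

variable {C : Type*}

/-- iterated colour reduction among the present candidates -/
def colr (rel : C → C → Prop) (F : ℕ → ℕ → Set ℕ → ℕ) (c0 : C → ℕ) (P : C → Prop) : ℕ → C → ℕ
  | 0 => c0
  | k + 1 => fun c =>
      F k (colr rel F c0 P k c) {x | ∃ c', P c' ∧ rel c' c ∧ colr rel F c0 P k c' = x}

variable {rel : C → C → Prop} {F : ℕ → ℕ → Set ℕ → ℕ} {c0 : C → ℕ} {P P' : C → Prop}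

theorem colr_equiv (e : C ≃ C) (h1 : ∀ c c', rel (e c) (e c') ↔ rel c c')
    (h2 : ∀ c, c0 (e c) = c0 c) (h3 : ∀ c, P' (e c) ↔ P c) (k : ℕ) (c : C) :
    colr rel F c0 P' k (e c) = colr rel F c0 P k c := by
  induction k generalizing c with
  | zero => exact h2 c
  | succ k ih =>
    simp only [colr]
    rw [ih]
    congr 1
    ext x
    simp only [mem_ofPred_eq]
    rw [e.surjective.exists]
    simp only [h1, h3, ih]

theorem act_equiv' {rk rk' : C → ℕ} (e : C ≃ C)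
    (h1 : ∀ c c', rel (e c) (e c') ↔ rel c c') (h2 : ∀ c, rk' (e c) = rk c)
    (h3 : ∀ c, P' (e c) ↔ P c) (c : C) : Act rel rk' P' (e c) ↔ Act rel rk P c := by
  induction hn : rk c using Nat.strong_induction_on generalizing c with
  | _ n ih =>
    rw [act_iff, act_iff (c := c), h3, e.surjective.forall]
    refine and_congr_right fun _ => forall_congr' fun c' => ?_
    rw [h1, h2, h2]
    exact imp_congr_right fun _ => imp_congr_right fun k => not_congr (ih _ (hn ▸ k) c' rfl)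

theorem colr_local (V : ℕ → C → Prop) (h0 : ∀ n c, V (n + 1) c → V n c)
    (h1 : ∀ n c, V n c → (P c ↔ P' c))
    (h2 : ∀ n c c', V (n + 1) c → P c → P' c → rel c' c → P c' ∨ P' c' → V n c')
    (k : ℕ) (c : C) (hc : V k c) (hp : P c) : colr rel F c0 P k c = colr rel F c0 P' k c := by
  induction k generalizing c with
  | zero => rfl
  | succ k ih =>
    simp only [colr]
    rw [ih c (h0 _ _ hc) hp]
    congr 1
    ext x
    refine exists_congr fun c' => ⟨fun ⟨a, b, d⟩ => ?_, fun ⟨a, b, d⟩ => ?_⟩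
    · have v := h2 k c c' hc hp ((h1 _ c hc).1 hp) b (Or.inl a)
      exact ⟨(h1 _ _ v).1 a, b, ih c' v a ▸ d⟩
    · have v := h2 k c c' hc hp ((h1 _ c hc).1 hp) b (Or.inr a)
      exact ⟨(h1 _ _ v).2 a, b, (ih c' v ((h1 _ _ v).2 a)).trans d⟩

theorem sel_local (V : ℕ → C → Prop) (h0 : ∀ n c, V (n + 1) c → V n c)
    (h1 : ∀ n c, V n c → (P c ↔ P' c))
    (h2 : ∀ n c c', V (n + 1) c → P c → P' c → rel c' c → P c' ∨ P' c' → V n c')
    (r n : ℕ) (c : C) (hc : V (r + n) c) (hn : colr rel F c0 P r c ≤ n) :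
    Act rel (colr rel F c0 P r) P c ↔ Act rel (colr rel F c0 P' r) P' c := by
  have h4 : ∀ n c, V (r + n) c → V r c := fun n => by
    induction n with
    | zero => exact fun _ h => h
    | succ n ih => exact fun c h => ih c (h0 _ _ h)
  have h5 : ∀ n c, V (r + n) c → P c → colr rel F c0 P r c = colr rel F c0 P' r c :=
    fun n c a b => colr_local V h0 h1 h2 r c (h4 n c a) b
  induction n generalizing c with
  | zero =>
    rw [act_iff, act_iff (P := P'), ← h1 _ c hc]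
    refine and_congr_right fun hp => forall_congr' fun c' => ?_
    have := h5 0 c hc hp
    exact imp_congr_right fun _ => iff_of_true (fun k => by omega) fun k => by omega
  | succ n ih =>
    rw [act_iff, act_iff (P := P'), ← h1 _ c hc]
    refine and_congr_right fun hp => forall_congr' fun c' => imp_congr_right fun hr => ?_
    by_cases hq : P c' ∨ P' c'
    · have v := h2 (r + n) c c' hc hp ((h1 _ c hc).1 hp) hr hq
      have a : P c' := hq.elim (fun a => a) (h1 _ _ v).2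
      rw [← h5 _ c hc hp, ← h5 _ c' v a]
      exact imp_congr_right fun k => not_congr (ih c' v (by omega))
    · exact iff_of_true (fun _ a => hq (Or.inl (act_iff.1 a).1))
        fun _ a => hq (Or.inr (act_iff.1 a).1)

/-- equal colours of present related candidates come from equal initial classes -/
theorem colr_sep {O : C → C → Prop} {b : ℕ → ℕ} {Δ : ℕ} (symm : ∀ c c', rel c c' → rel c' c)
    (f1 : ∀ k x X, F k x X < b (k + 1))
    (f2 : ∀ k x y (X X' : Set ℕ), x < b k → y < b k → x ≠ y → y ∈ X → X.encard ≤ Δ → X'.encard ≤ Δ →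
      F k x X ≠ F k y X')
    (h0 : ∀ c, P c → c0 c < b 0) (h1 : ∀ c c', P c → P c' → c0 c = c0 c' → O c c')
    (h2 : ∀ c, P c → {c' | P c' ∧ rel c' c}.encard ≤ Δ) (k : ℕ) (c c' : C) (a : P c) (a' : P c')
    (r : rel c c') (e : colr rel F c0 P k c = colr rel F c0 P k c') : O c c' := by
  have k1 : ∀ k c, P c → colr rel F c0 P k c < b k := fun k c a => by
    cases k with
    | zero => exact h0 c a
    | succ k => exact f1 k _ _
  have k2 : ∀ k c, P c →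
      {x | ∃ c', P c' ∧ rel c' c ∧ colr rel F c0 P k c' = x}.encard ≤ Δ := fun k c a => by
    refine le_trans (le_of_eq_of_le ?_ (encard_image_le (colr rel F c0 P k) _)) (h2 c a)
    congr 1
    ext x
    simp only [mem_ofPred_eq, mem_image, and_assoc]
  induction k with
  | zero => exact h1 c c' a a' e
  | succ k ih =>
    refine ih (by_contra fun n => ?_)
    refine f2 k _ _ _ _ (k1 k c a) (k1 k c' a') n ?_ (k2 k c a) (k2 k c' a') e
    exact ⟨c', a', symm _ _ r, rfl⟩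

end

/-- candidates with initial colours, reduction maps, atoms and thresholds -/
structure LayS (C Ω σ : Type*) where
  rel : C → C → Prop
  F : ℕ → ℕ → Set ℕ → ℕ
  c0 : C → ℕ
  r : ℕ
  K0 : ℕ
  atm : C → Ω
  q : ℝ
  θ : σ → ℝ
  δ : ℝ
  symm : ∀ c c', rel c c' → rel c' c
  rkM : ∀ P c, colr rel F c0 P r c ≤ K0
  q2 : 2 ≤ q
  δ0 : 0 < δ
  δ1 : 2 * δ ≤ 1
  θ1 : ∀ s, 1 < θ s
  θ2 : ∀ s, θ s + 2 * δ ≤ 2

namespace LayS

variable {C Ω σ E : Type*} [NormedAddCommGroup E] (X : LayS C Ω σ)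

/-- the locality radius -/
def M : ℕ := X.r + X.K0

/-- the rank of a candidate -/
def rk (s : σ) (p : C → E → ℝ) : C → ℕ := colr X.rel X.F X.c0 (fun c => tau (p c) < X.θ s) X.r

/-- present related candidates of the same rank have the same atom -/
def Sep (p : C → E → ℝ) : Prop :=
  ∀ s c c', tau (p c) < X.θ s → tau (p c') < X.θ s → X.rel c c' → X.rk s p c = X.rk s p c' →
    X.atm c = X.atm c'

/-- profiles that are coherent in time -/
structure Prof (p : C → E → ℝ) : Prop where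
  p0 : ∀ c t, 0 ≤ p c t
  p3 : ∀ c t, p c t ≤ 3
  rl : ∀ c c' t t', p c t < 3 → p c' t' < 3 → ‖t - t'‖ ≤ X.q → X.rel c c'
  tco : ∀ c c' t t', X.rel c c' → p c t < 3 → p c' t' < 3 → ‖t - t'‖ ≤ X.q + 1

/-- how close the profile is to the threshold of the system `s` -/
noncomputable def bad (s : σ) (p : C → E → ℝ) : ℝ :=
  ⨆ c, bt X.δ (X.θ s) (kk (LtR X.q X.M) (p c)) (tau (p c))

/-- the candidates chosen in the system `s` -/
def act (s : σ) (p : C → E → ℝ) (c : C) : Prop :=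
  Act X.rel (X.rk s p) (fun c => tau (p c) < X.θ s) c

/-- the time weight of a chosen candidate with atom `a` -/
noncomputable def w0 (s : σ) (p : C → E → ℝ) (a : Ω) (c : C) : ℝ :=
  ite0 (X.act s p c ∧ X.atm c = a) (kk (2 * X.q) (p c))

/-- the weight -/
noncomputable def W (p : C → E → ℝ) (a : Ω) : ℝ := ⨆ s, (1 - X.bad s p) * ⨆ c, X.w0 s p a c

theorem r0 : 0 < 2 * X.q := by linarith [X.q2]

theorem R0 : 0 < LtR X.q X.M := by linarith [X.q2, LtR_ge X.q2 X.M]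

theorem bad_mem (s : σ) (p : C → E → ℝ) : 0 ≤ 1 - X.bad s p ∧ 1 - X.bad s p ≤ 1 := by
  have := Lt_sup_mem fun c => bt_mem X.δ (X.θ s) (kk (LtR X.q X.M) (p c)) (tau (p c))
  unfold bad
  exact ⟨by linarith [this.2], by linarith [this.1]⟩

variable {X} {p p' : C → E → ℝ}

theorem w0_mem (h : ∀ c t, p c t ≤ 3) (s : σ) (a : Ω) (c : C) :
    0 ≤ X.w0 s p a c ∧ X.w0 s p a c ≤ 1 := by
  unfold w0 ite0
  split_ifs
  exacts [kk_mem X.r0 (h c), ⟨le_rfl, zero_le_one⟩]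

theorem w1_mem (h : ∀ c t, p c t ≤ 3) (a : Ω) (s : σ) :
    0 ≤ (1 - X.bad s p) * ⨆ c, X.w0 s p a c ∧ (1 - X.bad s p) * ⨆ c, X.w0 s p a c ≤ 1 :=
  Lt_mul_mem (X.bad_mem s p) (Lt_sup_mem (w0_mem h s a))

theorem W_mem (h : ∀ c t, p c t ≤ 3) (a : Ω) : 0 ≤ X.W p a ∧ X.W p a ≤ 1 :=
  Lt_sup_mem (w1_mem h a)

theorem W_equiv (e : C ≃ C) (φ : Ω → Ω) (hφ : Function.Injective φ)
    (h1 : ∀ c c', X.rel (e c) (e c') ↔ X.rel c c') (h2 : ∀ c, X.c0 (e c) = X.c0 c)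
    (h3 : ∀ c, X.atm (e c) = φ (X.atm c)) (h4 : ∀ c, p' (e c) = p c) (a : Ω) :
    X.W p' (φ a) = X.W p a := by
  refine iSup_congr fun s => ?_
  have k1 : X.bad s p' = X.bad s p := by
    unfold bad
    rw [← e.surjective.iSup_comp]
    simp only [h4]
  have k2 : ∀ c, X.w0 s p' (φ a) (e c) = X.w0 s p a c := fun c => by
    have k : X.act s p' (e c) ↔ X.act s p c :=
      act_equiv' e h1 (colr_equiv e h1 h2 (fun c => by rw [h4]) X.r) (fun c => by rw [h4]) c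
    simp only [w0, k, h3, h4, hφ.eq_iff]
  rw [k1, ← e.surjective.iSup_comp (X.w0 s p' (φ a))]
  simp only [k2]

theorem W_shift (h : ∀ c t, p c t ≤ 3) (u : E) (a : Ω) :
    |X.W (fun c t => p c (t + u)) a - X.W p a| ≤ ‖u‖ / X.q := by
  have q0 : 0 < X.q := by linarith [X.q2]
  have h' : ∀ c t, (fun c t => p c (t + u)) c t ≤ 3 := fun c t => h c _
  refine Lt_sup_abs (by positivity) (w1_mem h' a) (w1_mem h a) fun s => ?_
  have k1 : |(1 - X.bad s fun c t => p c (t + u)) - (1 - X.bad s p)| ≤ ‖u‖ / (2 * X.q) := by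
    rw [sub_sub_sub_cancel_left, abs_sub_comm]
    refine Lt_sup_abs (by positivity) (fun _ => bt_mem ..) (fun _ => bt_mem ..) fun c => ?_
    refine bt_close X.δ0 ?_ ?_
    · have k := kk_shift X.R0 (h c) u
      have k' : ‖u‖ / LtR X.q X.M ≤ ‖u‖ / (4 * X.q) := by gcongr; exact LtR_ge X.q2 _
      have e : ‖u‖ / (2 * X.q) = 2 * (‖u‖ / (4 * X.q)) := by field_simp; ring
      linarith
    · rw [tau_shift, sub_self, abs_zero]
      have := X.δ0
      positivity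
  have k2 : |(⨆ c, X.w0 s (fun c t => p c (t + u)) a c) - ⨆ c, X.w0 s p a c| ≤
      ‖u‖ / (2 * X.q) := by
    refine Lt_sup_abs (by positivity) (w0_mem h' s a) (w0_mem h s a) fun c => ?_
    have k : X.act s (fun c t => p c (t + u)) c ↔ X.act s p c := by
      simp only [act, rk, tau_shift]
    exact ite0_abs (and_congr_left' k) (kk_shift X.r0 (h c) u)
  refine (Lt_mul_abs (X.bad_mem s _) (Lt_sup_mem (w0_mem h s a)) k1 k2).trans ?_
  exact le_of_eq (by field_simp; ring)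

theorem w0_ne (h : ∀ c t, p c t ≤ 3) {s : σ} {a : Ω} {c : C} (k : X.w0 s p a c ≠ 0) :
    X.act s p c ∧ X.atm c = a ∧ ∃ t, ‖t‖ < 2 * X.q ∧ p c t < 3 := by
  unfold w0 ite0 at k
  split_ifs at k with e
  exacts [⟨e.1, e.2, kk_ne X.r0 (h c) k⟩, absurd rfl k]

theorem W_ne (h : ∀ c t, p c t ≤ 3) {a : Ω} (k : X.W p a ≠ 0) :
    ∃ s c, X.act s p c ∧ X.atm c = a ∧ ∃ t, ‖t‖ < 2 * X.q ∧ p c t < 3 := by
  obtain ⟨s, hs⟩ := Lt_sup_ne k
  obtain ⟨c, hc⟩ := Lt_sup_ne (right_ne_zero_of_mul hs)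
  exact ⟨s, c, w0_ne h hc⟩

theorem act_same (hs : X.Sep p) {s : σ} {c c' : C} (h : X.act s p c) (h' : X.act s p c')
    (k : X.rel c c') : X.atm c = X.atm c' := by
  refine hs s c c' (act_iff.1 h).1 (act_iff.1 h').1 k
    (le_antisymm (le_of_not_gt fun e => ?_) (le_of_not_gt fun e => ?_))
  exacts [(act_iff.1 h).2 c' (X.symm _ _ k) e h', (act_iff.1 h').2 c k e h]

theorem W_big (h : X.Prof p) {c : C} (hc : p c 0 ≤ 1) {s : σ}
    (hs : ∀ c, kk (LtR X.q X.M) (p c) = 0 ∨ 2 * X.δ ≤ |tau (p c) - X.θ s|) :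
    ∃ a, 1 / 4 ≤ X.W p a := by
  have k0 : X.bad s p = 0 := by simp only [bad, fun c => bt_zero X.δ0 (hs c), Real.iSup_const_zero]
  obtain ⟨c', t, h1, h2, h3⟩ : ∃ c' t, X.act s p c' ∧ p c' t ≤ 2 ∧ ‖t‖ ≤ X.q + 1 := by
    by_cases k : X.act s p c
    · exact ⟨c, 0, k, by linarith, by rw [norm_zero]; linarith [X.q2]⟩
    · have hp : tau (p c) < X.θ s := (tau_le (h.p0 c) 0).trans_lt (hc.trans_lt (X.θ1 s))
      have k' : ¬∀ c', X.rel c' c → X.rk s p c' < X.rk s p c → ¬X.act s p c' :=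
        fun e => k (act_iff.2 ⟨hp, e⟩)
      push Not at k'
      obtain ⟨c', r1, -, r2⟩ := k'
      obtain ⟨t, ht⟩ := tau_lt (act_iff.1 r2).1
      have ht' : p c' t < 2 := by linarith [X.θ2 s, X.δ0]
      exact ⟨c', t, r2, ht'.le, by simpa using h.tco c' c t 0 r1 (by linarith) (by linarith)⟩
  refine ⟨X.atm c', le_trans ?_ (Lt_le_sup (fun s => (w1_mem h.p3 _ s).2) s)⟩
  rw [k0, sub_zero, one_mul]
  refine le_trans ?_ (Lt_le_sup (fun c => (w0_mem h.p3 s _ c).2) c')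
  rw [w0, ite0, if_pos ⟨h1, rfl⟩]
  refine le_trans ?_ (kk_ge X.r0 (h.p3 c') h2)
  have : ‖t‖ / (2 * X.q) ≤ 3 / 4 := by rw [div_le_iff₀ X.r0]; linarith [X.q2]
  linarith

theorem Prof.self (h : X.Prof p) {c : C} {t t' : E} (k : p c t < 3) (k' : p c t' < 3) :
    ‖t‖ ≤ ‖t'‖ + (X.q + 1) := by
  have := h.tco c c t t' (h.rl c c t t k k (by rw [sub_self, norm_zero]; linarith [X.q2])) k k'
  linarith [norm_sub_norm_le t t']

theorem act_close (h : X.Prof p) (h' : X.Prof p') {s : σ} (hb : X.bad s p < 1)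
    (cl : ∀ c t, ‖t‖ ≤ LtR X.q X.M → p c t < 3 ∨ p' c t < 3 → ∀ u, |p c u - p' c u| ≤ X.δ)
    {c : C} {t : E} (ht : ‖t‖ ≤ 2 * X.q) (hc : p c t < 3 ∨ p' c t < 3) :
    X.act s p c ↔ X.act s p' c := by
  have q2 := X.q2
  have d0 := X.δ0
  have d1 := X.δ1
  have t2 := X.θ2 s
  have key : ∀ (n : ℕ) c t, ‖t‖ ≤ 2 * X.q + 2 * (X.M - n) * (X.q + 1) →
      p c t < 3 ∨ p' c t < 3 → (∀ u, |p c u - p' c u| ≤ X.δ) ∧
      ∀ u, p c u < 2 → ‖u‖ ≤ ‖t‖ + (X.q + 1) ∧ p' c u < 3 ∧ 2 * ‖u‖ ≤ LtR X.q X.M := by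
    intro n c t ht hc
    have e1 : 0 ≤ (n : ℝ) * (X.q + 1) := by positivity
    have e2 : 2 * (‖t‖ + (X.q + 1)) ≤ LtR X.q X.M := by unfold LtR; nlinarith
    have k := cl c t (by linarith [norm_nonneg t]) hc
    refine ⟨k, fun u hu => ?_⟩
    have hu' : p' c u < 3 := by linarith [(abs_le.1 (k u)).1]
    have : ‖u‖ ≤ ‖t‖ + (X.q + 1) :=
      hc.elim (fun e => h.self (by linarith) e) fun e => h'.self hu' e
    exact ⟨this, hu', by linarith⟩
  refine sel_local (fun n c => ∃ t, ‖t‖ ≤ 2 * X.q + 2 * (X.M - n) * (X.q + 1) ∧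
    (p c t < 3 ∨ p' c t < 3)) ?_ ?_ ?_ X.r X.K0 c ⟨t, by simpa [M] using ht, hc⟩ (X.rkM _ c)
  · rintro n c ⟨t, ht, hc⟩
    refine ⟨t, ?_, hc⟩
    push_cast at ht
    linarith
  · rintro n c ⟨t, ht, hc⟩
    obtain ⟨k1, k2⟩ := key n c t ht hc
    have k3 := abs_le.1 (tau_close (h.p0 c) (h'.p0 c) k1)
    have k4 : X.δ < |tau (p c) - X.θ s| := by
      by_cases e : tau (p c) < 2
      · obtain ⟨u, hu⟩ := tau_lt e
        exact bt_lt d0 (kk_half X.R0 (h.p3 c) hu.le (k2 u hu).2.2)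
          (lt_of_le_of_lt (Lt_le_sup (g := fun c => bt X.δ (X.θ s) (kk (LtR X.q X.M) (p c))
            (tau (p c))) (fun c => (bt_mem _ _ _ _).2) c) hb)
      · exact lt_abs.2 (Or.inl (by linarith [t2]))
    rcases lt_abs.1 k4 with k4 | k4
    · exact iff_of_false (by linarith) (by linarith)
    · exact iff_of_true (by linarith) (by linarith)
  · rintro n c c' ⟨t, ht, hc⟩ hp - hr hq
    obtain ⟨u, hu⟩ := tau_lt hp
    obtain ⟨k1, k2, -⟩ := (key _ c t ht hc).2 u (by linarith [t2])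
    have k3 : ∀ v, ‖v - u‖ ≤ X.q + 1 → ‖v‖ ≤ 2 * X.q + 2 * (X.M - n) * (X.q + 1) := fun v hv => by
      push_cast at ht
      linarith [norm_sub_norm_le v u]
    rcases hq with hq | hq
    · obtain ⟨v, hv⟩ := tau_lt hq
      exact ⟨v, k3 v (h.tco c' c v u hr (by linarith [t2]) (by linarith [t2])),
        Or.inl (by linarith [t2])⟩
    · obtain ⟨v, hv⟩ := tau_lt hq
      exact ⟨v, k3 v (h'.tco c' c v u hr (by linarith [t2]) k2), Or.inr (by linarith [t2])⟩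

theorem W_close (h : X.Prof p) (h' : X.Prof p') {ε : ℝ} (e0 : 0 ≤ ε) (e1 : ε ≤ 1)
    (cl : ∀ c t, ‖t‖ ≤ LtR X.q X.M → p c t < 3 ∨ p' c t < 3 → ∀ u, |p c u - p' c u| ≤ ε * X.δ)
    (a : Ω) : |X.W p a - X.W p' a| ≤ 2 * ε := by
  have d0 := X.δ0
  have d1 := X.δ1
  have e2 : 2 * (ε * X.δ) ≤ ε := by nlinarith
  have e3 : ε * X.δ ≤ X.δ := by nlinarith
  have e4 : 0 ≤ ε * X.δ := by positivity
  have kz : ∀ {R : ℝ} c, 0 < R → R ≤ LtR X.q X.M → (kk R (p c) = 0 ∧ kk R (p' c) = 0) ∨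
      ((∃ t, ‖t‖ ≤ R ∧ (p c t < 3 ∨ p' c t < 3)) ∧ ∀ u, |p c u - p' c u| ≤ ε * X.δ) := by
    intro R c hR hR'
    refine or_iff_not_imp_left.2 fun k => ?_
    obtain ⟨t, k1, k2⟩ : ∃ t, ‖t‖ < R ∧ (p c t < 3 ∨ p' c t < 3) := by
      rcases not_and_or.1 k with k | k
      · exact (kk_ne hR (h.p3 c) k).imp fun t e => ⟨e.1, Or.inl e.2⟩
      · exact (kk_ne hR (h'.p3 c) k).imp fun t e => ⟨e.1, Or.inr e.2⟩
    exact ⟨⟨t, k1.le, k2⟩, cl c t (by linarith) k2⟩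
  refine Lt_sup_abs (by positivity) (w1_mem h.p3 a) (w1_mem h'.p3 a) fun s => ?_
  have k1 : |(1 - X.bad s p) - (1 - X.bad s p')| ≤ ε := by
    rw [sub_sub_sub_cancel_left, abs_sub_comm]
    refine Lt_sup_abs e0 (fun _ => bt_mem ..) (fun _ => bt_mem ..) fun c => ?_
    rcases kz c X.R0 le_rfl with ⟨k, k'⟩ | ⟨-, k⟩
    · rw [bt_zero d0 (Or.inl k), bt_zero d0 (Or.inl k')]
      simpa using e0
    · exact bt_close d0 (by linarith [kk_close X.R0 (h.p3 c) (h'.p3 c) k])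
        (tau_close (h.p0 c) (h'.p0 c) k)
  by_cases hb : X.bad s p < 1
  · have k2 : |(⨆ c, X.w0 s p a c) - ⨆ c, X.w0 s p' a c| ≤ ε := by
      refine Lt_sup_abs e0 (w0_mem h.p3 s a) (w0_mem h'.p3 s a) fun c => ?_
      rcases kz c X.r0 (by linarith [LtR_ge X.q2 X.M, X.r0]) with ⟨k, k'⟩ | ⟨⟨t, r1, r2⟩, k⟩
      · simpa [w0, ite0, k, k'] using e0
      · exact ite0_abs (and_congr_left'
          (act_close h h' hb (fun c t a b u => (cl c t a b u).trans e3) r1 r2))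
          (by linarith [kk_close X.r0 (h.p3 c) (h'.p3 c) k])
    linarith [Lt_mul_abs (X.bad_mem s p) (Lt_sup_mem (w0_mem h'.p3 s a)) k1 k2]
  · have k2 : 1 - X.bad s p = 0 := by linarith [(X.bad_mem s p).1]
    rw [k2, zero_sub, abs_neg, abs_of_nonneg (X.bad_mem s p').1] at k1
    rw [k2, zero_mul, zero_sub, abs_neg, abs_of_nonneg (w1_mem h'.p3 a s).1]
    linarith [mul_le_of_le_one_right (X.bad_mem s p').1 (Lt_sup_mem (w0_mem (X := X) h'.p3 s a)).2]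

theorem W_card {ι : Type*} [Fintype ι] [Fintype σ] {p : C → (ι → ℝ) → ℝ} (h : X.Prof p)
    (hs : X.Sep p) :
    (Function.support (X.W p)).encard ≤ (Fintype.card σ * 5 ^ Fintype.card ι : ℕ) := by
  classical
  have q0 : 0 < X.q := by linarith [X.q2]
  choose s c h1 h2 t h3 h4 using fun a : Function.support (X.W p) => W_ne h.p3 a.2
  have hm : ∀ a j, ⌊t a j / X.q⌋ ∈ Finset.Icc (-2 : ℤ) 2 := fun a j => by
    have k := abs_lt.1 ((norm_le_pi_norm (t a) j).trans_lt (h3 a))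
    rw [Finset.mem_Icc, Int.le_floor, ← Int.lt_add_one_iff, Int.floor_lt, le_div_iff₀ q0,
      div_lt_iff₀ q0]
    push_cast
    constructor <;> linarith [k.1, k.2]
  have hi : Function.Injective fun a => (s a, fun j => (⟨_, hm a j⟩ : Finset.Icc (-2 : ℤ) 2)) := by
    intro a a' e
    have e1 : s a = s a' := congrArg Prod.fst e
    have e2 : ‖t a - t a'‖ ≤ X.q := (pi_norm_le_iff_of_nonneg q0.le).2 fun j => by
      have k := Int.abs_sub_lt_one_of_floor_eq_floor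
        (congrArg Subtype.val (congrFun (congrArg Prod.snd e) j))
      rw [← sub_div, abs_div, abs_of_pos q0, div_lt_one q0] at k
      exact k.le
    exact Subtype.ext (by
      rw [← h2 a, ← h2 a', act_same hs (h1 a) (e1 ▸ h1 a') (h.rl _ _ _ _ (h4 a) (h4 a') e2)])
  have k := ENat.card_le_card_of_injective hi
  rw [ENat.card_eq_coe_fintype_card (α := σ × _), Fintype.card_prod, Fintype.card_fun,
    Fintype.card_coe, Int.card_Icc] at k
  exact k

theorem W_card1 [Fintype σ] {p : C → ℝ → ℝ} (h : X.Prof p) (hs : X.Sep p) :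
    (Function.support (X.W p)).encard ≤ (Fintype.card σ * 5 : ℕ) := by
  classical
  have q0 : 0 < X.q := by linarith [X.q2]
  choose s c h1 h2 t h3 h4 using fun a : Function.support (X.W p) => W_ne h.p3 a.2
  have hm : ∀ a, ⌊t a / X.q⌋ ∈ Finset.Icc (-2 : ℤ) 2 := fun a => by
    have k := abs_lt.1 (h3 a)
    rw [Finset.mem_Icc, Int.le_floor, ← Int.lt_add_one_iff, Int.floor_lt, le_div_iff₀ q0,
      div_lt_iff₀ q0]
    push_cast
    constructor <;> linarith [k.1, k.2]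
  have hi : Function.Injective fun a => (s a, (⟨_, hm a⟩ : Finset.Icc (-2 : ℤ) 2)) := by
    intro a a' e
    have e1 : s a = s a' := congrArg Prod.fst e
    have e2 : ‖t a - t a'‖ ≤ X.q := by
      have k := Int.abs_sub_lt_one_of_floor_eq_floor
        (congrArg Subtype.val (congrArg Prod.snd e))
      rw [← sub_div, abs_div, abs_of_pos q0, div_lt_one q0] at k
      exact k.le
    exact Subtype.ext (by
      rw [← h2 a, ← h2 a', act_same hs (h1 a) (e1 ▸ h1 a') (h.rl _ _ _ _ (h4 a) (h4 a') e2)])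
  have k := ENat.card_le_card_of_injective hi
  rw [ENat.card_eq_coe_fintype_card (α := σ × _), Fintype.card_prod, Fintype.card_coe,
    Int.card_Icc] at k
  exact k

end LayS

end Pool.Agent.Work.MP_9d1ffa_al.Gb
end

-- merged part: Pool.Agent.Work.MP_9d1ffa_al.Gb.Red
section
/-! The order of the constants in the colour reduction. -/

namespace Pool.Agent.Work.MP_9d1ffa_al.Gb

open Set

/-- For every bound `Δ` on the number of present neighbours there is `K0` such that for every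
elementary bound `f` on the number of initial colours some number `r` of rounds reduces `f r`
colours to `K0` colours. -/
theorem exists_reduction (Δ : ℕ) : ∃ K0 : ℕ, ∀ f : ℕ → ℕ, El f → ∃ (r : ℕ)
    (F : ℕ → ℕ → Set ℕ → ℕ), 1 ≤ r ∧ ∀ {C : Type} (rel : C → C → Prop) (c0 : C → ℕ) (P : C → Prop),
      (∀ c, colr rel F c0 P r c ≤ K0) ∧ ∀ O : C → C → Prop, (∀ c c', rel c c' → rel c' c) →
        (∀ c, P c → c0 c < f r) → (∀ c c', P c → P c' → c0 c = c0 c' → O c c') →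
        (∀ c, P c → {c' | P c' ∧ rel c' c}.encard ≤ Δ) → ∀ c c', P c → P c' → rel c c' →
          colr rel F c0 P r c = colr rel F c0 P r c' → O c c' := by
  obtain ⟨β, b1, b2⟩ := exists_beta Δ
  choose L l1 l2 using fun b => linial b Δ
  refine ⟨2 ^ β 0, fun f hf => ?_⟩
  obtain ⟨r, r1, r2⟩ := b2 f hf
  have k1 : ∀ k x X, (if k < r then L (β (r - k)) x X else if x < 2 ^ β 0 then x else 0) <
      2 ^ β (r - (k + 1)) := fun k x X => by
      split_ifs with e e'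
      · refine (l1 _ x X).trans_le ?_
        rw [show r - k = r - (k + 1) + 1 by omega]
        exact b1 _
      · rwa [show r - (k + 1) = 0 by omega]
      · positivity
  refine ⟨r, fun k x X => if k < r then L (β (r - k)) x X else if x < 2 ^ β 0 then x else 0, r1,
    fun rel c0 P => ⟨fun c => ?_, fun O sy h0 h1 h2 c c' a a' e e' => ?_⟩⟩
  · obtain ⟨k, rfl⟩ : ∃ k, r = k + 1 := ⟨r - 1, by omega⟩
    refine (k1 k _ _).le.trans ?_
    rw [Nat.sub_self]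
  · refine colr_sep (b := fun k => 2 ^ β (r - k)) sy k1 (fun k x y X X' u1 u2 u3 u4 u5 u6 => ?_)
      (fun c h => (h0 c h).trans_le r2) h1 h2 r c c' a a' e e'
    by_cases hk : k < r
    · rw [if_pos hk, if_pos hk]
      exact l2 _ x y X X' u1 u2 u3 u4 u5 u6
    · rw [show r - k = 0 by omega] at u1 u2
      rwa [if_neg hk, if_neg hk, if_pos u1, if_pos u2]

end Pool.Agent.Work.MP_9d1ffa_al.Gb
end

-- merged part: Pool.Agent.Work.MP_9d1ffa_al.Ga.Wl
section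
/-! The weights along the paths to the base point. -/

namespace Pool.Agent.Work.MP_9d1ffa_al.Ga

open Set WL

/-- the large window -/
def Rn (q M : ℕ) : ℕ := 2 * (2 * q + (2 * M + 1) * (q + 1))

theorem rn_cast (q M : ℕ) : (Rn q M : ℝ) = LtR q M := by
  simp only [Rn, LtR]
  push_cast
  rfl

variable {G X Sm : Type} [Group G] [MetricSpace X] [MulAction G X] [MulAction G Sm]
  {A : Geo G X Sm} {P : Par A} {B : Pq A}

theorem gp_σ (hY : B.Y = P.Y) {y : X} (hy : y ∈ P.Z) (k : (P.T : ℝ) ≤ B.Γ * dist y A.o) :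
    B.Gp P.m (P.σ y) := by
  have y0 : (0 : ℝ) < P.Y := by exact_mod_cast (by have := P.four_le; omega : 0 < P.Y)
  have g0 : (0 : ℝ) < B.Γ := by exact_mod_cast B.hΓ
  have b := P.ball y hy
  have em : (P.m : ℝ) = P.Y ^ 3 * P.Y := by rw [Par.m]; push_cast; ring
  have eT : (P.T : ℝ) = P.Y ^ 3 := by rw [Par.T]; push_cast; rfl
  push_cast at b
  refine ⟨(A.σ_spec P.m_pos y).1, dist y A.o / P.m, ?_, ?_,
    fun i hi j hj => A.σ_step P.m_pos y hi hj⟩
  · rw [hY, em, div_le_div_iff₀ (by positivity) (by positivity)]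
    rw [eT] at k
    nlinarith [mul_le_mul_of_nonneg_right k y0.le]
  · rw [hY, em, div_le_div_iff₀ (by positivity) y0]
    nlinarith [mul_le_mul_of_nonneg_right b y0.le]

/-- the number of candidates that are present on some path -/
theorem present_card (h : 4 * (A.n + 1) * B.Q ≤ P.Y) (j0 : ℕ) :
    {c : Sm × Sm | ∃ y ∈ P.Z, ∃ t, B.prf P.m (P.σ y) j0 c t < 3}.encard ≤
      (P.Fs B.Q ^ 2 : ℕ) := by
  have k := P.lab B.Q Pq.Q_pos
  have q0 : (0 : ℝ) < B.Q := by exact_mod_cast Pq.Q_pos (B := B)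
  have e : 1 / (P.Y : ℝ) ≤ 1 / (4 * (A.n + 1) * B.Q) :=
    one_div_le_one_div_of_le (by positivity) (by exact_mod_cast h)
  refine le_trans (encard_le_encard (t := _ ×ˢ _) ?_) ((encard_prod).trans_le
    ((mul_le_mul' k k).trans_eq (by push_cast; ring)))
  rintro c ⟨y, hy, t, ht⟩
  rw [Pq.prf_lt] at ht
  obtain ⟨j, e1, e2, -⟩ := Pq.pp_pos (lt_trans (by positivity) ht)
  rw [e1, Pq.pp_nat e2, lt_min_iff] at ht
  obtain ⟨s1, s2, s3⟩ := A.σ_spec P.m_pos y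
  exact ⟨⟨y, hy, _, s1, s2, s3, j, le_trans (Nat.le_add_right _ _) e2, e.trans_lt ht.1⟩,
    ⟨y, hy, _, s1, s2, s3, _, e2, e.trans_lt ht.2⟩⟩

/-- the profiles along related paths are close -/
theorem prf_rel (hY : B.Y = P.Y) {R j0 : ℕ} (h0 : (R + 2) * P.Y ≤ j0)
    (h1 : j0 + (R + 2 + B.J) * P.Y ≤ P.Y ^ 2) (h2 : 32 * (A.n + 1) * B.Q ≤ P.Y) {g : G}
    (hg : g ∈ P.S) {y z : X} (hz : z ∈ P.Z) (ky : B.Gp P.m (P.σ y)) (kz : B.Gp P.m (P.σ z))
    {s : ℕ} (hs : s ≤ 2 * P.i) (h : dist z (g • P.σ y s) ≤ 6 / P.Y) {c : Sm × Sm} {t : ℝ}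
    (ht : |t| ≤ R) (k : B.prf P.m (P.σ z) j0 c t < 3 ∨
      B.prf P.m (fun j => g • P.σ y j) (j0 + s) c t < 3) (u : ℝ) :
    |B.prf P.m (P.σ z) j0 c u - B.prf P.m (fun j => g • P.σ y j) (j0 + s) c u| ≤
      8 * (A.n + 1) * B.Q * (8 / P.Y) := by
  have y0 : (0 : ℝ) < P.Y := by exact_mod_cast (by have := P.four_le; omega : 0 < P.Y)
  have q0 : (0 : ℝ) < B.Q := by exact_mod_cast Pq.Q_pos (B := B)
  have h2' : 32 * ((A.n : ℝ) + 1) * B.Q ≤ P.Y := by exact_mod_cast h2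
  refine Pq.close kz (ky.smul g) ?_ (fun i hi => ?_) ht k u
  · rw [div_le_div_iff₀ y0 (by positivity)]
    linarith
  · have a1 := P.two_i
    have a2 := P.sq_le
    have a3 : (R + 2 + B.J) * P.Y = (R + 2) * P.Y + B.J * P.Y := by ring
    have a4 : ((R : ℤ) + 2) * B.Y = ((R + 2) * P.Y : ℕ) := by rw [hY]; push_cast; rfl
    rw [a4, abs_le] at hi
    obtain ⟨l, hl⟩ : ∃ l : ℕ, (j0 : ℤ) + i = l := ⟨(j0 + i).toNat, by omega⟩
    have b1 : l + B.J * B.Y ≤ P.Y ^ 2 := by rw [hY]; omega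
    have b2 : ((j0 + s : ℕ) : ℤ) + i = (l + s : ℕ) := by omega
    have b3 : ∀ l ≤ P.Y ^ 2, ∀ d : Sm,
        |A.mg B.Q d (P.σ z l) - A.mg B.Q d (g • P.σ y (l + s))| ≤ 8 / P.Y := fun l hl d =>
      (A.mg_lip _ _ _ _).trans ((Par.rel_key hg hz hs h hl).trans_eq (by ring))
    rw [hl, b2, Pq.pp_nat (by omega), Pq.pp_nat (by omega)]
    refine (abs_min_sub_min_le_max _ _ _ _).trans (max_le (b3 l (by omega) _) ?_)
    rw [Nat.add_right_comm l s]
    exact b3 _ b1 _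

/-- the weights along the paths to the base point -/
theorem exists_wl (hY : B.Y = P.Y) {E r K0 M0 R : ℕ} {F : ℕ → ℕ → Set ℕ → ℕ}
    {Good : Subgroup G → Prop} (hmono : ∀ H H' : Subgroup G, H ≤ H' → Good H' → Good H)
    (hG : ∀ s, B.Gp (B.J * B.Y) s →
      Good (Subgroup.closure (Mv G s (B.J * B.Y) (B.q * B.Y + 1) (2 / B.Q))))
    (hF : ∀ (rel : Sm × Sm → Sm × Sm → Prop) (c0 : Sm × Sm → ℕ) (P : Sm × Sm → Prop),
      (∀ c, Gb.colr rel F c0 P r c ≤ K0) ∧ ∀ O : Sm × Sm → Sm × Sm → Prop,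
        (∀ c c', rel c c' → rel c' c) → (∀ c, P c → c0 c < M0) →
        (∀ c c', P c → P c' → c0 c = c0 c' → O c c') →
        (∀ c, P c → {c' | P c' ∧ rel c' c}.encard ≤ A.Kc B.Q B.J (B.q + 1)) →
        ∀ c c', P c → P c' → rel c c' → Gb.colr rel F c0 P r c = Gb.colr rel F c0 P r c' → O c c')
    (hM : P.Fs B.Q ^ 2 < M0) (hR : R = Rn B.q (r + K0)) (hE : 0 < E)
    (h1 : 2 * (R + B.q + 3) + B.J ≤ P.Y) (h2 : 768 * (A.n + 1) * B.Q * A.Kf B.Q B.J B.q R * E ≤ P.Y)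
    (h3 : 2 * (P.κ + 1) * E ≤ B.q) : ∃ Wt : X → GN.UC (Sm × Sm) → ℝ,
    (∀ y ω, 0 ≤ Wt y ω ∧ Wt y ω ≤ 1) ∧
    (∀ y ∈ P.Z, (P.T : ℝ) ≤ B.Γ * dist y A.o →
      (Function.support (Wt y)).encard ≤ ((A.D + 1) * 5 : ℕ) ∧ (∃ ω, 1 / 4 ≤ Wt y ω) ∧
        ∀ ω, Wt y ω ≠ 0 → Good (MulAction.stabilizer G ω)) ∧
    ∀ g ∈ P.S, ∀ y ∈ P.Z, ∀ z ∈ P.Z, (P.T : ℝ) ≤ B.Γ * dist y A.o → (P.T : ℝ) ≤ B.Γ * dist z A.o →
      P.Rel g y z → ∀ ω, |Wt z (g • ω) - Wt y ω| ≤ 3 / E := by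
  have y0 : (0 : ℝ) < P.Y := by exact_mod_cast (by have := P.four_le; omega : 0 < P.Y)
  have q2 : (2 : ℝ) ≤ B.q := by exact_mod_cast B.hq
  have E1 : (1 : ℝ) ≤ E := by exact_mod_cast hE
  obtain ⟨K, hK⟩ : ∃ K, K = A.Kf B.Q B.J B.q R := ⟨_, rfl⟩
  have K1 : 1 ≤ K := by rw [hK, Geo.Kf]; omega
  have K2 : (1 : ℝ) ≤ K := by exact_mod_cast K1
  rw [← hK] at h2
  have h4 : 768 * ((A.n + 1) * B.Q) ≤ P.Y := by
    refine le_trans ?_ h2
    rw [← mul_assoc, mul_assoc _ K]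
    exact Nat.le_mul_of_pos_right _ (Nat.mul_pos K1 hE)
  obtain ⟨j0, hj⟩ : ∃ j0, j0 = (R + B.q + 3) * P.Y := ⟨_, rfl⟩
  have a1 : j0 + (R + B.q + 3 + B.J) * P.Y ≤ P.Y ^ 2 := by
    rw [hj, ← add_mul, sq]
    exact Nat.mul_le_mul_right _ (by omega)
  have a2 := P.sq_le
  have pc := present_card (P := P) (B := B) (by rw [mul_assoc]; omega) j0
  have fin := finite_of_encard_le_coe pc
  obtain ⟨c0, l1, l2, l3⟩ := GN.exists_c0 G fin (c := M0) (by
    rw [← fin.cast_ncard_eq, Nat.cast_le] at pc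
    omega) (by omega)
  obtain ⟨θ, hθ, hgen⟩ := B.thresholds R (by have := B.hq; rw [hR, Rn]; omega)
  rw [← hK] at hθ hgen
  have b1 : ∀ (g : G) (c c' : Sm × Sm), (∃ k : G, c' = k • c) ∧ B.rel c c' →
      (∃ k : G, g • c' = k • g • c) ∧ B.rel (g • c) (g • c') := fun g c c' ⟨⟨k, a⟩, b⟩ =>
    ⟨⟨g * k * g⁻¹, by simp [a, mul_smul]⟩, Pq.rel_smul g b⟩
  let L : Gb.LayS (Sm × Sm) (GN.UC (Sm × Sm)) (Fin (A.D + 1)) :=
    { rel := B.rel
      F := F
      c0 := c0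
      r := r
      K0 := K0
      atm := GN.uc fun c c' => (∃ k : G, c' = k • c) ∧ B.rel c c'
      q := B.q
      θ := θ
      δ := 1 / (12 * K)
      symm := fun _ _ => Pq.rel_symm
      rkM := fun Q c => (hF _ _ Q).1 c
      q2 := q2
      δ0 := by positivity
      δ1 := by
        rw [mul_one_div, div_le_one (by positivity)]
        linarith
      θ1 := fun s => (hθ s).1
      θ2 := fun s => (hθ s).2 }
  have eR : LtR L.q L.M = R := by rw [hR, rn_cast]; rfl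
  have p3 : ∀ p j c t, B.prf P.m p j c t ≤ 3 := fun p j c t => (Pq.prf_mem _ p j c t).2
  have hP : ∀ {p}, B.Gp P.m p → ∀ j, L.Prof (B.prf P.m p j) := fun {p} k j =>
    { p0 := fun c t => (Pq.prf_mem _ p j c t).1
      p3 := p3 p j
      rl := fun _ _ _ _ a b d => Pq.rl k a b d
      tco := fun _ _ _ _ a b d => Pq.tco k a b d }
  refine ⟨fun y => L.W (B.prf P.m (P.σ y) j0), fun y => Gb.LayS.W_mem (p3 _ _),
    fun y hy ky => ⟨?_, ?_, fun ω h => ?_⟩, fun g hg y hy z hz ky kz ⟨s, hs, h⟩ ω => ?_⟩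
  · have k := gp_σ hY hy ky
    have e : ∀ {s c}, tau (B.prf P.m (P.σ y) j0 c) < θ s → ∃ t, B.prf P.m (P.σ y) j0 c t < 3 :=
      fun {s c} a => (tau_lt a).imp fun t b => by linarith [L.θ2 s, L.δ0]
    refine (Gb.LayS.W_card1 (hP k j0) fun s c c' a a' b d => GN.uc_eq ⟨?_, b⟩).trans_eq
      (by rw [Fintype.card_fin])
    refine (hF B.rel c0 _).2 (fun c c' => ∃ k : G, c' = k • c) (fun _ _ => Pq.rel_symm)
      (fun c _ => l1 c) (fun c c' a a' => l3 c ⟨y, hy, e a⟩ c' ⟨y, hy, e a'⟩) (fun c a => ?_)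
      c c' a a' b d
    obtain ⟨t0, ht0⟩ := e a
    refine le_trans (encard_le_encard fun c' ⟨a', b⟩ => ?_) (Pq.count k j0 t0 (B.q + 1))
    obtain ⟨t, ht⟩ := e a'
    exact ⟨t, (Pq.tco k b ht ht0).trans_eq (by push_cast; rfl), ht⟩
  · have k := gp_σ hY hy ky
    have a3 : (R + B.q + 3 + B.J) * P.Y = (R + B.q + 3) * P.Y + B.J * P.Y := by ring
    obtain ⟨c, hc⟩ := Pq.prf_big (B := B) (j0 := j0) (W := P.m) (by rw [hY]; omega) (P.σ y)
    obtain ⟨s, hs⟩ := hgen P.m (P.σ y) j0 k (by rw [hY]; omega) (by rw [hY]; omega)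
    exact Gb.LayS.W_big (hP k j0) hc (s := s) fun c => by rw [eR]; exact hs c
  · obtain ⟨s, c, -, rfl, t, -, k⟩ := Gb.LayS.W_ne (p3 _ _) h
    have e : B.rel c c := Pq.rl (gp_σ hY hy ky) k k (by rw [sub_self, abs_zero]; positivity)
    obtain ⟨W, p, hp, j, -, m, -, -⟩ := id e
    exact hmono _ _ ((GN.stab_uc_le b1 (fun _ _ a => a.1) ⟨⟨1, (one_smul _ _).symm⟩, e⟩).trans
      (Subgroup.closure_mono fun g hg => Pq.rel_mv hp m hg.2)) (hG _ (hp.sub m.1))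
  · have gy := gp_σ hY hy ky
    have gz := gp_σ hY hz kz
    have k1 : L.W (B.prf P.m (fun j => g • P.σ y j) j0) (g • ω) = L.W (B.prf P.m (P.σ y) j0) ω :=
      Gb.LayS.W_equiv (MulAction.toPerm g) (g • ·) (MulAction.injective g)
        (fun c c' => ⟨fun a => by simpa using Pq.rel_smul g⁻¹ a, Pq.rel_smul g⟩) (l2 g)
        (fun c => GN.uc_smul b1 c g) (fun _ => Pq.prf_smul g) ω
    have k2 := Gb.LayS.W_shift (X := L) (p3 (fun j => g • P.σ y j) j0) (s / B.Y) (g • ω)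
    have k3 : B.prf P.m (fun j => g • P.σ y j) (j0 + s) =
        fun c t => B.prf P.m (fun j => g • P.σ y j) j0 c (t + s / B.Y) :=
      funext fun _ => funext fun _ => Pq.prf_shift s
    have k4 := Gb.LayS.W_close (hP gz j0) (hP (gy.smul g) (j0 + s)) (ε := 1 / E) (by positivity)
      (by rw [div_le_one (by positivity)]; exact E1) (fun c t ht hc u => by
        rw [eR] at ht
        refine (prf_rel hY (R := R) (hj ▸ Nat.mul_le_mul_right _ (by omega))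
          (le_trans (Nat.add_le_add_left (Nat.mul_le_mul_right _ (by omega)) _) a1)
          (by rw [mul_assoc]; omega) hg hz gy gz hs h ht hc u).trans ?_
        have h5 : 768 * ((A.n : ℝ) + 1) * B.Q * K * E ≤ P.Y := by exact_mod_cast h2
        change _ ≤ 1 / (E : ℝ) * (1 / (12 * K))
        rw [mul_div_assoc', div_mul_div_comm, div_le_div_iff₀ y0 (by positivity)]
        linarith) (g • ω)
    rw [← k3, k1] at k2
    have k5 : ‖(s : ℝ) / B.Y‖ / L.q ≤ 1 / E := by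
      have h5 : 2 * ((P.κ : ℝ) + 1) * E ≤ B.q := by exact_mod_cast h3
      have h6 : (s : ℝ) ≤ 2 * ((P.κ + 1) * P.Y) := by exact_mod_cast hs
      have h7 : (s : ℝ) / B.Y ≤ 2 * (P.κ + 1) := by rw [hY, div_le_iff₀ y0]; linarith
      change _ / (B.q : ℝ) ≤ _
      rw [Real.norm_of_nonneg (by positivity), div_le_div_iff₀ (by linarith) (by linarith)]
      nlinarith
    refine (abs_sub_le _ _ _).trans ((add_le_add k4 (k2.trans k5)).trans_eq (by ring))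

end Pool.Agent.Work.MP_9d1ffa_al.Ga
end

-- merged part: Pool.Agent.Work.MP_9d1ffa_al.Ga.Zt
section
/-! The positions. -/

namespace Pool.Agent.Work.MP_9d1ffa_al.Ga

open Set WL

/-- the stabiliser in `H` of a point of `σ` has finite index -/
theorem good_of_stab {G Ω : Type} [Group G] [MulAction G Ω] {Good : Subgroup G → Prop}
    (mono : ∀ H H' : Subgroup G, H ≤ H' → Good H' → Good H)
    (fi : ∀ H H' : Subgroup G, H' ≤ H → H'.relIndex H ≠ 0 → Good H' → Good H) {σ : Set Ω}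
    (fin : σ.Finite) (ne : σ.Nonempty) (h : ∀ a ∈ σ, Good (MulAction.stabilizer G a))
    {H : Subgroup G} (hH : ∀ g ∈ H, ∀ ω ∈ σ, g • ω ∈ σ) : Good H := by
  obtain ⟨a, ha⟩ := ne
  refine fi H (MulAction.stabilizer G a ⊓ H) inf_le_right ?_ (mono _ _ inf_le_left (h a ha))
  rw [Subgroup.inf_relIndex_right]
  change (MulAction.stabilizer H a).index ≠ 0
  rw [MulAction.index_stabilizer]
  refine Set.ncard_ne_zero_of_mem (MulAction.mem_orbit_self a) (fin.subset ?_)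
  rintro _ ⟨x, rfl⟩
  exact hH x x.2 a ha

/-- the cut-off -/
noncomputable def Zt_w (t : ℝ) : ℝ := max 0 (min 1 (t - 2))

theorem Zt_w0 (t : ℝ) : 0 ≤ Zt_w t := le_max_left _ _

theorem Zt_w1 (t : ℝ) : Zt_w t ≤ 1 := max_le zero_le_one (min_le_left _ _)

theorem Zt_wl (s t : ℝ) : |Zt_w s - Zt_w t| ≤ |s - t| := by
  refine (abs_max_sub_max_le_max _ _ _ _).trans (max_le (by simp) ?_)
  refine (abs_min_sub_min_le_max _ _ _ _).trans (max_le (by simp) (le_of_eq ?_))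
  congr 1
  ring

theorem Zt_wp {t : ℝ} (h : Zt_w t ≠ 0) : 2 < t := by
  by_contra k
  exact h (max_eq_left ((min_le_right _ _).trans (by linarith)))

theorem Zt_wq {t : ℝ} (h : Zt_w t ≠ 1) : t < 3 := by
  by_contra k
  exact h (by rw [Zt_w, min_eq_left (by linarith), max_eq_right zero_le_one])

theorem Zt_mul {a b c d e f : ℝ} (b0 : 0 ≤ b) (b1 : b ≤ 1) (c0 : 0 ≤ c) (c1 : c ≤ 1)
    (h : |a - c| ≤ e) (k : |b - d| ≤ f) : |a * b - c * d| ≤ e + f := by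
  have : a * b - c * d = (a - c) * b + c * (b - d) := by ring
  rw [this]
  refine (abs_add_le _ _).trans (add_le_add ?_ ?_)
  · rw [abs_mul, abs_of_nonneg b0]
    exact (mul_le_of_le_one_right (abs_nonneg _) b1).trans h
  · rw [abs_mul, abs_of_nonneg c0]
    exact (mul_le_of_le_one_left (abs_nonneg _) c1).trans k

variable {G X Sm : Type} [Group G] [MetricSpace X] [MulAction G X] [MulAction G Sm]
  {A : Geo G X Sm}

theorem Zt_rad (P : Par A) {Γ E : ℕ} (hE : 0 < E) (h1 : Γ * (3 * P.κ + 4) * E ≤ P.Y) {g : G}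
    (hg : g ∈ P.S) {y z : X} (hy : y ∈ P.Z) (h : P.Rel g y z) :
    |Γ * dist z A.o / P.T - Γ * dist y A.o / P.T| ≤ 1 / E := by
  have Y4 : (4 : ℝ) ≤ P.Y := by exact_mod_cast P.four_le
  have E0 : (0 : ℝ) < E := by exact_mod_cast hE
  have TY : (P.Y : ℝ) ≤ P.T := by exact_mod_cast Nat.le_self_pow (by norm_num) P.Y
  have k : (Γ : ℝ) * (3 * P.κ + 4) * E ≤ P.Y := by exact_mod_cast h1
  have T0 : (0 : ℝ) < P.T := by linarith
  rw [← sub_div, ← mul_sub, abs_div, abs_mul, abs_of_pos T0, Nat.abs_cast, div_le_div_iff₀ T0 E0]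
  have := mul_le_mul_of_nonneg_right (mul_le_mul_of_nonneg_left (h.rad hg hy)
    (Nat.cast_nonneg (α := ℝ) Γ)) E0.le
  linarith

theorem Zt_slow (P : Par A) {Γ E Q : ℕ} (hE : 0 < E) (h2 : 24 * ((A.n + 1) * Q) * E ≤ P.Y)
    (h3 : 32 * ((A.n + 1) * Q) * (P.κ + 1) * E ≤ Γ) {g : G} {y z : X} (h : P.Rel g y z)
    (k : Γ * dist y A.o / P.T ≤ 4) : 2 * (((A.n : ℝ) + 1) * Q) * dist z (g • y) ≤ 1 / E := by
  have Y4 : (4 : ℝ) ≤ P.Y := by exact_mod_cast P.four_le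
  have E0 : (0 : ℝ) < E := by exact_mod_cast hE
  have k2 : 24 * (((A.n : ℝ) + 1) * Q) * E ≤ P.Y := by exact_mod_cast h2
  have k3 : 32 * (((A.n : ℝ) + 1) * Q) * (P.κ + 1) * E ≤ Γ := by exact_mod_cast h3
  have Y0 : (0 : ℝ) < P.Y := by linarith
  have u0 : 0 ≤ dist y A.o / P.T := by positivity
  rw [mul_div_assoc] at k
  have a := h.dist_le
  set u := dist y A.o / P.T
  have b : 2 * (((A.n : ℝ) + 1) * Q) * (6 / P.Y) * E ≤ 1 / 2 := by
    have : 2 * (((A.n : ℝ) + 1) * Q) * (6 / P.Y) * E = 12 * (((A.n : ℝ) + 1) * Q) * E / P.Y := by ring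
    rw [this, div_le_iff₀ Y0]
    linarith
  have c := mul_le_mul_of_nonneg_right k3 u0
  have d := mul_le_mul_of_nonneg_left a
    (show 0 ≤ 2 * (((A.n : ℝ) + 1) * Q) * E by positivity)
  rw [le_div_iff₀ E0]
  nlinarith

/-- The positions: a convex combination of the weights and of the margins. -/
theorem assemble (P : Par A) {Ω : Type} [MulAction G Ω] {Γ E Q : ℕ} (hE : 0 < E)
    {Good : Subgroup G → Prop} (mono : ∀ H H' : Subgroup G, H ≤ H' → Good H' → Good H)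
    (fi : ∀ H H' : Subgroup G, H' ≤ H → H'.relIndex H ≠ 0 → Good H' → Good H) (Q0 : 0 < Q)
    (stab : ∀ c x, 0 < A.mg Q c x → Good (MulAction.stabilizer G c))
    (h1 : Γ * (3 * P.κ + 4) * E ≤ P.Y) (h2 : 24 * ((A.n + 1) * Q) * E ≤ P.Y)
    (h3 : 32 * ((A.n + 1) * Q) * (P.κ + 1) * E ≤ Γ) (Wt : X → Ω → ℝ)
    (k1 : ∀ y a, 0 ≤ Wt y a ∧ Wt y a ≤ 1)
    (k2 : ∀ y ∈ P.Z, (P.T : ℝ) ≤ Γ * dist y A.o →
      (Function.support (Wt y)).encard ≤ ((A.D + 1) * 5 : ℕ) ∧ (∃ a, 1 / 4 ≤ Wt y a) ∧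
        ∀ a, Wt y a ≠ 0 → Good (MulAction.stabilizer G a))
    (k3 : ∀ g ∈ P.S, ∀ y ∈ P.Z, ∀ z ∈ P.Z, (P.T : ℝ) ≤ Γ * dist y A.o →
      (P.T : ℝ) ≤ Γ * dist z A.o → P.Rel g y z → ∀ a, |Wt z (g • a) - Wt y a| ≤ 3 / E) :
    ∃ f : P.Z → Ω ⊕ Sm → ℝ, (∀ y, Pos (Q := G) Good (5 * A.D + A.n + 7) (f y)) ∧
      ∀ g ∈ P.S, ∀ y z : P.Z, P.Rel g y.1 z.1 → Cl (4 / E) g (f y) (f z) := by
  have Y4 : (4 : ℝ) ≤ P.Y := by exact_mod_cast P.four_le
  have E1 : (1 : ℝ) ≤ E := by exact_mod_cast hE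
  have TY : (P.Y : ℝ) ≤ P.T := by exact_mod_cast Nat.le_self_pow (by norm_num) P.Y
  have T0 : (0 : ℝ) < P.T := by linarith
  have E2 : 1 / (E : ℝ) ≤ 1 := (div_le_one (by linarith)).2 E1
  have E3 : 0 ≤ 1 / (E : ℝ) := by positivity
  let τ : X → ℝ := fun y => Γ * dist y A.o / P.T
  let st : X → Sm → ℝ := fun y c => min 1 (2 * (((A.n : ℝ) + 1) * Q) * A.mg Q c y)
  have fast : ∀ y, 1 ≤ τ y → (P.T : ℝ) ≤ Γ * dist y A.o := fun y h => (one_le_div T0).1 h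
  have s0 : ∀ y c, 0 ≤ st y c := fun y c =>
    le_min zero_le_one (mul_nonneg (by positivity) (A.mg_nonneg _ _ _))
  have s1 : ∀ y c, st y c ≤ 1 := fun y c => min_le_left _ _
  have sp : ∀ y c, st y c ≠ 0 → 0 < A.mg Q c y := fun y c h =>
    (A.mg_nonneg _ _ _).lt_of_ne fun e => h (by simp only [st, ← e]; simp)
  refine ⟨fun y => Sum.elim (fun a => Zt_w (τ y) * Wt y a) fun c => (1 - Zt_w (τ y)) * st y c,
    fun y => ?_, fun g hg y z h => ?_⟩
  · have w0 := Zt_w0 (τ y)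
    have w1 := Zt_w1 (τ y)
    have cd : (Function.support (Sum.elim (fun a => Zt_w (τ y) * Wt y a)
        fun c => (1 - Zt_w (τ y)) * st y c)).encard ≤ (5 * A.D + A.n + 7 + 1 : ℕ) := by
      have a : (Function.support fun a => Zt_w (τ y) * Wt y a).encard ≤ ((A.D + 1) * 5 : ℕ) := by
        by_cases e : Zt_w (τ y) = 0
        · simp [e]
        · exact (Set.encard_le_encard fun a k => right_ne_zero_of_mul k).trans
            (k2 y y.2 (fast y (by linarith [Zt_wp e]))).1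
      refine (Set.encard_le_encard (t := Sum.inl '' (Function.support fun a =>
        Zt_w (τ y) * Wt y a) ∪ Sum.inr '' {c | 0 < A.mg Q c y}) ?_).trans ?_
      · rintro (a | c) k
        · exact Or.inl ⟨a, k, rfl⟩
        · exact Or.inr ⟨c, sp y c (right_ne_zero_of_mul k), rfl⟩
      · refine (Set.encard_union_le _ _).trans ((add_le_add ((Set.encard_image_le _ _).trans a)
          ((Set.encard_image_le _ _).trans (A.mg_card Q0 y))).trans ?_)
        rw [← Nat.cast_add]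
        exact Nat.cast_le.2 (by omega)
    refine ⟨?_, ?_, cd, fun σ H ne sb hH => good_of_stab mono fi
      ((Set.finite_of_encard_le_coe cd).subset sb) ne ?_ hH⟩
    · rintro (a | c)
      · exact ⟨mul_nonneg w0 (k1 y a).1, mul_le_one₀ w1 (k1 y a).1 (k1 y a).2⟩
      · exact ⟨mul_nonneg (by linarith) (s0 y c), mul_le_one₀ (by linarith) (s0 y c) (s1 y c)⟩
    · have N8 : (8 : ℝ) ≤ (5 * A.D + A.n + 7 : ℕ) + 1 := by
        exact_mod_cast (by omega : 8 ≤ 5 * A.D + A.n + 7 + 1)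
      by_cases e : 1 / 2 ≤ Zt_w (τ y)
      · obtain ⟨a, ha⟩ := (k2 y y.2 (fast y (by
          linarith [Zt_wp (t := τ y) (by linarith [e] : 0 < Zt_w (τ y)).ne']))).2.1
        refine ⟨Sum.inl a, ?_⟩
        have := mul_le_mul e ha (by norm_num) w0
        change 1 ≤ _ * (Zt_w (τ y) * Wt y a)
        nlinarith
      · obtain ⟨c, hc⟩ := A.mg_big Q0 y.1
        refine ⟨Sum.inr c, ?_⟩
        have k : st y c = 1 := by
          refine min_eq_left ?_
          rw [div_le_iff₀ (by positivity)] at hc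
          push_cast at hc
          linarith
        change 1 ≤ _ * ((1 - Zt_w (τ y)) * st y c)
        rw [k]
        nlinarith
    · rintro (a | c) k
      · have k' : Zt_w (τ y) * Wt y a ≠ 0 := sb k
        exact mono _ _ (fun x hx => Sum.inl_injective hx) ((k2 y y.2 (fast y (by
          linarith [Zt_wp (left_ne_zero_of_mul k')]))).2.2 a (right_ne_zero_of_mul k'))
      · have k' : (1 - Zt_w (τ y)) * st y c ≠ 0 := sb k
        exact mono _ _ (fun x hx => Sum.inr_injective hx)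
          (stab c y (sp y c (right_ne_zero_of_mul k')))
  · have r : |τ z - τ y| ≤ 1 / E := Zt_rad P hE h1 hg y.2 h
    have r' := abs_le.1 r
    have wl := (Zt_wl _ _).trans r
    have e4 : (4 : ℝ) / E = 1 / E + 3 / E := by ring
    have e3 : (3 : ℝ) / E = 3 * (1 / E) := by ring
    rintro (a | c)
    · change |Zt_w (τ z) * Wt z (g • a) - Zt_w (τ y) * Wt y a| ≤ _
      by_cases e : Zt_w (τ z) = 0 ∧ Zt_w (τ y) = 0
      · rw [e.1, e.2, zero_mul, zero_mul, sub_zero, abs_zero]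
        positivity
      · have f : 1 ≤ τ y ∧ 1 ≤ τ z := by
          rcases not_and_or.1 e with e | e <;> constructor <;> linarith [Zt_wp e]
        rw [e4]
        exact Zt_mul (k1 _ _).1 (k1 _ _).2 (Zt_w0 _) (Zt_w1 _) wl
          (k3 g hg y y.2 z z.2 (fast y f.1) (fast z f.2) h a)
    · change |(1 - Zt_w (τ z)) * st z (g • c) - (1 - Zt_w (τ y)) * st y c| ≤ _
      by_cases e : Zt_w (τ z) = 1 ∧ Zt_w (τ y) = 1
      · rw [e.1, e.2, sub_self, zero_mul, zero_mul, sub_zero, abs_zero]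
        positivity
      · have f : τ y ≤ 4 := by
          rcases not_and_or.1 e with e | e <;> linarith [Zt_wq e]
        have d := Zt_slow P hE h2 h3 h f
        have l : |st z (g • c) - st y c| ≤ 3 / E := by
          refine (abs_min_sub_min_le_max _ _ _ _).trans (max_le (by simp; positivity) ?_)
          rw [← mul_sub, abs_mul, abs_of_nonneg (by positivity), ← A.mg_smul g _ c y.1]
          have := mul_le_mul_of_nonneg_left (A.mg_lip Q (g • c) z.1 (g • y.1))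
            (show 0 ≤ 2 * (((A.n : ℝ) + 1) * Q) by positivity)
          linarith
        rw [e4]
        refine Zt_mul (s0 _ _) (s1 _ _) (by linarith [Zt_w1 (τ y)]) (by linarith [Zt_w0 (τ y)])
          ?_ l
        rwa [sub_sub_sub_cancel_left, abs_sub_comm]

end Pool.Agent.Work.MP_9d1ffa_al.Ga
end

-- merged part: Pool.Agent.Work.MP_9d1ffa_al.Ga.Zc
section
/-! The choice of the constants. -/

namespace Pool.Agent.Work.MP_9d1ffa_al.Ga

open Set WL Gb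

variable {G X Sm : Type} [Group G] [MetricSpace X] [MulAction G X] [MulAction G Sm]
  {A : Geo G X Sm} {Good : Subgroup G → Prop}

theorem Geo.el_Kc (A : Geo G X Sm) (Q J : ℕ) {f : ℕ → ℕ} (h : El f) : El fun x => A.Kc Q J (f x) :=
  ((A.elC Q).comp ((((El.const 2).mul h).add (El.const J)).add (El.const 1))).pow (El.const 2)

theorem Geo.el_Kf (A : Geo G X Sm) (Q J q : ℕ) {f : ℕ → ℕ} (h : El f) :
    El fun x => A.Kf Q J q (f x) :=
  (((((A.elU Q).comp (((El.const 2).mul ((h.add (El.const q)).add (El.const 3))).add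
    (El.const J))).mul (El.const _)).mul
      ((A.el_Kc Q J ((h.add (El.const q)).add (El.const 1))).pow (El.const _))).add (El.const 1))

theorem el_rn (q K : ℕ) : El fun r => Rn q (r + K) :=
  (El.const 2).mul ((El.const _).add ((((El.const 2).mul (El.id.add (El.const K))).add
    (El.const 1)).mul (El.const _)))

theorem Geo.Gd.data (hG : A.Gd Good) {κ E : ℕ} (hE : 0 < E) {Fs : ℕ → ℕ → ℕ}
    (eF : ∀ Q, El fun Y => Fs Y Q) : ∃ Y, 2 * κ + 2 ≤ Y ∧ ∀ P : Par A, P.κ = κ → P.Y = Y →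
      P.Fs = Fs Y → ∃ f : P.Z → GN.UC (Sm × Sm) ⊕ Sm → ℝ,
        (∀ y, Pos (Q := G) Good (5 * A.D + A.n + 7) (f y)) ∧
        ∀ g ∈ P.S, ∀ y z : P.Z, P.Rel g y.1 z.1 → Cl (4 / E) g (f y) (f z) := by
  obtain ⟨Q0, Q1, st⟩ := hG.stab
  obtain ⟨Γ, hΓ⟩ : ∃ Γ, Γ = 32 * ((A.n + 1) * Q0) * (κ + 1) * E := ⟨_, rfl⟩
  obtain ⟨q, hq⟩ : ∃ q, q = 2 * (κ + 1) * E := ⟨_, rfl⟩
  obtain ⟨Q, J, hQ, hJ, ln⟩ := hG.line q Γ (by rw [hΓ]; positivity)
  obtain ⟨K0, hK⟩ := exists_reduction (A.Kc Q J (q + 1))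
  obtain ⟨Y, hY⟩ : ∃ Y : ℕ → ℕ, Y = fun r => 2 * (Rn q (r + K0) + q + 3) + J +
      768 * (A.n + 1) * Q * A.Kf Q J q (Rn q (r + K0)) * E +
      (2 * κ + 4 + Γ * (3 * κ + 4) * E + 24 * ((A.n + 1) * Q0) * E) := ⟨_, rfl⟩
  have eY : El Y := hY ▸ ((((El.const 2).mul (((el_rn q K0).add (El.const q)).add
    (El.const 3))).add (El.const J)).add (((El.const _).mul (A.el_Kf Q J q (el_rn q K0))).mul
      (El.const E))).add (El.const _)
  obtain ⟨r, F, -, hF⟩ := hK (fun r => Fs (Y r) Q ^ 2 + 1)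
    ((((eF Q).comp eY).pow (El.const 2)).add (El.const 1))
  have y0 := congrFun hY r
  refine ⟨Y r, by omega, fun P e1 e2 e3 => ?_⟩
  let B : Pq A := ⟨Γ, q, Q, J, Y r, by rw [hΓ]; positivity, by rw [hq]; nlinarith, hQ, hJ, by omega⟩
  obtain ⟨Wt, k1, k2, k3⟩ := exists_wl (P := P) (B := B) e2.symm (E := E) (r := r) (K0 := K0)
    (F := F) hG.mono (fun s ⟨a, v, b, c, d⟩ => ln _ B.hY s v a b c d)
    (fun rel c0 P => hF rel c0 P) (e3 ▸ Nat.lt_succ_self _) rfl hE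
    (by simp only [B, e2]; omega) (by simp only [B, e2]; omega) (e1 ▸ hq.ge)
  exact assemble P (Γ := Γ) hE hG.mono hG.fi Q1 st (by rw [e1, e2]; omega) (by omega)
    (e1 ▸ hΓ.ge) Wt k1 k2 k3

theorem Geo.zt (hZ : A.HasZM) (hG : A.Gd Good) : ZT G Good := by
  classical
  obtain ⟨N, Fs, eF, hZ⟩ := hZ
  refine ⟨N + (5 * A.D + A.n + 7), fun S0 ε hε => ?_⟩
  obtain ⟨E, hE⟩ := exists_nat_gt (4 / ε)
  have E0 : (0 : ℝ) < E := lt_trans (by positivity) hE
  have E1 : 4 / (E : ℝ) ≤ ε := by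
    rw [div_lt_iff₀ hε] at hE
    rw [div_le_iff₀ E0]
    linarith
  let S : Finset G := insert 1 (S0 ∪ Finset.image₂ (· * ·) S0 S0)
  have s0 : 1 ∈ S := Finset.mem_insert_self _ _
  have s1 : ∀ g ∈ S0, g ∈ S := fun g hg => Finset.mem_insert_of_mem (Finset.mem_union_left _ hg)
  have s2 : ∀ g ∈ S0, ∀ h ∈ S0, g * h ∈ S := fun g hg h hh =>
    Finset.mem_insert_of_mem (Finset.mem_union_right _ (Finset.mem_image₂_of_mem hg hh))
  obtain ⟨κ, κ1, κ2⟩ : ∃ κ : ℕ, S.card ≤ κ ∧ ∀ g ∈ S, dist (g • A.o) A.o ≤ κ :=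
    ⟨S.card + ∑ g ∈ S, ⌈dist (g • A.o) A.o⌉₊, Nat.le_add_right _ _, fun g hg =>
      (Nat.le_ceil _).trans (Nat.cast_le.2 ((Finset.single_le_sum
        (f := fun g => ⌈dist (g • A.o) A.o⌉₊) (fun _ _ => Nat.zero_le _) hg).trans
          (Nat.le_add_left _ _)))⟩
  obtain ⟨Y, hY, h⟩ := hG.data (κ := κ) (E := E) (by exact_mod_cast E0) (eF κ)
  obtain ⟨K, hK⟩ := hZ S κ Y s0 κ1 κ2 hY
  let P : Par A := ⟨S, κ, Y, K, Fs κ Y, s0, κ1, κ2, hY, hK.ball, hK.lab⟩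
  obtain ⟨f, f1, f2⟩ := h P rfl rfl rfl
  obtain ⟨Z, _, pz, φ, Hm, gr, pc, pk, a, b⟩ := hK.maps
  have cl : ∀ g ∈ S, ∀ y z, P.Rel g (pz y) (pz z) → Cl ε g (f ⟨_, pk y⟩) (f ⟨_, pk z⟩) :=
    fun g hg y z h ω => (f2 g hg _ _ h ω).trans E1
  have Y0 : (0 : ℝ) < 6 / P.Y := by have := P.four_le; positivity
  have := gr.cpt
  obtain ⟨δ, δ0, hδ⟩ := Metric.uniformContinuous_iff_le.1
    (CompactSpace.uniformContinuous_of_continuous pc) _ Y0
  exact ⟨Z, inferInstance, φ, Hm, _, inferInstance, fun y => f ⟨_, pk y⟩,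
    gr.mono (Nat.le_add_right _ _), ⟨fun g hg => (a g (s1 g hg)).1,
    fun g hg h hh => (b g (s1 g hg) h (s1 h hh) (s2 g hg h hh)).1,
    fun g hg h hh => (b g (s1 g hg) h (s1 h hh) (s2 g hg h hh)).2.1,
    fun g hg h hh => (b g (s1 g hg) h (s1 h hh) (s2 g hg h hh)).2.2.1,
    ⟨δ, δ0, fun x y h => cl 1 s0 x y (Par.rel_near (hδ h))⟩,
    fun g hg x => cl g (s1 g hg) _ _ ((Par.relP_iff (P := P)).1 ((a g (s1 g hg)).2 x)),
    fun g hg h hh x t => cl _ (s2 g hg h hh) _ _ ((Par.relP_iff (P := P)).1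
      ((b g (s1 g hg) h (s1 h hh) (s2 g hg h hh)).2.2.2 x t))⟩,
    fun y => (f1 _).mono (Nat.le_add_left _ _) fun _ h => h⟩

end Pool.Agent.Work.MP_9d1ffa_al.Ga
end
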