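import Pool.Agent.Work.MP_9d1ffa_al.Ga.Zc
import Pool.Agent.Work.MP_9d1ffa_al.WL.En
import Pool.Agent.Work.MP_9d1ffa_al.WL.Et
import Pool.Agent.Work.MP_9d1ffa_al.WL.Top
import Pool.Agent.Work.MP_9d1ffa_al.WL.Van

-- merged part: Pool.Agent.Work.MP_9d1ffa_al.Ga.Fr
section
/-! Discrete free actions have virtually cyclic isotropy. -/

namespace Pool.Agent.Work.MP_9d1ffa_al.Ga

open Set Subgroup

variable {G : Type} [Group G]

/-- virtually cyclic subgroups -/
def VC (H : Subgroup G) : Prop := ∃ C ≤ H, C.relIndex H ≠ 0 ∧ ∃ a, C ≤ zpowers a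

theorem VC.mono {H H' : Subgroup G} (e : H ≤ H') (h : VC H') : VC H :=
  let ⟨C, _, k, a, ha⟩ := h
  ⟨C ⊓ H, inf_le_right, by
    rw [inf_relIndex_right]
    exact fun z => k (relIndex_eq_zero_of_le_right e z), a, inf_le_left.trans ha⟩

theorem VC.fi {H H' : Subgroup G} (e : H' ≤ H) (k : H'.relIndex H ≠ 0) (h : VC H') : VC H :=
  let ⟨C, c, k', a⟩ := h
  ⟨C, c.trans e, relIndex_ne_zero_trans k' k, a⟩

theorem vc_of_le {H : Subgroup G} {a : G} (h : H ≤ zpowers a) : VC H :=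
  ⟨H, le_rfl, by rw [relIndex_self]; exact one_ne_zero, a, h⟩

variable {X Sm : Type} [MetricSpace X] [MulAction G X] [MulAction G Sm]

theorem Geo.gd_free (A : Geo G X Sm) {N : ℕ} (hN : 0 < N)
    (disc : ∀ (g : G) (x : X), dist (g • x) x ≤ 1 / N → g = 1) : A.Gd VC where
  mono _ _ := VC.mono
  fi _ _ := VC.fi
  stab := ⟨N, hN, fun c x h => vc_of_le (a := 1) fun g hg => by
    rw [disc g x (A.mg_dist hN (by rwa [← A.mg_smul g, show g • c = c from hg] at h) h)]
    exact one_mem _⟩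
  line q Γ _ := by
    obtain ⟨a, ha⟩ : ∃ a, a = N * (4 * q + 2) := ⟨_, rfl⟩
    refine ⟨8 * Γ + 8 * N * 3 ^ a, 2 * 3 ^ a * (q + 1), Nat.le_add_right _ _,
      Nat.le_mul_of_pos_left _ (by positivity), fun Y hY s v _ v1 v2 d => ?_⟩
    have y1 : (4 : ℝ) ≤ Y := by exact_mod_cast hY
    have n0 : (0 : ℝ) < N := by exact_mod_cast hN
    have v0 : 0 ≤ v := le_trans (by positivity) v1
    obtain ⟨x, hx⟩ := Gb.cyc_of_path A.iso disc (fun l => s l.toNat) (J := 2 * 3 ^ a * (q + 1) * Y)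
      (r := q * Y + 1) (A := a) (v := v) (b := 2 / (8 * Γ + 8 * N * 3 ^ a : ℕ))
      (fun i i' a1 a2 a3 a4 => by
        obtain ⟨i, rfl⟩ := Int.eq_ofNat_of_zero_le a1
        obtain ⟨i', rfl⟩ := Int.eq_ofNat_of_zero_le a3
        rw [Int.toNat_natCast, Int.toNat_natCast, d _ (by omega) _ (by omega)]
        push_cast
        rfl) v0 (by positivity) (by
        rw [le_div_iff₀ (by linarith)] at v2
        have a2 : v ≤ 1 / 4 := by nlinarith
        have a3 := mul_le_mul_of_nonneg_left v2 (Nat.cast_nonneg (α := ℝ) q)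
        rw [ha]
        push_cast
        rw [mul_comm (N : ℝ), mul_assoc _ (N : ℝ), mul_one_div_cancel n0.ne']
        linarith) (by
        rw [← mul_div_assoc, div_le_div_iff₀ (by positivity) n0]
        push_cast
        nlinarith [Nat.cast_nonneg (α := ℝ) Γ]) (by
        rw [mul_assoc _ (q + 1)]
        exact Nat.mul_le_mul_left _ (by rw [add_one_mul]; omega))
    refine vc_of_le (a := x) ((closure_le _).2 fun g ⟨τ, e, h⟩ => hx g τ e fun l a1 a2 => ?_)
    have e' := abs_le.1 e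
    exact h _ _ (by omega) (by omega) (by omega)

end Pool.Agent.Work.MP_9d1ffa_al.Ga
end

-- merged part: Pool.Agent.Work.MP_9d1ffa_al.Ga.Fin
section
/-! The Whitehead groups vanish. -/

namespace Pool.Agent.Work.MP_9d1ffa_al.Ga

open WL

variable {G X Sm : Type} [Group G] [MetricSpace X] [MulAction G X] [MulAction G Sm]
  {A : Geo G X Sm} {Good : Subgroup G → Prop}

theorem Geo.whK (hZ : A.HasZM) (hG : A.Gd Good) (h : ∀ H : Subgroup G, Good H → WhK H) : WhK G :=
  thmA_of A1.vanM G Good (Geo.zt hZ hG).cdat G (MonoidHom.id G) fun L e => h L (L.map_id ▸ e)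

theorem whK_vc (tf : ∀ g : G, IsOfFinOrder g → g = 1) {H : Subgroup G} (h : VC H) : WhK H := by
  obtain ⟨C, -, k, a, ha⟩ := h
  have : (C.subgroupOf H).FiniteIndex := ⟨k⟩
  have : IsCyclic (C.subgroupOf H) := isCyclic_of_injective
    ((H.subtype.comp (C.subgroupOf H).subtype).codRestrict (Subgroup.zpowers a) fun x => ha x.2)
    fun x y e => Subtype.ext (Subtype.ext (congrArg (fun u : Subgroup.zpowers a => (u : G)) e))
  have : Group.IsNilpotent (C.subgroupOf H) := @CommGroup.isNilpotent _ IsCyclic.commGroup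
  exact (wc_of_vnil (thmA_of A1.vanM)
    (fun g hg => Subtype.ext (tf _ (H.subtype.isOfFinOrder hg))) (C.subgroupOf H)).1

theorem Geo.wh (hZ : A.HasZM) (hG : A.Gd VC) (tf : ∀ g : G, IsOfFinOrder g → g = 1) (j : ℕ) :
    WhGen (∅ : Set (Subgroup (G × Multiplicative (Fin j → ℤ)))) :=
  Geo.whK hZ hG (fun _ => whK_vc tf) _ ⟨j, ⟨MulEquiv.refl _⟩⟩

end Pool.Agent.Work.MP_9d1ffa_al.Ga
end
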