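import Pool.Agent.Work.MP_9d1ffa_al.Ga.Ty

/-! The geometric data of a lattice with a shift. -/

namespace Pool.Agent.Work.MP_9d1ffa_al.Ga

open Set Gb

theorem uc_mul (n C : ℕ) {K : ℕ} (hK : 0 < K) : Uc n C K ≤ Uc n C 1 * K ^ (2 * n) := by
  have h1 : (K * C + 1) ^ n ≤ (1 * C + 1) ^ n * K ^ n := by
    rw [← mul_pow]
    exact Nat.pow_le_pow_left (by nlinarith) n
  have h2 : C * (K * C + 1) ^ n + 1 ≤ (C * (1 * C + 1) ^ n + 1) * K ^ n := by
    have a := Nat.mul_le_mul_left C h1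
    have b : 1 ≤ K ^ n := Nat.pow_pos hK
    rw [add_mul, one_mul (K ^ n), mul_assoc]
    omega
  rw [Uc, Uc, mul_assoc _ _ (K ^ (2 * n)), mul_comm 2 n, pow_mul K, ← mul_pow]
  exact Nat.mul_le_mul_left _ (Nat.pow_le_pow_left h2 2)

variable {L : Type} [ConditionallyCompleteLattice L] [Gar L]

theorem lat_cnt {Q W ρ : ℕ} {η : ℝ} {p : ℕ → PX L} (hQ : 0 < Q) (h : Str W p) (h0 : 0 ≤ η)
    (hs : Stp W η p) (hρ : W * η ≤ ρ) : {c | ∃ j ≤ W, 0 < mg Q c (p j)}.encard ≤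
      ((nn L + 1) * Cv (nn L) ρ ^ Q : ℕ) := by
  refine (encard_le_encard ?_).trans (smp_count hQ (h.count h0 hs hρ))
  rintro c ⟨j, hj, hc⟩
  exact ⟨⟨_, mt_of_pos hc⟩, fun k a b => ⟨j, hj, _, gp_mem c.γ a b, mt_of_pos hc k⟩⟩

theorem In_two {W : ℕ} {η : ℝ} {p : ℕ → PX L} (h1 : η ≤ 1 / 4) (hs : Stp W η p) (j : ℕ)
    (hj : j + 2 ≤ W) : dist (p j) (p (j + 2)) ≤ 1 / 2 := by
  have := hs j (by omega) (j + 2) hj
  rw [show ((j : ℝ) - (j + 2 : ℕ)) = -2 by push_cast; ring, abs_neg, abs_two] at this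
  linarith

theorem lat_typ (Q ρ K W : ℕ) (hK : 0 < K) : ∃ cd : (ℕ → PX L) → ℕ,
    (∀ p, cd p < Uc (nn L) (Cv (nn L) ρ) 1 * K ^ (2 * nn L)) ∧
    ∀ (η : ℝ) (p p' : ℕ → PX L), Str W p → Str W p' → 0 ≤ η → η ≤ 1 / 4 → Stp W η p →
      Stp W η p' → W * η ≤ ρ → cd p = cd p' → ∀ c, ∀ j0 ≤ W, 0 < mg Q c (p j0) →
        ∃ c', ∀ j ≤ W, |mg Q c (p j) - mg Q c' (p' j)| ≤ 1 / K := by
  obtain ⟨cd, h1, h2⟩ := types (L := L) (cv_pos (nn L) ρ) hK W
  refine ⟨cd, fun p => (h1 p).trans_le (uc_mul _ _ hK),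
    fun η p p' a a' b b' d d' e k c j0 hj0 hc => ?_⟩
  obtain ⟨P, h3, h4⟩ := h2 p p' a a' (In_two b' d) (a.count b d e) (a'.count b d' e) k
  refine ⟨⟨c.γ, fun l => (P j0).f (gp Q c.γ l)⟩, fun j hj => ?_⟩
  rw [mg_congr (c := c) (c' := ⟨c.γ, fun l => (P j0).f (gp Q c.γ l)⟩) (y := P j) rfl
    fun l μ hμ => by
      rw [← mt_of_pos hc l]
      exact h4 j hj j0 hj0 _ _ (by rwa [add_sub_cancel_left])]
  exact (mg_lip _ _ _ _).trans (h3 j hj)

theorem el_cv (n : ℕ) : El (Cv n) :=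
  (((El.const _).mul El.id).add (El.const 1)).mul (El.const _)

theorem el_uc (n : ℕ) : El fun C => Uc n C 1 :=
  have h : El fun C => 3 * C := (El.const 3).mul El.id
  ((h.pow (El.const 2)).two_pow.mul h).two_pow.mul (((El.id.mul
    ((((El.const 1).mul El.id).add (El.const 1)).pow (El.const n))).add (El.const 1)).pow
      (El.const 2))

theorem el_fb (n κ : ℕ) : El (Fb n κ) :=
  have h : ∀ a b, El fun Y => a * Y ^ b := fun a b => (El.const a).mul (El.id.pow (El.const b))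
  have k : El (Db n κ) := ((El.const _).pow ((El.const 2).mul (((El.const 3).mul El.id).add
    (El.const κ)))).mul (((El.const 2).mul ((((El.const 4).mul El.id).add (El.const 1)).mul
      (El.const κ))).add (El.const 3))
  ((k.comp (h 2 3)).pow ((((h 4 8).mul ((h 8 24).add (El.const 2))).add (El.const 1)).add
    (h 8 24))).two_pow

variable (L) in
/-- the geometric data -/
noncomputable def latGeo (G : Type) [Group G] [MulAction G L] [GA G L] : Geo G (PX L) (Smp L) where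
  n := nn L
  D := 2 * nn L
  o := pt (sSup ∅)
  Str := Str
  mg := mg
  Cs Q ρ := (nn L + 1) * Cv (nn L) ρ ^ Q
  Us _ ρ := Uc (nn L) (Cv (nn L) ρ) 1
  iso := dist_smul
  sub h k := h.sub k
  smul g h := h.smul g
  cvx h h' a b := h.dist_le h' le_rfl le_rfl a b
  geo h a b c := h.geo a b c
  ex := exists_str
  mg_nonneg Q c x := (mg_mem Q c x).1
  mg_lip := mg_lip
  mg_smul := mg_smul
  mg_dist hQ h h' := (mt_of_pos h).dist hQ (mt_of_pos h')
  mg_card _ := mg_card _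
  mg_big hQ x := (exists_mg hQ x).imp fun _ h => h.1
  cnt hQ h h0 _ := lat_cnt hQ h h0
  typ Q ρ K W _ := lat_typ Q ρ K W
  elC Q := (El.const _).mul ((el_cv _).pow (El.const Q))
  elU _ := (el_uc _).comp (el_cv _)

theorem lat_zb (G : Type) [Group G] [MulAction G L] [GA G L] : (latGeo L G).HasZB :=
  ⟨fun κ Y Q => (nn L + 1) * Fb (nn L) κ Y ^ Q,
    fun κ Q => (El.const _).mul ((el_fb _ κ).pow (El.const Q)),
    fun S κ Y a b c d => ⟨_, _, LP.zb ⟨sSup ∅, S, κ, Y, a, b, c, d⟩⟩⟩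

end Pool.Agent.Work.MP_9d1ffa_al.Ga
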