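import Mathlib

-- merged part: Pool.Agent.Work.MP_9d1ffa_al.Ga.Ba
section
/-! Lattices with a shift of finite height. -/

namespace Pool.Agent.Work.MP_9d1ffa_al.Ga

open Set

/-- a set with at most `K` elements has a code below `K` -/
theorem exists_code {α : Type*} {S : Set α} {K : ℕ} (h : S.encard ≤ K) (hK : 0 < K) :
    ∃ f : α → ℕ, (∀ a, f a < K) ∧ InjOn f S := by
  have : Nonempty (Fin K) := ⟨⟨0, hK⟩⟩
  obtain ⟨f, -, hf⟩ := (finite_of_encard_le_coe h).exists_injOn_of_encard_le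
    (t := (univ : Set (Fin K))) (by simpa using h)
  exact ⟨fun a => f a, fun a => (f a).2, fun a ha b hb e => hf ha hb (Fin.ext e)⟩

theorem Ba_pi {α : Type*} {F : Set α} {N : ℕ} (h : F.encard ≤ N) (Q : ℕ) :
    {c : Fin Q → α | ∀ k, c k ∈ F}.encard ≤ (N ^ Q : ℕ) := by
  classical
  obtain ⟨s, rfl⟩ := (finite_of_encard_le_coe h).exists_finset_coe
  have e : {c : Fin Q → α | ∀ k, c k ∈ (s : Set α)} =
      ((Fintype.piFinset fun _ : Fin Q => s : Finset _) : Set _) := by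
    ext c
    simp
  rw [encard_coe_eq_coe_finsetCard] at h
  rw [e, encard_coe_eq_coe_finsetCard, Fintype.card_piFinset]
  simp only [Finset.prod_const, Finset.card_univ, Fintype.card_fin]
  exact_mod_cast Nat.pow_le_pow_left (by exact_mod_cast h) Q

/-- the number of subsets with at most `n` elements -/
theorem small_sets {α : Type*} {M : Set α} {N : ℕ} (h : M.encard ≤ N) (n : ℕ) :
    {A : Set α | A ⊆ M ∧ A.encard ≤ n}.encard ≤ ((N + 1) ^ n : ℕ) := by
  classical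
  have h1 : (insert none (some '' M)).encard ≤ (N + 1 : ℕ) :=
    (encard_insert_le _ _).trans (by
      push_cast
      exact add_le_add_left ((encard_image_le _ _).trans h) 1)
  refine le_trans (encard_le_encard ?_) ((encard_image_le
    (fun c : Fin n → Option α => {a | ∃ k, c k = some a}) _).trans (Ba_pi h1 n))
  rintro A ⟨hM, hA⟩
  rcases Nat.eq_zero_or_pos n with rfl | hn
  · have : A = ∅ := by simpa using hA
    exact ⟨fun k => k.elim0, fun k => k.elim0, by simp [this]⟩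
  obtain ⟨f, hf, hi⟩ := exists_code hA hn
  refine ⟨fun k => if e : ∃ a ∈ A, f a = k then some e.choose else none, fun k => ?_, ?_⟩
  · dsimp only
    split_ifs with e
    · exact Or.inr ⟨_, hM e.choose_spec.1, rfl⟩
    · exact Or.inl rfl
  · ext a
    simp only [mem_ofPred_eq]
    constructor
    · rintro ⟨k, hk⟩
      split_ifs at hk with e
      exact Option.some.inj hk ▸ e.choose_spec.1
    · intro ha
      have e : ∃ b ∈ A, f b = ((⟨f a, hf a⟩ : Fin n) : ℕ) := ⟨a, ha, rfl⟩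
      exact ⟨⟨f a, hf a⟩, by rw [dif_pos e, hi e.choose_spec.1 ha e.choose_spec.2]⟩

/-- union bound -/
theorem encard_cover {α ι : Type*} {S : Set α} {I : Set ι} {U : ι → Set α} {a b : ℕ}
    (hI : I.encard ≤ a) (hU : ∀ i ∈ I, (U i).encard ≤ b) (h : ∀ x ∈ S, ∃ i ∈ I, x ∈ U i) :
    S.encard ≤ (a * b : ℕ) := by
  classical
  obtain ⟨s, rfl⟩ := (finite_of_encard_le_coe hI).exists_finset_coe
  have key : ∀ t : Finset ι, (∀ i ∈ t, (U i).encard ≤ b) →
      (⋃ i ∈ t, U i).encard ≤ (t.card * b : ℕ) := by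
    intro t
    induction t using Finset.induction_on with
    | empty => simp
    | insert i t hi ih =>
      intro ht
      rw [Finset.set_biUnion_insert, Finset.card_insert_of_notMem hi, add_mul, one_mul, add_comm]
      push_cast
      refine (encard_union_le _ _).trans (add_le_add (ht i (Finset.mem_insert_self _ _)) ?_)
      exact_mod_cast ih fun j hj => ht j (Finset.mem_insert_of_mem hj)
  rw [encard_coe_eq_coe_finsetCard] at hI
  refine (encard_le_encard fun x hx => ?_).trans ((key s hU).trans ?_)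
  · obtain ⟨i, hi, e⟩ := h x hx
    exact mem_biUnion hi e
  · exact_mod_cast Nat.mul_le_mul_right b (by exact_mod_cast hI)

/-- maps from `Fin Q` to a small set -/
theorem encard_pi {α : Type*} {F : Set α} {N : ℕ} (h : F.encard ≤ N) (Q : ℕ) :
    {c : Fin Q → α | ∀ k, c k ∈ F}.encard ≤ (N ^ Q : ℕ) :=
  Ba_pi h Q

/-- chains in `I` have at most `H` elements -/
def Ht {L : Type} [Preorder L] (I : Set L) (H : ℕ) : Prop :=
  ∀ C : Set L, IsChain (· ≤ ·) C → C ⊆ I → C.encard ≤ H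

theorem Ht.mono {L : Type} [Preorder L] {I I' : Set L} {H H' : ℕ} (h : Ht I H) (e : I' ⊆ I)
    (k : H ≤ H') : Ht I' H' :=
  fun C a b => (h C a (b.trans e)).trans (by exact_mod_cast k)

section

variable {L : Type} [Lattice L]

/-- greedy choice -/
theorem fin_lub {a b : L} {H : ℕ} (h : Ht (Icc a b) H) {A : Set L} (hA : A ⊆ Icc a b)
    (ne : A.Nonempty) :
    ∃ A' ⊆ A, A'.Nonempty ∧ A'.encard ≤ H ∧ upperBounds A' ⊆ upperBounds A := by
  have P : ∀ k : ℕ, (∃ A' ⊆ A, A'.Nonempty ∧ A'.encard ≤ k ∧ upperBounds A' ⊆ upperBounds A) ∨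
      ∃ A' ⊆ A, A'.Nonempty ∧ A'.encard ≤ (k + 1 : ℕ) ∧ ∃ z ∈ Icc a b, IsLUB A' z ∧
        ∃ C : Set L, IsChain (· ≤ ·) C ∧ C ⊆ Icc a z ∧ C.encard = (k + 1 : ℕ) := by
    intro k
    induction k with
    | zero =>
      obtain ⟨x, hx⟩ := ne
      refine Or.inr ⟨{x}, by simpa using hx, singleton_nonempty x, by simp, x, hA hx,
        isLUB_singleton, {x}, IsChain.singleton, ?_, by simp⟩
      simpa using (hA hx).1
    | succ k ih =>
      rcases ih with ⟨A', a1, a2, a3, a4⟩ | ⟨A', a1, a2, a3, z, hz, hl, C, c1, c2, c3⟩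
      · exact Or.inl ⟨A', a1, a2, a3.trans (by exact_mod_cast Nat.le_succ k), a4⟩
      by_cases e : z ∈ upperBounds A
      · exact Or.inl ⟨A', a1, a2, a3, fun y hy x hx => (e hx).trans (hl.2 hy)⟩
      obtain ⟨x, hx, hxz⟩ : ∃ x ∈ A, ¬ x ≤ z := by
        by_contra q
        exact e fun x hx => by_contra fun r => q ⟨x, hx, r⟩
      have lt : ¬ x ⊔ z ≤ z := fun r => hxz (le_sup_left.trans r)
      refine Or.inr ⟨insert x A', insert_subset hx a1, insert_nonempty _ _,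
        (encard_insert_le _ _).trans ?_, x ⊔ z, ⟨hz.1.trans le_sup_right, sup_le (hA hx).2 hz.2⟩,
        hl.insert x, insert (x ⊔ z) C, c1.insert fun y hy _ =>
          Or.inr ((c2 hy).2.trans le_sup_right), insert_subset ⟨hz.1.trans le_sup_right, le_rfl⟩
          (c2.trans (Icc_subset_Icc_right le_sup_right)), ?_⟩
      · push_cast at a3 ⊢
        exact add_le_add_left a3 1
      · rw [encard_insert_of_notMem fun r => lt (c2 r).2, c3]
        push_cast
        rfl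
  rcases P H with q | ⟨A', -, -, -, z, hz, -, C, c1, c2, c3⟩
  · exact q
  · have := h C c1 (c2.trans (Icc_subset_Icc_right hz.2))
    rw [c3] at this
    exact absurd (by exact_mod_cast this : H + 1 ≤ H) (by omega)

/-- the dual statement -/
theorem fin_glb {a b : L} {H : ℕ} (h : Ht (Icc a b) H) {A : Set L} (hA : A ⊆ Icc a b)
    (ne : A.Nonempty) :
    ∃ A' ⊆ A, A'.Nonempty ∧ A'.encard ≤ H ∧ lowerBounds A' ⊆ lowerBounds A :=
  fin_lub (L := Lᵒᵈ) (a := b) (b := a) (A := A)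
    (fun C c e => h C c.symm fun _ hx => ⟨(e hx).2, (e hx).1⟩)
    (fun _ hx => ⟨(hA hx).2, (hA hx).1⟩) ne

/-- a cofinal shift of height `n` -/
structure GarL (τ : L ≃o L) (n : ℕ) : Prop where
  lt : ∀ x, x < τ x
  ht : ∀ x, Ht (Icc x (τ x)) (n + 1)
  cof : ∀ x y, ∃ k : ℕ, y ≤ (τ ^ k) x

theorem Ba_le_pow {τ : L ≃o L} {n : ℕ} (h : GarL τ n) (k : ℕ) (x : L) : x ≤ (τ ^ k) x := by
  induction k generalizing x with
  | zero => exact le_rfl
  | succ k ih =>
    rw [pow_succ, RelIso.mul_apply]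
    exact (h.lt x).le.trans (ih _)

theorem Ba_fib {τ : L ≃o L} {n : ℕ} (h : GarL τ n) {D : Set L} (c : IsChain (· ≤ ·) D)
    (e : ∀ x ∈ D, ∀ y ∈ D, y ≤ τ x) : D.encard ≤ (n + 1 : ℕ) := by
  by_contra q
  obtain ⟨D', s, k⟩ := exists_subset_encard_eq (s := D) (k := (n + 1 + 1 : ℕ))
    (by push_cast at q ⊢; exact Order.add_one_le_of_lt (not_le.1 q))
  have ne : D'.Nonempty := by
    rw [← encard_pos, k]
    exact_mod_cast Nat.succ_pos _
  obtain ⟨m, hm⟩ := (finite_of_encard_eq_coe k).exists_minimal ne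
  have := h.ht m D' (c.mono s) fun y hy => ⟨by
    rcases c.total (s hm.1) (s hy) with r | r
    · exact r
    · exact hm.2 hy r, e m (s hm.1) y (s hy)⟩
  rw [k] at this
  exact absurd (by exact_mod_cast this : n + 1 + 1 ≤ n + 1) (by omega)

/-- count the fibres of `c ↦ c ⊔ τ x` -/
theorem GarL.ht_pow {τ : L ≃o L} {n : ℕ} (h : GarL τ n) (k : ℕ) (x : L) :
    Ht (Icc x ((τ ^ k) x)) ((n + 1) ^ k) := by
  induction k generalizing x with
  | zero =>
    intro C _ e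
    refine (encard_le_encard e).trans ?_
    simp
  | succ k ih =>
    intro C c e
    rw [pow_succ, RelIso.mul_apply] at e
    rw [pow_succ]
    refine encard_cover (I := (fun y => y ⊔ τ x) '' C) (U := fun i => {y ∈ C | y ⊔ τ x = i})
      (ih (τ x) _ ?_ ?_) (fun i _ => Ba_fib h (c.mono (sep_subset _ _)) ?_)
      fun y hy => ⟨_, ⟨y, hy, rfl⟩, hy, rfl⟩
    · rintro _ ⟨y, hy, rfl⟩ _ ⟨z, hz, rfl⟩ -
      exact (c.total hy hz).imp (sup_le_sup_right · _) (sup_le_sup_right · _)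
    · rintro _ ⟨y, hy, rfl⟩
      exact ⟨le_sup_right, sup_le (e hy).2 (Ba_le_pow h k _)⟩
    · rintro y ⟨hy, r⟩ z ⟨-, q⟩
      exact le_sup_left.trans ((q.trans r.symm).le.trans
        (sup_le (h.lt y).le (τ.monotone (e hy).1)))

theorem GarL.ht_Icc {τ : L ≃o L} {n : ℕ} (h : GarL τ n) (a b : L) : ∃ H, Ht (Icc a b) H :=
  let ⟨k, hk⟩ := h.cof a b
  ⟨_, (h.ht_pow k a).mono (Icc_subset_Icc_right hk) le_rfl⟩

/-- apply `fin_lub` to the joins with a fixed element of `A` -/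
theorem GarL.fin_lub {τ : L ≃o L} {n : ℕ} (h : GarL τ n) {A : Set L} (ne : A.Nonempty)
    (bd : BddAbove A) : ∃ A' ⊆ A, A'.Nonempty ∧ A'.Finite ∧ upperBounds A' ⊆ upperBounds A := by
  obtain ⟨a, ha⟩ := ne
  obtain ⟨b, hb⟩ := bd
  obtain ⟨H, hH⟩ := h.ht_Icc a b
  obtain ⟨B, b1, -, b3, b4⟩ := Ga.fin_lub hH (A := (fun y => a ⊔ y) '' A)
    (by rintro _ ⟨y, hy, rfl⟩; exact ⟨le_sup_left, sup_le (hb ha) (hb hy)⟩) ⟨_, a, ha, rfl⟩
  obtain ⟨A', a1, a2, rfl⟩ := (finite_of_encard_le_coe b3).exists_subset_finite_image_eq b1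
  refine ⟨insert a A', insert_subset ha a1, insert_nonempty _ _, a2.insert a, fun z hz y hy =>
    le_sup_right.trans (b4 ?_ ⟨y, hy, rfl⟩)⟩
  rintro _ ⟨w, hw, rfl⟩
  exact sup_le (hz (mem_insert _ _)) (hz (mem_insert_of_mem _ hw))

theorem GarL.fin_glb {τ : L ≃o L} {n : ℕ} (h : GarL τ n) {A : Set L} (ne : A.Nonempty)
    (bd : BddBelow A) : ∃ A' ⊆ A, A'.Nonempty ∧ A'.Finite ∧ lowerBounds A' ⊆ lowerBounds A := by
  obtain ⟨a, ha⟩ := ne
  obtain ⟨b, hb⟩ := bd
  obtain ⟨H, hH⟩ := h.ht_Icc b a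
  obtain ⟨B, b1, -, b3, b4⟩ := Ga.fin_glb hH (A := (fun y => a ⊓ y) '' A)
    (by rintro _ ⟨y, hy, rfl⟩; exact ⟨le_inf (hb ha) (hb hy), inf_le_left⟩) ⟨_, a, ha, rfl⟩
  obtain ⟨A', a1, a2, rfl⟩ := (finite_of_encard_le_coe b3).exists_subset_finite_image_eq b1
  refine ⟨insert a A', insert_subset ha a1, insert_nonempty _ _, a2.insert a, fun z hz y hy =>
    le_trans (b4 ?_ ⟨y, hy, rfl⟩) inf_le_right⟩
  rintro _ ⟨w, hw, rfl⟩
  exact le_inf (hz (mem_insert _ _)) (hz (mem_insert_of_mem _ hw))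

theorem GarL.exists_lub {τ : L ≃o L} {n : ℕ} (h : GarL τ n) {A : Set L} (ne : A.Nonempty)
    (bd : BddAbove A) : ∃ z, IsLUB A z := by
  obtain ⟨A', a1, a2, a3, a4⟩ := h.fin_lub ne bd
  obtain ⟨s, rfl⟩ := a3.exists_finset_coe
  have := Finset.isLUB_sup' (s := s) (by exact_mod_cast a2)
  exact ⟨_, a4 this.1, fun y hy => this.2 (upperBounds_mono_set a1 hy)⟩

end

/-- the data of a shift -/
class Gar (L : Type) [ConditionallyCompleteLattice L] where
  τ : L ≃o L
  n : ℕ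
  gl : GarL τ n

variable {L : Type} [ConditionallyCompleteLattice L] [Gar L]

variable (L) in
/-- the height -/
def nn : ℕ := Gar.n L

/-- the powers of the shift -/
def tz (k : ℤ) : L ≃o L := Gar.τ ^ k

theorem tz_zero (x : L) : tz 0 x = x := by
  rw [tz, zpow_zero]
  rfl

theorem tz_one (x : L) : tz 1 x = Gar.τ x := by
  rw [tz, zpow_one]

theorem tz_add (a b : ℤ) (x : L) : tz (a + b) x = tz a (tz b x) := by
  rw [tz, zpow_add]
  rfl

theorem tz_strict (x : L) : StrictMono fun k : ℤ => tz k x := by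
  refine strictMono_int_of_lt_succ fun k => ?_
  rw [add_comm, tz_add, tz_one]
  exact Gar.gl.lt _

theorem tz_mono {a b : ℤ} (h : a ≤ b) (x : L) : tz a x ≤ tz b x := (tz_strict x).monotone h

theorem Ba_nat (k : ℕ) (x : L) : tz k x = (Gar.τ ^ k) x := by
  rw [tz, zpow_natCast]

theorem tz_cof (x y : L) : ∃ k : ℕ, tz (-k) x ≤ y ∧ y ≤ tz k x := by
  obtain ⟨a, ha⟩ := (Gar.gl (L := L)).cof x y
  obtain ⟨b, hb⟩ := (Gar.gl (L := L)).cof y x
  rw [← Ba_nat] at ha hb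
  refine ⟨a + b, (tz_mono (b := -b) (by omega) x).trans ?_, ha.trans (tz_mono (by omega) x)⟩
  have := (tz (-b)).monotone hb
  rwa [← tz_add, neg_add_cancel, tz_zero] at this

theorem ht_one (x : L) : Ht (Icc x (tz 1 x)) (nn L + 1) := by
  rw [tz_one]
  exact Gar.gl.ht x

theorem ht_tz (x : L) (a : ℤ) (k : ℕ) : Ht (Icc (tz a x) (tz (a + k) x)) ((nn L + 1) ^ k) := by
  rw [add_comm, tz_add, Ba_nat]
  exact Gar.gl.ht_pow k _

/-- a free action by automorphisms -/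
class GA (G L : Type) [Group G] [ConditionallyCompleteLattice L] [Gar L] [MulAction G L] :
    Prop where
  mono : ∀ (g : G) (x y : L), x ≤ y → g • x ≤ g • y
  tau : ∀ (g : G) (x : L), g • Gar.τ x = Gar.τ (g • x)
  free : ∀ (g : G) (x : L), g • x = x → g = 1

variable {G : Type} [Group G] [MulAction G L] [GA G L]

/-- the automorphism of a group element -/
def oi (g : G) : L ≃o L where
  toEquiv := MulAction.toPerm g
  map_rel_iff' {a b} := ⟨fun h => by simpa using GA.mono g⁻¹ _ _ h, GA.mono g a b⟩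

theorem oi_apply (g : G) (x : L) : oi g x = g • x := rfl

theorem act_le (g : G) {x y : L} : g • x ≤ g • y ↔ x ≤ y := (oi g).le_iff_le

theorem act_inf (g : G) (x y : L) : g • (x ⊓ y) = g • x ⊓ g • y := (oi g).map_inf x y

theorem act_sup (g : G) (x y : L) : g • (x ⊔ y) = g • x ⊔ g • y := (oi g).map_sup x y

theorem act_tz (g : G) (k : ℤ) (x : L) : g • tz k x = tz k (g • x) := by
  have c : Commute (oi g : L ≃o L) Gar.τ := RelIso.ext fun y => GA.tau g y
  exact DFunLike.congr_fun (c.zpow_right k).eq x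

end Pool.Agent.Work.MP_9d1ffa_al.Ga
end

-- merged part: Pool.Agent.Work.MP_9d1ffa_al.Ga.Fn
section
/-! Monotone step functions with values in a lattice: midpoints and straight paths. -/

namespace Pool.Agent.Work.MP_9d1ffa_al.Ga

open Set

variable {L : Type} [Lattice L] {a b c a' b' c' x y z : ℝ → L} {s s' : ℝ}

/-- locally constant to the right -/
def RC (p : ℝ → L) : Prop := ∀ u, ∃ e, 0 < e ∧ p (u + e) = p u

/-- `y` is below the shift of `x` by `s` -/
def Le (s : ℝ) (x y : ℝ → L) : Prop := ∀ u, y u ≤ x (u + s)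

/-- the smallest shift -/
noncomputable def Hd (x y : ℝ → L) : ℝ := sInf {s | Le s x y}

/-- pairs with a finite smallest shift -/
structure Ok (x y : ℝ → L) : Prop where
  mono : Monotone x
  rc : RC x
  ex : ∃ s, Le s x y
  nex : ∃ s, ¬Le s x y

theorem Le.mono (h : Le s x y) (hx : Monotone x) (k : s ≤ s') : Le s' x y :=
  fun u => (h u).trans (hx (by linarith))

theorem Le.trans (h : Le s x y) (k : Le s' y z) : Le (s + s') x z :=
  fun u => (k u).trans ((h _).trans_eq (congrArg x (by ring)))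

theorem Ok.le_iff (h : Ok x y) : Le s x y ↔ Hd x y ≤ s := by
  obtain ⟨t, ht⟩ := h.nex
  refine ⟨fun k => csInf_le ⟨t, fun r hr => ?_⟩ k, fun k u => ?_⟩
  · exact le_of_not_ge fun l => ht (Le.mono hr h.mono l)
  · obtain ⟨e, he, hu⟩ := h.rc (u + s)
    obtain ⟨r, hr, l⟩ := exists_lt_of_csInf_lt (s := {s | Le s x y}) h.ex
      (k.trans_lt (lt_add_of_pos_right s he))
    exact (hr u).trans (hu ▸ h.mono (by linarith))

theorem Ok.self_iff (h : Ok x x) : Le s x x ↔ 0 ≤ s := by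
  refine ⟨fun k => le_of_not_gt fun l => ?_, fun k u => h.mono (by linarith)⟩
  have H (n : ℕ) : Le (n * s) x x := by
    induction n with
    | zero => exact fun u => by simp
    | succ n ih => exact (ih.trans k).mono h.mono (by push_cast; linarith)
  obtain ⟨t, ht⟩ := h.nex
  obtain ⟨n, hn⟩ := exists_nat_ge (t / s)
  exact ht ((H n).mono h.mono (by rwa [div_le_iff_of_neg l] at hn))

/-- `c` is the midpoint of `a` and `b` -/
def IsMid (a b c : ℝ → L) : Prop := ∀ u, IsLUB (range fun s => a (u + s) ⊓ b (u - s)) (c u)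

theorem IsMid.symm (h : IsMid a b c) : IsMid b a c := by
  intro u
  have e : (range fun s => b (u + s) ⊓ a (u - s)) = range fun s => a (u + s) ⊓ b (u - s) := by
    ext v
    constructor <;> rintro ⟨r, rfl⟩ <;>
      exact ⟨-r, by simp only [sub_neg_eq_add, ← sub_eq_add_neg, inf_comm]⟩
  exact e ▸ h u

theorem isMid_self (ha : Monotone a) : IsMid a a a := by
  refine fun u => ⟨?_, fun D hD => by simpa using hD ⟨0, rfl⟩⟩
  rintro _ ⟨r, rfl⟩
  rcases le_total r 0 with l | l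
  · exact inf_le_left.trans (ha (by linarith))
  · exact inf_le_right.trans (ha (by linarith))

theorem IsMid.uniq (h : IsMid a b c) (h' : IsMid a b c') : c = c' :=
  funext fun u => (h u).unique (h' u)

theorem IsMid.m1 (h : IsMid a b c) (ha : Monotone a) (k : Le s a b) :
    Le (s / 2) a c ∧ Le (s / 2) c b := by
  refine ⟨fun u => (h u).2 ?_, fun u => le_trans (le_inf ?_ ?_) ((h _).1 ⟨s / 2, rfl⟩)⟩
  · rintro _ ⟨r, rfl⟩
    rcases le_total r (s / 2) with l | l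
    · exact inf_le_left.trans (ha (by linarith))
    · exact inf_le_right.trans ((k _).trans (ha (by linarith)))
  · exact (k u).trans (ha (by linarith))
  · exact (congrArg b (by ring)).le

theorem IsMid.m3 (h : IsMid a b c) (h' : IsMid a' b' c') (k : Le s a a') (k' : Le s' b b') :
    Le ((s + s') / 2) c c' := by
  refine fun u => (h' u).2 ?_
  rintro _ ⟨r, rfl⟩
  exact le_trans (inf_le_inf ((k _).trans_eq (congrArg a (by ring)))
    ((k' _).trans_eq (congrArg b (by ring)))) ((h _).1 ⟨r + (s - s') / 2, rfl⟩)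

theorem ub_res (ha : Monotone a) (hb : Monotone b) {η : ℝ} (h0 : 0 ≤ η) (h1 : Le (2 * η) a b)
    (h2 : Le (2 * η) b a) (u : ℝ) :
    upperBounds ((fun s => a (u + s) ⊓ b (u - s)) '' Icc (-η) η) =
      upperBounds (range fun s => a (u + s) ⊓ b (u - s)) := by
  refine Subset.antisymm (fun D hD => ?_) (upperBounds_mono_set (image_subset_range _ _))
  rintro _ ⟨r, rfl⟩
  rcases le_total η r with l | l
  · exact (inf_le_right.trans (hb (show u - r ≤ u - η by linarith))).trans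
      (le_trans (le_inf ((h1 _).trans (ha (by linarith))) le_rfl) (hD ⟨η, ⟨by linarith, le_rfl⟩, rfl⟩))
  rcases le_total r (-η) with l' | l'
  · exact (inf_le_left.trans (ha (show u + r ≤ u + -η by linarith))).trans
      (le_trans (le_inf le_rfl ((h2 _).trans (hb (by linarith))))
        (hD ⟨-η, ⟨le_rfl, by linarith⟩, rfl⟩))
  · exact hD ⟨r, ⟨l', l⟩, rfl⟩

theorem isMid_res (ha : Monotone a) (hb : Monotone b) {η : ℝ} (h0 : 0 ≤ η) (h1 : Le (2 * η) a b)
    (h2 : Le (2 * η) b a) :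
    IsMid a b c ↔ ∀ u, IsLUB ((fun s => a (u + s) ⊓ b (u - s)) '' Icc (-η) η) (c u) :=
  forall_congr' fun u => by rw [IsLUB, IsLUB, ub_res ha hb h0 h1 h2]

/-- `B` is comparable with all values of `a` -/
def Cmp (B : L) (a : ℝ → L) : Prop := ∀ u, a u ≤ B ∨ B ≤ a u

theorem cmp_val (ha : Monotone a) (u : ℝ) : Cmp (a u) a :=
  fun v => (le_total v u).imp (fun h => ha h) fun h => ha h

theorem IsMid.inf (h : IsMid a b c) {B : L} (ha : Cmp B a) (hb : Cmp B b) (hc : Cmp B c) :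
    IsMid (fun u => a u ⊓ B) (fun u => b u ⊓ B) fun u => c u ⊓ B := by
  refine fun u => ⟨?_, fun D hD => ?_⟩
  · rintro _ ⟨r, rfl⟩
    exact le_inf (le_trans (inf_le_inf inf_le_left inf_le_left) ((h u).1 ⟨r, rfl⟩))
      (inf_le_left.trans inf_le_right)
  by_cases e : ∀ r, a (u + r) ⊓ b (u - r) ≤ B
  · refine inf_le_left.trans ((h u).2 ?_)
    rintro _ ⟨r, rfl⟩
    exact le_trans (le_inf (le_inf inf_le_left (e r)) (le_inf inf_le_right (e r))) (hD ⟨r, rfl⟩)
  · obtain ⟨r, hr⟩ := not_forall.1 e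
    exact inf_le_right.trans (le_trans (le_inf
      (le_inf ((ha _).resolve_left fun l => hr (inf_le_left.trans l)) le_rfl)
      (le_inf ((hb _).resolve_left fun l => hr (inf_le_right.trans l)) le_rfl)) (hD ⟨r, rfl⟩))

theorem IsMid.sup (h : IsMid a b c) {B : L} (ha : Cmp B a) (hb : Cmp B b) :
    IsMid (fun u => a u ⊔ B) (fun u => b u ⊔ B) fun u => c u ⊔ B := by
  refine fun u => ⟨?_, fun D hD => sup_le ((h u).2 ?_)
    (le_trans (le_inf le_sup_right le_sup_right) (hD ⟨0, rfl⟩))⟩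
  · rintro _ ⟨r, rfl⟩
    rcases ha (u + r) with l | l
    · exact inf_le_left.trans (sup_le (l.trans le_sup_right) le_sup_right)
    rcases hb (u - r) with l' | l'
    · exact inf_le_right.trans (sup_le (l'.trans le_sup_right) le_sup_right)
    · exact le_trans (inf_le_inf (sup_le le_rfl l) (sup_le le_rfl l'))
        (((h u).1 ⟨r, rfl⟩).trans le_sup_left)
  · rintro _ ⟨r, rfl⟩
    exact le_trans (inf_le_inf le_sup_left le_sup_left) (hD ⟨r, rfl⟩)

/-- discrete convexity -/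
theorem convex_le {e : ℕ → ℝ} {W : ℕ} (h : ∀ j, j + 2 ≤ W → 2 * e (j + 1) ≤ e j + e (j + 2))
    {j : ℕ} (hj : j ≤ W) : W * e j ≤ (W - j) * e 0 + j * e W := by
  have A (n : ℕ) (hn : n + 1 ≤ W) : (n + 1) * (e n - e 0) ≤ n * (e (n + 1) - e 0) := by
    induction n with
    | zero => simp
    | succ n ih =>
      have := ih (by omega)
      have := mul_le_mul_of_nonneg_left (h n hn) (by positivity : (0 : ℝ) ≤ n + 1)
      push_cast
      linarith
  have B (n : ℕ) (hn : j ≤ n) : n ≤ W → n * (e j - e 0) ≤ j * (e n - e 0) := by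
    induction n, hn using Nat.le_induction with
    | base => exact fun _ => le_rfl
    | succ n hn ih =>
      intro l
      rcases Nat.eq_zero_or_pos n with rfl | hp
      · simp [Nat.le_zero.1 hn]
      have h1 := mul_le_mul_of_nonneg_left (ih (by omega)) (by positivity : (0 : ℝ) ≤ n + 1)
      have h2 := mul_le_mul_of_nonneg_left (A n l) (Nat.cast_nonneg (α := ℝ) j)
      refine le_of_mul_le_mul_left ?_ (Nat.cast_pos.2 hp : (0 : ℝ) < n)
      push_cast
      linarith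
  linarith [B W hj le_rfl]

/-- straight paths of functions -/
structure Pth (W : ℕ) (q : ℕ → ℝ → L) : Prop where
  ok : ∀ i ≤ W, ∀ j ≤ W, Ok (q i) (q j)
  mid : ∀ j, j + 2 ≤ W → IsMid (q j) (q (j + 2)) (q (j + 1))

variable {W : ℕ} {q q' : ℕ → ℝ → L}

theorem Pth.sub (h : Pth W q) {i W' : ℕ} (k : i + W' ≤ W) : Pth W' fun j => q (i + j) :=
  ⟨fun a _ b _ => h.ok _ (by omega) _ (by omega), fun j _ => h.mid (i + j) (by omega)⟩

/-- the maximum principle -/
theorem le_of_ends (h : ∀ j, j + 2 ≤ W → IsMid (q j) (q (j + 2)) (q (j + 1)))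
    (h' : ∀ j, j + 2 ≤ W → IsMid (q' j) (q' (j + 2)) (q' (j + 1)))
    (k : ∀ j ≤ W, Ok (q j) (q' j)) {α β : ℝ} (k0 : Le α (q 0) (q' 0)) (k1 : Le β (q W) (q' W))
    (hW : 0 < W) {j : ℕ} (hj : j ≤ W) : Le (((W - j) * α + j * β) / W) (q j) (q' j) := by
  have C := convex_le (e := fun j => Hd (q j) (q' j)) (W := W) (fun j l => by
    have := (k (j + 1) (by omega)).le_iff.1 ((h j l).m3 (h' j l)
      ((k j (by omega)).le_iff.2 le_rfl) ((k (j + 2) l).le_iff.2 le_rfl))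
    linarith) hj
  have h0 := mul_le_mul_of_nonneg_left ((k 0 W.zero_le).le_iff.1 k0)
    (sub_nonneg.2 (Nat.cast_le.2 hj) : (0 : ℝ) ≤ W - j)
  have h1 := mul_le_mul_of_nonneg_left ((k W le_rfl).le_iff.1 k1) (Nat.cast_nonneg (α := ℝ) j)
  rw [(k j hj).le_iff, le_div_iff₀ (Nat.cast_pos.2 hW)]
  linarith

theorem Fn_geo (h : Pth W q) (i l : ℕ) (k : i + l ≤ W) :
    Hd (q i) (q (i + l)) = l * Hd (q 0) (q 1) := by
  have E {i j} (hi : i ≤ W) (hj : j ≤ W) : Le (Hd (q i) (q j)) (q i) (q j) :=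
    (h.ok i hi j hj).le_iff.2 le_rfl
  have A (j : ℕ) (hj : j + 1 ≤ W) : Hd (q j) (q (j + 1)) = Hd (q 0) (q 1) := by
    induction j with
    | zero => rfl
    | succ j ih =>
      obtain ⟨h1, h2⟩ := (h.mid j hj).m1 (h.ok j (by omega) j (by omega)).mono
        ((E (by omega) (by omega : j + 1 ≤ W)).trans (E (by omega) hj))
      rw [(h.ok _ (by omega) _ (by omega)).le_iff] at h1 h2
      linarith [ih (by omega)]
  have hi := h.ok i (by omega) i (by omega)
  have Z : Hd (q i) (q i) = 0 :=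
    (hi.le_iff.1 (hi.self_iff.2 le_rfl)).antisymm (hi.self_iff.1 (E (by omega) (by omega)))
  refine le_antisymm ((h.ok i (by omega) _ k).le_iff.1 ?_) ?_
  · induction l with
    | zero => exact hi.self_iff.2 (by simp)
    | succ l ih =>
      refine ((ih (by omega)).trans (E (by omega) k)).mono hi.mono (le_of_eq ?_)
      rw [← add_assoc, A (i + l) k]
      push_cast
      ring
  rcases Nat.eq_zero_or_pos l with rfl | hl
  · simp [Z]
  have C := convex_le (e := fun l => Hd (q i) (q (i + l))) (W := l) (j := 1) (fun j m => by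
    have := (h.ok i (by omega) (i + j + 1) (by omega)).le_iff.1 ((isMid_self hi.mono).m3
      (h.mid (i + j) (by omega)) (E (by omega) (by omega)) (E (by omega) (by omega)))
    rw [← add_assoc, ← add_assoc]
    linarith) hl
  simpa [Z, A i (by omega)] using C

/-- Straight paths are geodesics. -/
theorem Pth.geo (h : Pth W q) : ∃ h1 h2 : ℝ, 0 ≤ h1 + h2 ∧ ∀ i l : ℕ, i + l ≤ W → ∀ s,
    (Le s (q i) (q (i + l)) ↔ l * h1 ≤ s) ∧ (Le s (q (i + l)) (q i) ↔ l * h2 ≤ s) := by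
  have h' : Pth W fun j => q (W - j) := ⟨fun i _ j _ => h.ok _ (by omega) _ (by omega), fun j l => by
    have := (h.mid (W - (j + 2)) (by omega)).symm
    rwa [show W - (j + 2) + 2 = W - j by omega, show W - (j + 2) + 1 = W - (j + 1) by omega] at this⟩
  have A (i l : ℕ) (k : i + l ≤ W) (s : ℝ) :
      (Le s (q i) (q (i + l)) ↔ l * Hd (q 0) (q 1) ≤ s) ∧
        (Le s (q (i + l)) (q i) ↔ l * Hd (q (W - 0)) (q (W - 1)) ≤ s) := by
    have := Fn_geo h' (W - (i + l)) l (by omega)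
    rw [show W - (W - (i + l)) = i + l by omega, show W - (W - (i + l) + l) = i by omega] at this
    rw [(h.ok _ (by omega) _ k).le_iff, (h.ok _ k _ (by omega)).le_iff, Fn_geo h i l k, this]
    exact ⟨Iff.rfl, Iff.rfl⟩
  rcases Nat.eq_zero_or_pos W with rfl | hW
  · refine ⟨0, 0, by simp, fun i l k s => ?_⟩
    obtain rfl : l = 0 := by omega
    simpa using A i 0 k s
  · refine ⟨_, _, ?_, A⟩
    simpa using (h.ok 0 W.zero_le 0 W.zero_le).self_iff.1
      (((A 0 1 hW _).1.2 le_rfl).trans ((A 0 1 hW _).2.2 le_rfl))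

end Pool.Agent.Work.MP_9d1ffa_al.Ga
end

-- merged part: Pool.Agent.Work.MP_9d1ffa_al.Ga.Xs
section
/-! The metric space of periodic step functions. -/

namespace Pool.Agent.Work.MP_9d1ffa_al.Ga

open Set

/-- periodic monotone step functions -/
@[ext] structure PX (L : Type) [ConditionallyCompleteLattice L] [Gar L] where
  f : ℝ → L
  mono : Monotone f
  per : ∀ u, f (u + 1) = Gar.τ (f u)
  rc : RC f

variable {L : Type} [ConditionallyCompleteLattice L] [Gar L]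

theorem Xs_const (x : PX L) {u e d : ℝ} (h : x.f (u + e) = x.f u) (h0 : 0 ≤ d) (h1 : d ≤ e) :
    x.f (u + d) = x.f u :=
  le_antisymm ((x.mono (by linarith)).trans_eq h) (x.mono (by linarith))

theorem Xs_rc2 (x y : PX L) (F : L → L → L) : RC fun u => F (x.f u) (y.f u) := fun u => by
  obtain ⟨e, he, h⟩ := x.rc u
  obtain ⟨e', he', h'⟩ := y.rc u
  have m := lt_min he he'
  exact ⟨min e e', m, by
    simp only [Xs_const x h m.le (min_le_left _ _), Xs_const y h' m.le (min_le_right _ _)]⟩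

theorem Xs_succ (k : ℤ) (x : L) : tz (k + 1) x = Gar.τ (tz k x) := by
  rw [add_comm, tz_add, tz_one]

instance : Lattice (PX L) where
  le x y := ∀ u, x.f u ≤ y.f u
  le_refl _ _ := le_rfl
  le_trans _ _ _ h k u := (h u).trans (k u)
  le_antisymm _ _ h k := PX.ext (funext fun u => le_antisymm (h u) (k u))
  sup x y := ⟨fun u => x.f u ⊔ y.f u, x.mono.sup y.mono,
    fun u => by rw [x.per, y.per, OrderIso.map_sup], Xs_rc2 x y _⟩
  inf x y := ⟨fun u => x.f u ⊓ y.f u, x.mono.inf y.mono,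
    fun u => by rw [x.per, y.per, OrderIso.map_inf], Xs_rc2 x y _⟩
  le_sup_left _ _ _ := le_sup_left
  le_sup_right _ _ _ := le_sup_right
  sup_le _ _ _ h k u := sup_le (h u) (k u)
  inf_le_left _ _ _ := inf_le_left
  inf_le_right _ _ _ := inf_le_right
  le_inf _ _ _ h k u := le_inf (h u) (k u)

theorem le_def {x y : PX L} : x ≤ y ↔ ∀ u, x.f u ≤ y.f u := Iff.rfl

theorem sup_f (x y : PX L) (u : ℝ) : (x ⊔ y).f u = x.f u ⊔ y.f u := rfl

theorem inf_f (x y : PX L) (u : ℝ) : (x ⊓ y).f u = x.f u ⊓ y.f u := rfl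

theorem PX.per_int (x : PX L) (u : ℝ) (k : ℤ) : x.f (u + k) = tz k (x.f u) := by
  induction k using Int.induction_on with
  | zero => rw [Int.cast_zero, add_zero, tz_zero]
  | succ k ih => rw [Int.cast_add, Int.cast_one, ← add_assoc, x.per, ih, Xs_succ]
  | pred k ih =>
    apply (Gar.τ (L := L)).injective
    rw [← x.per, ← Xs_succ, sub_add_cancel, ← ih]
    congr 1
    push_cast
    ring

theorem PX.floor (x : PX L) (u : ℝ) : x.f u = tz ⌊u⌋ (x.f (Int.fract u)) := by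
  rw [← x.per_int, Int.fract_add_floor]

/-- the shift flow -/
def sh (a : ℝ) (x : PX L) : PX L :=
  ⟨fun u => x.f (u + a), fun _ _ h => x.mono (by linarith),
    fun u => by rw [← x.per, add_right_comm],
    fun u => (x.rc (u + a)).imp fun e h => ⟨h.1, by simp only [← h.2, add_right_comm u e a]⟩⟩

theorem sh_f (a : ℝ) (x : PX L) (u : ℝ) : (sh a x).f u = x.f (u + a) := rfl

theorem le_sh {s : ℝ} {x y : PX L} : y ≤ sh s x ↔ Le s x.f y.f := Iff.rfl

theorem sh_zero (x : PX L) : sh 0 x = x := PX.ext (funext fun u => by rw [sh_f, add_zero])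

theorem sh_sh (a b : ℝ) (x : PX L) : sh a (sh b x) = sh (a + b) x :=
  PX.ext (funext fun u => by rw [sh_f, sh_f, sh_f, add_assoc])

theorem sh_le_sh {a b : ℝ} {x y : PX L} (h : a ≤ b) (k : x ≤ y) : sh a x ≤ sh b y :=
  fun u => (k _).trans (y.mono (by linarith))

theorem sh_le_iff {a : ℝ} {x y : PX L} : sh (-a) x ≤ y ↔ x ≤ sh a y := by
  refine ⟨fun h u => ?_, fun h u => ?_⟩
  · simpa [sh_f] using h (u + a)
  · simpa [sh_f] using h (u + -a)

theorem sh_sup (a : ℝ) (x y : PX L) : sh a (x ⊔ y) = sh a x ⊔ sh a y := rfl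

theorem px_ok (x y : PX L) : Ok x.f y.f := by
  refine ⟨x.mono, x.rc, ?_, ?_⟩
  · obtain ⟨k, -, hk⟩ := tz_cof (x.f 0) (y.f 1)
    refine ⟨(k : ℤ), fun u => ?_⟩
    rw [x.per_int, y.floor u, x.floor u, ← tz_add, add_comm, tz_add]
    exact (tz _).monotone ((y.mono (Int.fract_lt_one u).le).trans
      (hk.trans ((tz _).monotone (x.mono (Int.fract_nonneg u)))))
  · obtain ⟨k, -, hk⟩ := tz_cof (y.f 0) (x.f 0)
    refine ⟨((-k - 1 : ℤ) : ℝ), fun h => ?_⟩
    have h1 := (h 0).trans_eq (x.per_int 0 _)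
    have h2 := h1.trans ((tz _).monotone hk)
    rw [← tz_add] at h2
    have h3 : tz (-k - 1 + k) (y.f 0) < tz 0 (y.f 0) := tz_strict (y.f 0) (by omega)
    rw [tz_zero] at h3
    exact h3.not_ge h2

theorem Xs_hd (x y : PX L) : Le (Hd x.f y.f) x.f y.f := (px_ok x y).le_iff.2 le_rfl

theorem Xs_tri (x y z : PX L) : Hd x.f z.f ≤ Hd x.f y.f + Hd y.f z.f :=
  (px_ok x z).le_iff.1 ((Xs_hd x y).trans (Xs_hd y z))

noncomputable instance : MetricSpace (PX L) where
  dist x y := max (Hd x.f y.f) (Hd y.f x.f)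
  dist_self x := (max_self _).trans (le_antisymm
    ((px_ok x x).le_iff.1 ((px_ok x x).self_iff.2 le_rfl)) ((px_ok x x).self_iff.1 (Xs_hd x x)))
  dist_comm x y := max_comm _ _
  dist_triangle x y z := max_le
    ((Xs_tri x y z).trans (add_le_add (le_max_left _ _) (le_max_left _ _)))
    ((Xs_tri z y x).trans ((add_comm _ _).trans_le
      (add_le_add (le_max_right _ _) (le_max_right _ _))))
  eq_of_dist_eq_zero {x y} h := by
    have k := max_le_iff.1 h.le
    exact le_antisymm (le_sh.2 ((px_ok y x).le_iff.2 k.2) |>.trans_eq (sh_zero y))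
      (le_sh.2 ((px_ok x y).le_iff.2 k.1) |>.trans_eq (sh_zero x))

theorem dist_le_iff {x y : PX L} {s : ℝ} : dist x y ≤ s ↔ y ≤ sh s x ∧ x ≤ sh s y :=
  max_le_iff.trans (and_congr (px_ok x y).le_iff.symm (px_ok y x).le_iff.symm)

theorem le_sh_dist (x y : PX L) : y ≤ sh (dist x y) x ∧ x ≤ sh (dist x y) y :=
  dist_le_iff.1 le_rfl

theorem dist_sh_le (a b : ℝ) (x y : PX L) : dist (sh a x) (sh b y) ≤ |a - b| + dist x y := by
  obtain ⟨h, k⟩ := le_sh_dist x y
  rw [dist_le_iff, sh_sh, sh_sh]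
  refine ⟨(sh_le_sh le_rfl h).trans ?_, (sh_le_sh le_rfl k).trans ?_⟩ <;> rw [sh_sh]
  · exact sh_le_sh (by linarith [neg_abs_le (a - b)]) le_rfl
  · exact sh_le_sh (by linarith [le_abs_self (a - b)]) le_rfl

theorem dist_sup_le (x y x' y' : PX L) :
    dist (x ⊔ y) (x' ⊔ y') ≤ max (dist x x') (dist y y') := by
  obtain ⟨h, k⟩ := dist_le_iff.1 (le_max_left (dist x x') (dist y y'))
  obtain ⟨h', k'⟩ := dist_le_iff.1 (le_max_right (dist x x') (dist y y'))
  rw [dist_le_iff, sh_sup, sh_sup]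
  exact ⟨sup_le_sup h h', sup_le_sup k k'⟩

theorem dist_between {x y z c : PX L} {r : ℝ} (h1 : x ≤ z) (h2 : z ≤ y) (k1 : dist x c ≤ r)
    (k2 : dist y c ≤ r) : dist z c ≤ r :=
  dist_le_iff.2 ⟨(dist_le_iff.1 k1).1.trans (sh_le_sh le_rfl h1), h2.trans (dist_le_iff.1 k2).2⟩

theorem continuous_sh : Continuous fun p : ℝ × PX L => sh p.1 p.2 := by
  refine (LipschitzWith.of_dist_le_mul (K := 2) fun p q => ?_).continuous
  have h1 : dist p.1 q.1 ≤ dist p q := le_max_left _ _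
  have h2 : dist p.2 q.2 ≤ dist p q := le_max_right _ _
  rw [Real.dist_eq] at h1
  refine (dist_sh_le _ _ _ _).trans ?_
  push_cast
  linarith

instance : ContinuousSup (PX L) :=
  ⟨(LipschitzWith.mk_one fun p q : PX L × PX L => dist_sup_le p.1 p.2 q.1 q.2).continuous⟩

instance : OrderClosedTopology (PX L) := ⟨by
  simp only [← sup_eq_right]
  exact isClosed_eq continuous_sup continuous_snd⟩

/-- the pointwise infimum -/
theorem exists_glb {A : Set (PX L)} (ne : A.Nonempty) (bd : BddBelow A) : ∃ x, IsGLB A x := by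
  obtain ⟨b, hb⟩ := bd
  have n1 : ∀ u, ((fun a : PX L => a.f u) '' A).Nonempty := fun u => ne.image _
  have b1 : ∀ u, BddBelow ((fun a : PX L => a.f u) '' A) := fun u =>
    ⟨b.f u, forall_mem_image.2 fun a ha => hb ha u⟩
  have l1 : ∀ u, ∀ a ∈ A, sInf ((fun a : PX L => a.f u) '' A) ≤ a.f u := fun u a ha =>
    csInf_le (b1 u) (mem_image_of_mem _ ha)
  have mo : Monotone fun u => sInf ((fun a : PX L => a.f u) '' A) := fun u v h =>
    le_csInf (n1 v) (forall_mem_image.2 fun a ha => (l1 u a ha).trans (a.mono h))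
  refine ⟨⟨fun u => sInf ((fun a : PX L => a.f u) '' A), mo, fun u => ?_, fun u => ?_⟩,
    fun a ha u => l1 u a ha,
    fun c hc u => le_csInf (n1 u) (forall_mem_image.2 fun a ha => hc ha u)⟩
  · rw [OrderIso.map_csInf' _ (n1 u) (b1 u), image_image]
    simp only [PX.per]
  · obtain ⟨B, hB, -, fi, lo⟩ := (Gar.gl (L := L)).fin_glb (n1 u) (b1 u)
    have ev : ∀ᶠ e in nhdsWithin (0 : ℝ) (Ioi 0), ∀ z ∈ B,
        sInf ((fun a : PX L => a.f (u + e)) '' A) ≤ z := by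
      refine (Filter.eventually_all_finite fi).2 fun z hz => ?_
      obtain ⟨a, ha, rfl⟩ := hB hz
      obtain ⟨e, he, h⟩ := a.rc u
      filter_upwards [Ioo_mem_nhdsGT he] with d hd
      exact (l1 _ a ha).trans_eq (Xs_const a h hd.1.le hd.2.le)
    obtain ⟨e, h1, h2⟩ := (ev.and self_mem_nhdsWithin).exists
    exact ⟨e, h2, le_antisymm (le_csInf (n1 u) (lo h1)) (mo (le_add_of_nonneg_right (le_of_lt h2)))⟩

theorem Xs_le_sh {a : ℝ} (h : 0 ≤ a) (x : PX L) : x ≤ sh a x :=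
  (sh_zero x).ge.trans (sh_le_sh h le_rfl)

instance : CompleteSpace (PX L) := by
  refine Metric.complete_of_cauchySeq_tendsto fun x hx => ?_
  obtain ⟨e, e0, he, lim⟩ := cauchySeq_iff_le_tendsto_0.1 hx
  have lo : ∀ N, sh (-e N) (x N) ∈ lowerBounds (range fun k => sh (e k) (x k)) := fun N => by
    refine forall_mem_range.2 fun k => ?_
    rcases le_total N k with h | h
    · exact (sh_le_iff.2 (dist_le_iff.1 (he k N N h le_rfl)).1).trans (Xs_le_sh (e0 k) _)
    · exact (sh_le_iff.2 (Xs_le_sh (e0 N) _)).trans (dist_le_iff.1 (he k N k le_rfl h)).1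
  obtain ⟨z, hz⟩ := exists_glb (range_nonempty _) ⟨_, lo 0⟩
  exact ⟨z, tendsto_iff_dist_tendsto_zero.2 (squeeze_zero (fun _ => dist_nonneg)
    (fun N => dist_le_iff.2 ⟨hz.1 (mem_range_self N), sh_le_iff.1 (hz.2 (lo N))⟩) lim)⟩

/-- the base point -/
noncomputable def pt (x0 : L) : PX L :=
  ⟨fun u => tz ⌊u⌋ x0, fun _ _ h => tz_mono (Int.floor_mono h) x0,
    fun u => by rw [Int.floor_add_one, Xs_succ], fun u => by
      have h1 := Int.floor_le u
      have h2 := Int.lt_floor_add_one u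
      refine ⟨(⌊u⌋ + 1 - u) / 2, by linarith, ?_⟩
      have : ⌊u + (⌊u⌋ + 1 - u) / 2⌋ = ⌊u⌋ := Int.floor_eq_iff.2 ⟨by linarith, by linarith⟩
      simp only [this]⟩

theorem pt_f (x0 : L) (u : ℝ) : (pt x0).f u = tz ⌊u⌋ x0 := rfl

theorem near_pt {x0 : L} {a : PX L} {C : ℕ} (h : dist a (pt x0) ≤ C) {u : ℝ} (hu : u ∈ Ico (0 : ℝ) 1) :
    a.f u ∈ Icc (tz (-C) x0) (tz C x0) := by
  obtain ⟨h1, h2⟩ := dist_le_iff.1 h
  have f0 : ⌊u⌋ = 0 := Int.floor_eq_zero_iff.2 hu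
  have k1 := h1 (u - C)
  have k2 := h2 u
  rw [pt_f, sh_f, sub_add_cancel, Int.floor_sub_natCast, f0, zero_sub] at k1
  rw [sh_f, pt_f, Int.floor_add_natCast, f0, zero_add] at k2
  exact ⟨k1, k2⟩

variable {G : Type} [Group G] [MulAction G L] [GA G L]

instance : MulAction G (PX L) where
  smul g x := ⟨fun u => g • x.f u, fun _ _ h => GA.mono g _ _ (x.mono h),
    fun u => by rw [x.per, GA.tau], fun u => (x.rc u).imp fun _ h => ⟨h.1, congrArg _ h.2⟩⟩
  one_smul x := PX.ext (funext fun u => one_smul G (x.f u))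
  mul_smul g h x := PX.ext (funext fun u => mul_smul g h (x.f u))

theorem smul_f (g : G) (x : PX L) (u : ℝ) : (g • x).f u = g • x.f u := rfl

theorem smul_le {g : G} {x y : PX L} : g • x ≤ g • y ↔ x ≤ y :=
  forall_congr' fun _ => act_le g

theorem smul_sh (g : G) (a : ℝ) (x : PX L) : g • sh a x = sh a (g • x) := rfl

instance : IsIsometricSMul G (PX L) := ⟨fun g => Isometry.of_dist_eq fun x y => by
  refine eq_of_forall_ge_iff fun s => ?_
  rw [dist_le_iff, dist_le_iff, ← smul_sh, ← smul_sh, smul_le, smul_le]⟩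

end Pool.Agent.Work.MP_9d1ffa_al.Ga
end

-- merged part: Pool.Agent.Work.MP_9d1ffa_al.Ga.Sg
section
/-! Straight paths in the space of periodic step functions. -/

namespace Pool.Agent.Work.MP_9d1ffa_al.Ga

open Set

variable {L : Type} [ConditionallyCompleteLattice L] [Gar L]

theorem mid_lub (a b : PX L) (u : ℝ) : IsLUB (range fun s => a.f (u + s) ⊓ b.f (u - s))
    (sSup (range fun s => a.f (u + s) ⊓ b.f (u - s))) := by
  refine isLUB_csSup (range_nonempty _) ⟨a.f (u + dist a b), ?_⟩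
  rintro _ ⟨s, rfl⟩
  have h0 : 0 ≤ dist a b := dist_nonneg
  rcases le_total s (dist a b) with h | h
  · exact inf_le_left.trans (a.mono (by linarith))
  · exact inf_le_right.trans (((le_sh_dist a b).1 _).trans (a.mono (by linarith)))

omit [Gar L] in
theorem Sg_map (φ : L ≃o L) {a b c : ℝ → L} (h : IsMid a b c) :
    IsMid (fun u => φ (a u)) (fun u => φ (b u)) fun u => φ (c u) := fun u => by
  have := φ.isLUB_image'.2 (h u)
  rw [← range_comp] at this
  simpa only [Function.comp_def, OrderIso.map_inf] using this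

theorem Sg_mono (a b : PX L) :
    Monotone fun u => sSup (range fun s => a.f (u + s) ⊓ b.f (u - s)) := fun u v h =>
  (mid_lub a b u).2 (by
    rintro _ ⟨s, rfl⟩
    exact (inf_le_inf (a.mono (by linarith)) (b.mono (by linarith))).trans
      ((mid_lub a b v).1 ⟨s, rfl⟩))

theorem Sg_per (a b : PX L) (u : ℝ) :
    sSup (range fun s => a.f (u + 1 + s) ⊓ b.f (u + 1 - s)) =
      Gar.τ (sSup (range fun s => a.f (u + s) ⊓ b.f (u - s))) := by
  refine (mid_lub a b (u + 1)).unique ?_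
  have := Sg_map Gar.τ (mid_lub a b) u
  simp only [← PX.per] at this
  simpa only [add_right_comm u 1, add_sub_right_comm u 1, ← PX.per] using this

theorem Sg_rc (a b : PX L) : RC fun u => sSup (range fun s => a.f (u + s) ⊓ b.f (u - s)) := by
  intro u
  have h0 : 0 ≤ dist a b := dist_nonneg
  have h1 : ∀ᶠ v in nhds u, ∀ s ∈ Icc (-dist a b) (dist a b), a.f (v + s) ⊓ b.f (v - s) ≤
      sSup (range fun s => a.f (u + s) ⊓ b.f (u - s)) := by
    refine isCompact_Icc.eventually_forall_of_forall_eventually fun s _ => ?_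
    obtain ⟨e1, p1, q1⟩ := a.rc (u + s)
    obtain ⟨e2, p2, q2⟩ := b.rc (u - s)
    have c1 : ∀ᶠ z : ℝ × ℝ in nhds (u, s), z.1 + z.2 < u + s + e1 :=
      (continuous_fst.add continuous_snd).continuousAt.eventually_lt_const (by simpa using p1)
    have c2 : ∀ᶠ z : ℝ × ℝ in nhds (u, s), z.1 - z.2 < u - s + e2 :=
      (continuous_fst.sub continuous_snd).continuousAt.eventually_lt_const (by simpa using p2)
    filter_upwards [c1, c2] with z d1 d2
    exact (inf_le_inf ((a.mono d1.le).trans_eq q1) ((b.mono d2.le).trans_eq q2)).trans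
      ((mid_lub a b u).1 ⟨s, rfl⟩)
  obtain ⟨v, hv, h2⟩ := h1.exists_gt
  refine ⟨v - u, sub_pos.2 hv, ?_⟩
  rw [add_sub_cancel]
  refine le_antisymm ((mid_lub a b v).2 ?_) (Sg_mono a b hv.le)
  rw [← ub_res a.mono b.mono h0 ((le_sh.1 (le_sh_dist a b).1).mono a.mono (by linarith))
    ((le_sh.1 (le_sh_dist a b).2).mono b.mono (by linarith))]
  rintro _ ⟨s, hs, rfl⟩
  exact h2 s hs

/-- The midpoint. -/
noncomputable def mid (a b : PX L) : PX L :=
  ⟨fun u => sSup (range fun s => a.f (u + s) ⊓ b.f (u - s)), Sg_mono a b, Sg_per a b, Sg_rc a b⟩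

theorem isMid_mid (a b : PX L) : IsMid a.f b.f (mid a b).f := mid_lub a b

theorem mid_le {a b a' b' : PX L} {s s' : ℝ} (h : a' ≤ sh s a) (h' : b' ≤ sh s' b) :
    mid a' b' ≤ sh ((s + s') / 2) (mid a b) :=
  (isMid_mid a b).m3 (isMid_mid a' b') h h'

theorem mid_self (a : PX L) : mid a a = a := PX.ext ((isMid_mid a a).uniq (isMid_self a.mono))

theorem mid_mono {a b a' b' : PX L} (h : a' ≤ a) (h' : b' ≤ b) : mid a' b' ≤ mid a b := by
  have := mid_le (s := 0) (s' := 0) (by rwa [sh_zero]) (by rwa [sh_zero]) (a := a) (b := b)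
    (a' := a') (b' := b')
  rwa [add_zero, zero_div, sh_zero] at this

theorem dist_mid_le {a b c : PX L} {r : ℝ} (ha : dist a c ≤ r) (hb : dist b c ≤ r) :
    dist (mid a b) c ≤ r := by
  have h1 := mid_le (dist_le_iff.1 ha).1 (dist_le_iff.1 hb).1
  have h2 := mid_le (dist_le_iff.1 ha).2 (dist_le_iff.1 hb).2
  rw [mid_self, add_self_div_two] at h1 h2
  exact dist_le_iff.2 ⟨h1, h2⟩

/-- straight paths -/
def Str (W : ℕ) (p : ℕ → PX L) : Prop :=
  ∀ j, j + 2 ≤ W → IsMid (p j).f (p (j + 2)).f (p (j + 1)).f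

variable {W : ℕ} {p q : ℕ → PX L}

theorem Str.pth (h : Str W p) : Pth W fun j => (p j).f := ⟨fun _ _ _ _ => px_ok _ _, h⟩

theorem Str.sub (h : Str W p) {i W' : ℕ} (k : i + W' ≤ W) : Str W' fun j => p (i + j) :=
  fun j _ => h (i + j) (by omega)

theorem Str.le (h : Str W p) (h' : Str W q) {α β : ℝ} (k0 : q 0 ≤ sh α (p 0))
    (k1 : q W ≤ sh β (p W)) (hW : 0 < W) {j : ℕ} (hj : j ≤ W) :
    q j ≤ sh (((W - j) * α + j * β) / W) (p j) :=
  le_of_ends (q := fun j => (p j).f) (q' := fun j => (q j).f) h h' (fun _ _ => px_ok _ _) k0 k1 hW hj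

theorem Str.dist_le (h : Str W p) (h' : Str W q) {α β : ℝ} (k0 : dist (p 0) (q 0) ≤ α)
    (k1 : dist (p W) (q W) ≤ β) (hW : 0 < W) {j : ℕ} (hj : j ≤ W) :
    dist (p j) (q j) ≤ ((W - j) * α + j * β) / W :=
  dist_le_iff.2 ⟨h.le h' (dist_le_iff.1 k0).1 (dist_le_iff.1 k1).1 hW hj,
    h'.le h (dist_le_iff.1 k0).2 (dist_le_iff.1 k1).2 hW hj⟩

theorem Str.dist_le' (h : Str W p) (h' : Str W q) {α : ℝ} (k0 : dist (p 0) (q 0) ≤ α)
    (k1 : dist (p W) (q W) ≤ α) {j : ℕ} (hj : j ≤ W) : dist (p j) (q j) ≤ α := by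
  rcases Nat.eq_zero_or_pos W with rfl | hW
  · rwa [Nat.le_zero.1 hj]
  · have : (W : ℝ) ≠ 0 := by exact_mod_cast hW.ne'
    exact (h.dist_le h' k0 k1 hW hj).trans_eq (by field_simp; ring)

theorem Str.geo (h : Str W p) (hW : 0 < W) {i j : ℕ} (hi : i ≤ W) (hj : j ≤ W) :
    dist (p i) (p j) = |(i : ℝ) - j| * (dist (p 0) (p W) / W) := by
  obtain ⟨h1, h2, -, k⟩ := h.pth.geo
  have key : ∀ i l : ℕ, i + l ≤ W → dist (p i) (p (i + l)) = l * max h1 h2 := fun i l hl =>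
    eq_of_forall_ge_iff fun s => by
      rw [dist_le_iff, le_sh, le_sh, (k i l hl s).1, (k i l hl s).2,
        mul_max_of_nonneg _ _ (Nat.cast_nonneg l), max_le_iff]
  have hW' : (W : ℝ) ≠ 0 := by exact_mod_cast hW.ne'
  have e : dist (p 0) (p W) / W = max h1 h2 := by
    have := key 0 W (by omega)
    rw [zero_add] at this
    rw [this, mul_div_cancel_left₀ _ hW']
  rw [e]
  rcases le_total i j with hij | hij
  · obtain ⟨l, rfl⟩ := Nat.exists_eq_add_of_le hij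
    rw [key i l hj, Nat.cast_add, sub_add_cancel_left, abs_neg, Nat.abs_cast]
  · obtain ⟨l, rfl⟩ := Nat.exists_eq_add_of_le hij
    rw [dist_comm, key j l hi, Nat.cast_add, add_sub_cancel_left, Nat.abs_cast]

theorem Sg_eq (h : Str W p) {j : ℕ} (hj : j + 2 ≤ W) : p (j + 1) = mid (p j) (p (j + 2)) :=
  PX.ext ((h j hj).uniq (isMid_mid _ _))

theorem Sg_le_sh {s : ℝ} (hs : 0 ≤ s) (a : PX L) : a ≤ sh s a :=
  (sh_zero a).ge.trans (sh_le_sh hs le_rfl)

/-- The proof of the fixed point theorem of Knaster and Tarski. -/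
theorem exists_str {m : ℕ} (hm : 0 < m) (a b : PX L) : ∃ p, Str m p ∧ p 0 = a ∧ p m = b := by
  have h0 : 0 ≤ dist a b := dist_nonneg
  let S : Set (ℕ → PX L) := {q | q 0 = a ∧ q m = b ∧ (∀ j, sh (-dist a b) a ≤ q j) ∧
    ∀ j, j + 2 ≤ m → mid (q j) (q (j + 2)) ≤ q (j + 1)}
  have hS : S.Nonempty := by
    refine ⟨fun j => if j = 0 then a else if j = m then b else sh (dist a b) a, if_pos rfl,
      (if_neg hm.ne').trans (if_pos rfl), fun j => ?_, fun j hj => ?_⟩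
    · dsimp only
      split_ifs
      · exact sh_le_iff.2 (Sg_le_sh h0 a)
      · exact sh_le_iff.2 (le_sh_dist a b).2
      · exact sh_le_sh (by linarith) le_rfl
    · have hq : ∀ i, (if i = 0 then a else if i = m then b else sh (dist a b) a)
          ≤ sh (dist a b) a := fun i => by
        split_ifs
        · exact Sg_le_sh h0 a
        · exact (le_sh_dist a b).1
        · exact le_rfl
      refine (mid_mono (hq j) (hq (j + 2))).trans ?_
      dsimp only
      rw [mid_self, if_neg (by omega), if_neg (by omega)]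
  choose p hp using fun j => exists_glb (A := (fun q => q j) '' S) (hS.image _)
    ⟨sh (-dist a b) a, by rintro _ ⟨q, hq, rfl⟩; exact hq.2.2.1 j⟩
  obtain ⟨q0, hq0⟩ := hS
  have p0 : p 0 = a := le_antisymm ((hp 0).1 ⟨q0, hq0, hq0.1⟩)
    ((hp 0).2 (by rintro _ ⟨q, hq, rfl⟩; exact hq.1.ge))
  have pm : p m = b := le_antisymm ((hp m).1 ⟨q0, hq0, hq0.2.1⟩)
    ((hp m).2 (by rintro _ ⟨q, hq, rfl⟩; exact hq.2.1.ge))
  have pl : ∀ j, sh (-dist a b) a ≤ p j := fun j =>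
    (hp j).2 (by rintro _ ⟨q, hq, rfl⟩; exact hq.2.2.1 j)
  have pc : ∀ j, j + 2 ≤ m → mid (p j) (p (j + 2)) ≤ p (j + 1) := fun j hj => (hp (j + 1)).2 (by
    rintro _ ⟨q, hq, rfl⟩
    exact (mid_mono ((hp j).1 ⟨q, hq, rfl⟩) ((hp (j + 2)).1 ⟨q, hq, rfl⟩)).trans (hq.2.2.2 j hj))
  let p' : ℕ → PX L := fun j => match j with
    | 0 => p 0
    | j + 1 => if j + 2 ≤ m then mid (p j) (p (j + 2)) else p (j + 1)
  have e1 : ∀ j, j + 2 ≤ m → p' (j + 1) = mid (p j) (p (j + 2)) := fun j hj => if_pos hj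
  have e2 : ∀ j, ¬j + 2 ≤ m → p' (j + 1) = p (j + 1) := fun j hj => if_neg hj
  have l1 : ∀ j, p' j ≤ p j := by
    rintro (_ | j)
    · exact le_rfl
    · by_cases hj : j + 2 ≤ m
      · exact (e1 j hj).trans_le (pc j hj)
      · exact (e2 j hj).le
  have hp' : p' ∈ S := by
    refine ⟨p0, ?_, ?_, fun j hj => (mid_mono (l1 j) (l1 (j + 2))).trans_eq (e1 j hj).symm⟩
    · obtain ⟨k, rfl⟩ := Nat.exists_eq_succ_of_ne_zero hm.ne'
      exact (e2 k (by omega)).trans pm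
    · rintro (_ | j)
      · exact pl 0
      · by_cases hj : j + 2 ≤ m
        · exact (mid_self _).ge.trans ((mid_mono (pl j) (pl (j + 2))).trans_eq (e1 j hj).symm)
        · exact (pl _).trans_eq (e2 j hj).symm
  refine ⟨p, fun j hj => ?_, p0, pm⟩
  rw [le_antisymm (((hp (j + 1)).1 ⟨p', hp', rfl⟩).trans_eq (e1 j hj)) (pc j hj)]
  exact isMid_mid _ _

/-- the straight path with `m` steps -/
noncomputable def sg (m : ℕ) (a b : PX L) : ℕ → PX L :=
  if h : 0 < m then (exists_str h a b).choose else fun _ => a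

variable {m : ℕ}

theorem sg_str (hm : 0 < m) (a b : PX L) : Str m (sg m a b) := by
  rw [sg, dif_pos hm]; exact (exists_str hm a b).choose_spec.1

theorem sg_zero (hm : 0 < m) (a b : PX L) : sg m a b 0 = a := by
  rw [sg, dif_pos hm]; exact (exists_str hm a b).choose_spec.2.1

theorem sg_end (hm : 0 < m) (a b : PX L) : sg m a b m = b := by
  rw [sg, dif_pos hm]; exact (exists_str hm a b).choose_spec.2.2

theorem sg_dist (hm : 0 < m) (a b a' b' : PX L) {j : ℕ} (hj : j ≤ m) :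
    dist (sg m a b j) (sg m a' b' j) ≤ ((m - j) * dist a a' + j * dist b b') / m :=
  (sg_str hm a b).dist_le (sg_str hm a' b') (by rw [sg_zero hm, sg_zero hm])
    (by rw [sg_end hm, sg_end hm]) hm hj

theorem sg_geo (hm : 0 < m) (a b : PX L) {i j : ℕ} (hi : i ≤ m) (hj : j ≤ m) :
    dist (sg m a b i) (sg m a b j) = |(i : ℝ) - j| * (dist a b / m) := by
  rw [(sg_str hm a b).geo hm hi hj, sg_zero hm, sg_end hm]

/-- the approximations of Jacobi -/
noncomputable def jac (m : ℕ) (C : ℝ) (a o : PX L) : ℕ → ℕ → PX L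
  | 0, j => if j = 0 then a else if m ≤ j then o else sh (-C) o
  | t + 1, j => if j = 0 then a else if m ≤ j then o else
      mid (jac m C a o t (j - 1)) (jac m C a o t (j + 1))

theorem jac_dist {C : ℝ} {a o : PX L} (h : dist a o ≤ C) (t j : ℕ) :
    dist (jac m C a o t j) o ≤ C := by
  have h0 : 0 ≤ C := dist_nonneg.trans h
  induction t generalizing j with
  | zero =>
    rw [jac]
    split_ifs
    · exact h
    · rwa [dist_self]
    · exact dist_le_iff.2 ⟨by rw [sh_sh, add_neg_cancel, sh_zero], sh_le_sh (by linarith) le_rfl⟩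
  | succ t ih =>
    rw [jac]
    split_ifs
    · exact h
    · rwa [dist_self]
    · exact dist_mid_le (ih _) (ih _)

theorem Sg_near (hm : 0 < m) {C : ℝ} {a o : PX L} (h : dist a o ≤ C) {j : ℕ} (hj : j ≤ m) :
    dist (sg m a o j) o ≤ C :=
  (sg_str hm a o).dist_le' (q := fun _ => o) (fun _ _ => isMid_self o.mono) (by rwa [sg_zero hm])
    (by rw [sg_end hm, dist_self]; exact dist_nonneg.trans h) hj

theorem Sg_jac (hm : 0 < m) (C : ℝ) (a o : PX L) (t : ℕ) :
    jac m C a o t 0 = sg m a o 0 ∧ jac m C a o t m = sg m a o m := by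
  rw [sg_zero hm, sg_end hm]
  cases t <;> exact ⟨by rw [jac, if_pos rfl], by rw [jac, if_neg hm.ne', if_pos le_rfl]⟩

theorem Sg_step (C : ℝ) (a o : PX L) {j : ℕ} (hj : j + 2 ≤ m) :
    jac m C a o 0 (j + 1) = sh (-C) o ∧
      ∀ t, jac m C a o (t + 1) (j + 1) = mid (jac m C a o t j) (jac m C a o t (j + 2)) :=
  ⟨by rw [jac, if_neg (by omega), if_neg (by omega)],
    fun t => by rw [jac, if_neg (by omega), if_neg (by omega)]; rfl⟩

theorem Sg_cases {j : ℕ} (hj : j ≤ m) : j = 0 ∨ j = m ∨ ∃ i, j = i + 1 ∧ i + 2 ≤ m := by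
  rcases j with _ | i
  · exact Or.inl rfl
  · exact Or.inr (hj.eq_or_lt.imp id fun h => ⟨i, rfl, h⟩)

theorem jac_le (hm : 0 < m) {C : ℝ} {a o : PX L} (h : dist a o ≤ C) (t : ℕ) {j : ℕ} (hj : j ≤ m) :
    jac m C a o t j ≤ sg m a o j := by
  induction t generalizing j with
  | zero =>
    rcases Sg_cases hj with rfl | rfl | ⟨i, rfl, hi⟩
    · exact (Sg_jac hm C a o _).1.le
    · exact (Sg_jac hm C a o _).2.le
    · rw [(Sg_step C a o hi).1]
      exact sh_le_iff.2 (dist_le_iff.1 (Sg_near hm h hj)).1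
  | succ t ih =>
    rcases Sg_cases hj with rfl | rfl | ⟨i, rfl, hi⟩
    · exact (Sg_jac hm C a o _).1.le
    · exact (Sg_jac hm C a o _).2.le
    · rw [(Sg_step C a o hi).2, Sg_eq (sg_str hm a o) hi]
      exact mid_mono (ih (by omega)) (ih hi)

theorem Sg_ge (hm : 0 < m) {C : ℝ} {a o : PX L} (h : dist a o ≤ C) (t : ℕ) {j : ℕ} (hj : j ≤ m) :
    sg m a o j ≤ sh (2 * C * (1 - 1 / m ^ 2) ^ t * (j * (m - j))) (jac m C a o t j) := by
  have h0 : 0 ≤ C := dist_nonneg.trans h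
  have hm' : (1 : ℝ) ≤ m := by exact_mod_cast hm
  have hρ : (0 : ℝ) ≤ 1 - 1 / m ^ 2 := sub_nonneg.2 (div_le_one_of_le₀ (by nlinarith) (by positivity))
  have e0 : ∀ t, sg m a o 0 ≤ sh (2 * C * (1 - 1 / m ^ 2) ^ t * ((0 : ℕ) * (m - (0 : ℕ))))
      (jac m C a o t 0) := fun t => (Sg_jac hm C a o t).1.ge.trans (Sg_le_sh (by simp) _)
  have e1 : ∀ t, sg m a o m ≤ sh (2 * C * (1 - 1 / m ^ 2) ^ t * (m * (m - m)))
      (jac m C a o t m) := fun t => (Sg_jac hm C a o t).2.ge.trans (Sg_le_sh (by simp) _)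
  induction t generalizing j with
  | zero =>
    rcases Sg_cases hj with rfl | rfl | ⟨i, rfl, hi⟩
    · exact e0 _
    · exact e1 _
    · rw [(Sg_step C a o hi).1, sh_sh]
      refine (dist_le_iff.1 (Sg_near hm h hj)).2.trans (sh_le_sh ?_ le_rfl)
      have h1 : (i : ℝ) + 2 ≤ m := by exact_mod_cast hi
      have h2 : (0 : ℝ) ≤ i := Nat.cast_nonneg i
      have h3 : (1 : ℝ) ≤ (i + 1) * (m - (i + 1)) := by nlinarith
      push_cast
      nlinarith
  | succ t ih =>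
    rcases Sg_cases hj with rfl | rfl | ⟨i, rfl, hi⟩
    · exact e0 _
    · exact e1 _
    · rw [(Sg_step C a o hi).2, Sg_eq (sg_str hm a o) hi]
      refine (mid_le (ih (by omega)) (ih hi)).trans (sh_le_sh ?_ le_rfl)
      have h1 : (i : ℝ) + 2 ≤ m := by exact_mod_cast hi
      have h2 : (0 : ℝ) ≤ i := Nat.cast_nonneg i
      have h3 : ((i : ℝ) + 1) * (m - (i + 1)) * (1 / m ^ 2) ≤ 1 := by
        rw [mul_one_div]; exact div_le_one_of_le₀ (by nlinarith) (by positivity)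
      have h4 : 0 ≤ 2 * C * (1 - 1 / (m : ℝ) ^ 2) ^ t := by positivity
      have := mul_le_mul_of_nonneg_left h3 h4
      rw [pow_succ _ t]
      push_cast
      linarith

theorem jac_ge (hm : 0 < m) {C : ℝ} {a o : PX L} (h : dist a o ≤ C) {t : ℕ} (ht : 0 < t) {j : ℕ}
    (hj : j ≤ m) : sg m a o j ≤ sh (2 * C * m ^ 4 / t) (jac m C a o t j) := by
  refine (Sg_ge hm h t hj).trans (sh_le_sh ?_ le_rfl)
  have h0 : 0 ≤ C := dist_nonneg.trans h
  have hm' : (1 : ℝ) ≤ m := by exact_mod_cast hm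
  have ht' : (0 : ℝ) < t := by exact_mod_cast ht
  have hx : (0 : ℝ) < 1 / m ^ 2 := by positivity
  have hρ : (0 : ℝ) ≤ 1 - 1 / m ^ 2 := sub_nonneg.2 (div_le_one_of_le₀ (by nlinarith) (by positivity))
  have h1 := one_add_mul_le_pow (by linarith : (-2 : ℝ) ≤ 1 / m ^ 2) t
  have h2 : (1 - 1 / (m : ℝ) ^ 2) ^ t * (1 + 1 / m ^ 2) ^ t ≤ 1 := by
    rw [← mul_pow]; exact pow_le_one₀ (by positivity) (by nlinarith)
  have h3 : (1 - 1 / (m : ℝ) ^ 2) ^ t ≤ m ^ 2 / t := by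
    have h4 := mul_le_mul_of_nonneg_left h1 (pow_nonneg hρ t)
    have h5 : (1 - 1 / (m : ℝ) ^ 2) ^ t * t * (1 / m ^ 2) ≤ 1 := by linarith [pow_nonneg hρ t]
    rw [mul_one_div, div_le_one (by positivity)] at h5
    rwa [le_div_iff₀ ht']
  have h6 : (j : ℝ) ≤ m := by exact_mod_cast hj
  have h7 : (0 : ℝ) ≤ j := Nat.cast_nonneg j
  have h8 : (j : ℝ) * (m - j) ≤ m ^ 2 := by nlinarith
  calc _ ≤ 2 * C * (m ^ 2 / t) * m ^ 2 := by gcongr
    _ = _ := by ring

variable {G : Type} [Group G] [MulAction G L] [GA G L]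

theorem Str.smul (h : Str W p) (g : G) : Str W fun j => g • p j :=
  fun j hj => Sg_map (oi g) (h j hj)

end Pool.Agent.Work.MP_9d1ffa_al.Ga
end

-- merged part: Pool.Agent.Work.MP_9d1ffa_al.Ga.Lv
section
/-! Finite sets of values that are stable under the constructions. -/

namespace Pool.Agent.Work.MP_9d1ffa_al.Ga

open Set

variable {L : Type} [ConditionallyCompleteLattice L] [Gar L]

/-- the range around the base point -/
def Rg (x0 : L) (C : ℕ) : Set L := Icc (tz (-C) x0) (tz C x0)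

/-- the values in one period lie in `F` -/
def Val (F : Set L) (a : PX L) : Prop := ∀ u ∈ Ico (0 : ℝ) 1, a.f u ∈ F

theorem Val.mono {F F' : Set L} {a : PX L} (h : Val F a) (k : F ⊆ F') : Val F' a :=
  fun u hu => k (h u hu)

theorem rt_lub (x0 : L) (F : Set L) (z : L) :
    IsLUB {w | (∃ k, ∃ f ∈ insert x0 F, w = tz k f) ∧ w ≤ z}
      (sSup {w | (∃ k, ∃ f ∈ insert x0 F, w = tz k f) ∧ w ≤ z}) := by
  obtain ⟨k, hk, -⟩ := tz_cof x0 z
  exact isLUB_csSup ⟨_, ⟨_, x0, mem_insert _ _, rfl⟩, hk⟩ ⟨z, fun _ hw => hw.2⟩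

theorem Lv_tau (x0 : L) (F : Set L) (z : L) :
    sSup {w | (∃ k, ∃ f ∈ insert x0 F, w = tz k f) ∧ w ≤ Gar.τ z} =
      Gar.τ (sSup {w | (∃ k, ∃ f ∈ insert x0 F, w = tz k f) ∧ w ≤ z}) := by
  have e : ∀ (k : ℤ) (f : L), Gar.τ (tz k f) = tz (1 + k) f := fun k f => by rw [tz_add, tz_one]
  refine (rt_lub x0 F _).unique ?_
  have h := (Gar.τ : L ≃o L).isLUB_image'.2 (rt_lub x0 F z)
  have : Gar.τ '' {w | (∃ k, ∃ f ∈ insert x0 F, w = tz k f) ∧ w ≤ z} =
      {w | (∃ k, ∃ f ∈ insert x0 F, w = tz k f) ∧ w ≤ Gar.τ z} := by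
    ext w
    constructor
    · rintro ⟨_, ⟨⟨k, f, hf, rfl⟩, hw⟩, rfl⟩
      exact ⟨⟨_, f, hf, e k f⟩, (Gar.τ : L ≃o L).monotone hw⟩
    · rintro ⟨⟨k, f, hf, rfl⟩, hw⟩
      have e' : Gar.τ (tz (k - 1) f) = tz k f := by rw [e, add_sub_cancel]
      exact ⟨_, ⟨⟨k - 1, f, hf, rfl⟩, (Gar.τ : L ≃o L).le_iff_le.1 (e' ▸ hw)⟩, e'⟩
  rwa [this] at h

/-- the largest function below `y` whose values are suprema of translates of `insert x0 F` -/
noncomputable def rt (x0 : L) (F : Set L) (y : PX L) : PX L :=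
  ⟨fun u => sSup {w | (∃ k, ∃ f ∈ insert x0 F, w = tz k f) ∧ w ≤ y.f u},
    fun _ _ h => (rt_lub x0 F _).2 fun _ hw => (rt_lub x0 F _).1 ⟨hw.1, hw.2.trans (y.mono h)⟩,
    fun u => by simp only [y.per, Lv_tau],
    fun u => (y.rc u).imp fun _ h => ⟨h.1, by simp only [h.2]⟩⟩

variable {x0 : L} {F F' : Set L} {a b y z w : PX L} {C : ℕ}

theorem rt_le (x0 : L) (F : Set L) (y : PX L) : rt x0 F y ≤ y :=
  fun _ => (rt_lub x0 F _).2 fun _ hw => hw.2

theorem rt_mono (h : y ≤ z) : rt x0 F y ≤ rt x0 F z :=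
  fun u => (rt_lub x0 F _).2 fun _ hw => (rt_lub x0 F _).1 ⟨hw.1, hw.2.trans (h u)⟩

theorem rt_sh (s : ℝ) (y : PX L) : rt x0 F (sh s y) = sh s (rt x0 F y) := rfl

theorem rt_dist (y z : PX L) : dist (rt x0 F y) (rt x0 F z) ≤ dist y z :=
  dist_le_iff.2 ⟨(rt_mono (le_sh_dist y z).1).trans_eq (rt_sh _ _),
    (rt_mono (le_sh_dist y z).2).trans_eq (rt_sh _ _)⟩

theorem rt_cont : Continuous (rt x0 F) :=
  (LipschitzWith.mk_one fun y z => rt_dist y z).continuous

theorem Lv_fract (u : ℝ) : Int.fract u ∈ Ico (0 : ℝ) 1 := ⟨Int.fract_nonneg u, Int.fract_lt_one u⟩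

theorem le_rt (h : Val F w) (k : w ≤ y) : w ≤ rt x0 F y :=
  fun u => (rt_lub x0 F _).1 ⟨⟨_, _, mem_insert_of_mem _ (h _ (Lv_fract u)), w.floor u⟩, k u⟩

theorem rt_pt : rt x0 F (pt x0) = pt x0 :=
  le_antisymm (rt_le _ _ _) fun _ => (rt_lub x0 F _).1 ⟨⟨_, x0, mem_insert _ _, rfl⟩, le_rfl⟩

theorem rt_rt (h : F ⊆ F') (y : PX L) : rt x0 F (rt x0 F' y) = rt x0 F y := by
  refine le_antisymm (rt_mono (rt_le _ _ _)) fun u => (rt_lub x0 F _).2 fun w hw => ?_
  obtain ⟨⟨k, f, hf, e⟩, hw⟩ := hw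
  exact (rt_lub x0 F _).1 ⟨⟨k, f, hf, e⟩,
    (rt_lub x0 F' _).1 ⟨⟨k, f, insert_subset_insert h hf, e⟩, hw⟩⟩

variable {G : Type} [Group G] [MulAction G L] {S : Finset G}

/-- the infima of two translates -/
def Me (S : Finset G) (C : ℕ) (F : Set L) : Set L :=
  {z | ∃ k l : ℤ, |k| ≤ 2 * C ∧ |l| ≤ 2 * C ∧ ∃ g ∈ S, ∃ g' ∈ S, ∃ f ∈ F, ∃ f' ∈ F,
    z = tz k (g • f) ⊓ tz l (g' • f')}

/-- the next level -/
def Nx (x0 : L) (S : Finset G) (C : ℕ) (F : Set L) : Set L :=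
  {z | z ∈ Rg x0 C ∧ ∃ A ⊆ Me S C F, A.Nonempty ∧ IsLUB A z}

/-- the levels -/
def Fl (x0 : L) (S : Finset G) (C : ℕ) (i : ℕ) : Set L := (Nx x0 S C)^[i] {x0}

/-- the base of the bound for the size of the levels -/
def Db (n κ C : ℕ) : ℕ := (n + 1) ^ (2 * (3 * C + κ)) * (2 * ((4 * C + 1) * κ) + 3)

theorem fl_succ (i : ℕ) : Fl x0 S C (i + 1) = Nx x0 S C (Fl x0 S C i) :=
  Function.iterate_succ_apply' _ _ _

theorem Lv_me {g : G} {f : L} {k : ℤ} (hg : g ∈ S) (hf : f ∈ F) (hk : |k| ≤ 2 * C) :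
    tz k (g • f) ∈ Me S C F := ⟨k, k, hk, hk, g, hg, g, hg, f, hf, f, hf, (inf_idem _).symm⟩

theorem Lv_nx {x : L} (h : x ∈ Rg x0 C) (k : x ∈ Me S C F) : x ∈ Nx x0 S C F :=
  ⟨h, {x}, singleton_subset_iff.2 k, singleton_nonempty _, isLUB_singleton⟩

theorem Lv_rg {k : ℤ} (h : |k| ≤ C) : tz k x0 ∈ Rg x0 C :=
  ⟨tz_mono (abs_le.1 h).1 _, tz_mono (abs_le.1 h).2 _⟩

theorem Lv_floor {u : ℝ} (hu : u ∈ Ico (0 : ℝ) 1) : ⌊u⌋ = 0 := Int.floor_eq_zero_iff.2 hu

theorem fl_sub (i : ℕ) : Fl x0 S C i ⊆ Rg x0 C := by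
  cases i with
  | zero =>
    rintro _ rfl
    simpa only [tz_zero] using Lv_rg (k := 0) (C := C) (by simp)
  | succ i =>
    rw [fl_succ]
    exact fun _ hz => hz.1

theorem fl_mono (h1 : 1 ∈ S) : Monotone (Fl x0 S C) := by
  refine monotone_nat_of_le_succ fun i z hz => ?_
  rw [fl_succ]
  refine Lv_nx (fl_sub i hz) ?_
  simpa only [tz_zero, one_smul] using Lv_me (k := 0) (C := C) h1 hz (by simp)

theorem fl_base (h1 : 1 ∈ S) (i : ℕ) : x0 ∈ Fl x0 S C i := fl_mono h1 (Nat.zero_le i) rfl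

theorem val_pt (h1 : 1 ∈ S) (i : ℕ) : Val (Fl x0 S C i) (pt x0) := by
  intro u hu
  rw [pt_f, Lv_floor hu, tz_zero]
  exact fl_base h1 i

theorem val_sh (h1 : 1 ∈ S) {i : ℕ} (hi : 0 < i) : Val (Fl x0 S C i) (sh (-C) (pt x0)) := by
  intro u hu
  have e : ⌊u + -(C : ℝ)⌋ = -(C : ℤ) := by
    rw [← sub_eq_add_neg, Int.floor_sub_natCast, Lv_floor hu, zero_sub]
  rw [sh_f, pt_f, e]
  refine fl_mono h1 (Nat.succ_le_of_lt hi) ?_
  rw [fl_succ]
  refine Lv_nx (Lv_rg (by simp)) ?_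
  simpa only [one_smul] using Lv_me (k := -C) (C := C) h1 (fl_base (x0 := x0) (C := C) h1 0)
    (abs_le.2 ⟨by omega, by omega⟩)

theorem val_mid (h1 : 1 ∈ S) (ha : Val F a) (hb : Val F b) (ka : dist a (pt x0) ≤ C)
    (kb : dist b (pt x0) ≤ C) : Val (Nx x0 S C F) (mid a b) := by
  intro u hu
  have hd : dist a b ≤ 2 * (C : ℝ) := by linarith [dist_triangle_right a b (pt x0)]
  have hC : (0 : ℝ) ≤ C := Nat.cast_nonneg C
  have hl := (isMid_res a.mono b.mono hC (dist_le_iff.1 hd).1 (dist_le_iff.1 hd).2).1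
    (isMid_mid a b) u
  have hf : ∀ s : ℝ, -C ≤ s → s ≤ C → |⌊u + s⌋| ≤ 2 * (C : ℤ) := by
    intro s s1 s2
    have e1 : -(C : ℤ) ≤ ⌊u + s⌋ := Int.le_floor.2 (by push_cast; linarith [hu.1])
    have e2 : ⌊u + s⌋ < (C : ℤ) + 1 := Int.floor_lt.2 (by push_cast; linarith [hu.2])
    exact abs_le.2 ⟨by omega, by omega⟩
  refine ⟨near_pt (dist_mid_le ka kb) hu, _, ?_,
    Nonempty.image _ (nonempty_Icc.2 (by linarith)), hl⟩
  rintro _ ⟨s, hs, rfl⟩
  refine ⟨⌊u + s⌋, ⌊u + -s⌋, hf s hs.1 hs.2, hf _ (by linarith [hs.2]) (by linarith [hs.1]), 1, h1,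
    1, h1, _, ha _ (Lv_fract (u + s)), _, hb _ (Lv_fract (u + -s)), ?_⟩
  rw [one_smul, one_smul, ← a.floor, ← b.floor, ← sub_eq_add_neg]

/-- Terms `tz k f ≤ y.f u` have `k ≤ 2 * C`; those with `k < -2 * C` are below the term
`tz (-C) x0`. -/
theorem val_rt (h1 : 1 ∈ S) (h0 : x0 ∈ F) (hF : F ⊆ Rg x0 C) (k : dist y (pt x0) ≤ C) :
    Val (Nx x0 S C F) (rt x0 F y) := by
  intro u hu
  have hy := near_pt k hu
  have hd : dist (rt x0 F y) (pt x0) ≤ C := by
    have := rt_dist (x0 := x0) (F := F) y (pt x0)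
    rw [rt_pt] at this
    exact this.trans k
  have h2 : tz (-C) x0 ∈ {w | (∃ k : ℤ, |k| ≤ 2 * C ∧ ∃ f ∈ F, w = tz k f) ∧ w ≤ y.f u} :=
    ⟨⟨_, abs_le.2 ⟨by omega, by omega⟩, x0, h0, rfl⟩, hy.1⟩
  refine ⟨near_pt hd hu, _, ?_, ⟨_, h2⟩, ?_, fun b hb => (rt_lub x0 F _).2 ?_⟩
  · rintro _ ⟨⟨l, hl, f, hf, rfl⟩, -⟩
    simpa only [one_smul] using Lv_me h1 hf hl
  · rintro _ ⟨⟨l, -, f, hf, rfl⟩, hw⟩
    exact (rt_lub x0 F _).1 ⟨⟨l, f, mem_insert_of_mem _ hf, rfl⟩, hw⟩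
  · rintro _ ⟨⟨l, f, hf, rfl⟩, hw⟩
    rw [insert_eq_of_mem h0] at hf
    rcases lt_or_ge l (-(2 * C)) with l1 | l1
    · refine le_trans ?_ (hb h2)
      refine ((tz l).monotone (hF hf).2).trans ?_
      rw [← tz_add]
      exact tz_mono (by omega) _
    · refine hb ⟨⟨l, abs_le.2 ⟨l1, ?_⟩, f, hf, rfl⟩, hw⟩
      have h3 := (((tz l).monotone (hF hf).1).trans hw).trans hy.2
      rw [← tz_add] at h3
      have := (tz_strict x0).le_iff_le.1 h3
      omega

theorem val_jac (h1 : 1 ∈ S) {i : ℕ} (hi : 0 < i) (ha : Val (Fl x0 S C i) a)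
    (k : dist a (pt x0) ≤ C) (m t j : ℕ) : Val (Fl x0 S C (i + t)) (jac m C a (pt x0) t j) := by
  induction t generalizing j with
  | zero =>
    rw [jac]
    split_ifs
    exacts [ha, val_pt h1 _, val_sh h1 hi]
  | succ t ih =>
    rw [jac]
    split_ifs
    · exact ha.mono (fl_mono h1 (Nat.le_add_right _ _))
    · exact val_pt h1 _
    · rw [← add_assoc, fl_succ]
      exact val_mid h1 (ih _) (ih _) (jac_dist k _ _) (jac_dist k _ _)

variable [GA G L]

theorem val_smul {g : G} (hg : g ∈ S) (ha : Val F a) (k : dist (g • a) (pt x0) ≤ C) :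
    Val (Nx x0 S C F) (g • a) := by
  intro u hu
  refine Lv_nx (near_pt k hu) ?_
  simpa only [tz_zero, smul_f] using Lv_me (k := 0) (C := C) hg (ha u hu) (by simp)

omit [GA G L] in
theorem Lv_me_card {κ N : ℕ} (hS : S.card ≤ κ) (h : F.encard ≤ N) :
    (Me S C F).encard ≤ (((4 * C + 1) * κ * N) ^ 2 : ℕ) := by
  have hU : {z | ∃ k : ℤ, |k| ≤ 2 * C ∧ ∃ g ∈ S, ∃ f ∈ F, z = tz k (g • f)}.encard ≤
      ((4 * C + 1) * κ * N : ℕ) := by
    rw [mul_assoc]
    refine encard_cover (I := (Finset.Icc (-(2 * C : ℤ)) (2 * C) : Set ℤ))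
      (U := fun k => {z | ∃ g ∈ S, ∃ f ∈ F, z = tz k (g • f)}) ?_ (fun k _ => ?_) ?_
    · rw [encard_coe_eq_coe_finsetCard, Int.card_Icc]
      exact Nat.cast_le.2 (by omega)
    · refine encard_cover (I := (S : Set G)) (U := fun g => (fun f => tz k (g • f)) '' F) ?_
        (fun g _ => (encard_image_le _ _).trans h) ?_
      · rw [encard_coe_eq_coe_finsetCard]
        exact Nat.cast_le.2 hS
      · rintro _ ⟨g, hg, f, hf, rfl⟩
        exact ⟨g, hg, f, hf, rfl⟩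
    · rintro _ ⟨k, hk, e⟩
      exact ⟨k, by simpa using abs_le.1 hk, e⟩
  rw [sq]
  refine encard_cover hU (fun z _ => (encard_image_le (fun w => z ⊓ w) _).trans hU) ?_
  rintro _ ⟨k, l, hk, hl, g, hg, g', hg', f, hf, f', hf', rfl⟩
  exact ⟨_, ⟨k, hk, g, hg, f, hf, rfl⟩, _, ⟨l, hl, g', hg', f', hf', rfl⟩, rfl⟩

theorem Lv_me_sub {κ : ℕ} (hκ : ∀ g ∈ S, dist (g • pt x0) (pt x0) ≤ κ) (hF : F ⊆ Rg x0 C) :
    Me S C F ⊆ Icc (tz (-(3 * C + κ)) x0) (tz (-(3 * C + κ) + (2 * (3 * C + κ) : ℕ)) x0) := by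
  have key : ∀ k : ℤ, |k| ≤ 2 * C → ∀ g ∈ S, ∀ f ∈ F, tz k (g • f) ∈
      Icc (tz (-(3 * C + κ)) x0) (tz (-(3 * C + κ) + (2 * (3 * C + κ) : ℕ)) x0) := by
    intro k hk g hg f hf
    have h0 := near_pt (hκ g hg) (u := 0) ⟨le_rfl, one_pos⟩
    rw [smul_f, pt_f, Int.floor_zero, tz_zero] at h0
    have hk := abs_le.1 hk
    constructor
    · refine le_trans ?_ ((tz k).monotone ((act_le g).2 (hF hf).1))
      rw [act_tz]
      refine le_trans ?_ ((tz k).monotone ((tz (-C)).monotone h0.1))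
      rw [← tz_add, ← tz_add]
      exact tz_mono (by omega) _
    · refine ((tz k).monotone ((act_le g).2 (hF hf).2)).trans ?_
      rw [act_tz]
      refine ((tz k).monotone ((tz C).monotone h0.2)).trans ?_
      rw [← tz_add, ← tz_add]
      exact tz_mono (by omega) _
  rintro _ ⟨k, l, hk, hl, g, hg, g', hg', f, hf, f', hf', rfl⟩
  exact ⟨le_inf (key k hk g hg f hf).1 (key l hl g' hg' f' hf').1,
    inf_le_left.trans (key k hk g hg f hf).2⟩

/-- `Me S C F` lies in `Rg x0 (3 * C + κ)`, whose chains have at most `H = (n + 1) ^ (2 * (3 * C + κ))`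
elements (`ht_tz`), so an element of the next level is the least upper bound of a set of at most
`H` elements of `Me S C F` (`fin_lub`, `small_sets`). -/
theorem nx_card {κ N : ℕ} (hS : S.card ≤ κ) (hκ : ∀ g ∈ S, dist (g • pt x0) (pt x0) ≤ κ)
    (hF : F ⊆ Rg x0 C) (h : F.encard ≤ N) : (Nx x0 S C F).encard ≤
      ((((4 * C + 1) * κ * N) ^ 2 + 1) ^ (nn L + 1) ^ (2 * (3 * C + κ)) : ℕ) := by
  refine le_trans (encard_le_encard ?_) ((encard_image_le sSup _).trans
    (small_sets (Lv_me_card (C := C) hS h) _))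
  rintro z ⟨-, A, hA, ne, hz⟩
  obtain ⟨A', h1, h2, h3, h4⟩ := fin_lub (ht_tz x0 _ _) (hA.trans (Lv_me_sub hκ hF)) ne
  exact ⟨A', ⟨h1.trans hA, h3⟩,
    IsLUB.csSup_eq ⟨upperBounds_mono_set h1 hz.1, fun b hb => hz.2 (h4 hb)⟩ h2⟩

theorem Lv_pow (B x : ℕ) (hx : 1 ≤ x) : (B * 2 ^ x) ^ 2 + 1 ≤ 2 ^ ((2 * B + 3) * x) := by
  have h1 : B ≤ 2 ^ (B * x) :=
    Nat.lt_two_pow_self.le.trans (Nat.pow_le_pow_right two_pos (Nat.le_mul_of_pos_right B hx))
  have h2 : (B * 2 ^ x) ^ 2 ≤ 2 ^ ((B * x + x) * 2) := by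
    rw [pow_mul, pow_add]
    exact Nat.pow_le_pow_left (Nat.mul_le_mul_right _ h1) 2
  have h3 : 2 ^ ((B * x + x) * 2 + 1) ≤ 2 ^ ((2 * B + 3) * x) :=
    Nat.pow_le_pow_right two_pos (by nlinarith)
  have h4 : 1 ≤ 2 ^ ((B * x + x) * 2) := Nat.one_le_two_pow
  rw [pow_succ] at h3
  omega

theorem fl_card {κ : ℕ} (hS : S.card ≤ κ) (hκ : ∀ g ∈ S, dist (g • pt x0) (pt x0) ≤ κ) (i : ℕ) :
    (Fl x0 S C i).encard ≤ (2 ^ Db (nn L) κ C ^ i : ℕ) := by
  induction i with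
  | zero =>
    change ({x0} : Set L).encard ≤ _
    rw [encard_singleton]
    exact Nat.one_le_cast.2 Nat.one_le_two_pow
  | succ i ih =>
    rw [fl_succ]
    refine (nx_card hS hκ (fl_sub i) ih).trans (Nat.cast_le.2 ?_)
    have hx : 1 ≤ Db (nn L) κ C ^ i := Nat.one_le_pow _ _ (by unfold Db; positivity)
    refine (Nat.pow_le_pow_left (Lv_pow _ _ hx) _).trans (le_of_eq ?_)
    rw [← pow_mul, pow_succ, Db]
    congr 1
    ring

end Pool.Agent.Work.MP_9d1ffa_al.Ga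
end
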