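import Pool.Agent.Work.MP_9d1ffa_al.Ga.In
import Pool.Agent.Work.MP_9d1ffa_al.Ga.Zc
import Pool.Agent.Work.MP_9d1ffa_al.Ga.Fin

/-! The geometric data of a free action on a lattice. -/

namespace Pool.Agent.Work.MP_9d1ffa_al.Ga

open Set

variable {G L : Type} [Group G] [Lattice L] [Nonempty L]

theorem lat_tf (ρ : G →* L ≃o L) (free : ∀ g x, ρ g x = x → g = 1) (g : G) (hg : IsOfFinOrder g) :
    g = 1 := by
  classical
  obtain ⟨x⟩ := ‹Nonempty L›
  have fin : (Subgroup.zpowers g : Set G).Finite := hg.finite_zpowers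
  have ne : fin.toFinset.Nonempty := ⟨1, fin.mem_toFinset.2 (Subgroup.one_mem _)⟩
  have key : ∀ k ∈ Subgroup.zpowers g, ρ k (fin.toFinset.sup' ne fun a => ρ a x) ≤
      fin.toFinset.sup' ne fun a => ρ a x := fun k hk => by
    rw [(ρ k).le_symm_apply.symm, Finset.sup'_le_iff]
    intro a ha
    rw [(ρ k).le_symm_apply, ← RelIso.mul_apply, ← map_mul]
    exact Finset.le_sup' (fun a => ρ a x)
      (fin.mem_toFinset.2 (Subgroup.mul_mem _ hk (fin.mem_toFinset.1 ha)))
  refine free g _ (le_antisymm (key g (Subgroup.mem_zpowers g)) ?_)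
  have := (ρ g).monotone (key g⁻¹ (Subgroup.inv_mem _ (Subgroup.mem_zpowers g)))
  rwa [← RelIso.mul_apply, ← map_mul, mul_inv_cancel, map_one, RelIso.one_apply] at this

theorem exists_geo (ρ : G →* L ≃o L) (τ : L ≃o L) (n : ℕ) (comm : ∀ g x, ρ g (τ x) = τ (ρ g x))
    (free : ∀ g x, ρ g x = x → g = 1) (lt : ∀ x, x < τ x)
    (ht : ∀ (x : L) (C : Set L), IsChain (· ≤ ·) C → C ⊆ Icc x (τ x) → C.encard ≤ (n + 1 : ℕ))
    (cof : ∀ x y, ∃ k : ℕ, y ≤ τ^[k] x) :
    ∃ (X Sm : Type) (_ : MetricSpace X) (_ : MulAction G X) (_ : MulAction G Sm)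
      (A : Geo G X Sm), A.HasZM ∧ A.Gd VC := by
  have hp : ∀ (k : ℕ) x, (τ ^ k) x = τ^[k] x := fun k => by
    induction k with
    | zero => exact fun _ => rfl
    | succ k ih => exact fun x => by rw [pow_succ, RelIso.mul_apply, ih, Function.iterate_succ_apply]
  have h : GarL τ n := ⟨lt, ht, fun x y => (cof x y).imp fun k e => by rwa [hp]⟩
  letI : SupSet L := ⟨fun A => Classical.epsilon (IsLUB A)⟩
  letI := conditionallyCompleteLatticeOfLatticeOfsSup L fun A b a =>
    Classical.epsilon_spec (h.exists_lub a b)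
  letI : Gar L := ⟨τ, n, h⟩
  letI : MulAction G L :=
    { smul := fun g x => ρ g x
      one_smul := fun x => show ρ 1 x = x by rw [map_one, RelIso.one_apply]
      mul_smul := fun g k x => show ρ (g * k) x = ρ g (ρ k x) by rw [map_mul, RelIso.mul_apply] }
  haveI : GA G L := ⟨fun g _ _ e => (ρ g).monotone e, comm, free⟩
  exact ⟨_, _, _, _, _, latGeo L G, (lat_zb G).zm, (latGeo L G).gd_free (N := 2 * (nn L + 1))
    (by omega) fun g x e => disc g x (by exact_mod_cast e)⟩

end Pool.Agent.Work.MP_9d1ffa_al.Ga
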