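import Pool.Agent.Work.MP_9d1ffa_al.Ga.Lv

/-! The compact space. -/

namespace Pool.Agent.Work.MP_9d1ffa_al.Ga

open Set

/-- the parameters -/
structure LP (G L : Type) [Group G] [ConditionallyCompleteLattice L] [Gar L] [MulAction G L]
    [GA G L] where
  x0 : L
  S : Finset G
  κ : ℕ
  Y : ℕ
  one : 1 ∈ S
  card : S.card ≤ κ
  hκ : ∀ g ∈ S, dist (g • pt x0) (pt x0) ≤ κ
  hY : 2 * κ + 2 ≤ Y

/-- the bound for the number of values -/
def Fb (n κ Y : ℕ) : ℕ := 2 ^ Db n κ (2 * Y ^ 3) ^ (4 * Y ^ 8 * (8 * Y ^ 24 + 2) + 1 + 8 * Y ^ 24)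

variable {G L : Type} [Group G] [ConditionallyCompleteLattice L] [Gar L] [MulAction G L] [GA G L]

namespace LP

variable (P : LP G L)

/-- the base point -/
noncomputable def o : PX L := pt P.x0
/-- the radius -/
def T : ℕ := P.Y ^ 3
/-- the number of steps -/
def m : ℕ := P.Y ^ 4
/-- the number of steps towards the base point -/
def i : ℕ := (P.κ + 1) * P.Y
/-- the number of levels -/
def J : ℕ := 4 * P.Y ^ 8
/-- the number of rounds -/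
def t : ℕ := 8 * P.Y ^ 24
/-- the levels -/
def F (j : ℕ) : Set L := Fl P.x0 P.S (2 * P.Y ^ 3) j
/-- the retractions -/
noncomputable def r (j : ℕ) : PX L → PX L := rt P.x0 (P.F (j * (P.t + 2)))
/-- the errors -/
noncomputable def ψ : ℕ → ℝ
  | 0 => 2 * P.T
  | j + 1 => (1 - P.i / P.m) * ψ j + 1 / (2 * P.Y ^ 5)
/-- the straight path to the base point -/
noncomputable def σ (y : PX L) : ℕ → PX L := sg P.m y P.o
/-- the compact space -/
def Z : Set (PX L) :=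
  {y | dist y P.o ≤ P.T ∧ (∀ j < P.J, y ≤ sh (P.ψ j) (P.r j y)) ∧ y ≤ P.r P.J y}

theorem κ_pos : 0 < P.κ := (Finset.card_pos.2 ⟨1, P.one⟩).trans_le P.card

theorem four_le : 4 ≤ P.Y := by have := P.κ_pos; have := P.hY; omega

theorem m_pos : 0 < P.m := pow_pos (by have := P.four_le; omega) 4

theorem Za_Y : (4 : ℝ) ≤ P.Y := by exact_mod_cast P.four_le

theorem Za_κ : 2 * (P.κ : ℝ) + 2 ≤ P.Y := by exact_mod_cast P.hY

theorem Za_T : (P.T : ℝ) = (P.Y : ℝ) ^ 3 := by simp [T]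

theorem Za_m : (P.m : ℝ) = (P.Y : ℝ) ^ 4 := by simp [m]

theorem Za_x : (P.i : ℝ) / P.m = (P.κ + 1) / (P.Y : ℝ) ^ 3 := by
  have := P.Za_Y
  rw [P.Za_m, i]
  push_cast
  field_simp

theorem Za_Y3 : (P.Y : ℝ) ≤ (P.Y : ℝ) ^ 3 :=
  le_self_pow₀ (by linarith [P.Za_Y]) (by norm_num)

theorem Za_x_le : (P.i : ℝ) / P.m ≤ 1 := by
  have h1 := P.Za_Y
  have h2 := P.Za_κ
  have h3 := P.Za_Y3
  rw [P.Za_x, div_le_one (by positivity)]
  linarith

theorem Za_C : ((2 * P.Y ^ 3 : ℕ) : ℝ) = 2 * P.T := by simp [T]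

theorem Za_T0 : (0 : ℝ) ≤ P.T := Nat.cast_nonneg _

theorem Za_κT : (P.κ : ℝ) ≤ P.T := by
  have h1 := P.Za_Y
  have h2 := P.Za_κ
  have h3 := P.Za_Y3
  rw [P.Za_T]
  linarith

theorem Za_e : 2 * ((2 * P.Y ^ 3 : ℕ) : ℝ) * (P.m : ℝ) ^ 4 / P.t = 1 / (2 * (P.Y : ℝ) ^ 5) := by
  have := P.Za_Y
  rw [P.Za_m, t]
  push_cast
  field_simp
  norm_num

theorem Za_t_pos : 0 < P.t := by
  have := P.four_le
  exact Nat.mul_pos (by norm_num) (pow_pos (by omega) _)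

theorem Za_bern {x : ℝ} (h0 : 0 ≤ x) (h1 : x ≤ 1) (j : ℕ) : (1 - x) ^ j * (1 + j * x) ≤ 1 := by
  induction j with
  | zero => simp
  | succ j ih =>
    have h2 : 0 ≤ (1 - x) ^ j := pow_nonneg (by linarith) j
    have h3 : (1 - x) * (1 + (j + 1) * x) ≤ 1 + j * x := by
      have : 0 ≤ ((j : ℝ) + 1) * (x * x) := by positivity
      nlinarith
    calc (1 - x) ^ (j + 1) * (1 + ((j + 1 : ℕ) : ℝ) * x)
        = (1 - x) ^ j * ((1 - x) * (1 + (j + 1) * x)) := by push_cast; ring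
      _ ≤ (1 - x) ^ j * (1 + j * x) := mul_le_mul_of_nonneg_left h3 h2
      _ ≤ 1 := ih

theorem Za_le_sh {a : ℝ} (ha : 0 ≤ a) (y : PX L) : y ≤ sh a y :=
  (sh_zero y).ge.trans (sh_le_sh ha le_rfl)

theorem Za_r_o (j : ℕ) : P.r j P.o = P.o := rt_pt

theorem Za_r_dist (j : ℕ) (y : PX L) : dist (P.r j y) P.o ≤ dist y P.o := by
  have := rt_dist (x0 := P.x0) (F := P.F (j * (P.t + 2))) y P.o
  rwa [show rt P.x0 (P.F (j * (P.t + 2))) P.o = P.o from rt_pt] at this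

theorem Za_r_r {j k : ℕ} (h : j ≤ k) (y : PX L) : P.r j (P.r k y) = P.r j y :=
  rt_rt (fl_mono P.one (Nat.mul_le_mul_right _ h)) y

theorem Za_val_r (j : ℕ) {y : PX L} (h : dist y P.o ≤ P.T) :
    Val (P.F (j * (P.t + 2) + 1)) (P.r j y) := by
  rw [F, fl_succ]
  refine val_rt P.one (fl_base P.one _) (fl_sub _) ?_
  rw [P.Za_C]
  exact h.trans (by linarith [P.Za_T0])

theorem ψ_nonneg (j : ℕ) : 0 ≤ P.ψ j := by
  induction j with
  | zero => exact mul_nonneg zero_le_two P.Za_T0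
  | succ j ih =>
    have := P.Za_Y
    exact add_nonneg (mul_nonneg (sub_nonneg.2 P.Za_x_le) ih) (by positivity)

/-- with `x = i / m`: `ψ j ≤ (1 - x) ^ j * (2 * T) + e / x` and `(1 - x) ^ j ≤ 1 / (1 + j * x)` -/
theorem ψ_J : P.ψ P.J ≤ 1 / P.Y := by
  have hY := P.Za_Y
  have hk : (0 : ℝ) ≤ P.κ := Nat.cast_nonneg _
  have x1 := P.Za_x_le
  have x0 : 0 < (P.i : ℝ) / P.m := by rw [P.Za_x]; positivity
  have h1 : ∀ j, P.ψ j ≤ (1 - (P.i : ℝ) / P.m) ^ j * (2 * P.T) +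
      1 / (2 * (P.Y : ℝ) ^ 5) / (P.i / P.m) := by
    intro j
    induction j with
    | zero =>
      rw [pow_zero, one_mul]
      exact le_add_of_nonneg_right (by positivity)
    | succ j ih =>
      refine (add_le_add (mul_le_mul_of_nonneg_left ih (sub_nonneg.2 x1)) le_rfl).trans_eq ?_
      generalize (P.i : ℝ) / P.m = x at x0
      field_simp
      ring
  have h2 := Za_bern x0.le x1 P.J
  have h3 : (P.J : ℝ) * (P.i / P.m) = 4 * (P.Y : ℝ) ^ 5 * (P.κ + 1) := by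
    rw [P.Za_x, J]
    push_cast
    field_simp
  have h4 : 1 / (2 * (P.Y : ℝ) ^ 5) / (P.i / P.m) ≤ 1 / (2 * P.Y) := by
    rw [P.Za_x, div_div, one_div_le_one_div (by positivity) (by positivity)]
    have : 2 * (P.Y : ℝ) ^ 5 * ((P.κ + 1) / (P.Y : ℝ) ^ 3) = 2 * P.Y * (P.Y * (P.κ + 1)) := by
      field_simp
    rw [this]
    exact le_mul_of_one_le_right (by positivity) (by nlinarith)
  have h5 : (1 - (P.i : ℝ) / P.m) ^ P.J * (2 * P.T) ≤ 1 / (2 * P.Y) := by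
    have h6 : 0 ≤ (1 - (P.i : ℝ) / P.m) ^ P.J := pow_nonneg (sub_nonneg.2 x1) _
    rw [le_div_iff₀ (by positivity), mul_assoc, P.Za_T]
    refine (mul_le_mul_of_nonneg_left ?_ h6).trans h2
    rw [h3]
    have h7 : 2 * (P.Y : ℝ) ^ 3 * (2 * P.Y) = 4 * (P.Y : ℝ) ^ 4 * 1 := by ring
    have h8 : 4 * (P.Y : ℝ) ^ 5 * (P.κ + 1) = 4 * (P.Y : ℝ) ^ 4 * (P.Y * (P.κ + 1)) := by ring
    have h9 : 4 * (P.Y : ℝ) ^ 4 * 1 ≤ 4 * (P.Y : ℝ) ^ 4 * (P.Y * (P.κ + 1)) :=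
      mul_le_mul_of_nonneg_left (by nlinarith) (by positivity)
    linarith
  have h6 : 1 / (2 * (P.Y : ℝ)) + 1 / (2 * P.Y) = 1 / P.Y := by
    field_simp
    norm_num
  linarith [h1 P.J]

theorem o_mem : P.o ∈ P.Z := by
  refine ⟨(dist_self _).trans_le P.Za_T0, fun j _ => ?_, (P.Za_r_o _).ge⟩
  rw [P.Za_r_o]
  exact Za_le_sh (P.ψ_nonneg j) _

variable {P} {g : G} {y z : PX L}

theorem Za_dist_g (hg : g ∈ P.S) (hy : dist y P.o ≤ P.T) : dist (g • y) P.o ≤ P.T + P.κ :=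
  (dist_triangle _ (g • P.o) _).trans (add_le_add ((dist_smul g y P.o).trans_le hy) (P.hκ g hg))

theorem Za_fac {l : ℕ} (h1 : P.i ≤ l) : ((P.m : ℝ) - l) / P.m ≤ 1 - P.i / P.m := by
  have hm : (0 : ℝ) < P.m := by exact_mod_cast P.m_pos
  have : (P.i : ℝ) ≤ l := by exact_mod_cast h1
  rw [sub_div, div_self hm.ne']
  gcongr

theorem ball (hg : g ∈ P.S) (hy : y ∈ P.Z) {l : ℕ} (h1 : P.i ≤ l) (h2 : l ≤ P.m) :
    dist (P.σ (g • y) l) P.o ≤ P.T := by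
  have hm : (0 : ℝ) < P.m := by exact_mod_cast P.m_pos
  have hY := P.Za_Y
  have hk : (0 : ℝ) ≤ P.κ := Nat.cast_nonneg _
  have h3 : (l : ℝ) ≤ P.m := by exact_mod_cast h2
  have e := sg_geo P.m_pos (g • y) P.o h2 le_rfl
  rw [sg_end P.m_pos, abs_of_nonpos (sub_nonpos.2 h3)] at e
  have h4 : -((l : ℝ) - P.m) * (dist (g • y) P.o / P.m) =
      (P.m - l) / P.m * dist (g • y) P.o := by ring
  have h5 : ((P.m : ℝ) - l) / P.m * dist (g • y) P.o ≤ (1 - P.i / P.m) * (P.T + P.κ) :=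
    mul_le_mul (Za_fac h1) (Za_dist_g hg hy.1) dist_nonneg (sub_nonneg.2 P.Za_x_le)
  have h6 : (P.i : ℝ) / P.m * P.T = P.κ + 1 := by
    rw [P.Za_x, P.Za_T]
    field_simp
  have h7 : 0 ≤ (P.i : ℝ) / P.m * P.κ := by positivity
  refine (e.trans h4).trans_le (h5.trans ?_)
  nlinarith

/-- the level conditions along the path -/
theorem lev (hg : g ∈ P.S) (hy : y ∈ P.Z) {l : ℕ} (h1 : P.i ≤ l) (h2 : l ≤ P.m) {j : ℕ}
    (hj : j ≤ P.J) : P.σ (g • y) l ≤ sh (P.ψ j) (P.r j (P.σ (g • y) l)) := by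
  have hm : (0 : ℝ) < P.m := by exact_mod_cast P.m_pos
  rcases j with _ | j
  · obtain ⟨a, b⟩ := dist_le_iff.1 (ball hg hy h1 h2)
    have c : P.o ≤ sh P.T (P.r 0 (P.σ (g • y) l)) := (P.Za_r_o 0).ge.trans (rt_mono a)
    refine b.trans ((sh_le_sh le_rfl c).trans_eq ?_)
    rw [sh_sh, ← two_mul]
    rfl
  have d1 : dist (P.r j y) P.o ≤ P.T := (P.Za_r_dist j y).trans hy.1
  have d2 : dist (g • P.r j y) P.o ≤ ((2 * P.Y ^ 3 : ℕ) : ℝ) := by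
    rw [P.Za_C]
    exact (Za_dist_g hg d1).trans (by linarith [P.Za_κT])
  have s1 := sg_str P.m_pos (g • y) P.o
  have s2 := sg_str P.m_pos (g • P.r j y) P.o
  have a : P.σ (g • P.r j y) l ≤ P.σ (g • y) l := by
    have := s1.le s2 (α := 0) (β := 0)
      (by rw [sg_zero P.m_pos, sg_zero P.m_pos, sh_zero]; exact smul_le.2 (rt_le _ _ _))
      (by rw [sg_end P.m_pos, sg_end P.m_pos, sh_zero]) P.m_pos h2
    rwa [mul_zero, mul_zero, add_zero, zero_div, sh_zero] at this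
  have b := s2.le s1 (α := P.ψ j) (β := 0)
    (by rw [sg_zero P.m_pos, sg_zero P.m_pos, ← smul_sh]; exact smul_le.2 (hy.2.1 j hj))
    (by rw [sg_end P.m_pos, sg_end P.m_pos, sh_zero]) P.m_pos h2
  have c := jac_le P.m_pos d2 P.t h2
  have d := jac_ge P.m_pos d2 P.Za_t_pos h2
  rw [P.Za_e] at d
  have v1 : Val (P.F (j * (P.t + 2) + 1 + 1)) (g • P.r j y) := by
    rw [F, fl_succ]
    exact val_smul hg (P.Za_val_r j hy.1) d2
  have v2 := val_jac P.one (Nat.succ_pos _) v1 d2 P.m P.t l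
  rw [show (j * (P.t + 2) + 1).succ + P.t = (j + 1) * (P.t + 2) by
    rw [Nat.succ_eq_add_one]; ring] at v2
  have w := le_rt (x0 := P.x0) v2 (c.trans a)
  refine b.trans ((sh_le_sh le_rfl d).trans ?_)
  rw [sh_sh]
  refine sh_le_sh (add_le_add ?_ le_rfl) w
  rw [mul_zero, add_zero, mul_div_right_comm]
  exact mul_le_mul_of_nonneg_right (Za_fac h1) (P.ψ_nonneg j)

theorem node_mem (hg : g ∈ P.S) (hy : y ∈ P.Z) {l : ℕ} (h1 : P.i ≤ l) (h2 : l ≤ P.m) :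
    P.r P.J (P.σ (g • y) l) ∈ P.Z := by
  refine ⟨(P.Za_r_dist _ _).trans (ball hg hy h1 h2), fun j hj => ?_, (P.Za_r_r le_rfl _).ge⟩
  rw [P.Za_r_r hj.le]
  exact (rt_le _ _ _).trans (lev hg hy h1 h2 hj.le)

theorem node_dist (hg : g ∈ P.S) (hy : y ∈ P.Z) {l : ℕ} (h1 : P.i ≤ l) (h2 : l ≤ P.m) :
    dist (P.r P.J (P.σ (g • y) l)) (P.σ (g • y) l) ≤ 1 / P.Y := by
  have := P.Za_Y
  exact dist_le_iff.2 ⟨(lev hg hy h1 h2 le_rfl).trans (sh_le_sh P.ψ_J le_rfl),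
    (rt_le _ _ _).trans (Za_le_sh (by positivity) _)⟩

theorem Za_sup {j : ℕ} {s : ℝ} (hy : y ≤ sh s (P.r j y)) (hz : z ≤ sh s (P.r j z)) (a : ℝ) :
    y ⊔ sh a z ≤ sh s (P.r j (y ⊔ sh a z)) := by
  refine sup_le (hy.trans (sh_le_sh le_rfl (rt_mono le_sup_left)))
    ((sh_le_sh le_rfl hz).trans ?_)
  rw [sh_sh, add_comm, ← sh_sh]
  exact sh_le_sh le_rfl (rt_mono (y := sh a z) le_sup_right)

theorem sup_mem (hy : y ∈ P.Z) (hz : z ∈ P.Z) {a : ℝ} (ha : 0 ≤ a) : y ⊔ sh (-a) z ∈ P.Z := by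
  obtain ⟨a1, a2⟩ := dist_le_iff.1 hy.1
  obtain ⟨-, b2⟩ := dist_le_iff.1 hz.1
  refine ⟨dist_le_iff.2 ⟨a1.trans (sh_le_sh le_rfl le_sup_left),
    sup_le a2 ((sh_le_iff.2 (Za_le_sh ha z)).trans b2)⟩,
    fun j hj => Za_sup (hy.2.1 j hj) (hz.2.1 j hj) _, ?_⟩
  have := Za_sup (P := P) (j := P.J) (s := 0) (hy.2.2.trans (sh_zero _).ge)
    (hz.2.2.trans (sh_zero _).ge) (-a)
  rwa [sh_zero] at this

theorem absorb (hy : y ∈ P.Z) (hz : z ∈ P.Z) : sh (-(2 * P.T)) z ≤ y := by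
  have : dist y z ≤ 2 * P.T :=
    (dist_triangle_right y z P.o).trans (by linarith [hy.1, hz.1])
  exact sh_le_iff.2 (dist_le_iff.1 this).1

theorem val_mem (hy : y ∈ P.Z) : Val (P.F (P.J * (P.t + 2) + 1)) y := by
  have := P.Za_val_r P.J hy.1
  rwa [show P.r P.J y = y from le_antisymm (rt_le _ _ _) hy.2.2] at this

/-- the approximation of Jacobi has the same value -/
theorem val_σ (hy : y ∈ P.Z) {j : ℕ} (hj : j ≤ P.m) {u : ℝ} (hu : u ∈ Ico (0 : ℝ) 1)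
    (h : (P.σ y j).f (u - 1 / P.Y) = (P.σ y j).f u) :
    (P.σ y j).f u ∈ P.F (P.J * (P.t + 2) + 1 + P.t) := by
  have hY := P.Za_Y
  have d2 : dist y P.o ≤ ((2 * P.Y ^ 3 : ℕ) : ℝ) := by
    rw [P.Za_C]
    exact hy.1.trans (by linarith [P.Za_T0])
  have c := jac_le P.m_pos d2 P.t hj
  have d := jac_ge P.m_pos d2 P.Za_t_pos hj
  rw [P.Za_e] at d
  have v := val_jac P.one (Nat.succ_pos _) (val_mem hy) d2 P.m P.t j u hu
  have e : 1 / (2 * (P.Y : ℝ) ^ 5) ≤ 1 / P.Y := by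
    have : (P.Y : ℝ) ≤ (P.Y : ℝ) ^ 5 := le_self_pow₀ (by linarith) (by norm_num)
    exact one_div_le_one_div_of_le (by positivity) (by linarith)
  have e' : u - 1 / P.Y + 1 / (2 * (P.Y : ℝ) ^ 5) ≤ u := by linarith
  have k : (P.σ y j).f u = (jac P.m ((2 * P.Y ^ 3 : ℕ) : ℝ) y P.o P.t j).f u :=
    le_antisymm (h.ge.trans ((d _).trans
      ((jac P.m ((2 * P.Y ^ 3 : ℕ) : ℝ) y P.o P.t j).mono e'))) (c u)
  rw [k]
  exact v

theorem F_card : (P.F (P.J * (P.t + 2) + 1 + P.t)).encard ≤ Fb (nn L) P.κ P.Y :=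
  fl_card P.card P.hκ _

end LP

end Pool.Agent.Work.MP_9d1ffa_al.Ga
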