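import Pool.Agent.Work.MP_9d1ffa_al.Ga.Lv
import Pool.Agent.Work.MP_9d1ffa_al.Ga.Za
import Pool.Agent.Work.MP_9d1ffa_al.Ga.Zc

-- merged part: Pool.Agent.Work.MP_9d1ffa_al.Ga.Sm
section
/-! Samples on grids and their margins. -/

namespace Pool.Agent.Work.MP_9d1ffa_al.Ga

open Set

/-- the values on one of `n + 1` grids -/
@[ext] structure Smp (L : Type) [ConditionallyCompleteLattice L] [Gar L] where
  γ : Fin (nn L + 1)
  c : ℤ → L

variable {L : Type} [ConditionallyCompleteLattice L] [Gar L]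

/-- the grid points -/
noncomputable def gp (Q : ℕ) (γ : Fin (nn L + 1)) (k : ℤ) : ℝ := (k + γ / (nn L + 1)) / Q

/-- `c` is a sample of `x` -/
def Mt (Q : ℕ) (c : Smp L) (x : PX L) : Prop := ∀ k, x.f (gp Q c.γ k) = c.c k

/-- the margin of a sample -/
noncomputable def mg (Q : ℕ) (c : Smp L) (x : PX L) : ℝ :=
  sSup {μ | μ ∈ Icc (0 : ℝ) 1 ∧ ∀ k, x.f (gp Q c.γ k - μ) = c.c k ∧ x.f (gp Q c.γ k + μ) = c.c k}

variable {Q : ℕ} {c c' : Smp L} {x y : PX L}

theorem gp_mem (γ : Fin (nn L + 1)) {k : ℤ} (h0 : 0 ≤ k) (h1 : k < Q) :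
    gp Q γ k ∈ Ico (0 : ℝ) 1 := by
  have q0 : (0 : ℝ) < Q := by exact_mod_cast h0.trans_lt h1
  have a0 : (0 : ℝ) ≤ k := by exact_mod_cast h0
  have a1 : (k : ℝ) + 1 ≤ Q := by exact_mod_cast h1
  have a2 : (γ : ℝ) / (nn L + 1) < 1 := (div_lt_one (by positivity)).2 (by exact_mod_cast γ.2)
  exact ⟨by unfold gp; positivity, (div_lt_one q0).2 (by linarith)⟩

theorem gp_add (hQ : 0 < Q) (γ : Fin (nn L + 1)) (k l : ℤ) : gp Q γ (k + l * Q) = gp Q γ k + l := by
  have q0 : (Q : ℝ) ≠ 0 := Nat.cast_ne_zero.2 hQ.ne'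
  rw [gp, gp, div_add' _ _ _ q0]
  push_cast
  ring

theorem mg_mem (Q : ℕ) (c : Smp L) (x : PX L) : 0 ≤ mg Q c x ∧ mg Q c x ≤ 1 := by
  exact ⟨Real.sSup_nonneg fun _ h => h.1.1, Real.sSup_le (fun _ h => h.1.2) zero_le_one⟩

theorem le_mg {μ : ℝ} (h0 : 0 ≤ μ) (h1 : μ ≤ 1)
    (h : ∀ k, x.f (gp Q c.γ k - μ) = c.c k ∧ x.f (gp Q c.γ k + μ) = c.c k) : μ ≤ mg Q c x := by
  exact le_csSup ⟨1, fun _ h => h.1.2⟩ ⟨⟨h0, h1⟩, h⟩

theorem lt_mg {μ : ℝ} (h : |μ| < mg Q c x) (k : ℤ) : x.f (gp Q c.γ k + μ) = c.c k := by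
  obtain ⟨ν, a, b⟩ := exists_lt_of_lt_csSup (nonempty_iff_ne_empty.2 fun e => by
    rw [mg, e, Real.sSup_empty] at h
    exact h.not_ge (abs_nonneg μ)) h
  have := abs_lt.1 b
  exact le_antisymm ((x.mono (by linarith)).trans_eq (a.2 k).2)
    ((a.2 k).1.ge.trans (x.mono (by linarith)))

theorem mt_of_pos (h : 0 < mg Q c x) : Mt Q c x := fun k => by
  simpa using lt_mg (μ := 0) (by simpa using h) k

/-- if `μ` is admissible for `x` and `dist x y ≤ μ` then `μ - dist x y` is admissible for `y` -/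
theorem mg_lip (Q : ℕ) (c : Smp L) (x y : PX L) : |mg Q c x - mg Q c y| ≤ dist x y := by
  have key : ∀ x y : PX L, mg Q c x ≤ mg Q c y + dist x y := fun x y => by
    have d0 : 0 ≤ dist x y := dist_nonneg
    refine Real.sSup_le (fun μ a => ?_) (add_nonneg (mg_mem ..).1 d0)
    rcases le_total μ (dist x y) with r | r
    · exact r.trans (le_add_of_nonneg_left (mg_mem ..).1)
    refine sub_le_iff_le_add.1 (le_mg (by linarith) (by linarith [a.1.2]) fun k => ?_)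
    have b1 : y.f (gp Q c.γ k + (μ - dist x y)) ≤ c.c k :=
      ((le_sh_dist x y).1 _).trans_eq (by rw [sh_f, add_assoc, sub_add_cancel, (a.2 k).2])
    have b2 : c.c k ≤ y.f (gp Q c.γ k - (μ - dist x y)) :=
      (a.2 k).1.ge.trans (((le_sh_dist x y).2 _).trans_eq (by rw [sh_f, sub_add]))
    have b3 : y.f (gp Q c.γ k - (μ - dist x y)) ≤ y.f (gp Q c.γ k + (μ - dist x y)) :=
      y.mono (by linarith)
    exact ⟨le_antisymm (b3.trans b1) b2, le_antisymm b1 (b2.trans b3)⟩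
  have := key y x
  rw [dist_comm] at this
  exact abs_le.2 ⟨by linarith, by linarith [key x y]⟩

theorem mg_congr (e : c.γ = c'.γ) (h : ∀ k μ, |μ| ≤ 1 →
    (x.f (gp Q c.γ k + μ) = c.c k ↔ y.f (gp Q c.γ k + μ) = c'.c k)) : mg Q c x = mg Q c' y := by
  refine congrArg sSup (Set.ext fun μ => and_congr_right fun a => forall_congr' fun k => ?_)
  rw [← e, sub_eq_add_neg]
  have : |μ| ≤ 1 := (abs_of_nonneg a.1).trans_le a.2
  exact and_congr (h k _ (by rwa [abs_neg])) (h k _ this)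

theorem Mt.dist (hQ : 0 < Q) (h : Mt Q c x) (h' : Mt Q c y) : dist x y ≤ 1 / Q := by
  have q0 : (0 : ℝ) < Q := Nat.cast_pos.2 hQ
  have key : ∀ {x y : PX L}, Mt Q c x → Mt Q c y → y ≤ sh (1 / Q) x := fun {x y} h h' u => by
    have a1 := Int.le_ceil (u * Q - c.γ / (nn L + 1))
    have a2 := Int.ceil_lt_add_one (u * Q - c.γ / (nn L + 1))
    refine (y.mono ?_).trans (((h' ⌈u * Q - c.γ / (nn L + 1)⌉).trans (h _).symm).le.trans
      (x.mono ?_))
    · exact (le_div_iff₀ q0).2 (by linarith)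
    · rw [gp, div_le_iff₀ q0, add_mul, one_div_mul_cancel q0.ne']
      linarith
  exact dist_le_iff.2 ⟨key h h', key h' h⟩

theorem Mt.uniq (h : Mt Q c x) (h' : Mt Q c' x) (e : c.γ = c'.γ) : c = c' :=
  Smp.ext e (funext fun k => by rw [← h k, ← h' k, e])

theorem mg_card (Q : ℕ) (x : PX L) : {c : Smp L | 0 < mg Q c x}.encard ≤ (nn L + 1 : ℕ) := by
  exact (encard_le_encard_of_injOn (f := fun c : Smp L => c.γ) (mapsTo_univ _ _)
    fun c a c' b e => (mt_of_pos a).uniq (mt_of_pos b) e).trans_eq (by simp)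

theorem dist_of_grid (hQ : 0 < Q) (h : ∀ k : ℕ, k < Q → x.f (k / Q) = y.f (k / Q)) :
    dist x y ≤ 1 / Q := by
  refine Mt.dist (c := ⟨0, fun k => x.f (gp Q 0 k)⟩) hQ (fun _ => rfl) fun k => ?_
  have q0 : (0 : ℤ) < Q := Nat.cast_pos.2 hQ
  obtain ⟨r, e⟩ := Int.eq_ofNat_of_zero_le (Int.emod_nonneg k q0.ne')
  have := Int.emod_lt_of_pos k q0
  change y.f (gp Q 0 k) = x.f (gp Q 0 k)
  rw [← Int.emod_add_ediv_mul k Q, gp_add hQ, x.per_int, y.per_int, e]
  simpa [gp] using (h r (by omega)).symm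

/-- The points `t i = (i - 1 / 2) / ((n + 1) * Q)`, `0 ≤ i ≤ (n + 1) * Q`, give a chain in
`Icc z (τ z)`, `z = x.f (t 0)`. If every grid `γ` had a point with `x.f (t i) < x.f (t (i + 1))`,
`i = k * (n + 1) + γ`, `0 ≤ k < Q` (reduce `k` by `gp_add` and `per_int`), the values `x.f (t i)`
and `τ z` would be `n + 2` different elements of this chain. -/
theorem exists_mg (hQ : 0 < Q) (x : PX L) :
    ∃ c : Smp L, 1 / (2 * (nn L + 1) * Q) ≤ mg Q c x ∧ ∀ k,
      x.f (gp Q c.γ k - 1 / (2 * (nn L + 1) * Q)) = c.c k ∧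
        x.f (gp Q c.γ k + 1 / (2 * (nn L + 1) * Q)) = c.c k := by
  have q0 : (0 : ℝ) < Q := Nat.cast_pos.2 hQ
  have q1 : (0 : ℤ) < Q := Nat.cast_pos.2 hQ
  obtain ⟨δ, hδ⟩ : ∃ δ : ℝ, δ = 1 / (2 * (nn L + 1) * Q) := ⟨_, rfl⟩
  rw [← hδ]
  have d0 : 0 < δ := by rw [hδ]; positivity
  have d1 : δ * (2 * (nn L + 1) * Q) = 1 := by rw [hδ]; field_simp
  suffices ∃ γ, ∀ k, x.f (gp Q γ k + δ) = x.f (gp Q γ k - δ) by
    obtain ⟨γ, h⟩ := this
    refine ⟨⟨γ, fun k => x.f (gp Q γ k - δ)⟩, le_mg d0.le ?_ fun k => ⟨rfl, h k⟩,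
      fun k => ⟨rfl, h k⟩⟩
    rw [hδ, div_le_one (by positivity)]
    exact_mod_cast (by positivity : 0 < 2 * (nn L + 1) * Q)
  by_contra! h
  let F : ℤ → L := fun i => x.f (i * (2 * δ) - δ)
  have mo : Monotone F := fun i j r => x.mono (by
    have : (i : ℝ) ≤ j := by exact_mod_cast r
    nlinarith)
  have top : F ((nn L + 1) * Q) = tz 1 (F 0) := by
    simp only [F]
    rw [← x.per_int]
    congr 1
    push_cast
    linarith
  have key : ∀ γ : Fin (nn L + 1), ∃ i : ℤ, i % (nn L + 1) = γ ∧ 0 ≤ i ∧ i < (nn L + 1) * Q ∧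
      F i < F (i + 1) := fun γ => by
    obtain ⟨k, hk⟩ := h γ
    have a0 := Int.emod_nonneg k q1.ne'
    have a1 := Int.emod_lt_of_pos k q1
    have g1 : ((γ : ℕ) : ℤ) < nn L + 1 := by exact_mod_cast γ.2
    rw [← Int.emod_add_ediv_mul k Q, gp_add hQ, add_right_comm, add_sub_right_comm, x.per_int,
      x.per_int] at hk
    have e : gp Q γ (k % Q) = ((γ + (nn L + 1) * (k % Q) : ℤ) : ℝ) * (2 * δ) := by
      rw [gp, hδ, Int.cast_add, Int.cast_mul]
      push_cast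
      field_simp
      ring
    refine ⟨γ + (nn L + 1) * (k % Q), ?_, by positivity, by nlinarith,
      (mo (le_add_of_nonneg_right zero_le_one)).lt_of_ne fun r => hk (congrArg _ ?_)⟩
    · rw [Int.add_mul_emod_self_left, Int.emod_eq_of_lt (by positivity) g1]
    · rw [e]
      refine Eq.trans (congrArg _ ?_) r.symm
      rw [Int.cast_add _ 1]
      push_cast
      ring
  choose i i0 i1 i2 i3 using key
  have inj : Function.Injective fun γ => F (i γ) := fun a b r => by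
    rcases lt_trichotomy (i a) (i b) with s | s | s
    · exact absurd r ((i3 a).trans_le (mo s)).ne
    · exact Fin.ext (Int.ofNat_inj.1 (by rw [← i0, ← i0, s]))
    · exact absurd r ((i3 b).trans_le (mo s)).ne'
  have := ht_one (F 0) (insert (F ((nn L + 1) * Q)) (range fun γ => F (i γ)))
    (mo.isChain_range.mono (insert_subset (mem_range_self _)
      (range_subset_iff.2 fun _ => mem_range_self _)))
    (insert_subset ⟨mo (by positivity), top.le⟩
      (range_subset_iff.2 fun γ => ⟨mo (i1 γ), (mo (i2 γ).le).trans_eq top⟩))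
  rw [encard_insert_of_notMem (by
    rintro ⟨γ, r⟩
    exact ((i3 γ).trans_le (mo (i2 γ))).ne r)] at this
  replace this := (add_le_add_left inj.encard_range 1).trans this
  simp only [ENat.card_eq_coe_fintype_card, Fintype.card_fin] at this
  exact absurd (by exact_mod_cast this : nn L + 1 + 1 ≤ nn L + 1) (by omega)

/-- a sample is determined by the grid and the values in one period -/
theorem smp_count (hQ : 0 < Q) {F : Set L} {N : ℕ} (h : F.encard ≤ N) :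
    {c : Smp L | (∃ x, Mt Q c x) ∧ ∀ k : ℤ, 0 ≤ k → k < Q → c.c k ∈ F}.encard ≤
      ((nn L + 1) * N ^ Q : ℕ) := by
  have q1 : (0 : ℤ) < Q := Nat.cast_pos.2 hQ
  refine (encard_le_encard_of_injOn (f := fun c : Smp L => (c.γ, fun k : Fin Q => c.c (k : ℕ)))
    (t := univ ×ˢ {d | ∀ k, d k ∈ F}) (fun c a => ⟨trivial, fun k => a.2 _ (by positivity)
      (by exact_mod_cast k.2)⟩) ?_).trans ?_
  · rintro c ⟨⟨x, a⟩, -⟩ c' ⟨⟨y, b⟩, -⟩ e
    obtain ⟨e1, e2⟩ := Prod.ext_iff.1 e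
    refine Smp.ext e1 (funext fun k => ?_)
    obtain ⟨r, e3⟩ := Int.eq_ofNat_of_zero_le (Int.emod_nonneg k q1.ne')
    have := Int.emod_lt_of_pos k q1
    rw [← Int.emod_add_ediv_mul k Q, ← a, ← b, gp_add hQ, gp_add hQ, x.per_int, y.per_int, a, b, e3]
    exact congrArg _ (congrFun e2 ⟨r, by omega⟩)
  · rw [encard_prod, Nat.cast_mul]
    exact mul_le_mul' (by simp) (encard_pi h Q)

theorem totallyBounded_val {F : Set L} (hF : F.Finite) :
    TotallyBounded {x : PX L | ∀ u ∈ Ico (0 : ℝ) 1, x.f u ∈ F} := by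
  refine Metric.totallyBounded_of_finite_discretization fun ε hε => ?_
  obtain ⟨Q, hQ⟩ := exists_nat_one_div_lt hε
  have := hF.fintype
  refine ⟨Fin (Q + 1) → F, inferInstance, fun x k => ⟨x.1.f ((k : ℕ) / (Q + 1 : ℕ)), x.2 _
    ⟨by positivity, (div_lt_one (by positivity)).2 (by exact_mod_cast k.2)⟩⟩, fun x y e => ?_⟩
  exact (dist_of_grid Q.succ_pos fun k hk => congrArg Subtype.val (congrFun e ⟨k, hk⟩)).trans_lt
    (by exact_mod_cast hQ)

variable {G : Type} [Group G] [MulAction G L]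

instance : MulAction G (Smp L) where
  smul g c := ⟨c.γ, fun k => g • c.c k⟩
  one_smul c := Smp.ext rfl (funext fun k => one_smul G (c.c k))
  mul_smul g h c := Smp.ext rfl (funext fun k => mul_smul g h (c.c k))

theorem smul_γ (g : G) (c : Smp L) : (g • c).γ = c.γ := rfl

theorem smul_c (g : G) (c : Smp L) (k : ℤ) : (g • c).c k = g • c.c k := rfl

variable [GA G L]

theorem mg_smul (g : G) (Q : ℕ) (c : Smp L) (x : PX L) : mg Q (g • c) (g • x) = mg Q c x := by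
  simp only [mg, smul_f, smul_c, smul_γ, smul_left_cancel_iff]

/-- discreteness, from `exists_mg` with `Q = 1` -/
theorem disc (g : G) (x : PX L) (h : dist (g • x) x ≤ 1 / (2 * (nn L + 1))) : g = 1 := by
  obtain ⟨c, -, k⟩ := exists_mg Nat.one_pos x
  obtain ⟨a, b⟩ := k 0
  rw [Nat.cast_one, mul_one] at a b
  obtain ⟨h1, h2⟩ := dist_le_iff.1 h
  have p0 : (0 : ℝ) ≤ 1 / (2 * (nn L + 1)) := by positivity
  have k1 := h1 (gp 1 c.γ 0 - 1 / (2 * (nn L + 1)))
  have k2 := h2 (gp 1 c.γ 0)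
  have e : x.f (gp 1 c.γ 0) = c.c 0 := le_antisymm ((x.mono (by linarith)).trans_eq b)
    (a.ge.trans (x.mono (by linarith)))
  rw [sh_f, smul_f, sub_add_cancel, a, e] at k1
  rw [sh_f, smul_f, b, e] at k2
  exact GA.free g _ (le_antisymm k2 k1)

end Pool.Agent.Work.MP_9d1ffa_al.Ga
end

-- merged part: Pool.Agent.Work.MP_9d1ffa_al.Ga.Zb
section
/-! The compact pieces of the space of periodic step functions. -/

namespace Pool.Agent.Work.MP_9d1ffa_al.Ga

open Set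

variable {G L : Type} [Group G] [ConditionallyCompleteLattice L] [Gar L] [MulAction G L] [GA G L]

namespace LP

variable (P : LP G L)

/-- closed and totally bounded in a complete space -/
theorem compact : IsCompact P.Z := by
  have hc : IsClosed P.Z := by
    have e : P.Z = {y | dist y P.o ≤ P.T} ∩ ((⋂ j, ⋂ (_ : j < P.J),
        {y | y ≤ sh (P.ψ j) (P.r j y)}) ∩ {y | y ≤ P.r P.J y}) := by
      ext y
      simp only [Z, mem_ofPred_eq, mem_inter_iff, mem_iInter]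
    rw [e]
    exact (isClosed_le (continuous_id.dist continuous_const) continuous_const).inter
      ((isClosed_iInter fun j => isClosed_iInter fun _ => isClosed_le continuous_id
        (continuous_sh.comp (continuous_const.prodMk rt_cont))).inter
        (isClosed_le continuous_id rt_cont))
  have hf : (P.F (P.J * (P.t + 2) + 1)).Finite :=
    finite_of_encard_le_coe (fl_card P.card P.hκ _)
  exact ((totallyBounded_val hf).subset fun y hy => val_mem hy).isCompact_of_isClosed hc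

/-- the points of a segment -/
noncomputable def Zb_s (x y : PX L) (a : ℝ) : PX L :=
  sh (-(2 * P.T * max 0 (2 * a - 1))) x ⊔ sh (-(2 * P.T * max 0 (1 - 2 * a))) y

theorem Zb_cases (x y : PX L) (a : ℝ) : ∃ b : ℝ, 0 ≤ b ∧
    (P.Zb_s x y a = x ⊔ sh (-b) y ∨ P.Zb_s x y a = y ⊔ sh (-b) x) := by
  rcases le_total (2 * a - 1) 0 with h | h
  · refine ⟨2 * P.T * max 0 (1 - 2 * a), by positivity, Or.inl ?_⟩
    rw [Zb_s, max_eq_left h, mul_zero, neg_zero, sh_zero]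
  · refine ⟨2 * P.T * max 0 (2 * a - 1), by positivity, Or.inr ?_⟩
    rw [Zb_s, max_eq_left (show 1 - 2 * a ≤ 0 by linarith), mul_zero, neg_zero, sh_zero, sup_comm]

theorem Zb_dist {x y c : PX L} {b ρ : ℝ} (hb : 0 ≤ b) (hx : dist x c ≤ ρ) (hy : dist y c ≤ ρ) :
    dist (x ⊔ sh (-b) y) c ≤ ρ := by
  have h1 : sh (-b) y ≤ y := by
    have := sh_le_sh (a := -b) (b := 0) (by linarith) (le_refl y)
    rwa [sh_zero] at this
  have h2 := dist_sup_le x y c c
  rw [sup_idem] at h2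
  exact dist_between le_sup_left (sup_le_sup_left h1 x) hx (h2.trans (max_le hx hy))

/-- the segment lies between `x` or `y` and `x ⊔ y` -/
theorem seg : ∃ sg : P.Z → P.Z → unitInterval → P.Z,
    (Continuous fun p : P.Z × P.Z × unitInterval => sg p.1 p.2.1 p.2.2) ∧ (∀ x y, sg x y 0 = x) ∧
      (∀ x y, sg x y 1 = y) ∧ ∀ (x y : P.Z) (a : unitInterval) (c : PX L) (ρ : ℝ),
        dist x.1 c ≤ ρ → dist y.1 c ≤ ρ → dist (sg x y a).1 c ≤ ρ := by
  have hm : ∀ (x y : P.Z) (a : ℝ), P.Zb_s x.1 y.1 a ∈ P.Z := by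
    intro x y a
    obtain ⟨b, hb, e | e⟩ := P.Zb_cases x.1 y.1 a
    · rw [e]; exact sup_mem x.2 y.2 hb
    · rw [e]; exact sup_mem y.2 x.2 hb
  refine ⟨fun x y a => ⟨P.Zb_s x.1 y.1 a.1, hm x y a.1⟩, ?_, ?_, ?_, ?_⟩
  · refine Continuous.subtype_mk ?_ _
    have ha : Continuous fun p : P.Z × P.Z × unitInterval => (p.2.2.1 : ℝ) :=
      continuous_subtype_val.comp continuous_snd.snd
    have hx : Continuous fun p : P.Z × P.Z × unitInterval => p.1.1 :=
      continuous_subtype_val.comp continuous_fst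
    have hy : Continuous fun p : P.Z × P.Z × unitInterval => p.2.1.1 :=
      continuous_subtype_val.comp continuous_snd.fst
    have h1 : Continuous fun p : P.Z × P.Z × unitInterval =>
        -(2 * (P.T : ℝ) * max 0 (2 * (p.2.2.1 : ℝ) - 1)) :=
      (continuous_const.mul (continuous_const.max
        ((continuous_const.mul ha).sub continuous_const))).neg
    have h2 : Continuous fun p : P.Z × P.Z × unitInterval =>
        -(2 * (P.T : ℝ) * max 0 (1 - 2 * (p.2.2.1 : ℝ))) :=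
      (continuous_const.mul (continuous_const.max
        (continuous_const.sub (continuous_const.mul ha)))).neg
    exact (continuous_sh.comp (h1.prodMk hx)).sup (continuous_sh.comp (h2.prodMk hy))
  · intro x y
    refine Subtype.ext ?_
    show P.Zb_s x.1 y.1 0 = x.1
    rw [Zb_s, max_eq_left (show 2 * (0 : ℝ) - 1 ≤ 0 by norm_num),
      max_eq_right (show (0 : ℝ) ≤ 1 - 2 * 0 by norm_num), mul_zero, neg_zero, sh_zero, mul_zero,
      sub_zero, mul_one]
    exact sup_eq_left.2 (absorb x.2 y.2)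
  · intro x y
    refine Subtype.ext ?_
    show P.Zb_s x.1 y.1 1 = y.1
    rw [Zb_s, max_eq_left (show 1 - 2 * (1 : ℝ) ≤ 0 by norm_num),
      max_eq_right (show (0 : ℝ) ≤ 2 * 1 - 1 by norm_num), mul_zero, neg_zero, sh_zero,
      show 2 * (1 : ℝ) - 1 = 1 by norm_num, mul_one]
    exact sup_eq_right.2 (absorb y.2 x.2)
  · intro x y a c ρ hx hy
    show dist (P.Zb_s x.1 y.1 a.1) c ≤ ρ
    obtain ⟨b, hb, e | e⟩ := P.Zb_cases x.1 y.1 a.1
    · rw [e]; exact Zb_dist hb hx hy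
    · rw [e]; exact Zb_dist hb hy hx

theorem eq_σ {p : ℕ → PX L} (h : Str P.m p) (k : p P.m = P.o) {l : ℕ} (hl : l ≤ P.m) :
    p l = P.σ (p 0) l :=
  dist_le_zero.1 (h.dist_le' (sg_str P.m_pos (p 0) P.o)
    (by rw [sg_zero P.m_pos, dist_self]) (by rw [sg_end P.m_pos, k, dist_self]) hl)

/-- the samples with a large margin take their values in a finite set -/
theorem lab {Q : ℕ} (hQ : 0 < Q) : {c | ∃ y ∈ P.Z, ∃ p, Str P.m p ∧ p 0 = y ∧ p P.m = P.o ∧
    ∃ j ≤ P.m, 1 / (P.Y : ℝ) < mg Q c (p j)}.encard ≤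
      ((nn L + 1) * Fb (nn L) P.κ P.Y ^ Q : ℕ) := by
  refine le_trans (encard_le_encard ?_) (smp_count hQ P.F_card)
  rintro c ⟨y, hy, p, hp, e0, em, j, hj, hc⟩
  have hY : (0 : ℝ) ≤ 1 / (P.Y : ℝ) := by positivity
  rw [P.eq_σ hp em hj, e0] at hc
  have hm : Mt Q c (P.σ y j) := mt_of_pos (hY.trans_lt hc)
  refine ⟨⟨_, hm⟩, fun k h0 h1 => ?_⟩
  rw [← hm k]
  refine val_σ hy hj (gp_mem c.γ h0 h1) ?_
  rw [hm k, sub_eq_add_neg]
  exact lt_mg (by rwa [abs_neg, abs_of_nonneg hY]) k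

theorem zb : ZB P.o Str mg (fun Q => (nn L + 1) * Fb (nn L) P.κ P.Y ^ Q) P.S P.κ P.Y P.Z
    (P.r P.J) where
  cpt := P.compact
  base := P.o_mem
  ball _ h := h.1
  seg := P.seg
  cont := rt_cont
  node g hg y hy p h e k l h1 h2 := by
    rw [P.eq_σ h k h2, e]
    exact ⟨node_mem hg hy h1 h2, node_dist hg hy h1 h2⟩
  lab _ := P.lab

end LP

end Pool.Agent.Work.MP_9d1ffa_al.Ga
end

-- merged part: Pool.Agent.Work.MP_9d1ffa_al.Ga.Va
section
/-! Straight paths of step functions in an interval. -/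

namespace Pool.Agent.Work.MP_9d1ffa_al.Ga

open Set

variable {L : Type} [Lattice L] {A A' B : L} {W : ℕ} {q : ℕ → ℝ → L}

/-- straight paths of step functions from `A` to `A'` -/
structure Iv (A A' : L) (W : ℕ) (q : ℕ → ℝ → L) : Prop where
  mono : ∀ j ≤ W, Monotone (q j)
  rc : ∀ j ≤ W, RC (q j)
  mem : ∀ j ≤ W, ∀ u, q j u ∈ Icc A A'
  lo : ∀ j ≤ W, ∃ u, q j u = A
  hi : ∀ j ≤ W, ∃ u, q j u = A'
  mid : ∀ j, j + 2 ≤ W → IsMid (q j) (q (j + 2)) (q (j + 1))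

/-- the values at the indices in `J` -/
def Vl (J : Set ℕ) (q : ℕ → ℝ → L) : Set L := {z | ∃ j ∈ J, ∃ u, q j u = z}

/-- the bound for the number of values -/
def Nv : ℕ → ℕ
  | 0 => 1
  | k + 1 => 2 * (k + 2) + 8 * (k + 2) * Nv k

theorem Iv.sub (h : Iv A A' W q) {i W' : ℕ} (k : i + W' ≤ W) : Iv A A' W' fun j => q (i + j) :=
  ⟨fun _ _ => h.mono _ (by omega), fun _ _ => h.rc _ (by omega), fun _ _ => h.mem _ (by omega),
    fun _ _ => h.lo _ (by omega), fun _ _ => h.hi _ (by omega),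
    fun j _ => h.mid (i + j) (by omega)⟩

theorem Iv.rev (h : Iv A A' W q) : Iv A A' W fun j => q (W - j) := by
  refine ⟨fun _ _ => h.mono _ (by omega), fun _ _ => h.rc _ (by omega),
    fun _ _ => h.mem _ (by omega), fun _ _ => h.lo _ (by omega), fun _ _ => h.hi _ (by omega),
    fun j hj => ?_⟩
  have := h.mid (W - (j + 2)) (by omega)
  rw [show W - (j + 2) + 2 = W - j by omega, show W - (j + 2) + 1 = W - (j + 1) by omega] at this
  exact this.symm

theorem Iv.pth (h : Iv A A' W q) (ne : A ≠ A') : Pth W q := by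
  refine ⟨fun i hi j hj => ⟨h.mono i hi, h.rc i hi, ?_, ?_⟩, h.mid⟩
  · obtain ⟨a, ha⟩ := h.lo j hj
    obtain ⟨b, hb⟩ := h.hi i hi
    refine ⟨b - a, fun u => ?_⟩
    rcases le_total u a with k | k
    · exact ((h.mono j hj k).trans_eq ha).trans (h.mem i hi _).1
    · exact (h.mem j hj u).2.trans (hb.ge.trans (h.mono i hi (by linarith)))
  · obtain ⟨a, ha⟩ := h.lo i hi
    obtain ⟨b, hb⟩ := h.hi j hj
    refine ⟨a - b, fun k => ne ?_⟩
    have := k b
    rw [hb, show b + (a - b) = a by ring, ha] at this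
    exact le_antisymm (ha ▸ (h.mem i hi a).2) this

/-- an upper set of reals that is closed from the right is a closed half line -/
theorem Va_thr {P : ℝ → Prop} (up : ∀ u v, u ≤ v → P u → P v)
    (rc : ∀ u, ∃ e, 0 < e ∧ (P (u + e) → P u)) (h1 : ∃ u, P u) (h2 : ∃ u, ¬P u) :
    ∃ f, ∀ u, P u ↔ f ≤ u := by
  obtain ⟨a, ha⟩ := h2
  have bd : BddBelow {u | P u} := ⟨a, fun u hu => le_of_not_ge fun k => ha (up u a k hu)⟩
  refine ⟨sInf {u | P u}, fun u => ⟨fun k => csInf_le bd k, fun k => ?_⟩⟩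
  obtain ⟨e, he, k'⟩ := rc u
  obtain ⟨v, hv, l⟩ := exists_lt_of_csInf_lt (s := {u | P u}) h1 (show _ < u + e by linarith)
  exact k' (up v _ l.le hv)

/-- the first and the last jump -/
theorem Iv.jumps (h : Iv A A' W q) (ne : A ≠ A') : ∃ f g : ℕ → ℝ, ∀ j ≤ W, ∀ u,
    (q j u ≠ A ↔ f j ≤ u) ∧ (q j u = A' ↔ g j ≤ u) := by
  have h1 : ∀ j, ∃ f : ℝ, j ≤ W → ∀ u, q j u ≠ A ↔ f ≤ u := fun j => by
    by_cases hj : j ≤ W
    · obtain ⟨f, hf⟩ := Va_thr (P := fun u => q j u ≠ A)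
        (fun u v k a b => a (le_antisymm ((h.mono j hj k).trans_eq b) (h.mem j hj u).1))
        (fun u => let ⟨e, a, b⟩ := h.rc j hj u; ⟨e, a, fun c => by rwa [b] at c⟩)
        (let ⟨u, k⟩ := h.hi j hj; ⟨u, fun c => ne (c.symm.trans k)⟩)
        ((h.lo j hj).imp fun u k => not_not.2 k)
      exact ⟨f, fun _ => hf⟩
    · exact ⟨0, fun k => absurd k hj⟩
  have h2 : ∀ j, ∃ g : ℝ, j ≤ W → ∀ u, q j u = A' ↔ g ≤ u := fun j => by
    by_cases hj : j ≤ W
    · obtain ⟨g, hg⟩ := Va_thr (P := fun u => q j u = A')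
        (fun u v k a => le_antisymm (h.mem j hj v).2 (a.ge.trans (h.mono j hj k)))
        (fun u => let ⟨e, a, b⟩ := h.rc j hj u; ⟨e, a, fun c => by rwa [b] at c⟩)
        (h.hi j hj) ((h.lo j hj).imp fun u k a => ne (k.symm.trans a))
      exact ⟨g, fun _ => hg⟩
    · exact ⟨0, fun k => absurd k hj⟩
  choose f hf using h1
  choose g hg using h2
  exact ⟨f, g, fun j hj u => ⟨hf j hj u, hg j hj u⟩⟩

theorem Va_cmp (h : Iv A A' W q) {j : ℕ} (hj : j ≤ W) (hB : ∃ u, q j u = B) : Cmp B (q j) :=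
  let ⟨u, hu⟩ := hB
  hu ▸ cmp_val (h.mono j hj) u

theorem Va_mem (h : Iv A A' W q) (hB : ∀ j ≤ W, ∃ u, q j u = B) : B ∈ Icc A A' :=
  let ⟨u, hu⟩ := hB 0 (Nat.zero_le W)
  hu ▸ h.mem 0 (Nat.zero_le W) u

theorem Iv.inf (h : Iv A A' W q) (hB : ∀ j ≤ W, ∃ u, q j u = B) :
    Iv A B W fun j u => q j u ⊓ B := by
  have m := Va_mem h hB
  have c := fun j hj => Va_cmp h hj (hB j hj)
  exact ⟨fun j hj _ _ k => inf_le_inf_right _ (h.mono j hj k),
    fun j hj u => (h.rc j hj u).imp fun e k => ⟨k.1, congrArg (· ⊓ B) k.2⟩,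
    fun j hj u => ⟨le_inf (h.mem j hj u).1 m.1, inf_le_right⟩,
    fun j hj => (h.lo j hj).imp fun u k => by rw [k, inf_eq_left.2 m.1],
    fun j hj => (hB j hj).imp fun u k => by rw [k, inf_idem],
    fun j hj => (h.mid j hj).inf (c _ (by omega)) (c _ hj) (c _ (by omega))⟩

theorem Iv.sup (h : Iv A A' W q) (hB : ∀ j ≤ W, ∃ u, q j u = B) :
    Iv B A' W fun j u => q j u ⊔ B := by
  have m := Va_mem h hB
  have c := fun j hj => Va_cmp h hj (hB j hj)
  exact ⟨fun j hj _ _ k => sup_le_sup_right (h.mono j hj k) _,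
    fun j hj u => (h.rc j hj u).imp fun e k => ⟨k.1, congrArg (· ⊔ B) k.2⟩,
    fun j hj u => ⟨le_sup_right, sup_le (h.mem j hj u).2 m.2⟩,
    fun j hj => (hB j hj).imp fun u k => by rw [k, sup_idem],
    fun j hj => (h.hi j hj).imp fun u k => by rw [k, sup_eq_left.2 m.2],
    fun j hj => (h.mid j hj).sup (c _ (by omega)) (c _ hj)⟩

/-- removing a point that is comparable with everything lowers the height -/
theorem Va_ins {I I' : Set L} {k : ℕ} {a : L} (h : Ht I (k + 1)) (e : I' ⊆ I) (ha : a ∈ I)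
    (na : a ∉ I') (c : ∀ b ∈ I', a ≤ b ∨ b ≤ a) : Ht I' k := fun C hC k' => by
  have := h (insert a C) (hC.insert fun b hb _ => c b (k' hb))
    (insert_subset ha (k'.trans e))
  rw [encard_insert_of_notMem fun m => na (k' m), Nat.cast_add_one] at this
  exact (WithTop.add_le_add_iff_right ENat.one_ne_top).1 this

/-- the statement that is proved by induction on the height -/
def Cnt (L : Type) [Lattice L] (k : ℕ) : Prop :=
  ∀ (A A' : L) (W : ℕ) (q : ℕ → ℝ → L), Iv A A' W q → Ht (Icc A A') (k + 1) →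
    (Vl (Iic W) q).encard ≤ Nv k

/-- A value that persists on an interval of indices splits the path into two paths of smaller
height (`J` is empty or an interval `Icc i (i + W')`; every value is comparable with `B`, so it is
a value of one of the two truncated paths; a chain of `Icc A B` together with `A'` is a chain of
`Icc A A'`). -/
theorem Iv.split {k : ℕ} (ih : Cnt L k) (h : Iv A A' W q) (hk : Ht (Icc A A') (k + 2))
    {J : Set ℕ} (hJ : J ⊆ Iic W) (oc : J.OrdConnected) (h1 : A < B) (h2 : B < A')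
    (hB : ∀ j ∈ J, ∃ u, q j u = B) : (Vl J q).encard ≤ (2 * Nv k : ℕ) := by
  rcases J.eq_empty_or_nonempty with rfl | ne
  · simp [Vl]
  have fin : J.Finite := (finite_Iic W).subset hJ
  obtain ⟨i, hi, ki⟩ := exists_min_image J id fin ne
  obtain ⟨m, hm, km⟩ := exists_max_image J id fin ne
  simp only [id] at ki km
  have im := ki m hm
  have mW : m ≤ W := hJ hm
  have h' := h.sub (i := i) (W' := m - i) (by omega)
  have hB' : ∀ j ≤ m - i, ∃ u, q (i + j) u = B :=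
    fun j hj => hB _ (oc.out hi hm ⟨by omega, by omega⟩)
  have l := (h1.trans h2).le
  have a1 := ih _ _ _ _ (h'.inf hB') (Va_ins hk (Icc_subset_Icc_right h2.le) ⟨l, le_rfl⟩
    (fun k => h2.not_ge k.2) fun b hb => .inr (hb.2.trans h2.le))
  have a2 := ih _ _ _ _ (h'.sup hB') (Va_ins hk (Icc_subset_Icc_left h1.le) ⟨le_rfl, l⟩
    (fun k => h1.not_ge k.1) fun b hb => .inl (h1.le.trans hb.1))
  refine le_trans (encard_le_encard ?_) ((encard_union_le _ _).trans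
    ((add_le_add a1 a2).trans_eq (by push_cast; ring)))
  rintro _ ⟨j, hj, u, rfl⟩
  have e : i + (j - i) = j := by have := ki j hj; omega
  have b : j - i ∈ Iic (m - i) := by have := km j hj; simp only [mem_Iic]; omega
  rcases Va_cmp h (hJ hj) (hB j hj) u with k | k
  · exact .inl ⟨_, b, u, by simp only [e]; exact inf_eq_left.2 k⟩
  · exact .inr ⟨_, b, u, by simp only [e]; exact sup_eq_left.2 k⟩

/-- A function whose first and last jump are `(k + 1) * θ` apart is constant on an interval of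
length `θ` (pigeonhole for the points `f + i * θ`, `i ≤ k`: at most `k` values lie strictly
between `A` and `A'`). -/
theorem tile {k : ℕ} (hk : Ht (Icc A A') (k + 2)) {x : ℝ → L} (hx : Monotone x)
    (hm : ∀ u, x u ∈ Icc A A') {f g θ : ℝ} (hf : ∀ u, x u ≠ A ↔ f ≤ u) (hg : ∀ u, x u = A' ↔ g ≤ u)
    (h0 : 0 < θ) (h : f + (k + 1) * θ ≤ g) : ∃ s, A < x s ∧ x s < A' ∧ x (s + θ) = x s := by
  have l : A ≤ A' := (hm 0).1.trans (hm 0).2
  have m : ∀ i ≤ k, x (f + (i : ℕ) * θ) ∈ Ioo A A' := fun i hi => by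
    have a : (i : ℝ) ≤ k := by exact_mod_cast hi
    have b : 0 ≤ (i : ℝ) * θ := by positivity
    refine ⟨lt_of_le_of_ne (hm _).1 ((hf _).2 (by linarith)).symm,
      lt_of_le_of_ne (hm _).2 fun e => ?_⟩
    have := (hg _).1 e
    nlinarith
  have l' : A < A' := (m 0 k.zero_le).1.trans (m 0 k.zero_le).2
  have t1 : Ht (Ioc A A') (k + 1) := Va_ins hk Ioc_subset_Icc_self ⟨le_rfl, l⟩
    (fun k => k.1.false) fun b hb => .inl hb.1.le
  have t2 : Ht (Ioo A A') k := Va_ins t1 Ioo_subset_Ioc_self ⟨l', le_rfl⟩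
    (fun k => k.2.false) fun b hb => .inr hb.2.le
  by_contra hc
  have sm : StrictMonoOn (fun i : ℕ => x (f + i * θ)) (Iic k) := by
    refine strictMonoOn_Iic_of_lt_succ fun i hi => ?_
    have e : f + ((Order.succ i : ℕ) : ℝ) * θ = f + i * θ + θ := by
      rw [Order.succ_eq_add_one]; push_cast; ring
    simp only [e]
    exact lt_of_le_of_ne (hx (by linarith)) fun a =>
      hc ⟨_, (m i hi.le).1, (m i hi.le).2, a.symm⟩
  have := t2 ((fun i : ℕ => x (f + i * θ)) '' Iic k)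
    ((hx.isChain_range).mono (by rintro _ ⟨i, _, rfl⟩; exact ⟨_, rfl⟩))
    (by rintro _ ⟨i, hi, rfl⟩; exact m i hi)
  rw [sm.injOn.encard_image, ← Finset.coe_Iic, encard_coe_eq_coe_finsetCard, Nat.card_Iic] at this
  exact absurd (by exact_mod_cast this : k + 1 ≤ k) (by omega)

end Pool.Agent.Work.MP_9d1ffa_al.Ga
end

-- merged part: Pool.Agent.Work.MP_9d1ffa_al.Ga.Vb
section
/-! The number of values of a straight path does not depend on the number of steps. -/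

namespace Pool.Agent.Work.MP_9d1ffa_al.Ga

open Set

section

variable {L : Type} [Lattice L] {A A' : L} {W k : ℕ} {q : ℕ → ℝ → L} {f g : ℕ → ℝ} {h1 h2 : ℝ}

theorem Vb_ioo (hk : Ht (Icc A A') (k + 2)) {C : Set L} (c : IsChain (· ≤ ·) C)
    (e : C ⊆ Ioo A A') : C.encard ≤ k := by
  rcases C.eq_empty_or_nonempty with rfl | ⟨z, hz⟩
  · simp
  have lt : A < A' := (e hz).1.trans (e hz).2
  have c1 : IsChain (· ≤ ·) (insert A' C) := c.insert fun y hy _ => Or.inr (e hy).2.le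
  have s1 : insert A' C ⊆ Ioc A A' :=
    insert_subset ⟨lt, le_rfl⟩ (e.trans Ioo_subset_Ioc_self)
  have := hk _ (c1.insert fun y hy _ => Or.inl (s1 hy).1.le)
    (insert_subset ⟨le_rfl, lt.le⟩ (s1.trans Ioc_subset_Icc_self))
  rw [encard_insert_of_notMem fun r => (s1 r).1.ne rfl,
    encard_insert_of_notMem fun r => (e r).2.ne rfl] at this
  push_cast at this
  rw [add_assoc, one_add_one_eq_two] at this
  exact (ENat.add_le_add_iff_right (by simp)).1 this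

theorem Vb_gap {x y : ℝ → L} {a b t : ℝ} (hx : ∀ u, x u ∈ Icc A A') (hy : ∀ u, y u ∈ Icc A A')
    (ha : ∀ u, y u ≠ A ↔ a ≤ u) (hb : ∀ u, x u = A' ↔ b ≤ u) (h : ∀ s, Le s x y ↔ t ≤ s) :
    a + t ≤ b := by
  refine le_of_forall_lt fun r hr => ?_
  have : ¬Le (r - a) x y := fun e => by linarith [(h _).1 e]
  obtain ⟨u, hu⟩ := not_forall.1 this
  have k1 : a ≤ u := (ha u).1 fun e => hu (e.trans_le (hx _).1)
  have k2 : ¬b ≤ u + (r - a) := fun e => hu ((hy u).2.trans_eq ((hb _).2 e).symm)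
  linarith [not_le.1 k2]

theorem Vb_one (h : Iv A A' W q) {H : ℕ} (hk : Ht (Icc A A') H) {S : Set L}
    (e : S ⊆ range (q 0)) : S.encard ≤ H :=
  (encard_le_encard e).trans (hk _ (by
    rintro _ ⟨u, rfl⟩ _ ⟨v, rfl⟩ -
    exact (le_total u v).imp (fun r => h.mono 0 (Nat.zero_le _) r)
      fun r => h.mono 0 (Nat.zero_le _) r)
    (by rintro _ ⟨u, rfl⟩; exact h.mem 0 (Nat.zero_le _) u))

/-- The late stage. -/
theorem Iv.late (ih : Cnt L k) (h : Iv A A' W q) (hk : Ht (Icc A A') (k + 2))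
    (hj : ∀ j ≤ W, ∀ u, (q j u ≠ A ↔ f j ≤ u) ∧ (q j u = A' ↔ g j ≤ u)) (h0 : 0 ≤ h1 + h2)
    (geo : ∀ i l : ℕ, i + l ≤ W → ∀ s,
      (Le s (q i) (q (i + l)) ↔ l * h1 ≤ s) ∧ (Le s (q (i + l)) (q i) ↔ l * h2 ≤ s)) :
    (Vl {j | j ≤ W ∧ g 0 - f 0 < j * (h1 + h2)} q).encard ≤ (k * (2 * Nv k) : ℕ) := by
  have anti : ∀ i j : ℕ, i ≤ j → j ≤ W → q j (g 0 - j * h1) ≤ q i (g 0 - i * h1) := by
    intro i j hij hW
    obtain ⟨l, rfl⟩ := Nat.exists_eq_add_of_le hij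
    refine (((geo i l hW _).1.2 le_rfl) _).trans_eq (congrArg _ ?_)
    push_cast
    ring
  have mem : ∀ j : ℕ, j ≤ W → g 0 - f 0 < j * (h1 + h2) → q j (g 0 - j * h1) ∈ Ioo A A' := by
    intro j hW hl
    have z := Nat.zero_le W
    have e := geo 0 j (by omega)
    rw [zero_add] at e
    have k1 := Vb_gap (h.mem 0 z) (h.mem j hW) (fun u => (hj j hW u).1) (fun u => (hj 0 z u).2)
      fun s => (e s).1
    have k2 := Vb_gap (h.mem j hW) (h.mem 0 z) (fun u => (hj 0 z u).1) (fun u => (hj j hW u).2)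
      fun s => (e s).2
    exact ⟨(h.mem j hW _).1.lt_of_ne' ((hj j hW _).1.2 (by linarith)),
      (h.mem j hW _).2.lt_of_ne fun r => by linarith [(hj j hW _).2.1 r]⟩
  refine encard_cover
    (I := (fun j : ℕ => q j (g 0 - j * h1)) '' {j | j ≤ W ∧ g 0 - f 0 < j * (h1 + h2)})
    (U := fun B => Vl {j | (j ≤ W ∧ g 0 - f 0 < j * (h1 + h2)) ∧ q j (g 0 - j * h1) = B} q)
    (Vb_ioo hk ?_ ?_) ?_ ?_
  · rintro _ ⟨i, hi, rfl⟩ _ ⟨j, hj', rfl⟩ -
    exact (le_total j i).imp (fun r => anti j i r hi.1) fun r => anti i j r hj'.1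
  · rintro _ ⟨i, hi, rfl⟩
    exact mem i hi.1 hi.2
  · rintro _ ⟨i, hi, rfl⟩
    refine h.split ih hk (fun j r => r.1.1) ⟨fun a ha b hb j r => ⟨⟨r.2.trans hb.1.1, ?_⟩, ?_⟩⟩
      (mem i hi.1 hi.2).1 (mem i hi.1 hi.2).2 fun j r => ⟨_, r.2⟩
    · exact ha.1.2.trans_le (mul_le_mul_of_nonneg_right (by exact_mod_cast r.1) h0)
    · exact le_antisymm ((anti a j r.1 (r.2.trans hb.1.1)).trans_eq ha.2)
        (hb.2.ge.trans (anti j b r.2 hb.1.1))
  · rintro z ⟨j, r, e⟩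
    exact ⟨_, ⟨j, r, rfl⟩, j, ⟨r, rfl⟩, e⟩

/-- The early stage. -/
theorem Iv.early (ih : Cnt L k) (h : Iv A A' W q) (hk : Ht (Icc A A') (k + 2)) (ne : A ≠ A')
    (hj : ∀ j ≤ W, ∀ u, (q j u ≠ A ↔ f j ≤ u) ∧ (q j u = A' ↔ g j ≤ u)) (h0 : 0 ≤ h1 + h2)
    (geo : ∀ i l : ℕ, i + l ≤ W → ∀ s,
      (Le s (q i) (q (i + l)) ↔ l * h1 ≤ s) ∧ (Le s (q (i + l)) (q i) ↔ l * h2 ≤ s))
    (hmin : ∀ j ≤ W, g 0 - f 0 ≤ g j - f j) :
    (Vl {j | j ≤ W ∧ j * (h1 + h2) ≤ g 0 - f 0} q).encard ≤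
      (k + 2 + (k + 2) * (2 * Nv k) : ℕ) := by
  have z := Nat.zero_le W
  have fg : f 0 ≤ g 0 := (hj 0 z _).1.1 fun r => ne (r.symm.trans ((hj 0 z _).2.2 le_rfl))
  have one : ∀ S : Set L, S ⊆ range (q 0) → S.encard ≤ (k + 2 + (k + 2) * (2 * Nv k) : ℕ) :=
    fun S e => (Vb_one h hk e).trans (by exact_mod_cast Nat.le_add_right _ _)
  rcases h0.eq_or_lt with h0 | h0'
  · refine one _ ?_
    rintro _ ⟨j, r, u, rfl⟩
    have e := geo 0 j (by have := r.1; omega)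
    rw [zero_add] at e
    refine ⟨u + j * h1, le_antisymm ((((e _).2.2 le_rfl) _).trans_eq (congrArg _ ?_))
      (((e _).1.2 le_rfl) _)⟩
    rw [add_assoc, ← mul_add, ← h0, mul_zero, add_zero]
  rcases fg.eq_or_lt with fg | fg
  · refine one _ ?_
    rintro _ ⟨j, r, u, rfl⟩
    have : j = 0 := by
      by_contra e
      have : (0 : ℝ) < j := by exact_mod_cast Nat.pos_of_ne_zero e
      linarith [r.2, mul_pos this h0']
    exact ⟨u, by rw [this]⟩
  obtain ⟨θ, t0, ht⟩ : ∃ θ : ℝ, 0 < θ ∧ (k + 1) * θ = g 0 - f 0 :=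
    ⟨(g 0 - f 0) / (k + 1), div_pos (sub_pos.2 fg) (by positivity), by field_simp⟩
  refine (encard_cover (I := Iio (k + 2)) (a := k + 2) (b := 2 * Nv k)
    (U := fun m => Vl {j | (j ≤ W ∧ j * (h1 + h2) ≤ g 0 - f 0) ∧ ⌊j * (h1 + h2) / θ⌋₊ = m} q)
    (by rw [← Finset.coe_Iio, encard_coe_eq_coe_finsetCard, Nat.card_Iio]) (fun m _ => ?_) ?_).trans
    (by exact_mod_cast Nat.le_add_left _ _)
  · by_cases ex : ∃ j : ℕ, (j ≤ W ∧ j * (h1 + h2) ≤ g 0 - f 0) ∧ ⌊j * (h1 + h2) / θ⌋₊ = m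
    swap
    · refine (encard_le_encard (t := ∅) ?_).trans (by simp)
      rintro _ ⟨j, r, -⟩
      exact ex ⟨j, r⟩
    classical
    obtain ⟨⟨iW, -⟩, im⟩ := Nat.find_spec ex
    have mn := fun j r => Nat.find_min' ex (m := j) r
    generalize Nat.find ex = i at iW im mn
    obtain ⟨s, s1, s2, s3⟩ := tile hk (h.mono i iW) (h.mem i iW) (fun u => (hj i iW u).1)
      (fun u => (hj i iW u).2) t0 (by linarith [hmin i iW])
    have mo : ∀ a b : ℕ, a ≤ b → (a : ℝ) * (h1 + h2) ≤ b * (h1 + h2) := fun a b r =>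
      mul_le_mul_of_nonneg_right (by exact_mod_cast r) h0
    have fl : ∀ a b : ℕ, a ≤ b → ⌊a * (h1 + h2) / θ⌋₊ ≤ ⌊b * (h1 + h2) / θ⌋₊ := fun a b r =>
      Nat.floor_mono (div_le_div_of_nonneg_right (mo a b r) t0.le)
    refine h.split ih hk (fun j r => r.1.1) ⟨fun a ha b hb j r =>
      ⟨⟨r.2.trans hb.1.1, (mo j b r.2).trans hb.1.2⟩,
        le_antisymm ((fl j b r.2).trans_eq hb.2) (ha.2.ge.trans (fl a j r.1))⟩⟩ s1 s2 fun j r => ?_
    obtain ⟨l, rfl⟩ := Nat.exists_eq_add_of_le (mn j r)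
    have k1 := Nat.floor_le (a := i * (h1 + h2) / θ) (by positivity)
    have k2 := Nat.lt_floor_add_one (((i + l : ℕ) : ℝ) * (h1 + h2) / θ)
    rw [im, le_div_iff₀ t0] at k1
    rw [r.2, div_lt_iff₀ t0] at k2
    push_cast at k2
    refine ⟨s + l * h2, le_antisymm ((((geo i l r.1.1 _).1.2 le_rfl) _).trans
      ((h.mono i iW (by linarith)).trans_eq s3)) (((geo i l r.1.1 _).2.2 le_rfl) _)⟩
  · rintro _ ⟨j, r, e⟩
    refine ⟨_, ?_, j, ⟨r, rfl⟩, e⟩
    refine Nat.lt_succ_of_le (Nat.floor_le_of_le ?_)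
    rw [div_le_iff₀ t0]
    push_cast
    linarith [r.2]

theorem Vb_half (ih : Cnt L k) (h : Iv A A' W q) (hk : Ht (Icc A A') (k + 2)) (ne : A ≠ A')
    (hj : ∀ j ≤ W, ∀ u, (q j u ≠ A ↔ f j ≤ u) ∧ (q j u = A' ↔ g j ≤ u))
    (hmin : ∀ j ≤ W, g 0 - f 0 ≤ g j - f j) :
    (Vl (Iic W) q).encard ≤ (k + 2 + 4 * (k + 2) * Nv k : ℕ) := by
  obtain ⟨h1, h2, h0, geo⟩ := (h.pth ne).geo
  have e : Vl (Iic W) q ⊆ Vl {j | j ≤ W ∧ g 0 - f 0 < j * (h1 + h2)} q ∪
      Vl {j | j ≤ W ∧ j * (h1 + h2) ≤ g 0 - f 0} q := by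
    rintro _ ⟨j, r, e⟩
    exact (lt_or_ge (g 0 - f 0) (j * (h1 + h2))).imp (fun t => ⟨j, ⟨r, t⟩, e⟩)
      fun t => ⟨j, ⟨r, t⟩, e⟩
  refine (encard_le_encard e).trans ((encard_union_le _ _).trans
    ((add_le_add (h.late ih hk hj h0 geo) (h.early ih hk ne hj h0 geo hmin)).trans ?_))
  rw [← Nat.cast_add, Nat.cast_le]
  nlinarith [Nat.zero_le (Nv k), Nat.zero_le (k * Nv k)]

theorem Vb_pos (n : ℕ) : 0 < Nv n := by
  cases n
  · exact Nat.one_pos
  · rw [Nv]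
    omega

/-- Induction on the height. -/
theorem cnt (L : Type) [Lattice L] (k : ℕ) : Cnt L k := by
  have triv : ∀ (A : L) (W : ℕ) (q : ℕ → ℝ → L) (n : ℕ), Iv A A W q →
      (Vl (Iic W) q).encard ≤ Nv n := fun A W q n h => by
    refine (encard_le_encard (t := {A}) ?_).trans (by
      rw [encard_singleton]
      exact_mod_cast Vb_pos n)
    rintro _ ⟨j, r, u, rfl⟩
    exact le_antisymm (h.mem j r u).2 (h.mem j r u).1
  induction k with
  | zero =>
    intro A A' W q h hk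
    have le : A ≤ A' := (h.mem 0 (Nat.zero_le _) 0).1.trans (h.mem 0 (Nat.zero_le _) 0).2
    have : A = A' := by
      by_contra ne
      have := hk {A, A'} (IsChain.singleton.insert fun y hy _ => Or.inl (le.trans_eq hy.symm))
        (insert_subset ⟨le_rfl, le⟩ (singleton_subset_iff.2 ⟨le, le_rfl⟩))
      rw [encard_pair ne] at this
      exact absurd (by exact_mod_cast this : 2 ≤ 0 + 1) (by omega)
    subst this
    exact triv _ _ _ _ h
  | succ k ih =>
    intro A A' W q h hk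
    by_cases ne : A = A'
    · subst ne
      exact triv _ _ _ _ h
    obtain ⟨f, g, hj⟩ := h.jumps ne
    obtain ⟨i, iW, mn⟩ := (finite_Iic W).toFinset.exists_min_image (fun j => g j - f j)
      ⟨0, by simp⟩
    simp only [Finite.mem_toFinset, mem_Iic] at iW mn
    have k1 := Vb_half (f := fun j => f (i + j)) (g := fun j => g (i + j)) ih
      (h.sub (i := i) (W' := W - i) (by omega)) hk ne (fun j _ => hj _ (by omega))
      fun j _ => mn _ (by omega)
    have k2 := Vb_half (f := fun j => f (0 + (i - j))) (g := fun j => g (0 + (i - j))) ih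
      (h.sub (i := 0) (W' := i) (by omega)).rev hk ne (fun j _ => hj _ (by omega))
      fun j _ => by simpa using mn (i - j) (by omega)
    have e : Vl (Iic W) q ⊆ (Vl (Iic (W - i)) fun j => q (i + j)) ∪
        Vl (Iic i) fun j => q (0 + (i - j)) := by
      rintro _ ⟨j, r, u, rfl⟩
      have r' : j ≤ W := r
      rcases le_total i j with t | t
      · exact Or.inl ⟨j - i, mem_Iic.2 (by omega), u,
          congrArg (q · u) (show i + (j - i) = j by omega)⟩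
      · exact Or.inr ⟨i - j, mem_Iic.2 (by omega), u,
          congrArg (q · u) (show 0 + (i - (i - j)) = j by omega)⟩
    refine (encard_le_encard e).trans ((encard_union_le _ _).trans ((add_le_add k1 k2).trans ?_))
    rw [← Nat.cast_add, Nat.cast_le, Nv]
    exact le_of_eq (by ring)

end

variable {L : Type} [ConditionallyCompleteLattice L] [Gar L] {W : ℕ} {p : ℕ → PX L}

/-- the values in one period -/
def VX (W : ℕ) (p : ℕ → PX L) : Set L := {z | ∃ j ≤ W, ∃ u ∈ Ico (0 : ℝ) 1, (p j).f u = z}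

/-- the bound for the number of values of a path of length `ρ` -/
def Cv (n ρ : ℕ) : ℕ := (2 * (n + 1) * ρ + 1) * (2 * Nv n)

theorem cv_pos (n ρ : ℕ) : 0 < Cv n ρ := by
  have := Vb_pos n
  unfold Cv
  positivity

/-- truncation to one period -/
theorem Str.per_count (h : Str W p) {A : L} {v : ℝ} (hA : ∀ j ≤ W, (p j).f v = A) :
    {z | ∃ j ≤ W, ∃ u ∈ Icc v (v + 1), (p j).f u = z}.encard ≤ Nv (nn L) := by
  have lt : A ≤ Gar.τ A := (Gar.gl.lt A).le
  have hB : ∀ j ≤ W, (p j).f (v + 1) ⊔ A = Gar.τ A := fun j r => by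
    rw [(p j).per, hA j r, sup_eq_left.2 lt]
  have mo : ∀ j, Monotone fun u => (p j).f u ⊔ A := fun j => (p j).mono.sup monotone_const
  have c1 : ∀ j ≤ W, Cmp A (p j).f := fun j r => hA j r ▸ cmp_val (p j).mono v
  have c2 : ∀ j ≤ W, Cmp (Gar.τ A) fun u => (p j).f u ⊔ A := fun j r =>
    hB j r ▸ cmp_val (mo j) (v + 1)
  have iv : Iv A (Gar.τ A) W fun j u => ((p j).f u ⊔ A) ⊓ Gar.τ A :=
    ⟨fun j _ => (mo j).inf monotone_const,
      fun j _ u => ((p j).rc u).imp fun e r => ⟨r.1, by simp only [r.2]⟩,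
      fun j _ u => ⟨le_inf le_sup_right lt, inf_le_right⟩,
      fun j r => ⟨v, by simp only [hA j r, sup_idem, inf_eq_left.2 lt]⟩,
      fun j r => ⟨v + 1, by simp only [hB j r, inf_idem]⟩,
      fun j r => ((h j r).sup (c1 j (by omega)) (c1 _ r)).inf (c2 j (by omega)) (c2 _ r)
        (c2 _ (by omega))⟩
  refine (encard_le_encard ?_).trans (cnt L (nn L) _ _ _ _ iv (Gar.gl.ht A))
  rintro _ ⟨j, r, u, hu, rfl⟩
  refine ⟨j, r, u, ?_⟩
  have k1 : A ≤ (p j).f u := (hA j r).ge.trans ((p j).mono hu.1)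
  have k2 : (p j).f u ≤ Gar.τ A := ((p j).mono hu.2).trans (le_sup_left.trans_eq (hB j r))
  simp only [sup_eq_left.2 k1, inf_eq_left.2 k2]

/-- the number of values of a path of bounded length -/
theorem Str.count (h : Str W p) {η : ℝ} (h0 : 0 ≤ η)
    (hs : ∀ i ≤ W, ∀ j ≤ W, dist (p i) (p j) ≤ |(i : ℝ) - j| * η) {ρ : ℕ} (hρ : W * η ≤ ρ) :
    (VX W p).encard ≤ Cv (nn L) ρ := by
  have n0 : (0 : ℝ) < 2 * (nn L + 1) := by positivity
  refine encard_cover (I := Iio (2 * (nn L + 1) * ρ + 1))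
    (U := fun m => {z | ∃ j, (j ≤ W ∧ ⌊j * η * (2 * (nn L + 1))⌋₊ = m) ∧
      ∃ u ∈ Ico (0 : ℝ) 1, (p j).f u = z})
    (by rw [← Finset.coe_Iio, encard_coe_eq_coe_finsetCard, Nat.card_Iio]) (fun m _ => ?_) ?_
  · by_cases ex : ∃ j : ℕ, j ≤ W ∧ ⌊j * η * (2 * (nn L + 1))⌋₊ = m
    swap
    · refine (encard_le_encard (t := ∅) ?_).trans (by simp)
      rintro _ ⟨j, r, -⟩
      exact ex ⟨j, r⟩
    classical
    obtain ⟨iW, im⟩ := Nat.find_spec ex
    have mn := fun j r => Nat.find_min' ex (m := j) r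
    generalize Nat.find ex = i at iW im mn
    obtain ⟨c, -, hc⟩ := exists_mg (Q := 1) Nat.one_pos (p i)
    have hv := gp_mem (Q := 1) c.γ (k := 0) le_rfl (by simp)
    obtain ⟨c1, c2⟩ := hc 0
    generalize gp 1 c.γ 0 = v at hv c1 c2
    rw [Nat.cast_one, mul_one] at c1 c2
    obtain ⟨W', w1, w2, w3⟩ : ∃ W' : ℕ, i + W' ≤ W ∧ W' * η ≤ 1 / (2 * (nn L + 1)) ∧
        ∀ l : ℕ, i + l ≤ W → l * η ≤ 1 / (2 * (nn L + 1)) → l ≤ W' := by
      have := Nat.findGreatest_spec (P := fun l : ℕ => i + l ≤ W ∧ l * η ≤ 1 / (2 * (nn L + 1)))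
        (Nat.zero_le W) ⟨iW, by rw [Nat.cast_zero, zero_mul]; positivity⟩
      exact ⟨_, this.1, this.2, fun l a b => Nat.le_findGreatest (by omega) ⟨a, b⟩⟩
    have val : ∀ l ≤ W', (p (i + l)).f v = c.c 0 := fun l r => by
      have d := hs i iW (i + l) (by omega)
      rw [Nat.cast_add, sub_add_cancel_left, abs_neg, Nat.abs_cast] at d
      obtain ⟨d1, d2⟩ := dist_le_iff.1
        (d.trans ((mul_le_mul_of_nonneg_right (by exact_mod_cast r) h0).trans w2))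
      refine le_antisymm ((d1 v).trans_eq c2) (c1.ge.trans ((d2 _).trans_eq ?_))
      rw [sh_f, sub_add_cancel]
    have k1 := (h.sub w1).per_count val
    have k2 := (h.sub w1).per_count (v := v + (-1 : ℤ)) (A := tz (-1) (c.c 0))
      fun l r => by rw [PX.per_int, val l r]
    refine (encard_le_encard ?_).trans ((encard_union_le _ _).trans
      ((add_le_add k1 k2).trans_eq (by rw [← Nat.cast_add, two_mul])))
    rintro _ ⟨j, r, u, hu, rfl⟩
    obtain ⟨l, rfl⟩ := Nat.exists_eq_add_of_le (mn j r)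
    have f1 := Nat.floor_le (a := i * η * (2 * (nn L + 1))) (by positivity)
    have f2 := Nat.lt_floor_add_one (((i + l : ℕ) : ℝ) * η * (2 * (nn L + 1)))
    rw [im] at f1
    rw [r.2] at f2
    push_cast at f2
    have lw := w3 l r.1 (by
      rw [le_div_iff₀ n0]
      linarith)
    rcases le_total v u with t | t
    · exact Or.inl ⟨l, lw, u, ⟨t, by linarith [hu.2, hv.1]⟩, rfl⟩
    · refine Or.inr ⟨l, lw, u, ⟨?_, ?_⟩, rfl⟩ <;> push_cast <;> linarith [hu.1, hv.2]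
  · rintro _ ⟨j, r, e⟩
    refine ⟨_, ?_, j, ⟨r, rfl⟩, e⟩
    refine Nat.lt_succ_of_le (Nat.floor_le_of_le ?_)
    have : (j : ℝ) * η ≤ ρ :=
      (mul_le_mul_of_nonneg_right (by exact_mod_cast r) h0).trans hρ
    push_cast
    rw [mul_comm _ (ρ : ℝ)]
    exact mul_le_mul_of_nonneg_right this n0.le

end Pool.Agent.Work.MP_9d1ffa_al.Ga
end

-- merged part: Pool.Agent.Work.MP_9d1ffa_al.Ga.Ty
section
/-! Combinatorial types of straight paths. -/

namespace Pool.Agent.Work.MP_9d1ffa_al.Ga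

open Set

/-- the changes of a map together with the new values -/
def Ty_ch {C Q : ℕ} (f : Fin Q → Fin C) : Set (Fin Q × Fin C) :=
  {p | ∃ h : p.1.val + 1 < Q, f ⟨p.1.val + 1, h⟩ ≠ f p.1 ∧ p.2 = f ⟨p.1.val + 1, h⟩}

theorem Ty_ch_inj {C Q : ℕ} (hQ : 0 < Q) {f g : Fin Q → Fin C} (h0 : f ⟨0, hQ⟩ = g ⟨0, hQ⟩)
    (h : Ty_ch f = Ty_ch g) : f = g := by
  have key : ∀ k (hk : k < Q), f ⟨k, hk⟩ = g ⟨k, hk⟩ := by
    intro k
    induction k with
    | zero => exact fun _ => h0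
    | succ k ih =>
      intro hk
      have hk' : k < Q := by omega
      by_cases a : f ⟨k + 1, hk⟩ = f ⟨k, hk'⟩
      · by_cases b : g ⟨k + 1, hk⟩ = g ⟨k, hk'⟩
        · rw [a, b, ih]
        · have m : (⟨k, hk'⟩, g ⟨k + 1, hk⟩) ∈ Ty_ch g := ⟨hk, b, rfl⟩
          rw [← h] at m
          exact (m.2.2).symm
      · have m : (⟨k, hk'⟩, f ⟨k + 1, hk⟩) ∈ Ty_ch f := ⟨hk, a, rfl⟩
        rw [h] at m
        exact m.2.2
  exact funext fun k => key k.1 k.2

/-- Maps with at most `n` changes are determined by the first value and the changes. -/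
theorem pat_count (C Q n : ℕ) :
    {f : Fin Q → Fin C | {k : ℕ | ∃ h : k + 1 < Q, f ⟨k + 1, h⟩ ≠ f ⟨k, by omega⟩}.encard ≤ n}.encard ≤
      (C * (Q * C + 1) ^ n + 1 : ℕ) := by
  rcases Nat.eq_zero_or_pos Q with rfl | hQ
  · refine (encard_le_one_iff.2 fun a b _ _ => Subsingleton.elim a b).trans ?_
    exact_mod_cast Nat.le_add_left 1 _
  have hM : (univ : Set (Fin Q × Fin C)).encard ≤ (Q * C : ℕ) := by
    simp [encard_univ]
  refine (encard_cover (I := (univ : Set (Fin C))) (a := C) (b := (Q * C + 1) ^ n)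
    (U := fun i => {f : Fin Q → Fin C | f ⟨0, hQ⟩ = i ∧ (Ty_ch f).encard ≤ n})
    (by simp [encard_univ]) (fun i _ => ?_) fun f hf => ⟨_, mem_univ _, rfl, ?_⟩).trans ?_
  · refine le_trans ?_ (small_sets hM n)
    refine encard_le_encard_of_injOn (f := Ty_ch) (fun f hf => ⟨subset_univ _, hf.2⟩) ?_
    exact fun f hf g hg e => Ty_ch_inj hQ (hf.1.trans hg.1.symm) e
  · refine le_trans (encard_le_encard_of_injOn (f := fun p => p.1.val) ?_ ?_) hf
    · exact fun p hp => ⟨hp.1, hp.2.1⟩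
    · rintro ⟨a, b⟩ ⟨h1, -, h2⟩ ⟨a', b'⟩ ⟨h3, -, h4⟩ e
      obtain rfl : a = a' := Fin.ext e
      exact Prod.ext rfl (h2.trans h4.symm)
  · exact_mod_cast Nat.le_succ _

variable {L : Type} [ConditionallyCompleteLattice L] [Gar L]

/-- the values at the `k` with a change and the value at `0` form a chain in one period -/
theorem changes (x : PX L) (Q : ℕ) :
    {k : ℕ | k + 1 < Q ∧ x.f ((k + 1 : ℕ) / Q) ≠ x.f (k / Q)}.encard ≤ nn L := by
  set K := {k : ℕ | k + 1 < Q ∧ x.f ((k + 1 : ℕ) / Q) ≠ x.f (k / Q)} with hK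
  have mo : ∀ {a b : ℕ}, a ≤ b → x.f (a / Q) ≤ x.f (b / Q) := fun h =>
    x.mono (div_le_div_of_nonneg_right (by exact_mod_cast h) (Nat.cast_nonneg _))
  have lt : ∀ k ∈ K, ∀ a ≤ k, x.f ((a : ℕ) / Q) < x.f ((k + 1 : ℕ) / Q) := fun k hk a ha =>
    (mo ha).trans_lt (lt_of_le_of_ne (mo (Nat.le_succ k)) hk.2.symm)
  have inj : InjOn (fun k : ℕ => x.f ((k + 1 : ℕ) / Q)) K := by
    intro a ha b hb e
    rcases lt_trichotomy a b with h | h | h
    · exact absurd e (lt b hb (a + 1) h).ne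
    · exact h
    · exact absurd e.symm (lt a ha (b + 1) h).ne
  have z : x.f (((0 : ℕ) : ℝ) / Q) = x.f 0 := by simp
  have nm : x.f 0 ∉ (fun k : ℕ => x.f ((k + 1 : ℕ) / Q)) '' K := by
    rintro ⟨k, hk, e⟩
    exact (lt k hk 0 (Nat.zero_le k)).ne (z.trans e.symm)
  have rg : ∀ y ∈ insert (x.f 0) ((fun k : ℕ => x.f ((k + 1 : ℕ) / Q)) '' K),
      ∃ u ∈ Icc (0 : ℝ) 1, x.f u = y := by
    rintro y (rfl | ⟨k, hk, rfl⟩)
    · exact ⟨0, ⟨le_rfl, zero_le_one⟩, rfl⟩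
    · exact ⟨_, ⟨by positivity, div_le_one_of_le₀ (by exact_mod_cast hk.1.le) (Nat.cast_nonneg _)⟩,
        rfl⟩
  have := ht_one (x.f 0) _ (fun a ha b hb _ => by
    obtain ⟨u, -, rfl⟩ := rg a ha
    obtain ⟨v, -, rfl⟩ := rg b hb
    exact (le_total u v).imp (fun h => x.mono h) fun h => x.mono h) (fun a ha => by
    obtain ⟨u, hu, rfl⟩ := rg a ha
    refine ⟨x.mono hu.1, ?_⟩
    rw [tz_one, ← x.per, zero_add]
    exact x.mono hu.2)
  rw [encard_insert_of_notMem nm, inj.encard_image] at this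
  push_cast at this
  exact (ENat.add_le_add_iff_right ENat.one_ne_top).1 this

/-- the translates of an enumeration -/
def ev {C : ℕ} (e : Fin C → L) (a : Fin C × Fin 3) : L := tz ((a.2 : ℤ) - 1) (e a.1)

/-- the type of an enumeration -/
def ty {C : ℕ} (e : Fin C → L) (A : Set ((Fin C × Fin 3) × Fin C × Fin 3)) (z : Fin C × Fin 3) :
    Prop := IsLUB ((fun a => ev e a.1 ⊓ ev e a.2) '' A) (ev e z)

/-- corresponding values -/
def Ty_R {C : ℕ} (e e' : Fin C → L) (k : ℤ) (x y : L) : Prop :=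
  ∃ a, x = tz k (ev e a) ∧ y = tz k (ev e' a)

theorem Ty_R.symm {C : ℕ} {e e' : Fin C → L} {k : ℤ} {x y : L} (h : Ty_R e e' k x y) :
    Ty_R e' e k y x := h.imp fun _ h => h.symm

theorem Ty_lub {C : ℕ} {e e' : Fin C → L} (he : ty e = ty e') {k : ℤ} {J : Type} {S : Set J}
    {a1 a2 b1 b2 : J → L} {c d : L} (h1 : ∀ s ∈ S, Ty_R e e' k (a1 s) (b1 s))
    (h2 : ∀ s ∈ S, Ty_R e e' k (a2 s) (b2 s)) (h3 : Ty_R e e' k c d)
    (h : IsLUB ((fun s => a1 s ⊓ a2 s) '' S) c) : IsLUB ((fun s => b1 s ⊓ b2 s) '' S) d := by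
  obtain ⟨z, rfl, rfl⟩ := h3
  have : Nonempty (Fin C × Fin 3) := ⟨z⟩
  choose! α hα hα' using h1
  choose! β hβ hβ' using h2
  have key : ∀ {e : Fin C → L} {a1 a2 : J → L}, (∀ s ∈ S, a1 s = tz k (ev e (α s))) →
      (∀ s ∈ S, a2 s = tz k (ev e (β s))) → (IsLUB ((fun s => a1 s ⊓ a2 s) '' S) (tz k (ev e z)) ↔
        ty e ((fun s => (α s, β s)) '' S) z) := by
    intro e a1 a2 k1 k2
    have q : (fun s => a1 s ⊓ a2 s) '' S = (tz k : L ≃o L) ''
        ((fun a => ev e a.1 ⊓ ev e a.2) '' ((fun s => (α s, β s)) '' S)) := by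
      rw [image_image, image_image]
      exact image_congr fun s hs => by rw [k1 s hs, k2 s hs, OrderIso.map_inf]
    rw [q, OrderIso.isLUB_image', ty]
  rw [key hα' hβ', ← he, ← key hα hβ]
  exact h

theorem Ty_le {C : ℕ} {e e' : Fin C → L} (he : ty e = ty e') {k : ℤ} {x x' y y' : L}
    (h1 : Ty_R e e' k x y) (h2 : Ty_R e e' k x' y') (h : x ≤ x') : y ≤ y' := by
  have r : ∀ b ∈ (univ : Set Bool), Ty_R e e' k (cond b x x') (cond b y y') := by
    rintro (_ | _) -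
    exacts [h2, h1]
  have := Ty_lub he r r h2 ⟨by
    rintro _ ⟨_ | _, -, rfl⟩
    exacts [inf_le_left, inf_le_left.trans h], fun w hw => by
    simpa using hw ⟨false, mem_univ _, rfl⟩⟩
  simpa using this.1 ⟨true, mem_univ _, rfl⟩

theorem Ty_rep {C : ℕ} (e e' : Fin C → L) (i : Fin C) {k m : ℤ} (h1 : k - 1 ≤ m) (h2 : m ≤ k + 1) :
    Ty_R e e' k (tz m (e i)) (tz m (e' i)) := by
  have q : m = k + (((⟨(m - k + 1).toNat, by omega⟩ : Fin 3) : ℤ) - 1) := by
    simp only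
    omega
  refine ⟨(i, ⟨(m - k + 1).toNat, by omega⟩), ?_, ?_⟩ <;> rw [ev, ← tz_add, ← q]

/-- `P'' j u = tz ⌊u⌋ (e' (ι j (Int.fract u)))`; order and midpoints are read off the type. -/
theorem transport {C W : ℕ} {e e' : Fin C → L} (he : ty e = ty e') {P : ℕ → PX L} (hP : Str W P)
    (hs : ∀ j, j + 2 ≤ W → dist (P j) (P (j + 2)) ≤ 1 / 2) (ι : ℕ → ℝ → Fin C)
    (hι : ∀ j ≤ W, ∀ u ∈ Ico (0 : ℝ) 1, e (ι j u) = (P j).f u) :
    ∃ P'' : ℕ → PX L, Str W P'' ∧ (∀ j ≤ W, ∀ u ∈ Ico (0 : ℝ) 1, (P'' j).f u = e' (ι j u)) ∧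
      ∀ j ≤ W, ∀ j' ≤ W, ∀ u u', |u - u'| ≤ 1 →
        ((P j).f u ≤ (P j').f u' ↔ (P'' j).f u ≤ (P'' j').f u') := by
  obtain ⟨F, hF⟩ : ∃ F : ℕ → ℝ → L, ∀ j u, F j u = tz ⌊u⌋ (e' (ι j (Int.fract u))) :=
    ⟨_, fun _ _ => rfl⟩
  have rep : ∀ j ≤ W, ∀ u v : ℝ, |u - v| ≤ 1 → Ty_R e e' ⌊u⌋ ((P j).f v) (F j v) := by
    intro j hj u v h
    obtain ⟨h1, h2⟩ := abs_le.1 h
    rw [(P j).floor, ← hι j hj _ ⟨Int.fract_nonneg v, Int.fract_lt_one v⟩, hF]
    refine Ty_rep e e' _ ?_ ?_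
    · rw [← Int.floor_sub_one]
      exact Int.floor_mono (by linarith)
    · rw [← Int.floor_add_one]
      exact Int.floor_mono (by linarith)
  have ord : ∀ j ≤ W, ∀ j' ≤ W, ∀ u u', |u - u'| ≤ 1 →
      ((P j).f u ≤ (P j').f u' ↔ F j u ≤ F j' u') := fun j hj j' hj' u u' h =>
    ⟨Ty_le he (rep j hj u u (by simp)) (rep j' hj' u u' h),
      Ty_le he.symm (rep j hj u u (by simp)).symm (rep j' hj' u u' h).symm⟩
  have per : ∀ j u (m : ℤ), F j (u + m) = tz m (F j u) := fun j u m => by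
    rw [hF, hF, Int.floor_add_intCast, Int.fract_add_intCast, add_comm, tz_add]
  have mono : ∀ j ≤ W, Monotone (F j) := by
    intro j hj u v h
    have h0 : 0 ≤ ⌊v - u⌋ := Int.floor_nonneg.2 (by linarith)
    have h1 := Int.floor_le (v - u)
    have h2 := Int.lt_floor_add_one (v - u)
    calc F j u ≤ F j (v - ⌊v - u⌋) :=
          (ord j hj j hj _ _ (abs_le.2 ⟨by linarith, by linarith⟩)).1 ((P j).mono (by linarith))
      _ = tz 0 (F j (v - ⌊v - u⌋)) := (tz_zero _).symm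
      _ ≤ tz ⌊v - u⌋ (F j (v - ⌊v - u⌋)) := tz_mono h0 _
      _ = F j v := by rw [← per, sub_add_cancel]
  have rc : ∀ j ≤ W, RC (F j) := by
    intro j hj u
    obtain ⟨d, d0, hd⟩ := (P j).rc u
    have m0 : 0 < min d 1 := lt_min d0 one_pos
    have m1 := min_le_right d 1
    refine ⟨min d 1, m0, le_antisymm ?_ (mono j hj (by linarith))⟩
    refine (ord j hj j hj _ _ (abs_le.2 ⟨by linarith, by linarith⟩)).1 ?_
    exact ((P j).mono (by linarith [min_le_left d 1])).trans_eq hd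
  have ex : ∀ j, ∃ x : PX L, j ≤ W → x.f = F j := by
    intro j
    by_cases hj : j ≤ W
    · exact ⟨⟨F j, mono j hj, fun u => by rw [← tz_one, ← per, Int.cast_one], rc j hj⟩, fun _ => rfl⟩
    · exact ⟨P j, fun h => absurd h hj⟩
  choose P'' hP'' using ex
  refine ⟨P'', fun j hj => ?_, fun j hj u hu => ?_, fun j hj j' hj' u u' h => ?_⟩
  · have j0 : j ≤ W := by omega
    have j1 : j + 1 ≤ W := by omega
    obtain ⟨d1, d2⟩ := dist_le_iff.1 (hs j hj)
    have q : (2 : ℝ) * (1 / 4) = 1 / 2 := by norm_num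
    have hm := (isMid_res (P j).mono (P (j + 2)).mono (η := 1 / 4) (by norm_num)
      (q ▸ le_sh.1 d1) (q ▸ le_sh.1 d2)).1 (hP j hj)
    have ab : ∀ u : ℝ, |u - (u + 2 * (1 / 4))| ≤ 1 := fun u => abs_le.2 ⟨by linarith, by linarith⟩
    rw [hP'' j j0, hP'' _ j1, hP'' _ hj]
    refine (isMid_res (mono j j0) (mono _ hj) (η := 1 / 4) (by norm_num)
      (fun u => (ord _ hj _ j0 _ _ (ab u)).1 (q ▸ d1 u))
      (fun u => (ord _ j0 _ hj _ _ (ab u)).1 (q ▸ d2 u))).2 fun u => ?_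
    exact Ty_lub he
      (fun s hs => rep j j0 u (u + s) (abs_le.2 ⟨by linarith [hs.2], by linarith [hs.1]⟩))
      (fun s hs => rep _ hj u (u - s) (abs_le.2 ⟨by linarith [hs.1], by linarith [hs.2]⟩))
      (rep _ j1 u u (by simp)) (hm u)
  · rw [hP'' j hj, hF, Int.floor_eq_zero_iff.2 hu, Int.fract_eq_self.2 hu, tz_zero]
  · rw [hP'' j hj, hP'' j' hj']
    exact ord j hj j' hj' u u' h

/-- the number of codes -/
def Uc (n C Q : ℕ) : ℕ := 2 ^ (2 ^ (3 * C) ^ 2 * (3 * C)) * (C * (Q * C + 1) ^ n + 1) ^ 2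

theorem Ty_card (C : ℕ) :
    (univ : Set (Set ((Fin C × Fin 3) × Fin C × Fin 3) → Fin C × Fin 3 → Prop)).encard =
      (2 ^ (2 ^ (3 * C) ^ 2 * (3 * C)) : ℕ) := by
  classical
  rw [encard_univ, ENat.card_eq_coe_fintype_card, Fintype.card_fun, Fintype.card_fun,
    Fintype.card_set, Fintype.card_prop, ← pow_mul]
  simp only [Fintype.card_prod, Fintype.card_fin]
  rw [mul_comm C 3, ← sq, mul_comm]

/-- The code of `P` consists of the type of an enumeration of `VX W P` and of the patterns of the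
two ends. -/
theorem types {C Q : ℕ} (hC : 0 < C) (hQ : 0 < Q) (W : ℕ) : ∃ cd : (ℕ → PX L) → ℕ,
    (∀ P, cd P < Uc (nn L) C Q) ∧ ∀ P P' : ℕ → PX L, Str W P → Str W P' →
      (∀ j, j + 2 ≤ W → dist (P j) (P (j + 2)) ≤ 1 / 2) → (VX W P).encard ≤ C →
      (VX W P').encard ≤ C → cd P = cd P' → ∃ P'' : ℕ → PX L,
        (∀ j ≤ W, dist (P'' j) (P' j) ≤ 1 / Q) ∧ ∀ j ≤ W, ∀ j' ≤ W, ∀ u u', |u - u'| ≤ 1 →
          ((P j).f u = (P j').f u' ↔ (P'' j).f u = (P'' j').f u') := by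
  have en : ∀ P : ℕ → PX L, ∃ (i : L → Fin C) (e : Fin C → L),
      (VX W P).encard ≤ C → ∀ a ∈ VX W P, e (i a) = a := by
    intro P
    have : Nonempty L := ⟨(P 0).f 0⟩
    by_cases h : (VX W P).encard ≤ C
    · obtain ⟨f, f1, f2⟩ := exists_code h hC
      have inj : InjOn (fun a => (⟨f a, f1 a⟩ : Fin C)) (VX W P) :=
        fun a ha b hb e => f2 ha hb (congrArg Fin.val e)
      exact ⟨_, _, fun _ => inj.leftInvOn_invFunOn⟩
    · exact ⟨fun _ => ⟨0, hC⟩, fun _ => (P 0).f 0, fun k => absurd k h⟩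
  choose ix e he using en
  set S := {f : Fin Q → Fin C |
    {k : ℕ | ∃ h : k + 1 < Q, f ⟨k + 1, h⟩ ≠ f ⟨k, by omega⟩}.encard ≤ nn L} with hS
  have hD : ((univ : Set (Set ((Fin C × Fin 3) × Fin C × Fin 3) → Fin C × Fin 3 → Prop)) ×ˢ
      S ×ˢ S).encard ≤ Uc (nn L) C Q := by
    rw [encard_prod, encard_prod, Ty_card, Uc, Nat.cast_mul, sq (C * _ + 1), Nat.cast_mul]
    exact mul_le_mul' le_rfl (mul_le_mul' (pat_count C Q _) (pat_count C Q _))
  obtain ⟨c, c1, c2⟩ := exists_code hD (by unfold Uc; positivity)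
  have pS : ∀ P j, (fun k : Fin Q => ix P ((P j).f ((k : ℕ) / Q))) ∈ S := by
    intro P j
    refine le_trans (encard_le_encard ?_) (changes (P j) Q)
    rintro k ⟨h, hk⟩
    exact ⟨h, fun q => hk (congrArg (ix P) q)⟩
  refine ⟨fun P => c (ty (e P), fun k => ix P ((P 0).f ((k : ℕ) / Q)),
    fun k => ix P ((P W).f ((k : ℕ) / Q))), fun P => c1 _, ?_⟩
  intro P P' hP hP' hs hV hV' hc
  have q := c2 ⟨mem_univ _, pS P 0, pS P W⟩ ⟨mem_univ _, pS P' 0, pS P' W⟩ hc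
  simp only [Prod.mk.injEq] at q
  obtain ⟨q1, q2, q3⟩ := q
  obtain ⟨P'', s1, s2, s3⟩ := transport q1 hP hs (fun j u => ix P ((P j).f u))
    fun j hj u hu => he P hV _ ⟨j, hj, u, hu, rfl⟩
  have gr : ∀ j ≤ W, ((fun k : Fin Q => ix P ((P j).f ((k : ℕ) / Q))) =
      fun k : Fin Q => ix P' ((P' j).f ((k : ℕ) / Q))) → dist (P'' j) (P' j) ≤ 1 / Q := by
    intro j hj h
    refine dist_of_grid hQ fun k hk => ?_
    have hu : (k : ℝ) / Q ∈ Ico (0 : ℝ) 1 :=
      ⟨by positivity, (div_lt_one (by exact_mod_cast hQ)).2 (by exact_mod_cast hk)⟩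
    rw [s2 j hj _ hu]
    exact (congrArg (e P') (congrFun h ⟨k, hk⟩)).trans (he P' hV' _ ⟨j, hj, _, hu, rfl⟩)
  refine ⟨P'', fun j hj => s1.dist_le' hP' (gr 0 (Nat.zero_le W) q2) (gr W le_rfl q3) hj,
    fun j hj j' hj' u u' h => ?_⟩
  rw [le_antisymm_iff, le_antisymm_iff, s3 j hj j' hj' u u' h,
    s3 j' hj' j hj u' u (by rwa [abs_sub_comm])]

end Pool.Agent.Work.MP_9d1ffa_al.Ga
end
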